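import Mathlib
import Pool.Agent.H75.TwoArm.Strand

set_option autoImplicit false
open Finset

/-! Four arms from an edge: definitions of the deterministic layer.

`B` is the finite set of labels which may be explored, `e ∈ B` an edge. The two corners `z` with
`lab z = e` are `zu e` (at the left or lower end `eu e` of `e`) and `zv e` (at the right or upper end
`ev e`). With `e` closed the two loops through `zu e` and `zv e` run around the clusters of the two ends
(forward: with the cluster on the left). With `e` open they run around the two dual clusters.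
The four strands are: `Fu` (forward from `zu e`, `e` closed), `Bu` (backward from `zu e`), `Fv`, `Bv`. -/

namespace Pool.Agent.H75.Four

open Pool.Agent.H75.Perc
open Pool.Agent.H75.TwoArm

/-- left or lower end of the edge `e` -/
def eu (e : ℤ × ℤ) : ℤ × ℤ := (e.1 / 2, e.2 / 2)
/-- right or upper end of the edge `e` -/
def ev (e : ℤ × ℤ) : ℤ × ℤ := ((e.1 + 1) / 2, (e.2 + 1) / 2)

/-- the corner with `lab = e` at `eu e` -/
def zu (e : ℤ × ℤ) : ℤ × ℤ := if e.1 % 2 = 0 then (e.1 + 1, e.2) else e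
/-- the corner with `lab = e` at `ev e` -/
def zv (e : ℤ × ℤ) : ℤ × ℤ := if e.1 % 2 = 0 then (e.1, e.2 + 1) else (e.1 + 1, e.2 + 1)

/-- the other corner with the same label `lab` -/
def opc (c : ℤ × ℤ) : ℤ × ℤ :=
  if c.2 % 2 = 0 then (if c.1 % 2 = 0 then (c.1 + 1, c.2 - 1) else (c.1 + 1, c.2 + 1))
  else (if c.1 % 2 = 0 then (c.1 - 1, c.2 - 1) else (c.1 - 1, c.2 + 1))

/-- the corner `z` touches the label `a` -/
def Tch (a z : ℤ × ℤ) : Prop := lab z = a ∨ plab z = a

/-- `X` has an even number of members among the four corners which touch the label `a` -/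
def Ev (X : ℤ × ℤ → Prop) (a : ℤ × ℤ) : Prop :=
  (X a ↔ X (a.1 + 1, a.2 + 1)) ↔ (X (a.1 + 1, a.2) ↔ X (a.1, a.2 + 1))

/-- `R` is a closing of the strands which end at `x1` (forward) and `x2` (backward): a set of corners
outside `B` which has odd parity exactly at the two labels `lab x1`, `plab x2` (nowhere if these two
labels coincide). -/
structure Clo (B : Finset (ℤ × ℤ)) (x1 x2 : ℤ × ℤ) (R : ℤ × ℤ → Prop) : Prop where
  out : ∀ z, R z → lab z ∉ B ∧ plab z ∉ B
  par : ∀ a : ℤ × ℤ, (a.1 + a.2) % 2 = 1 → (Ev R a ↔ (a = lab x1 ↔ a = plab x2))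
  fin : ∀ p : ℤ × ℤ, {k : ℕ | R (p.1 + k, p.2 + k)}.Finite

/-- Two-colouring of vertices and faces which changes exactly across the corners of the strands from
`c` and of the closing `R`; `S = true` at the vertices, `S = false` at the faces of the strands. -/
structure TCR (B ω : Finset (ℤ × ℤ)) (c : ℤ × ℤ) (R : ℤ × ℤ → Prop) (S : ℤ × ℤ → Bool) : Prop where
  str : ∀ z, Str B ω c z → S (dbl (vx z)) = true ∧ S (fce z) = false
  ray : ∀ z, R z → S (dbl (vx z)) ≠ S (fce z)
  col : ∀ z, ¬ Str B ω c z → ¬ R z → S (dbl (vx z)) = S (fce z)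

/-- Four arms from the edge `e` in `B`: the four strands leave `B` before returning to `e`. -/
def A4 (B : Finset (ℤ × ℤ)) (e : ℤ × ℤ) (ω : Finset (ℤ × ℤ)) : Prop :=
  Leave B (ω.erase e) (zu e) ∧ Leave B (ω.erase e) (zv e) ∧ ¬ Str B (ω.erase e) (zu e) (zv e)

/-- The edges explored by the four strands. -/
noncomputable def U4 (B : Finset (ℤ × ℤ)) (e : ℤ × ℤ) (ω : Finset (ℤ × ℤ)) : Finset (ℤ × ℤ) :=
  UU B (ω.erase e) (zu e) ∪ UU B (ω.erase e) (zv e)

/-- The ray of corners which starts at the exit `x` from the box `[-r,r]²`, perpendicular to the side. -/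
def ray (r : ℤ) (x z : ℤ × ℤ) : Prop :=
  (x.1 = 2 * r + 1 ∧ z.2 = x.2 ∧ 2 * r + 2 ≤ z.1) ∨ (x.2 = 2 * r + 1 ∧ z.1 = x.1 ∧ 2 * r + 2 ≤ z.2) ∨
  (x.1 = -(2 * r) ∧ z.2 = x.2 ∧ z.1 ≤ -(2 * r) - 1) ∨ (x.2 = -(2 * r) ∧ z.1 = x.1 ∧ z.2 ≤ -(2 * r) - 1)

/-- The two rays. -/
def rays (r : ℤ) (x1 x2 z : ℤ × ℤ) : Prop := ray r x1 z ∨ ray r x2 z

/-- The position of an exit from the box `[-r,r]²`, counterclockwise from the lower right vertex,
`0 ≤ clk r x < 16 r`. -/
def clk (r : ℤ) (x : ℤ × ℤ) : ℤ :=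
  if x.1 = 2 * r + 1 then x.2 + 2 * r - 1 else if x.2 = 2 * r + 1 then 6 * r - x.1
  else if x.1 = -(2 * r) then 10 * r - x.2 else x.1 + 14 * r - 1

/-- closing by the column of corners just outside the right side of the box, from the exit
`(2r+1,b1)` up to the exit `(2r+1,b2)` -/
def arcR (r b1 b2 : ℤ) (z : ℤ × ℤ) : Prop := z.1 = 2 * r + 2 ∧ b1 + 1 ≤ z.2 ∧ z.2 ≤ b2 - 1

/-- rotation of vertices by a right angle -/
def rv (v : ℤ × ℤ) : ℤ × ℤ := (-v.2, v.1)
/-- rotation of face indices by a right angle -/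
def rf (f : ℤ × ℤ) : ℤ × ℤ := (1 - f.2, f.1)
/-- rotation of the labels of dual edges (sums of two face indices) -/
def rotD : (ℤ × ℤ) ↪ (ℤ × ℤ) where
  toFun a := (2 - a.2, a.1)
  inj' := by
    intro a b h
    have h1 := congrArg Prod.fst h
    have h2 := congrArg Prod.snd h
    simp only at h1 h2
    exact Prod.ext (by omega) (by omega)

/-- The four-arm event at the edge `e` in the box `[-N,N]²`: with `e` closed, both ends of `e` are
joined to the boundary inside the box, and they are not joined to each other inside the box. -/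
def F4 (N : ℤ) (e : ℤ × ℤ) (ω : Finset (ℤ × ℤ)) : Prop :=
  (∃ p : ℤ × ℤ, (|p.1| = N ∨ |p.2| = N) ∧ Co ((ω ∩ BB N).erase e) (eu e) p) ∧
  (∃ p : ℤ × ℤ, (|p.1| = N ∨ |p.2| = N) ∧ Co ((ω ∩ BB N).erase e) (ev e) p) ∧
  ¬ Co ((ω ∩ BB N).erase e) (eu e) (ev e)

/-- `x` is one of the four exits. -/
def Ex4 (r : ℤ) (e : ℤ × ℤ) (ω : Finset (ℤ × ℤ)) (x : ℤ × ℤ) : Prop :=
  FX (BB r) (ω.erase e) (zu e) x ∨ BX (BB r) (ω.erase e) (zu e) x ∨
  FX (BB r) (ω.erase e) (zv e) x ∨ BX (BB r) (ω.erase e) (zv e) x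

end Pool.Agent.H75.Four
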