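import Mathlib
import Pool.Agent.H75.Four.Defs

set_option autoImplicit false
open Finset

/-! FB5 (helper50): face colouring of an even set of edges; a closed dual circuit through two edges
separates their ends; pivotality from four arms between two edges. -/

namespace Pool.Agent.H75.Four

open Pool.Agent.H75.Perc
open Pool.Agent.H75.TwoArm

variable {B ω ω'' U F D E : Finset (ℤ × ℤ)} {c x x1 x2 x3 x4 z e e' p q : ℤ × ℤ}
  {R : ℤ × ℤ → Prop} {S : ℤ × ℤ → Bool} {k M : ℤ}

namespace PivAux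

lemma zmod2_add_self (a : ZMod 2) : a + a = 0 := by revert a; decide

end PivAux

open PivAux

/-- face colouring of an even finite set of edges -/
theorem even_faces (n : ℤ × ℤ → ZMod 2) (hf : {a : ℤ × ℤ | n a ≠ 0}.Finite)
    (hn : ∀ v : ℤ × ℤ, n (2 * v.1 + 1, 2 * v.2) + n (2 * v.1 - 1, 2 * v.2) +
      n (2 * v.1, 2 * v.2 + 1) + n (2 * v.1, 2 * v.2 - 1) = 0) :
    ∃ S : ℤ × ℤ → ZMod 2, ∀ f g : ℤ × ℤ, IsUnit4 (g - f) → S f + S g = n (f + g - (1, 1)) := by
  obtain ⟨N, hN⟩ : ∃ N : ℤ, ∀ a : ℤ × ℤ, 2 * N - 1 ≤ a.1 → n a = 0 := by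
    obtain ⟨b, hb⟩ := (hf.image Prod.fst).bddAbove
    refine ⟨|b| + 2, fun a ha => ?_⟩
    by_contra hne
    have h1 := hb (Set.mem_image_of_mem Prod.fst (show a ∈ {a : ℤ × ℤ | n a ≠ 0} from hne))
    have h2 := le_abs_self b
    have h3 := abs_nonneg b
    omega
  let S : ℤ × ℤ → ZMod 2 := fun f => ∑ m ∈ range (N - f.1).toNat, n (2 * f.1 + 2 * m, 2 * f.2 - 1)
  have hS : ∀ i j : ℤ, S (i, j) = ∑ m ∈ range (N - i).toNat, n (2 * i + 2 * m, 2 * j - 1) :=
    fun i j => rfl
  have hor : ∀ i j : ℤ, S (i, j) = S (i + 1, j) + n (2 * i, 2 * j - 1) := by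
    intro i j
    rw [hS, hS]
    rcases lt_or_ge i N with h | h
    · have h1 : (N - i).toNat = (N - (i + 1)).toNat + 1 := by omega
      rw [h1, sum_range_succ']
      congr 1
      · refine sum_congr rfl fun m _ => ?_
        congr 2
        push_cast
        ring
      · simp
    · have h1 : (N - i).toNat = 0 := by omega
      have h2 : (N - (i + 1)).toNat = 0 := by omega
      rw [h1, h2, hN _ (by simp only; omega)]
      simp
  have ver : ∀ i j : ℤ, S (i, j) + S (i, j + 1) = n (2 * i - 1, 2 * j) := by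
    intro i j
    rw [hS, hS, ← sum_add_distrib]
    have key : ∀ K : ℕ, ∑ m ∈ range K, (n (2 * i + 2 * (m : ℤ), 2 * j - 1) +
        n (2 * i + 2 * (m : ℤ), 2 * (j + 1) - 1)) =
        n (2 * i - 1, 2 * j) + n (2 * (i + K) - 1, 2 * j) := by
      intro K
      induction K with
      | zero => simp [zmod2_add_self]
      | succ K ih =>
        rw [sum_range_succ, ih]
        have h1 := hn (i + K, j)
        simp only at h1
        have e1 : (2 * (i + K) : ℤ) = 2 * i + 2 * K := by ring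
        have e2 : (2 * (j + 1) - 1 : ℤ) = 2 * j + 1 := by ring
        have e3 : (2 * (i + ((K + 1 : ℕ) : ℤ)) - 1 : ℤ) = 2 * i + 2 * K + 1 := by push_cast; ring
        rw [e1] at h1 ⊢
        rw [e2, e3]
        generalize n (2 * i + 2 * (K : ℤ) + 1, 2 * j) = a1 at h1 ⊢
        generalize n (2 * i + 2 * (K : ℤ) - 1, 2 * j) = a2 at h1 ⊢
        generalize n (2 * i + 2 * (K : ℤ), 2 * j + 1) = a3 at h1 ⊢
        generalize n (2 * i + 2 * (K : ℤ), 2 * j - 1) = a4 at h1 ⊢
        generalize n (2 * i - 1, 2 * j) = a5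
        revert a1 a2 a3 a4 a5
        decide
    rw [key, hN (2 * (i + ((N - i).toNat : ℤ)) - 1, 2 * j) (by simp only; omega), add_zero]
  refine ⟨S, ?_⟩
  rintro ⟨i, j⟩ ⟨i', j'⟩ h
  have hu := unit_cases h
  simp only at hu
  rcases hu with ⟨rfl, rfl⟩ | ⟨rfl, rfl⟩ | ⟨rfl, rfl⟩ | ⟨rfl, rfl⟩
  · rw [hor i j']
    have e1 : ((i, j') : ℤ × ℤ) + (i + 1, j') - (1, 1) = (2 * i, 2 * j' - 1) := by
      refine Prod.ext ?_ ?_ <;> simp <;> ring
    rw [e1]
    generalize S (i + 1, j') = a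
    generalize n (2 * i, 2 * j' - 1) = b
    revert a b; decide
  · rw [ver i' j]
    have e1 : ((i', j) : ℤ × ℤ) + (i', j + 1) - (1, 1) = (2 * i' - 1, 2 * j) := by
      refine Prod.ext ?_ ?_ <;> simp <;> ring
    rw [e1]
  · have h1 := hor (i - 1) j'
    rw [sub_add_cancel] at h1
    rw [h1]
    have e1 : ((i, j') : ℤ × ℤ) + (i - 1, j') - (1, 1) = (2 * (i - 1), 2 * j' - 1) := by
      refine Prod.ext ?_ ?_ <;> simp <;> ring
    rw [e1]
    generalize S (i, j') = a
    generalize n (2 * (i - 1), 2 * j' - 1) = b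
    revert a b; decide
  · have h1 := ver i' (j - 1)
    rw [sub_add_cancel] at h1
    have e1 : ((i', j) : ℤ × ℤ) + (i', j - 1) - (1, 1) = (2 * i' - 1, 2 * (j - 1)) := by
      refine Prod.ext ?_ ?_ <;> simp <;> ring
    rw [e1, ← h1, add_comm]

namespace PivAux

/-- the degree of the vertex `v` in `n` -/
def dg (n : ℤ × ℤ → ZMod 2) (v : ℤ × ℤ) : ZMod 2 :=
  n (2 * v.1 + 1, 2 * v.2) + n (2 * v.1 - 1, 2 * v.2) +
      n (2 * v.1, 2 * v.2 + 1) + n (2 * v.1, 2 * v.2 - 1)

/-- indicator -/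
def id1 (a v : ℤ × ℤ) : ZMod 2 := if v = a then 1 else 0

lemma dg_add (n m : ℤ × ℤ → ZMod 2) (v : ℤ × ℤ) :
    dg (fun a => n a + m a) v = dg n v + dg m v := by
  unfold dg
  ring

lemma dg_edge {u v : ℤ × ℤ} (h : IsUnit4 (v - u)) (w : ℤ × ℤ) :
    dg (id1 (u + v)) w = id1 u w + id1 v w := by
  obtain ⟨u1, u2⟩ := u
  obtain ⟨v1, v2⟩ := v
  obtain ⟨w1, w2⟩ := w
  have hu := unit_cases h
  simp only at hu
  unfold dg id1
  simp only [Prod.mk_add_mk, Prod.mk.injEq]
  rcases hu with ⟨rfl, rfl⟩ | ⟨rfl, rfl⟩ | ⟨rfl, rfl⟩ | ⟨rfl, rfl⟩ <;>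
  split_ifs <;> first
    | rfl
    | (exfalso; omega)
    | decide

/-- edges used by a connection, mod 2 -/
lemma co_cycle {ω : Finset (ℤ × ℤ)} {u v : ℤ × ℤ} (h : Co ω u v) :
    ∃ n : ℤ × ℤ → ZMod 2, (∀ a, n a ≠ 0 → a ∈ ω) ∧ ∀ w, dg n w = id1 u w + id1 v w := by
  induction h with
  | refl => exact ⟨fun _ => 0, fun a ha => absurd rfl ha, fun w => by simp [dg, zmod2_add_self]⟩
  | @tail b c _ hbc ih =>
    obtain ⟨n, hn1, hn2⟩ := ih
    refine ⟨fun a => n a + id1 (b + c) a, fun a ha => ?_, fun w => ?_⟩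
    · by_cases h1 : n a = 0
      · simp only [h1, zero_add] at ha
        unfold id1 at ha
        have h2 : a = b + c := by
          by_contra h3
          rw [if_neg h3] at ha
          exact ha rfl
        rw [h2]; exact hbc.2
      · exact hn1 a h1
    · rw [dg_add, hn2, dg_edge hbc.1]
      generalize id1 u w = a
      generalize id1 b w = b'
      generalize id1 c w = c'
      revert a b' c'; decide

lemma fi_zu_zv (he : (e.1 + e.2) % 2 = 1) : IsUnit4 (fi (zv e) - fi (zu e)) ∧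
    fi (zu e) + fi (zv e) - (1, 1) = e := by
  obtain ⟨a, b⟩ := e
  simp only at he
  unfold fi zu zv
  simp only
  split_ifs with h
  · have h1 : (a + 1 + 1) / 2 = a / 2 + 1 := by omega
    have h2 : (a + 1) / 2 = a / 2 := by omega
    have h3 : (b + 1 + 1) / 2 = (b + 1) / 2 := by omega
    simp only [h1, h2, h3]
    constructor
    · unfold IsUnit4
      simp [Prod.ext_iff]
    · refine Prod.ext ?_ ?_ <;> simp <;> omega
  · have h1 : (a + 1 + 1) / 2 = (a + 1) / 2 := by omega
    have h2 : (b + 1 + 1) / 2 = b / 2 + 1 := by omega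
    have h3 : (b + 1) / 2 = b / 2 := by omega
    simp only [h1, h2, h3]
    constructor
    · unfold IsUnit4
      simp [Prod.ext_iff]
    · refine Prod.ext ?_ ?_ <;> simp <;> omega

lemma eu_ev (he : (e.1 + e.2) % 2 = 1) : IsUnit4 (ev e - eu e) ∧ eu e + ev e = e := by
  obtain ⟨a, b⟩ := e
  simp only at he
  unfold eu ev
  simp only
  rcases Int.emod_two_eq_zero_or_one a with h | h
  · have h2 : (a + 1) / 2 = a / 2 := by omega
    have h3 : (b + 1) / 2 = b / 2 + 1 := by omega
    simp only [h2, h3]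
    constructor
    · unfold IsUnit4
      simp [Prod.ext_iff]
    · refine Prod.ext ?_ ?_ <;> simp <;> omega
  · have h2 : (a + 1) / 2 = a / 2 + 1 := by omega
    have h3 : (b + 1) / 2 = b / 2 := by omega
    simp only [h2, h3]
    constructor
    · unfold IsUnit4
      simp [Prod.ext_iff]
    · refine Prod.ext ?_ ?_ <;> simp <;> omega

/-- the common argument: `a` is the edge whose ends are joined -/
lemma sep_aux {e e' : ℤ × ℤ} {f1 f2 g1 g2 a b : ℤ × ℤ} (ha : (a.1 + a.2) % 2 = 1)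
    (hab : a ≠ b) (hae : (a = e ∧ b = e') ∨ (a = e' ∧ b = e))
    (hf : IsUnit4 (f2 - f1) ∧ f1 + f2 - (1, 1) = a) (hg : IsUnit4 (g2 - g1) ∧ g1 + g2 - (1, 1) = b)
    (h1 : Co (du ((E.erase e).erase e') ω) f1 g1) (h2 : Co (du ((E.erase e).erase e') ω) f2 g2) :
    ¬ Co ((ω.erase e).erase e') (eu a) (ev a) := by
  intro hco
  obtain ⟨n, hn1, hn2⟩ := co_cycle hco
  have hea := eu_ev ha
  set n' : ℤ × ℤ → ZMod 2 := fun l => n l + id1 a l with hn'
  have hfin : {l : ℤ × ℤ | n' l ≠ 0}.Finite := by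
    refine (((ω.erase e).erase e') ∪ {a}).finite_toSet.subset ?_
    intro l hl
    rw [Set.mem_ofPred_eq] at hl
    rw [coe_union, Set.mem_union]
    by_cases h0 : n l = 0
    · right
      rw [coe_singleton, Set.mem_singleton_iff]
      by_contra h3
      apply hl
      simp only [hn', h0, id1, if_neg h3, add_zero]
    · left
      exact hn1 l h0
  have hdeg : ∀ w, dg n' w = 0 := by
    intro w
    rw [hn', dg_add, hn2]
    have h3 := dg_edge hea.1 w
    rw [hea.2] at h3
    rw [h3]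
    exact zmod2_add_self _
  obtain ⟨S, hS⟩ := even_faces n' hfin hdeg
  have hne : n a = 0 := by
    by_contra h3
    have := hn1 a h3
    rw [mem_erase, mem_erase] at this
    rcases hae with ⟨h4, -⟩ | ⟨h4, -⟩
    · exact this.2.1 h4
    · exact this.1 h4
  have hnb : n b = 0 := by
    by_contra h3
    have := hn1 b h3
    rw [mem_erase, mem_erase] at this
    rcases hae with ⟨-, h4⟩ | ⟨-, h4⟩
    · exact this.1 h4
    · exact this.2.1 h4
  have hconst : ∀ f g, Co (du ((E.erase e).erase e') ω) f g → S f = S g := by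
    intro f g h
    induction h with
    | refl => rfl
    | @tail x y _ hxy ih =>
      rw [ih]
      have h3 := hS x y hxy.1
      have h4 := hxy.2
      unfold du at h4
      rw [mem_map] at h4
      obtain ⟨l, hl, hlxy⟩ := h4
      have h5 : x + y - (1, 1) = l := by
        rw [← hlxy]
        refine Prod.ext ?_ ?_ <;> simp [sh1]
      rw [mem_sdiff, mem_erase, mem_erase] at hl
      have h6 : n l = 0 := by
        by_contra h7
        have := hn1 l h7
        rw [mem_erase, mem_erase] at this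
        exact hl.2 this.2.2
      have h7 : l ≠ a := by
        rcases hae with ⟨h8, -⟩ | ⟨h8, -⟩
        · rw [h8]; exact hl.1.2.1
        · rw [h8]; exact hl.1.1
      rw [h5, hn'] at h3
      simp only [h6, id1, if_neg h7, add_zero] at h3
      generalize S x = s at h3 ⊢
      generalize S y = t at h3 ⊢
      revert s t; decide
  have h3 := hS f1 f2 hf.1
  have h4 := hS g1 g2 hg.1
  rw [hf.2, hn'] at h3
  rw [hg.2, hn'] at h4
  have hba : ¬ b = a := fun h => hab h.symm
  simp only [hne, id1, if_true, zero_add] at h3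
  simp only [hnb, id1, if_neg hba, add_zero] at h4
  rw [hconst _ _ h1, hconst _ _ h2, h4] at h3
  exact absurd h3 (by decide)

lemma unit4_symm {u v : ℤ × ℤ} (h : IsUnit4 (v - u)) : IsUnit4 (u - v) := by
  have := isUnit4_neg h
  rwa [neg_sub] at this

end PivAux

/-- a closed dual circuit through `e` and `e'` separates the ends of `e` and of `e'` -/
theorem dual_sep {f1 f2 g1 g2 : ℤ × ℤ} (he : (e.1 + e.2) % 2 = 1) (he' : (e'.1 + e'.2) % 2 = 1)
    (hee : e ≠ e') (hf : f1 = fi (zu e) ∧ f2 = fi (zv e))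
    (hg : (g1 = fi (zu e') ∧ g2 = fi (zv e')) ∨ (g1 = fi (zv e') ∧ g2 = fi (zu e')))
    (h1 : Co (du ((E.erase e).erase e') ω) f1 g1) (h2 : Co (du ((E.erase e).erase e') ω) f2 g2) :
    ¬ Co ((ω.erase e).erase e') (eu e) (ev e) ∧ ¬ Co ((ω.erase e).erase e') (eu e') (ev e') := by
  have hF : IsUnit4 (f2 - f1) ∧ f1 + f2 - (1, 1) = e := by
    rw [hf.1, hf.2]; exact fi_zu_zv he
  have hG : IsUnit4 (g2 - g1) ∧ g1 + g2 - (1, 1) = e' := by
    have h3 := fi_zu_zv he'
    rcases hg with ⟨rfl, rfl⟩ | ⟨rfl, rfl⟩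
    · exact h3
    · refine ⟨unit4_symm h3.1, ?_⟩
      rw [add_comm]; exact h3.2
  refine ⟨sep_aux he hee (Or.inl ⟨rfl, rfl⟩) hF hG h1 h2, ?_⟩
  exact sep_aux he' hee.symm (Or.inr ⟨rfl, rfl⟩) hG hF h1.symm h2.symm

namespace PivAux

lemma vx_zu (he : (e.1 + e.2) % 2 = 1) : vx (zu e) = eu e := by
  obtain ⟨a, b⟩ := e
  simp only at he
  unfold vx zu eu
  simp only
  split_ifs with h
  · refine Prod.ext ?_ ?_ <;> simp only <;> omega
  · rfl

lemma vx_zv (he : (e.1 + e.2) % 2 = 1) : vx (zv e) = ev e := by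
  obtain ⟨a, b⟩ := e
  simp only at he
  unfold vx zv ev
  simp only
  split_ifs with h
  · refine Prod.ext ?_ ?_ <;> simp only <;> omega
  · rfl

lemma opc_zu (he : (e.1 + e.2) % 2 = 1) : opc (zu e) = zv e := by
  obtain ⟨a, b⟩ := e
  simp only at he
  unfold opc zu zv
  simp only
  by_cases h : a % 2 = 0
  · simp only [if_pos h]
    rw [if_neg (by omega), if_neg (by omega)]
    refine Prod.ext ?_ ?_ <;> simp only <;> omega
  · simp only [if_neg h]
    rw [if_pos (by omega)]

lemma opc_zv (he : (e.1 + e.2) % 2 = 1) : opc (zv e) = zu e := by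
  obtain ⟨a, b⟩ := e
  simp only at he
  unfold opc zu zv
  simp only
  by_cases h : a % 2 = 0
  · simp only [if_pos h]
    rw [if_pos (by omega)]
    refine Prod.ext ?_ ?_ <;> simp only <;> omega
  · simp only [if_neg h]
    rw [if_neg (by omega), if_pos (by omega)]
    refine Prod.ext ?_ ?_ <;> simp only <;> omega

end PivAux

/-- `e` is pivotal for the connection of the ends of `e'` outside `e'` (`Pv` of H81/NC/Defs) -/
theorem piv_of {c d c' d' : ℤ × ℤ} (he : (e.1 + e.2) % 2 = 1) (he' : (e'.1 + e'.2) % 2 = 1)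
    (hee : e ≠ e') (hc : c = zu e ∨ c = zv e) (hd : d = zu e' ∨ d = zv e')
    (hc' : c' = zu e ∨ c' = zv e) (hd' : d' = zu e' ∨ d' = zv e')
    (h1 : Co ((ω.erase e).erase e') (vx c) (vx d))
    (h2 : Co ((ω.erase e).erase e') (vx (opc c)) (vx (opc d)))
    (h3 : Co (du ((E.erase e).erase e') ω) (fi c') (fi d'))
    (h4 : Co (du ((E.erase e).erase e') ω) (fi (opc c')) (fi (opc d'))) :
    Co ((insert e ω).erase e') (vx (zu e')) (vx (zv e')) ∧
    ¬ Co ((ω.erase e).erase e') (vx (zu e')) (vx (zv e')) := by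
  constructor
  · have hsub : (ω.erase e).erase e' ⊆ (insert e ω).erase e' :=
      erase_subset_erase _ ((erase_subset _ _).trans (subset_insert _ _))
    have hmem : e ∈ (insert e ω).erase e' := mem_erase.2 ⟨hee, mem_insert_self _ _⟩
    have hbe := eu_ev he
    have hstep : Co ((insert e ω).erase e') (vx c) (vx (opc c)) := by
      have h5 : Ad ((insert e ω).erase e') (eu e) (ev e) := ⟨hbe.1, by rw [hbe.2]; exact hmem⟩
      rcases hc with rfl | rfl
      · rw [opc_zu he, vx_zu he, vx_zv he]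
        exact Relation.ReflTransGen.single h5
      · rw [opc_zv he, vx_zu he, vx_zv he]
        exact Relation.ReflTransGen.single h5.symm
    have hall : Co ((insert e ω).erase e') (vx d) (vx (opc d)) :=
      ((h1.mono hsub).symm.trans hstep).trans (h2.mono hsub)
    rcases hd with rfl | rfl
    · rwa [opc_zu he'] at hall
    · rw [opc_zv he'] at hall
      exact hall.symm
  · rw [vx_zu he', vx_zv he']
    have hd2 : (fi d' = fi (zu e') ∧ fi (opc d') = fi (zv e')) ∨
        (fi d' = fi (zv e') ∧ fi (opc d') = fi (zu e')) := by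
      rcases hd' with rfl | rfl
      · left; rw [opc_zu he']; exact ⟨rfl, rfl⟩
      · right; rw [opc_zv he']; exact ⟨rfl, rfl⟩
    rcases hc' with rfl | rfl
    · rw [opc_zu he] at h4
      exact (dual_sep he he' hee ⟨rfl, rfl⟩ hd2 h3 h4).2
    · rw [opc_zv he] at h4
      refine (dual_sep he he' hee ⟨rfl, rfl⟩ ?_ h4 h3).2
      rcases hd2 with ⟨h5, h6⟩ | ⟨h5, h6⟩
      · exact Or.inr ⟨h6, h5⟩
      · exact Or.inl ⟨h6, h5⟩

end Pool.Agent.H75.Four
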