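import Mathlib
import Pool.Agent.H75.Four.Defs
import Pool.Agent.H75.TwoArm.Track
import Pool.Agent.H75.TwoArm.Exit

set_option autoImplicit false
open Finset

/-! FA2 (helper52): the other pair of strands, the configuration with the edge open, locality. -/

namespace Pool.Agent.H75.Four

open Pool.Agent.H75.Perc
open Pool.Agent.H75.TwoArm
open Pool.Agent.H75.TwoArm.StrandAux
open Pool.Agent.H75.TwoArm.TrackAux

namespace FOtherAux

lemma fce_fp (z : ℤ × ℤ) : fce z = fp (fi z) := rfl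

lemma opc_cases (c : ℤ × ℤ) :
    (c.1 % 2 = 0 ∧ c.2 % 2 = 0 ∧ opc c = (c.1 + 1, c.2 - 1)) ∨
    (c.1 % 2 = 1 ∧ c.2 % 2 = 0 ∧ opc c = (c.1 + 1, c.2 + 1)) ∨
    (c.1 % 2 = 1 ∧ c.2 % 2 = 1 ∧ opc c = (c.1 - 1, c.2 + 1)) ∨
    (c.1 % 2 = 0 ∧ c.2 % 2 = 1 ∧ opc c = (c.1 - 1, c.2 - 1)) := by
  unfold opc
  split_ifs <;> simp <;> omega

end FOtherAux

open FOtherAux

lemma lab_opc (c : ℤ × ℤ) : lab (opc c) = lab c := by
  obtain ⟨a, b⟩ := c
  rcases opc_cases (a, b) with ⟨h1, h2, h3⟩ | ⟨h1, h2, h3⟩ | ⟨h1, h2, h3⟩ | ⟨h1, h2, h3⟩ <;>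
  rw [h3] <;> simp only at h1 h2 ⊢ <;> unfold lab <;> simp only <;> split_ifs <;> first
    | rfl
    | (exfalso; omega)
    | (refine Prod.ext ?_ ?_ <;> simp only <;> omega)

lemma opc_opc (c : ℤ × ℤ) : opc (opc c) = c := by
  obtain ⟨a, b⟩ := c
  rcases opc_cases (a, b) with ⟨h1, h2, h3⟩ | ⟨h1, h2, h3⟩ | ⟨h1, h2, h3⟩ | ⟨h1, h2, h3⟩ <;>
  rw [h3] <;> simp only at h1 h2 ⊢ <;> unfold opc <;> simp only <;> split_ifs <;> first
    | rfl
    | (exfalso; omega)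
    | (refine Prod.ext ?_ ?_ <;> simp only <;> omega)

lemma lab_eq_iff {z c : ℤ × ℤ} : lab z = lab c ↔ z = c ∨ z = opc c := by
  constructor
  · obtain ⟨a, b⟩ := c
    obtain ⟨x, y⟩ := z
    intro h
    rcases opc_cases (a, b) with ⟨h1, h2, h3⟩ | ⟨h1, h2, h3⟩ | ⟨h1, h2, h3⟩ | ⟨h1, h2, h3⟩ <;>
    rw [h3] <;>
    rcases ty_cases (a, b) with ⟨-, g1, g2, g3, -, -⟩ | ⟨-, g1, g2, g3, -, -⟩ |
      ⟨-, g1, g2, g3, -, -⟩ | ⟨-, g1, g2, g3, -, -⟩ <;>
    rcases ty_cases (x, y) with ⟨-, f1, f2, f3, -, -⟩ | ⟨-, f1, f2, f3, -, -⟩ |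
      ⟨-, f1, f2, f3, -, -⟩ | ⟨-, f1, f2, f3, -, -⟩ <;>
    rw [g3, f3] at h <;> simp only [Prod.mk.injEq] at * <;> omega
  · rintro (rfl | rfl)
    · rfl
    · exact lab_opc c

lemma opc_zu {e : ℤ × ℤ} (he : (e.1 + e.2) % 2 = 1) : opc (zu e) = zv e ∧ opc (zv e) = zu e ∧
    lab (zu e) = e ∧ lab (zv e) = e ∧ vx (zu e) = eu e ∧ vx (zv e) = ev e := by
  obtain ⟨a, b⟩ := e
  simp only at he
  unfold zu zv
  by_cases h : a % 2 = 0
  · simp only [h, if_true]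
    have h1 : (a + 1) % 2 = 1 := by omega
    have h2 : b % 2 = 1 := by omega
    have h3 : (b + 1) % 2 = 0 := by omega
    refine ⟨?_, ?_, ?_, ?_, ?_, ?_⟩
    · unfold opc; simp only [h1, h2]; refine Prod.ext ?_ ?_ <;> simp
    · unfold opc; simp only [h, h3]; refine Prod.ext ?_ ?_ <;> simp
    · unfold lab; simp only [h1, h2]; refine Prod.ext ?_ ?_ <;> simp
    · unfold lab; simp only [h, h3]; refine Prod.ext ?_ ?_ <;> simp
    · unfold vx eu; refine Prod.ext ?_ ?_ <;> simp only <;> omega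
    · unfold vx ev; refine Prod.ext ?_ ?_ <;> simp only <;> omega
  · simp only [h, if_false]
    have h0 : a % 2 = 1 := by omega
    have h1 : (a + 1) % 2 = 0 := by omega
    have h2 : b % 2 = 0 := by omega
    have h3 : (b + 1) % 2 = 1 := by omega
    refine ⟨?_, ?_, ?_, ?_, ?_, ?_⟩
    · unfold opc; simp only [h0, h2]; refine Prod.ext ?_ ?_ <;> simp
    · unfold opc; simp only [h1, h3]; refine Prod.ext ?_ ?_ <;> simp
    · unfold lab; simp only [h0, h2]; refine Prod.ext ?_ ?_ <;> simp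
    · unfold lab; simp only [h1, h3]; refine Prod.ext ?_ ?_ <;> simp
    · unfold vx eu; refine Prod.ext ?_ ?_ <;> simp only
    · unfold vx ev; refine Prod.ext ?_ ?_ <;> simp only

lemma nxC_opc (c : ℤ × ℤ) : vx (nxC c) = vx c ∧ fi (nxC c) = fi (opc c) := by
  obtain ⟨a, b⟩ := c
  rcases opc_cases (a, b) with ⟨h1, h2, h3⟩ | ⟨h1, h2, h3⟩ | ⟨h1, h2, h3⟩ | ⟨h1, h2, h3⟩ <;>
  rcases ty_cases (a, b) with ⟨-, g1, g2, -, g4, -⟩ | ⟨-, g1, g2, -, g4, -⟩ |
      ⟨-, g1, g2, -, g4, -⟩ | ⟨-, g1, g2, -, g4, -⟩ <;>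
  rw [h3, g4] <;> simp only at h1 h2 g1 g2 ⊢ <;> first
    | (exfalso; omega)
    | (unfold vx fi; refine ⟨?_, ?_⟩ <;> refine Prod.ext ?_ ?_ <;> simp only <;> omega)

lemma nxO_opc (c : ℤ × ℤ) : vx (nxO c) = vx (opc c) ∧ fi (nxO c) = fi c := by
  obtain ⟨a, b⟩ := c
  rcases opc_cases (a, b) with ⟨h1, h2, h3⟩ | ⟨h1, h2, h3⟩ | ⟨h1, h2, h3⟩ | ⟨h1, h2, h3⟩ <;>
  rcases ty_cases (a, b) with ⟨-, g1, g2, -, -, g5⟩ | ⟨-, g1, g2, -, -, g5⟩ |
      ⟨-, g1, g2, -, -, g5⟩ | ⟨-, g1, g2, -, -, g5⟩ <;>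
  rw [h3, g5] <;> simp only at h1 h2 g1 g2 ⊢ <;> first
    | (exfalso; omega)
    | (unfold vx fi; refine ⟨?_, ?_⟩ <;> refine Prod.ext ?_ ?_ <;> simp only <;> omega)

namespace FOtherAux

/-- the two corners with the label `lab c` are exchanged -/
lemma nxC_eq_nxO (c : ℤ × ℤ) : nxC c = nxO (opc c) := by
  obtain ⟨a, b⟩ := c
  rcases opc_cases (a, b) with ⟨h1, h2, h3⟩ | ⟨h1, h2, h3⟩ | ⟨h1, h2, h3⟩ | ⟨h1, h2, h3⟩ <;>
  rcases ty_cases (a, b) with ⟨-, g1, g2, -, g4, -⟩ | ⟨-, g1, g2, -, g4, -⟩ |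
      ⟨-, g1, g2, -, g4, -⟩ | ⟨-, g1, g2, -, g4, -⟩ <;>
  rw [h3, g4] <;> simp only at h1 h2 g1 g2 ⊢ <;> first
    | (exfalso; omega)
    | (unfold nxO; simp only; split_ifs <;> first
        | rfl
        | (exfalso; omega)
        | (refine Prod.ext ?_ ?_ <;> simp only <;> omega))

lemma opc_ne (c : ℤ × ℤ) : opc c ≠ c := by
  obtain ⟨a, b⟩ := c
  intro h
  rcases opc_cases (a, b) with ⟨h1, h2, h3⟩ | ⟨h1, h2, h3⟩ | ⟨h1, h2, h3⟩ | ⟨h1, h2, h3⟩ <;>
  rw [h3, Prod.mk.injEq] at h <;> simp only at h <;> omega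

variable {B ω : Finset (ℤ × ℤ)} {c x1 x2 : ℤ × ℤ} {R : ℤ × ℤ → Prop} {S : ℤ × ℤ → Bool}

/-- induction along the strands -/
lemma Str_ind {P : ℤ × ℤ → Prop} (h0 : P c)
    (hf : ∀ z, Str B ω c z → lab z ∈ B → P z → P (nx ω z))
    (hb : ∀ z, Str B ω c z → plab z ∈ B → P z → P (pv ω z)) {z : ℤ × ℤ} (hz : Str B ω c z) :
    P z := by
  rcases hz with ⟨j, h1, h2⟩ | ⟨j, h1, h2⟩
  · subst h1
    induction j with
    | zero => exact h0
    | succ j ih =>
      rw [Function.iterate_succ_apply']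
      exact hf _ (Or.inl ⟨j, rfl, fun i hi => h2 i (by omega)⟩) (h2 j (by omega))
        (ih (fun i hi => h2 i (by omega)))
  · subst h1
    induction j with
    | zero => exact h0
    | succ j ih =>
      rw [Function.iterate_succ_apply']
      exact hb _ (Or.inr ⟨j, rfl, fun i hi => h2 i (by omega)⟩) (h2 j (by omega))
        (ih (fun i hi => h2 i (by omega)))

/-- two strand systems with a common corner -/
lemma Str_back {d z : ℤ × ℤ} (hz : Str B ω c z) (hd : Str B ω d z) : Str B ω c d := by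
  rcases hd with ⟨j, h1, h2⟩ | ⟨j, h1, h2⟩
  · subst h1
    induction j with
    | zero => exact hz
    | succ j ih =>
      rw [Function.iterate_succ_apply'] at hz
      have h3 := (Str_pv hz (by rw [plab_nx]; exact h2 j (by omega))).1
      rw [pv_nx] at h3
      exact ih (fun i hi => h2 i (by omega)) h3
  · subst h1
    induction j with
    | zero => exact hz
    | succ j ih =>
      rw [Function.iterate_succ_apply'] at hz
      have h3 := (Str_nx hz (by rw [lab_pv]; exact h2 j (by omega))).1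
      rw [nx_pv] at h3
      exact ih (fun i hi => h2 i (by omega)) h3

lemma not_R_of_Str (hc : lab c ∈ B) (hR : ∀ z, R z → lab z ∉ B ∧ plab z ∉ B) {z : ℤ × ℤ}
    (hz : Str B ω c z) : ¬ R z := by
  have key : lab z ∈ B ∨ plab z ∈ B := by
    refine Str_ind (P := fun z => lab z ∈ B ∨ plab z ∈ B) (Or.inl hc) ?_ ?_ hz
    · intro z _ hl _
      right
      rw [plab_nx]
      exact hl
    · intro z _ hl _
      left
      rw [lab_pv]
      exact hl
  intro h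
  have := hR z h
  tauto

end FOtherAux

section

variable {B ω : Finset (ℤ × ℤ)} {c x1 x2 : ℤ × ℤ} {R : ℤ × ℤ → Prop} {S : ℤ × ℤ → Bool}

theorem Str_disj {d : ℤ × ℤ} (hn : ¬ Str B ω c d) {z : ℤ × ℤ} (hz : Str B ω c z) :
    ¬ Str B ω d z := fun h => hn (Str_back hz h)

theorem Str_symm {d : ℤ × ℤ} (h : Str B ω c d) : Str B ω d c := Str_back (Str_self B ω d) h

/-- finite orbits: both strands leave as soon as one does -/
theorem leave_exits (h : Leave B ω c) : (∃ x, FX B ω c x) ∧ ∃ x, BX B ω c x := by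
  refine ⟨ExitAux.exists_FX h, ExitAux.exists_BX ?_⟩
  obtain ⟨j, hj⟩ := h
  by_contra hcon
  push Not at hcon
  apply hj
  -- all backward corners have `lab` in `B`
  obtain ⟨M, hM⟩ := ExitAux.exists_period ω c
  have key : ∀ i : ℕ, ∃ k : ℕ, (nx ω)^[i] c = (pv ω)^[k + 1] c := by
    intro i
    have h1 : ∀ k : ℕ, (pv ω)^[k] ((nx ω)^[k + i] c) = (nx ω)^[i] c := by
      intro k
      induction k with
      | zero => simp
      | succ k ih =>
        rw [Function.iterate_succ_apply, show k + 1 + i = (k + i) + 1 by ring,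
          Function.iterate_succ_apply' (nx ω), pv_nx]
        exact ih
    refine ⟨M * (i + 1) - i - 1, ?_⟩
    have hpos := hM.pos
    have h2 : i + 1 ≤ M * (i + 1) := Nat.le_mul_of_pos_left _ hpos
    have h3 := h1 (M * (i + 1) - i)
    have h4 : M * (i + 1) - i + i = M * (i + 1) := by omega
    have h5 : (nx ω)^[M * (i + 1)] c = c := by
      rw [← hM.mod (M * (i + 1))]
      simp
    rw [h4, h5] at h3
    rw [← h3]
    congr 1
    have h6 : M * (i + 1) - i - 1 + 1 = M * (i + 1) - i := by omega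
    rw [h6]
  obtain ⟨k, hk⟩ := key j
  rw [hk, Function.iterate_succ_apply', lab_pv]
  exact hcon k

namespace FOtherAux

lemma const_aux (hc : lab c ∈ B) (h : TCR B ω c R S)
    (hR : ∀ z, R z → lab z ∉ B ∧ plab z ∉ B) (hn : ¬ Str B ω c (opc c)) {b : Bool}
    (hb : S (dbl (vx (opc c))) = b ∨ S (fce (opc c)) = b) {z : ℤ × ℤ}
    (hz : Str B ω (opc c) z) : S (dbl (vx z)) = b ∧ S (fce z) = b := by
  have hB : lab (opc c) ∈ B := by rw [lab_opc]; exact hc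
  have heq : ∀ z, Str B ω (opc c) z → S (dbl (vx z)) = S (fce z) := fun z hz =>
    h.col z (fun hs => Str_disj hn hs hz) (not_R_of_Str hB hR hz)
  have two : ∀ z, Str B ω (opc c) z → (S (dbl (vx z)) = b ∨ S (fce z) = b) →
      S (dbl (vx z)) = b ∧ S (fce z) = b := by
    intro z hz h1
    have h2 := heq z hz
    rcases h1 with h1 | h1
    · exact ⟨h1, by rw [← h2, h1]⟩
    · exact ⟨by rw [h2, h1], h1⟩
  have step : ∀ z, Str B ω (opc c) z → Str B ω (opc c) (nx ω z) →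
      ((S (dbl (vx (nx ω z))) = b ∧ S (fce (nx ω z)) = b) ↔
        (S (dbl (vx z)) = b ∧ S (fce z) = b)) := by
    intro z h1 h2
    unfold nx at h2 ⊢
    split_ifs at h2 ⊢ with hl
    · rw [fce_nxO]
      have e1 := two _ h1
      have e2 := two _ h2
      rw [fce_nxO] at e2
      tauto
    · have e0 := StrandAux.vx_nxC z
      rw [e0]
      have e1 := two _ h1
      have e2 := two _ h2
      rw [e0] at e2
      tauto
  refine Str_ind (P := fun z => S (dbl (vx z)) = b ∧ S (fce z) = b)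
    (two _ (Str_self _ _ _) hb) ?_ ?_ hz
  · intro z h1 h2 h3
    exact (step z h1 (Str_nx h1 h2).1).2 h3
  · intro z h1 h2 h3
    have h4 := (Str_pv h1 h2).1
    have h5 := step _ h4 (by rw [nx_pv]; exact h1)
    rw [nx_pv] at h5
    exact h5.1 h3

end FOtherAux

/-- the other pair of strands is in the opposite region; `lab c` closed -/
theorem other_false (hc : lab c ∈ B) (hcl : lab c ∉ ω) (h : TCR B ω c R S)
    (hR : ∀ z, R z → lab z ∉ B ∧ plab z ∉ B) (hn : ¬ Str B ω c (opc c)) {z : ℤ × ℤ}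
    (hz : Str B ω (opc c) z) : S (dbl (vx z)) = false ∧ S (fce z) = false := by
  refine const_aux hc h hR hn (Or.inr ?_) hz
  have h1 := (h.str _ (Str_nx (Str_self B ω c) hc).1).2
  unfold nx at h1
  rw [if_neg hcl, fce_fp, (nxC_opc c).2, ← fce_fp] at h1
  exact h1

/-- `lab c` open -/
theorem other_true (hc : lab c ∈ B) (hcl : lab c ∈ ω) (h : TCR B ω c R S)
    (hR : ∀ z, R z → lab z ∉ B ∧ plab z ∉ B) (hn : ¬ Str B ω c (opc c)) {z : ℤ × ℤ}
    (hz : Str B ω (opc c) z) : S (dbl (vx z)) = true ∧ S (fce z) = true := by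
  refine const_aux hc h hR hn (Or.inl ?_) hz
  have h1 := (h.str _ (Str_nx (Str_self B ω c) hc).1).1
  unfold nx at h1
  rw [if_pos hcl, (nxO_opc c).1] at h1
  exact h1

namespace FOtherAux

lemma quad_const {e u v f g z1 z2 z3 z4 : ℤ × ℤ} (q : Quad e u v f g z1 z2 z3 z4)
    (h : TCR B ω c R S) (hR : ∀ z, R z → lab z ∉ B ∧ plab z ∉ B) (h1 : e ∈ B)
    (h2 : e ∉ UU B ω c) : S (dbl u) = S f ∧ S (dbl u) = S g ∧ S (dbl v) = S f ∧
      S (dbl v) = S g := by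
  have hU : ¬ (Str B ω c z1 ∨ Str B ω c z2 ∨ Str B ω c z3 ∨ Str B ω c z4) := fun hh =>
    h2 (q.mem_UU.2 ⟨h1, hh⟩)
  have r1 : ¬ R z1 := fun hh => (hR _ hh).1 (by rw [q.l1]; exact h1)
  have r4 : ¬ R z4 := fun hh => (hR _ hh).1 (by rw [q.l4]; exact h1)
  have r2 : ¬ R z2 := fun hh => (hR _ hh).2 (by rw [q.p2]; exact h1)
  have r3 : ¬ R z3 := fun hh => (hR _ hh).2 (by rw [q.p3]; exact h1)
  have c1 := h.col z1 (by tauto) r1
  have c2 := h.col z2 (by tauto) r2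
  have c3 := h.col z3 (by tauto) r3
  have c4 := h.col z4 (by tauto) r4
  rw [q.v1, q.f1] at c1
  rw [q.v2, q.f2] at c2
  rw [q.v3, q.f3] at c3
  rw [q.v4, q.f4] at c4
  exact ⟨c1, c2, c3, c4⟩

end FOtherAux

theorem other_edge_false (hc : lab c ∈ B) (hcl : lab c ∉ ω) (h : TCR B ω c R S)
    (hR : ∀ z, R z → lab z ∉ B ∧ plab z ∉ B) (hn : ¬ Str B ω c (opc c)) {u v : ℤ × ℤ}
    (huv : IsUnit4 (v - u)) (h1 : u + v ∈ UU B ω (opc c)) (h2 : u + v ∉ UU B ω c) :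
    S (dbl u) = false ∧ S (dbl v) = false := by
  obtain ⟨f, g, z1, z2, z3, z4, q⟩ := quad_of_uv huv
  obtain ⟨hB, hU⟩ := q.mem_UU.1 h1
  obtain ⟨c1, c2, c3, c4⟩ := quad_const q h hR hB h2
  rcases hU with hz | hz | hz | hz
  · have := (other_false hc hcl h hR hn hz).1
    rw [q.v1] at this
    exact ⟨this, by rw [c3, ← c1, this]⟩
  · have := (other_false hc hcl h hR hn hz).1
    rw [q.v2] at this
    exact ⟨this, by rw [c3, ← c1, this]⟩
  · have := (other_false hc hcl h hR hn hz).1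
    rw [q.v3] at this
    exact ⟨by rw [c1, ← c3, this], this⟩
  · have := (other_false hc hcl h hR hn hz).1
    rw [q.v4] at this
    exact ⟨by rw [c1, ← c3, this], this⟩

theorem other_edge_true (hc : lab c ∈ B) (hcl : lab c ∈ ω) (h : TCR B ω c R S)
    (hR : ∀ z, R z → lab z ∉ B ∧ plab z ∉ B) (hn : ¬ Str B ω c (opc c)) {f g : ℤ × ℤ}
    (hfg : IsUnit4 (g - f)) (h1 : f + g - (1, 1) ∈ UU B ω (opc c))
    (h2 : f + g - (1, 1) ∉ UU B ω c) : S (fp f) = true ∧ S (fp g) = true := by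
  obtain ⟨u, v, z1, z2, z3, z4, q⟩ := quad_of_fg hfg
  obtain ⟨hB, hU⟩ := q.mem_UU.1 h1
  obtain ⟨c1, c2, c3, c4⟩ := quad_const q h hR hB h2
  rcases hU with hz | hz | hz | hz
  · have := (other_true hc hcl h hR hn hz).2
    rw [q.f1] at this
    exact ⟨this, by rw [← c2, c1, this]⟩
  · have := (other_true hc hcl h hR hn hz).2
    rw [q.f2] at this
    exact ⟨by rw [← c1, c2, this], this⟩
  · have := (other_true hc hcl h hR hn hz).2
    rw [q.f3] at this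
    exact ⟨this, by rw [← c2, c1, this]⟩
  · have := (other_true hc hcl h hR hn hz).2
    rw [q.f4] at this
    exact ⟨by rw [← c1, c2, this], this⟩

namespace FOtherAux

/-- two configurations which differ exactly at the edge `e`; `p`, `q` are the corners with the
label `e` -/
structure Sw (B w w' : Finset (ℤ × ℤ)) (e p q : ℤ × ℤ) : Prop where
  hw : ∀ a, a ≠ e → (a ∈ w' ↔ a ∈ w)
  hs : e ∈ w' ↔ e ∉ w
  heB : e ∈ B
  hp : lab p = e
  hq : lab q = e
  hpq : p ≠ q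
  hl : ∀ z, lab z = e → z = p ∨ z = q
  h1 : nxC p = nxO q
  h2 : nxC q = nxO p

variable {w w' : Finset (ℤ × ℤ)} {e p q : ℤ × ℤ}

lemma Sw.comm (s : Sw B w w' e p q) : Sw B w w' e q p where
  hw := s.hw
  hs := s.hs
  heB := s.heB
  hp := s.hq
  hq := s.hp
  hpq := s.hpq.symm
  hl := fun z hz => (s.hl z hz).symm
  h1 := s.h2
  h2 := s.h1

lemma Sw.symm (s : Sw B w w' e p q) : Sw B w' w e p q where
  hw := fun a ha => (s.hw a ha).symm
  hs := by have := s.hs; tauto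
  heB := s.heB
  hp := s.hp
  hq := s.hq
  hpq := s.hpq
  hl := s.hl
  h1 := s.h1
  h2 := s.h2

lemma Sw.nx_eq (s : Sw B w w' e p q) {z : ℤ × ℤ} (hz : lab z ≠ e) : nx w' z = nx w z :=
  nx_congr (s.hw _ hz)

lemma Sw.pv_eq (s : Sw B w w' e p q) {z : ℤ × ℤ} (hz : plab z ≠ e) : pv w' z = pv w z :=
  pv_congr (s.hw _ hz)

lemma Sw.nx_p (s : Sw B w w' e p q) : nx w' p = nx w q := by
  unfold nx
  rw [s.hp, s.hq]
  by_cases h : e ∈ w
  · rw [if_pos h, if_neg (fun h' => s.hs.1 h' h)]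
    exact s.h1
  · rw [if_neg h, if_pos (s.hs.2 h)]
    exact s.h2.symm

/-- the forward strand does not meet `e` again -/
lemma Sw.fav (s : Sw B w w' e p q) (hL : Leave B w p) (hn : ¬ Str B w p q) {j : ℕ} (hj : 1 ≤ j)
    (h : ∀ i < j, lab ((nx w)^[i] p) ∈ B) : lab ((nx w)^[j] p) ≠ e := by
  intro hl
  rcases s.hl _ hl with h1 | h1
  · obtain ⟨m, hm⟩ := hL
    apply hm
    have h2 : Function.IsPeriodicPt (nx w) j p := h1
    rw [← h2.iterate_mod_apply m]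
    exact h _ (Nat.mod_lt _ hj)
  · exact hn (Or.inl ⟨j, h1, h⟩)

/-- the backward strand does not meet `e` -/
lemma Sw.bav (s : Sw B w w' e p q) (hL : Leave B w p) (hn : ¬ Str B w p q) {j : ℕ}
    (h : ∀ i < j + 1, plab ((pv w)^[i] p) ∈ B) : plab ((pv w)^[j] p) ≠ e := by
  intro hl
  rw [← lab_pv w, ← Function.iterate_succ_apply' (pv w)] at hl
  rcases s.hl _ hl with h1 | h1
  · obtain ⟨m, hm⟩ := hL
    apply hm
    have key : ∀ i : ℕ, ∃ k < j + 1, (nx w)^[i] p = (pv w)^[k + 1] p := by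
      intro i
      induction i with
      | zero => exact ⟨j, by omega, h1.symm⟩
      | succ i ih =>
        obtain ⟨k, hk, hk'⟩ := ih
        rw [Function.iterate_succ_apply', hk', Function.iterate_succ_apply', nx_pv]
        rcases k with _ | k
        · exact ⟨j, by omega, h1.symm⟩
        · exact ⟨k, by omega, rfl⟩
    obtain ⟨k, hk, hk'⟩ := key m
    rw [hk', Function.iterate_succ_apply', lab_pv]
    exact h k hk
  · exact hn (Or.inr ⟨j + 1, h1, h⟩)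

lemma Sw.fwd (s : Sw B w w' e p q) (hL : Leave B w q) (hn : ¬ Str B w q p) (j : ℕ) :
    ((∀ i < j, lab ((nx w')^[i] p) ∈ B) ↔ (∀ i < j, lab ((nx w)^[i] q) ∈ B)) ∧
    ((∀ i < j, lab ((nx w)^[i] q) ∈ B) → 1 ≤ j → (nx w')^[j] p = (nx w)^[j] q) := by
  induction j with
  | zero =>
    refine ⟨⟨fun _ i hi => absurd hi (Nat.not_lt_zero i), fun _ i hi =>
      absurd hi (Nat.not_lt_zero i)⟩, fun _ h => absurd h (by omega)⟩
  | succ j ih =>
    obtain ⟨ih1, ih2⟩ := ih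
    have hlab : (∀ i < j, lab ((nx w)^[i] q) ∈ B) →
        (lab ((nx w')^[j] p) ∈ B ↔ lab ((nx w)^[j] q) ∈ B) := by
      intro h
      rcases Nat.eq_zero_or_pos j with hj | hj
      · subst hj
        simp only [Function.iterate_zero, id]
        rw [s.hp, s.hq]
      · rw [ih2 h hj]
    refine ⟨?_, ?_⟩
    · constructor
      · intro h
        have h1 := ih1.1 (fun i hi => h i (by omega))
        intro i hi
        rcases Nat.lt_succ_iff_lt_or_eq.1 hi with h3 | h3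
        · exact h1 i h3
        · rw [h3]; exact (hlab h1).1 (h j (by omega))
      · intro h
        have h0 : ∀ i < j, lab ((nx w)^[i] q) ∈ B := fun i hi => h i (by omega)
        have h1 := ih1.2 h0
        intro i hi
        rcases Nat.lt_succ_iff_lt_or_eq.1 hi with h3 | h3
        · exact h1 i h3
        · rw [h3]; exact (hlab h0).2 (h j (by omega))
    · intro h _
      have h0 : ∀ i < j, lab ((nx w)^[i] q) ∈ B := fun i hi => h i (by omega)
      rw [Function.iterate_succ_apply', Function.iterate_succ_apply']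
      rcases Nat.eq_zero_or_pos j with hj | hj
      · subst hj
        exact s.nx_p
      · rw [ih2 h0 hj]
        exact s.nx_eq (s.comm.fav hL hn hj h0)

lemma Sw.bwd (s : Sw B w w' e p q) (hL : Leave B w p) (hn : ¬ Str B w p q) (j : ℕ) :
    ((∀ i < j, plab ((pv w')^[i] p) ∈ B) ↔ (∀ i < j, plab ((pv w)^[i] p) ∈ B)) ∧
    ((∀ i < j, plab ((pv w)^[i] p) ∈ B) → (pv w')^[j] p = (pv w)^[j] p) := by
  induction j with
  | zero =>
    refine ⟨⟨fun _ i hi => absurd hi (Nat.not_lt_zero i), fun _ i hi =>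
      absurd hi (Nat.not_lt_zero i)⟩, fun _ => rfl⟩
  | succ j ih =>
    obtain ⟨ih1, ih2⟩ := ih
    refine ⟨?_, ?_⟩
    · constructor
      · intro h
        have h1 := ih1.1 (fun i hi => h i (by omega))
        intro i hi
        rcases Nat.lt_succ_iff_lt_or_eq.1 hi with h3 | h3
        · exact h1 i h3
        · rw [h3, ← ih2 h1]; exact h j (by omega)
      · intro h
        have h0 : ∀ i < j, plab ((pv w)^[i] p) ∈ B := fun i hi => h i (by omega)
        have h1 := ih1.2 h0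
        intro i hi
        rcases Nat.lt_succ_iff_lt_or_eq.1 hi with h3 | h3
        · exact h1 i h3
        · rw [h3, ih2 h0]; exact h j (by omega)
    · intro h
      have h0 : ∀ i < j, plab ((pv w)^[i] p) ∈ B := fun i hi => h i (by omega)
      rw [Function.iterate_succ_apply', Function.iterate_succ_apply', ih2 h0]
      exact s.pv_eq (s.bav hL hn h)

lemma Sw.FX_iff (s : Sw B w w' e p q) (hL : Leave B w q) (hn : ¬ Str B w q p) (x : ℤ × ℤ) :
    FX B w' p x ↔ FX B w q x := by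
  have pos : ∀ (z : ℤ × ℤ) (v : Finset (ℤ × ℤ)), lab z = e → ∀ j : ℕ, lab ((nx v)^[j] z) ∉ B →
      1 ≤ j := by
    intro z v hz j hj
    rcases Nat.eq_zero_or_pos j with h | h
    · subst h
      exact absurd (show lab ((nx v)^[0] z) ∈ B by
        rw [Function.iterate_zero, id, hz]; exact s.heB) hj
    · exact h
  constructor
  · rintro ⟨j, h1, h2, h3⟩
    have h4 := (s.fwd hL hn j).1.1 h3
    have h5 := (s.fwd hL hn j).2 h4 (pos p w' s.hp j (by rw [h1]; exact h2))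
    exact ⟨j, by rw [← h5, h1], h2, h4⟩
  · rintro ⟨j, h1, h2, h3⟩
    have h4 := (s.fwd hL hn j).1.2 h3
    have h5 := (s.fwd hL hn j).2 h3 (pos q w s.hq j (by rw [h1]; exact h2))
    exact ⟨j, by rw [h5, h1], h2, h4⟩

lemma Sw.BX_iff (s : Sw B w w' e p q) (hL : Leave B w p) (hn : ¬ Str B w p q) (x : ℤ × ℤ) :
    BX B w' p x ↔ BX B w p x := by
  constructor
  · rintro ⟨j, h1, h2, h3⟩
    have h4 := (s.bwd hL hn j).1.1 h3
    exact ⟨j, by rw [← (s.bwd hL hn j).2 h4, h1], h2, h4⟩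
  · rintro ⟨j, h1, h2, h3⟩
    exact ⟨j, by rw [(s.bwd hL hn j).2 h3, h1], h2, (s.bwd hL hn j).1.2 h3⟩

/-- the strands of `p` after the switch -/
lemma Sw.Str_imp (s : Sw B w w' e p q) (hLp : Leave B w p) (hLq : Leave B w q)
    (hn : ¬ Str B w p q) (hn' : ¬ Str B w q p) {z : ℤ × ℤ} (hz : Str B w' p z) :
    z = p ∨ (∃ j, 1 ≤ j ∧ (nx w)^[j] q = z ∧ ∀ i < j, lab ((nx w)^[i] q) ∈ B) ∨
      (∃ j, (pv w)^[j] p = z ∧ ∀ i < j, plab ((pv w)^[i] p) ∈ B) := by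
  rcases hz with ⟨j, h1, h2⟩ | ⟨j, h1, h2⟩
  · rcases Nat.eq_zero_or_pos j with h | h
    · subst h
      exact Or.inl h1.symm
    · have h4 := (s.fwd hLq hn' j).1.1 h2
      exact Or.inr (Or.inl ⟨j, h, by rw [← (s.fwd hLq hn' j).2 h4 h, h1], h4⟩)
  · have h4 := (s.bwd hLp hn j).1.1 h2
    exact Or.inr (Or.inr ⟨j, by rw [← (s.bwd hLp hn j).2 h4, h1], h4⟩)

lemma Sw.Str_or (s : Sw B w w' e p q) (hLp : Leave B w p) (hLq : Leave B w q)
    (hn : ¬ Str B w p q) {z : ℤ × ℤ} (hz : Str B w' p z ∨ Str B w' q z) :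
    Str B w p z ∨ Str B w q z := by
  have hn' : ¬ Str B w q p := fun h => hn (Str_symm h)
  rcases hz with hz | hz
  · rcases s.Str_imp hLp hLq hn hn' hz with h | ⟨j, -, h1, h2⟩ | ⟨j, h1, h2⟩
    · rw [h]; exact Or.inl (Str_self _ _ _)
    · exact Or.inr (Or.inl ⟨j, h1, h2⟩)
    · exact Or.inl (Or.inr ⟨j, h1, h2⟩)
  · rcases s.comm.Str_imp hLq hLp hn' hn hz with h | ⟨j, -, h1, h2⟩ | ⟨j, h1, h2⟩
    · rw [h]; exact Or.inr (Str_self _ _ _)
    · exact Or.inl (Or.inl ⟨j, h1, h2⟩)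
    · exact Or.inr (Or.inr ⟨j, h1, h2⟩)

lemma Sw.A4_imp (s : Sw B w w' e p q) (hLp : Leave B w p) (hLq : Leave B w q)
    (hn : ¬ Str B w p q) : Leave B w' p ∧ Leave B w' q ∧ ¬ Str B w' p q := by
  have hn' : ¬ Str B w q p := fun h => hn (Str_symm h)
  refine ⟨?_, ?_, ?_⟩
  · rw [leave_iff]
    obtain ⟨x, hx⟩ := (leave_iff B w q).1 hLq
    exact ⟨x, (s.FX_iff hLq hn' x).2 hx⟩
  · rw [leave_iff]
    obtain ⟨x, hx⟩ := (leave_iff B w p).1 hLp
    exact ⟨x, (s.comm.FX_iff hLp hn x).2 hx⟩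
  · intro hs
    rcases s.Str_imp hLp hLq hn hn' hs with h | ⟨j, hj, h1, h2⟩ | ⟨j, h1, h2⟩
    · exact s.hpq h.symm
    · exact s.comm.fav hLq hn' hj h2 (by rw [h1]; exact s.hq)
    · exact hn (Or.inr ⟨j, h1, h2⟩)

lemma sw_insert (he : (e.1 + e.2) % 2 = 1) (heB : e ∈ B) :
    Sw B (ω.erase e) (insert e ω) e (zu e) (zv e) := by
  obtain ⟨h1, h2, h3, h4, -, -⟩ := opc_zu he
  refine ⟨fun a ha => ?_, ?_, heB, h3, h4, ?_, fun z hz => ?_, ?_, ?_⟩
  · rw [mem_insert, mem_erase]; tauto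
  · rw [mem_insert, mem_erase]; tauto
  · rw [← h1]; exact (opc_ne _).symm
  · have hz' : lab z = lab (zu e) := by rw [hz, h3]
    rw [lab_eq_iff, h1] at hz'
    exact hz'
  · rw [← h1]; exact nxC_eq_nxO _
  · rw [← h2]; exact nxC_eq_nxO _

end FOtherAux

variable {e : ℤ × ℤ}

theorem A4_insert (he : (e.1 + e.2) % 2 = 1) (heB : e ∈ B) : A4 B e ω ↔
    Leave B (insert e ω) (zu e) ∧ Leave B (insert e ω) (zv e) ∧
      ¬ Str B (insert e ω) (zu e) (zv e) := by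
  have s := sw_insert (ω := ω) he heB
  constructor
  · rintro ⟨h1, h2, h3⟩
    exact s.A4_imp h1 h2 h3
  · rintro ⟨h1, h2, h3⟩
    exact s.symm.A4_imp h1 h2 h3

theorem U4_insert (he : (e.1 + e.2) % 2 = 1) (heB : e ∈ B) (hA : A4 B e ω) :
    U4 B e ω = UU B (insert e ω) (zu e) ∪ UU B (insert e ω) (zv e) := by
  have s := sw_insert (ω := ω) he heB
  obtain ⟨h1, h2, h3⟩ := hA
  obtain ⟨h4, h5, h6⟩ := s.A4_imp h1 h2 h3
  have key : ∀ z, (Str B (ω.erase e) (zu e) z ∨ Str B (ω.erase e) (zv e) z) ↔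
      (Str B (insert e ω) (zu e) z ∨ Str B (insert e ω) (zv e) z) := fun z =>
    ⟨s.symm.Str_or h4 h5 h6, s.Str_or h1 h2 h3⟩
  unfold U4
  ext a
  rw [mem_union, mem_union, mem_UU, mem_UU, mem_UU, mem_UU]
  constructor
  · rintro (⟨hB, z, hz, hl⟩ | ⟨hB, z, hz, hl⟩)
    · rcases (key z).1 (Or.inl hz) with h | h
      · exact Or.inl ⟨hB, z, h, hl⟩
      · exact Or.inr ⟨hB, z, h, hl⟩
    · rcases (key z).1 (Or.inr hz) with h | h
      · exact Or.inl ⟨hB, z, h, hl⟩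
      · exact Or.inr ⟨hB, z, h, hl⟩
  · rintro (⟨hB, z, hz, hl⟩ | ⟨hB, z, hz, hl⟩)
    · rcases (key z).2 (Or.inl hz) with h | h
      · exact Or.inl ⟨hB, z, h, hl⟩
      · exact Or.inr ⟨hB, z, h, hl⟩
    · rcases (key z).2 (Or.inr hz) with h | h
      · exact Or.inl ⟨hB, z, h, hl⟩
      · exact Or.inr ⟨hB, z, h, hl⟩

theorem exits_insert (he : (e.1 + e.2) % 2 = 1) (heB : e ∈ B) (hA : A4 B e ω) (x : ℤ × ℤ) :
    (FX B (insert e ω) (zu e) x ↔ FX B (ω.erase e) (zv e) x) ∧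
    (FX B (insert e ω) (zv e) x ↔ FX B (ω.erase e) (zu e) x) ∧
    (BX B (insert e ω) (zu e) x ↔ BX B (ω.erase e) (zu e) x) ∧
    (BX B (insert e ω) (zv e) x ↔ BX B (ω.erase e) (zv e) x) := by
  have s := sw_insert (ω := ω) he heB
  obtain ⟨h1, h2, h3⟩ := hA
  have h3' : ¬ Str B (ω.erase e) (zv e) (zu e) := fun h => h3 (Str_symm h)
  exact ⟨s.FX_iff h2 h3' x, s.comm.FX_iff h1 h3 x, s.BX_iff h1 h3 x, s.comm.BX_iff h2 h3' x⟩

theorem A4_local {ω1 : Finset (ℤ × ℤ)} (h : ∀ a ∈ U4 B e ω, a ≠ e → (a ∈ ω1 ↔ a ∈ ω)) :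
    (A4 B e ω1 ↔ A4 B e ω) ∧ U4 B e ω1 = U4 B e ω ∧
    (∀ c, c = zu e ∨ c = zv e → ∀ x, (FX B (ω1.erase e) c x ↔ FX B (ω.erase e) c x) ∧
      (BX B (ω1.erase e) c x ↔ BX B (ω.erase e) c x)) := by
  have hu : ∀ a ∈ UU B (ω.erase e) (zu e), (a ∈ ω1.erase e ↔ a ∈ ω.erase e) := by
    intro a ha
    rw [mem_erase, mem_erase]
    refine and_congr_right fun hne => ?_
    exact h a (mem_union_left _ ha) hne
  have hv : ∀ a ∈ UU B (ω.erase e) (zv e), (a ∈ ω1.erase e ↔ a ∈ ω.erase e) := by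
    intro a ha
    rw [mem_erase, mem_erase]
    refine and_congr_right fun hne => ?_
    exact h a (mem_union_right _ ha) hne
  obtain ⟨u1, u2, u3, u4, u5⟩ := local_UU hu
  obtain ⟨v1, v2, v3, v4, v5⟩ := local_UU hv
  refine ⟨?_, ?_, ?_⟩
  · unfold A4
    rw [u5, v5, u1]
  · unfold U4
    rw [u2, v2]
  · rintro c (rfl | rfl) x
    · exact ⟨u3 x, u4 x⟩
    · exact ⟨v3 x, v4 x⟩

theorem U4_mix (ω' : Finset (ℤ × ℤ)) : U4 B e (mix (U4 B e ω) ω ω') = U4 B e ω := by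
  refine (A4_local (ω := ω) (ω1 := mix (U4 B e ω) ω ω') ?_).2.1
  intro a ha _
  rw [mem_mix]
  tauto

end

end Pool.Agent.H75.Four
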