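import Mathlib
import Pool.Agent.H75.Four.Defs
import Pool.Agent.H75.TwoArm.Symm

set_option autoImplicit false
open Finset

/-! Four arms, part FA4 (helper41): transport by the rotation by a right angle. -/

namespace Pool.Agent.H75.Four

open Pool.Agent.H75.Perc
open Pool.Agent.H75.TwoArm
open Pool.Agent.H75.TwoArm.SymmAux

namespace RotAux

lemma plab_rot (c : ℤ × ℤ) : plab (rotc c) = rotL (plab c) := by
  obtain ⟨a, b⟩ := c
  unfold plab rotc rotL
  simp only [Function.Embedding.coeFn_mk]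
  split_ifs <;> first | (exfalso; omega) | (refine Prod.ext ?_ ?_ <;> simp only <;> omega)

lemma pvO_rot (c : ℤ × ℤ) : pvO (rotc c) = rotc (pvO c) := by
  obtain ⟨a, b⟩ := c
  unfold pvO rotc
  simp only
  split_ifs <;> first | (exfalso; omega) | (refine Prod.ext ?_ ?_ <;> simp only <;> omega)

lemma pvC_rot (c : ℤ × ℤ) : pvC (rotc c) = rotc (pvC c) := by
  obtain ⟨a, b⟩ := c
  unfold pvC rotc
  simp only
  split_ifs <;> first | (exfalso; omega) | (refine Prod.ext ?_ ?_ <;> simp only <;> omega)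

lemma pv_rot (ω : Finset (ℤ × ℤ)) (c : ℤ × ℤ) : pv (ω.map rotL) (rotc c) = rotc (pv ω c) := by
  rw [pv_eq, pv_eq, plab_rot, pvO_rot, pvC_rot]
  by_cases h : plab c ∈ ω
  · rw [if_pos h, if_pos ((mem_map' rotL).2 h)]
  · rw [if_neg h, if_neg (fun h' => h ((mem_map' rotL).1 h'))]

lemma pv_rot_iter (ω : Finset (ℤ × ℤ)) (c : ℤ × ℤ) (j : ℕ) :
    (pv (ω.map rotL))^[j] (rotc c) = rotc ((pv ω)^[j] c) := by
  induction j with
  | zero => rfl
  | succ j ih => rw [Function.iterate_succ_apply', Function.iterate_succ_apply', ih, pv_rot]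

lemma rotc_surj (z : ℤ × ℤ) : ∃ y, rotc y = z := by
  refine ⟨(z.2, 1 - z.1), ?_⟩
  unfold rotc
  refine Prod.ext ?_ ?_ <;> simp only ; omega

lemma pv_nx_aux (w : Finset (ℤ × ℤ)) (c : ℤ × ℤ) :
    (lab c ∈ w → pvO (nxO c) = c) ∧ (lab c ∉ w → pvC (nxC c) = c) := by
  obtain ⟨a, b⟩ := c
  constructor
  · intro _
    unfold nxO pvO
    simp only
    split_ifs <;> first | (exfalso; omega) | (refine Prod.ext ?_ ?_ <;> simp only <;> omega)
  · intro _
    unfold nxC pvC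
    simp only
    split_ifs <;> first | (exfalso; omega) | (refine Prod.ext ?_ ?_ <;> simp only <;> omega)

lemma pv_nx' (w : Finset (ℤ × ℤ)) (c : ℤ × ℤ) : pv w (nx w c) = c := by
  rw [pv_eq, plab_nx]
  unfold nx
  by_cases h : lab c ∈ w
  · rw [if_pos h, if_pos h]; exact (pv_nx_aux w c).1 h
  · rw [if_neg h, if_neg h]; exact (pv_nx_aux w c).2 h

lemma pv_nx_iter (w : Finset (ℤ × ℤ)) (c : ℤ × ℤ) (j i : ℕ) (h : i ≤ j) :
    (pv w)^[i] ((nx w)^[j] c) = (nx w)^[j - i] c := by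
  induction i with
  | zero => rfl
  | succ i ih =>
    rw [Function.iterate_succ_apply', ih (by omega)]
    obtain ⟨k, hk⟩ : ∃ k, j - i = k + 1 := ⟨j - i - 1, by omega⟩
    rw [hk, Function.iterate_succ_apply', pv_nx']
    congr 1
    omega

lemma nx_pv_iter (w : Finset (ℤ × ℤ)) (c : ℤ × ℤ) (j i : ℕ) (h : i ≤ j) :
    (nx w)^[i] ((pv w)^[j] c) = (pv w)^[j - i] c := by
  induction i with
  | zero => rfl
  | succ i ih =>
    rw [Function.iterate_succ_apply', ih (by omega)]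
    obtain ⟨k, hk⟩ : ∃ k, j - i = k + 1 := ⟨j - i - 1, by omega⟩
    rw [hk, Function.iterate_succ_apply', nx_pv]
    congr 1
    omega

lemma Str_symm1 {B ω : Finset (ℤ × ℤ)} {c z : ℤ × ℤ} (h : Str B ω c z) : Str B ω z c := by
  rcases h with ⟨j, rfl, h2⟩ | ⟨j, rfl, h2⟩
  · refine Or.inr ⟨j, by rw [pv_nx_iter _ _ _ _ le_rfl, Nat.sub_self]; rfl, fun i hi => ?_⟩
    rw [pv_nx_iter _ _ _ _ hi.le]
    obtain ⟨k, hk⟩ : ∃ k, j - i = k + 1 := ⟨j - i - 1, by omega⟩
    rw [hk, Function.iterate_succ_apply', plab_nx]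
    exact h2 k (by omega)
  · refine Or.inl ⟨j, by rw [nx_pv_iter _ _ _ _ le_rfl, Nat.sub_self]; rfl, fun i hi => ?_⟩
    rw [nx_pv_iter _ _ _ _ hi.le]
    obtain ⟨k, hk⟩ : ∃ k, j - i = k + 1 := ⟨j - i - 1, by omega⟩
    rw [hk, Function.iterate_succ_apply', lab_pv]
    exact h2 k (by omega)

lemma Str_comm' {B ω : Finset (ℤ × ℤ)} {c z : ℤ × ℤ} : Str B ω c z ↔ Str B ω z c :=
  ⟨Str_symm1, Str_symm1⟩

end RotAux

open RotAux

section rot

variable {B ω U ω'' E : Finset (ℤ × ℤ)} {c x z e u v f g : ℤ × ℤ}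

lemma Str_rot : Str (B.map rotL) (ω.map rotL) (rotc c) (rotc z) ↔ Str B ω c z := by
  unfold Str
  simp only [nx_rot_iter, pv_rot_iter, rotc_inj, lab_rot, plab_rot, mem_map']

lemma FX_rot' : FX (B.map rotL) (ω.map rotL) (rotc c) (rotc x) ↔ FX B ω c x := by
  unfold FX
  simp only [nx_rot_iter, rotc_inj, lab_rot, mem_map']

lemma BX_rot' : BX (B.map rotL) (ω.map rotL) (rotc c) (rotc x) ↔ BX B ω c x := by
  unfold BX
  simp only [pv_rot_iter, rotc_inj, plab_rot, mem_map']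

lemma Leave_rot' : Leave (B.map rotL) (ω.map rotL) (rotc c) ↔ Leave B ω c := by
  unfold Leave
  simp only [nx_rot_iter, lab_rot, mem_map']

lemma UU_rot : UU (B.map rotL) (ω.map rotL) (rotc c) = (UU B ω c).map rotL := by
  ext a
  constructor
  · intro ha
    obtain ⟨h1, y, h2, h3⟩ := StrandAux.mem_UU.1 ha
    obtain ⟨b, hb, rfl⟩ := mem_map.1 h1
    obtain ⟨z, rfl⟩ := rotc_surj y
    rw [Str_rot] at h2
    rw [lab_rot, plab_rot, rotL.apply_eq_iff_eq, rotL.apply_eq_iff_eq] at h3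
    exact mem_map.2 ⟨b, StrandAux.mem_UU.2 ⟨hb, z, h2, h3⟩, rfl⟩
  · intro ha
    obtain ⟨b, hb, rfl⟩ := mem_map.1 ha
    obtain ⟨h1, z, h2, h3⟩ := StrandAux.mem_UU.1 hb
    refine StrandAux.mem_UU.2 ⟨mem_map.2 ⟨b, h1, rfl⟩, rotc z, Str_rot.2 h2, ?_⟩
    rw [lab_rot, plab_rot, rotL.apply_eq_iff_eq, rotL.apply_eq_iff_eq]
    exact h3

lemma rotc_zu_h (h1 : e.1 % 2 = 1) (h2 : e.2 % 2 = 0) :
    rotc (zu e) = zu (rotL e) ∧ rotc (zv e) = zv (rotL e) := by
  obtain ⟨a, b⟩ := e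
  unfold rotc zu zv rotL
  simp only [Function.Embedding.coeFn_mk] at h1 h2 ⊢
  constructor <;> split_ifs <;>
    first | (exfalso; omega) | (refine Prod.ext ?_ ?_ <;> simp only <;> omega)

lemma rotc_zu_v (h1 : e.1 % 2 = 0) (h2 : e.2 % 2 = 1) :
    rotc (zu e) = zv (rotL e) ∧ rotc (zv e) = zu (rotL e) := by
  obtain ⟨a, b⟩ := e
  unfold rotc zu zv rotL
  simp only [Function.Embedding.coeFn_mk] at h1 h2 ⊢
  constructor <;> split_ifs <;>
    first | (exfalso; omega) | (refine Prod.ext ?_ ?_ <;> simp only <;> omega)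

lemma erase_rot : (ω.erase e).map rotL = (ω.map rotL).erase (rotL e) := map_erase rotL ω e

lemma insert_rot : (insert e ω).map rotL = insert (rotL e) (ω.map rotL) := map_insert rotL e ω

lemma A4_rot (he : (e.1 + e.2) % 2 = 1) :
    A4 (B.map rotL) (rotL e) (ω.map rotL) ↔ A4 B e ω := by
  unfold A4
  rw [← erase_rot]
  rcases Int.emod_two_eq_zero_or_one e.1 with h1 | h1
  · obtain ⟨h3, h4⟩ := rotc_zu_v (e := e) h1 (by omega)
    rw [← h3, ← h4, Leave_rot', Leave_rot', Str_rot, Str_comm']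
    tauto
  · obtain ⟨h3, h4⟩ := rotc_zu_h (e := e) h1 (by omega)
    rw [← h3, ← h4, Leave_rot', Leave_rot', Str_rot]

lemma U4_rot (he : (e.1 + e.2) % 2 = 1) :
    U4 (B.map rotL) (rotL e) (ω.map rotL) = (U4 B e ω).map rotL := by
  unfold U4
  rw [← erase_rot, map_union]
  rcases Int.emod_two_eq_zero_or_one e.1 with h1 | h1
  · obtain ⟨h3, h4⟩ := rotc_zu_v (e := e) h1 (by omega)
    rw [← h3, ← h4, UU_rot, UU_rot, union_comm]
  · obtain ⟨h3, h4⟩ := rotc_zu_h (e := e) h1 (by omega)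
    rw [← h3, ← h4, UU_rot, UU_rot]

lemma mix_rot : (mix U ω ω'').map rotL = mix (U.map rotL) (ω.map rotL) (ω''.map rotL) := by
  unfold mix
  rw [map_union, map_inter, Finset.map_sdiff]

lemma sh1_rot : (E.map rotL).map sh1 = (E.map sh1).map rotD := by
  rw [map_map, map_map]
  congr 1
  ext a
  · unfold rotL sh1 rotD
    simp only [Function.Embedding.trans_apply, Function.Embedding.coeFn_mk]
    omega
  · unfold rotL sh1 rotD
    simp only [Function.Embedding.trans_apply, Function.Embedding.coeFn_mk]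

lemma du_rot : du (E.map rotL) (ω.map rotL) = (du E ω).map rotD := by
  unfold du
  rw [← Finset.map_sdiff, sh1_rot]

lemma Co_rot : Co (ω.map rotL) (rv u) (rv v) ↔ Co ω u v := by
  have hmem : ∀ a : ℤ × ℤ, (-a.2, a.1) ∈ ω.map rotL ↔ a ∈ ω := fun a => mem_map' rotL
  constructor
  · intro h
    have h1 := Relation.ReflTransGen.lift (p := Ad ω) (fun w : ℤ × ℤ => (w.2, -w.1)) (r := Ad (ω.map rotL)) (fun a b hab => by
      obtain ⟨h1, h2⟩ := hab
      refine ⟨?_, ?_⟩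
      · unfold IsUnit4 at h1 ⊢
        simp only [Prod.ext_iff, Prod.fst_sub, Prod.snd_sub] at h1 ⊢
        omega
      · rw [← hmem]
        have : (-((a.2, -a.1) + (b.2, -b.1) : ℤ × ℤ).2, ((a.2, -a.1) + (b.2, -b.1) : ℤ × ℤ).1) = a + b := by
          refine Prod.ext ?_ ?_ <;> simp only [Prod.fst_add, Prod.snd_add] ; omega
        rw [this]; exact h2) _ _ h
    simp only [rv, Function.onFun, neg_neg] at h1
    exact h1
  · intro h
    refine Relation.ReflTransGen.lift (p := Ad (ω.map rotL)) (r := Ad ω) rv (fun a b hab => ?_) _ _ h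
    obtain ⟨h1, h2⟩ := hab
    refine ⟨?_, ?_⟩
    · unfold IsUnit4 at h1 ⊢
      unfold rv
      simp only [Prod.ext_iff, Prod.fst_sub, Prod.snd_sub] at h1 ⊢
      omega
    · rw [← hmem] at h2
      have : rv a + rv b = (-(a + b).2, (a + b).1) := by
        unfold rv
        refine Prod.ext ?_ ?_ <;> simp only [Prod.fst_add, Prod.snd_add] ; omega
      rw [this]; exact h2

lemma Co_rotD : Co (ω.map rotD) (rf f) (rf g) ↔ Co ω f g := by
  have hmem : ∀ a : ℤ × ℤ, (2 - a.2, a.1) ∈ ω.map rotD ↔ a ∈ ω := fun a => mem_map' rotD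
  constructor
  · intro h
    have h1 := Relation.ReflTransGen.lift (p := Ad ω) (fun w : ℤ × ℤ => (w.2, 1 - w.1)) (r := Ad (ω.map rotD)) (fun a b hab => by
      obtain ⟨h1, h2⟩ := hab
      refine ⟨?_, ?_⟩
      · unfold IsUnit4 at h1 ⊢
        simp only [Prod.ext_iff, Prod.fst_sub, Prod.snd_sub] at h1 ⊢
        omega
      · rw [← hmem]
        have : (2 - ((a.2, 1 - a.1) + (b.2, 1 - b.1) : ℤ × ℤ).2,
            ((a.2, 1 - a.1) + (b.2, 1 - b.1) : ℤ × ℤ).1) = a + b := by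
          refine Prod.ext ?_ ?_ <;> simp only [Prod.fst_add, Prod.snd_add] ; omega
        rw [this]; exact h2) _ _ h
    simp only [rf, Function.onFun, sub_sub_cancel] at h1
    exact h1
  · intro h
    refine Relation.ReflTransGen.lift (p := Ad (ω.map rotD)) (r := Ad ω) rf (fun a b hab => ?_) _ _ h
    obtain ⟨h1, h2⟩ := hab
    refine ⟨?_, ?_⟩
    · unfold IsUnit4 at h1 ⊢
      unfold rf
      simp only [Prod.ext_iff, Prod.fst_sub, Prod.snd_sub] at h1 ⊢
      omega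
    · rw [← hmem] at h2
      have : rf a + rf b = (2 - (a + b).2, (a + b).1) := by
        unfold rf
        refine Prod.ext ?_ ?_ <;> simp only [Prod.fst_add, Prod.snd_add] ; omega
      rw [this]; exact h2

lemma vx_rot (z : ℤ × ℤ) : vx (rotc z) = rv (vx z) := by
  unfold vx rotc rv
  refine Prod.ext ?_ ?_ <;> simp only ; omega

lemma fi_rot (z : ℤ × ℤ) : fi (rotc z) = rf (fi z) := by
  unfold fi rotc rf
  refine Prod.ext ?_ ?_ <;> simp only ; omega

lemma ray_rot {r : ℤ} : ray r (rotc x) (rotc z) ↔ ray r x z := by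
  unfold ray rotc
  simp only
  omega

lemma Pr_rotL (E : Finset (ℤ × ℤ)) (A : Finset (ℤ × ℤ) → Prop) :
    Pr (E.map rotL) (fun ω => A ω) = Pr E (fun ω => A (ω.map rotL)) := Pr_map rotL E A

end rot

end Pool.Agent.H75.Four
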