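import Mathlib
import Pool.Agent.H75.Four.Defs

set_option autoImplicit false
open Finset

/-! Four arms from an edge `e` outside a hole: definitions. The set of labels is `BB M \ BB k`, the
configuration lies in `BB (M - 1)`, so the strands can leave only through the hole `BB k`. -/

namespace Pool.Agent.H75.Four

open Pool.Agent.H75.Perc
open Pool.Agent.H75.TwoArm

/-- standing assumptions -/
structure Hole (k M : ℤ) (e : ℤ × ℤ) (ω : Finset (ℤ × ℤ)) : Prop where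
  hk : 1 ≤ k
  he : (e.1 + e.2) % 2 = 1
  hE : e ∈ BB (M - 1)
  hB : e ∉ BB k
  hw : ω ⊆ BB (M - 1)

/-- The inward path from the hit `(-2k, b)` of the left side of the hole: row `b`, then the column `1`
to the central label `(0,1)`. -/
def Pw (k b : ℤ) (z : ℤ × ℤ) : Prop :=
  (z.2 = b ∧ -(2 * k) + 1 ≤ z.1 ∧ z.1 ≤ 0) ∨
  (z.1 = 1 ∧ ((2 ≤ z.2 ∧ z.2 ≤ 2 * ((b - 1) / 2) + 1) ∨ (2 * ((b - 1) / 2) + 2 ≤ z.2 ∧ z.2 ≤ 1)))

/-- The inward path from a hit `x` to the central label `(0,1)`. -/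
def Ph (k : ℤ) (x z : ℤ × ℤ) : Prop :=
  if x.1 = -(2 * k) then Pw k x.2 z
  else if x.2 = -(2 * k) then ¬ (Pw k (1 - x.1) (z.2, 1 - z.1) ↔ z = (0, 1))
  else if x.1 = 2 * k + 1 then ¬ (Pw k (1 - x.2) (1 - z.1, 1 - z.2) ↔ (z = (0, 0) ∨ z = (0, 1)))
  else ¬ (Pw k x.1 (1 - z.2, z.1) ↔ z = (1, 1))

/-- The closing inside the hole. -/
def Rh (k : ℤ) (x1 x2 z : ℤ × ℤ) : Prop := ¬ (Ph k x1 z ↔ Ph k x2 z)

/-- possible positions of hits, `b` is the height in the frame of the side -/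
def Hpos (k b : ℤ) (x : ℤ × ℤ) : Prop :=
  -(2 * k) + 1 ≤ b ∧ b ≤ 2 * k ∧
  (x = (2 * k + 1, 1 - b) ∨ x = (b, 2 * k + 1) ∨ x = (-(2 * k), b) ∨ x = (1 - b, -(2 * k)))

/-- `x` is one of the four hits. -/
def ExB (B : Finset (ℤ × ℤ)) (e : ℤ × ℤ) (ω : Finset (ℤ × ℤ)) (x : ℤ × ℤ) : Prop :=
  FX B (ω.erase e) (zu e) x ∨ BX B (ω.erase e) (zu e) x ∨
  FX B (ω.erase e) (zv e) x ∨ BX B (ω.erase e) (zv e) x

/-- the ring of points of the boundary of the box `[-2k,2k]²` of the label lattice, counterclockwise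
from the lower right vertex, `0 ≤ j ≤ 16 k` (`j` even: vertices, `j` odd: labels); the corner `x` with
`clk k x = j` lies between the points `j` and `j + 1` -/
def rp (k j : ℤ) : ℤ × ℤ :=
  if j ≤ 4 * k then (2 * k, j - 2 * k) else if j ≤ 8 * k then (6 * k - j, 2 * k)
  else if j ≤ 12 * k then (-(2 * k), 10 * k - j) else (j - 14 * k, -(2 * k))

end Pool.Agent.H75.Four
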