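import Mathlib
import Pool.Agent.H75.Four.Defs
import Pool.Agent.H75.TwoArm.Track

set_option autoImplicit false
open Finset

/-! FA1 (helper33): the two-colouring of the plane cut along the two strands from `c` and a closing
`R`, and its elementary properties. -/

namespace Pool.Agent.H75.Four

open Pool.Agent.H75.Perc
open Pool.Agent.H75.TwoArm

section

variable {B ω : Finset (ℤ × ℤ)} {c x1 x2 : ℤ × ℤ} {R : ℤ × ℤ → Prop} {S : ℤ × ℤ → Bool}

namespace FColAux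

lemma str_lab_plab {z : ℤ × ℤ} (hc : lab c ∈ B) (hz : Str B ω c z) : lab z ∈ B ∨ plab z ∈ B := by
  rcases hz with ⟨j, h1, h2⟩ | ⟨j, h1, h2⟩
  · rcases j with _ | j
    · left
      have : c = z := h1
      rw [← this]; exact hc
    · right
      rw [← h1, Function.iterate_succ_apply', plab_nx]
      exact h2 j (by omega)
  · left
    rcases j with _ | j
    · have : c = z := h1
      rw [← this]; exact hc
    · rw [← h1, Function.iterate_succ_apply', lab_pv]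
      exact h2 j (by omega)

lemma fin_str (h1 : FX B ω c x1) (p : ℤ × ℤ) : {k : ℕ | Str B ω c (p.1 + k, p.2 + k)}.Finite := by
  classical
  have hfin : {k : ℕ | lab (p.1 + k, p.2 + k) ∈ B}.Finite := by
    obtain ⟨M, hM⟩ := (B.image (fun a : ℤ × ℤ => a.1)).bddAbove
    refine (Set.finite_le_nat ((M + 1 - p.1).toNat)).subset ?_
    intro k hk
    simp only [Set.mem_ofPred_eq] at hk ⊢
    have h3 := TrackAux.lab_bd (p.1 + k, p.2 + k)
    have h4 : (lab (p.1 + k, p.2 + k)).1 ≤ M := hM (by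
      rw [mem_coe, mem_image]; exact ⟨_, hk, rfl⟩)
    simp only at h3
    omega
  have hfin2 : {k : ℕ | ((p.1 + k, p.2 + k) : ℤ × ℤ) = x1}.Finite := by
    refine (Set.finite_le_nat ((x1.1 - p.1).toNat)).subset ?_
    intro k hk
    simp only [Set.mem_ofPred_eq] at hk ⊢
    have h3 := congrArg Prod.fst hk
    simp only at h3
    omega
  refine (hfin.union hfin2).subset ?_
  intro k hk
  simp only [Set.mem_ofPred_eq, Set.mem_union] at hk ⊢
  by_cases hl : lab (p.1 + k, p.2 + k) ∈ B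
  · exact Or.inl hl
  · exact Or.inr (Str_FX h1 hk hl)

lemma ev_or {X Y : ℤ × ℤ → Prop} {a : ℤ × ℤ}
    (h : ∀ z, (z = a ∨ z = (a.1 + 1, a.2) ∨ z = (a.1, a.2 + 1) ∨ z = (a.1 + 1, a.2 + 1)) →
      X z → ¬ Y z) : Ev (fun z => X z ∨ Y z) a ↔ (Ev X a ↔ Ev Y a) := by
  have h1 := h a (Or.inl rfl)
  have h2 := h _ (Or.inr (Or.inl rfl))
  have h3 := h _ (Or.inr (Or.inr (Or.inl rfl)))
  have h4 := h _ (Or.inr (Or.inr (Or.inr rfl)))
  unfold Ev
  by_cases a1 : X a <;> by_cases a2 : X (a.1 + 1, a.2) <;> by_cases a3 : X (a.1, a.2 + 1) <;>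
    by_cases a4 : X (a.1 + 1, a.2 + 1) <;> simp only [a1, a2, a3, a4, forall_true_left,
      false_imp_iff] at h1 h2 h3 h4 <;>
    simp only [a1, a2, a3, a4, h1, h2, h3, h4, false_or, or_false, iff_true,
      true_iff, iff_false, false_iff, not_true, not_not, iff_self] <;> tauto

lemma lab_ne_plab (z : ℤ × ℤ) : lab z ≠ plab z := by
  obtain ⟨a, b⟩ := z
  unfold lab plab
  simp only
  split_ifs <;> simp only [ne_eq, Prod.mk.injEq] <;> omega

/-- the four corners around a label -/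
lemma four {a : ℤ × ℤ} (ha : (a.1 + a.2) % 2 = 1) : ∃ z1 z2 z3 z4 : ℤ × ℤ, z1 ≠ z4 ∧ z2 ≠ z3 ∧
    (∀ z, lab z = a ↔ z = z1 ∨ z = z4) ∧ (∀ z, plab z = a ↔ z = z2 ∨ z = z3) ∧
    (∀ X : ℤ × ℤ → Prop, Ev X a ↔ ((X z1 ↔ X z4) ↔ (X z2 ↔ X z3))) ∧
    ∃ u v f g, TrackAux.Quad a u v f g z1 z2 z3 z4 := by
  have main : ∀ {u v f g z1 z2 z3 z4 : ℤ × ℤ}, TrackAux.Quad a u v f g z1 z2 z3 z4 →
      z1 ≠ z4 → z2 ≠ z3 → (∀ X : ℤ × ℤ → Prop, Ev X a ↔ ((X z1 ↔ X z4) ↔ (X z2 ↔ X z3))) →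
      ∃ z1 z2 z3 z4 : ℤ × ℤ, z1 ≠ z4 ∧ z2 ≠ z3 ∧
      (∀ z, lab z = a ↔ z = z1 ∨ z = z4) ∧ (∀ z, plab z = a ↔ z = z2 ∨ z = z3) ∧
      (∀ X : ℤ × ℤ → Prop, Ev X a ↔ ((X z1 ↔ X z4) ↔ (X z2 ↔ X z3))) ∧
      ∃ u v f g, TrackAux.Quad a u v f g z1 z2 z3 z4 := by
    intro u v f g z1 z2 z3 z4 q n1 n2 hX
    refine ⟨z1, z2, z3, z4, n1, n2, ?_, ?_, hX, u, v, f, g, q⟩
    · intro z
      constructor
      · intro hz
        have h1 := (corners_iff ha).1 (Or.inl hz)
        rw [q.all z] at h1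
        rcases h1 with h1 | h1 | h1 | h1
        · exact Or.inl h1
        · exact absurd (by rw [hz, h1, q.p2]) (lab_ne_plab z)
        · exact absurd (by rw [hz, h1, q.p3]) (lab_ne_plab z)
        · exact Or.inr h1
      · rintro (rfl | rfl)
        · exact q.l1
        · exact q.l4
    · intro z
      constructor
      · intro hz
        have h1 := (corners_iff ha).1 (Or.inr hz)
        rw [q.all z] at h1
        rcases h1 with h1 | h1 | h1 | h1
        · exact absurd (by rw [hz, h1, q.l1]) (lab_ne_plab z)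
        · exact Or.inl h1
        · exact Or.inr h1
        · exact absurd (by rw [hz, h1, q.l4]) (lab_ne_plab z)
      · rintro (rfl | rfl)
        · exact q.p2
        · exact q.p3
  obtain ⟨a1, a2⟩ := a
  simp only at ha
  rcases Int.even_or_odd' a1 with ⟨x, rfl | rfl⟩
  · obtain ⟨y, rfl⟩ : ∃ y, a2 = 2 * y + 1 := ⟨(a2 - 1) / 2, by omega⟩
    refine main (TrackAux.quad_v x y) ?_ ?_ ?_
    · simp
    · simp
    · intro X
      unfold Ev
      have e1 : 2 * y + 1 + 1 = 2 * y + 2 := by ring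
      simp only [e1]
      exact iff_comm
  · obtain ⟨y, rfl⟩ : ∃ y, a2 = 2 * y := ⟨a2 / 2, by omega⟩
    refine main (TrackAux.quad_h x y) ?_ ?_ ?_
    · simp
    · simp
    · intro X
      unfold Ev
      have e1 : 2 * x + 1 + 1 = 2 * x + 2 := by ring
      simp only [e1]
      exact iff_congr Iff.rfl iff_comm

lemma ev_str_in {a : ℤ × ℤ} (ha : (a.1 + a.2) % 2 = 1) (haB : a ∈ B) : Ev (Str B ω c) a := by
  obtain ⟨z1, z2, z3, z4, -, -, -, -, hX, u, v, f, g, q⟩ := four ha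
  rw [hX]
  exact q.even haB

lemma ev_str_out (h1 : FX B ω c x1) (h2 : BX B ω c x2) {a : ℤ × ℤ} (ha : (a.1 + a.2) % 2 = 1)
    (haB : a ∉ B) : Ev (Str B ω c) a ↔ (a = lab x1 ↔ a = plab x2) := by
  obtain ⟨z1, z2, z3, z4, n1, n2, hl, hp, hX, -⟩ := four ha
  rw [hX]
  have s1 : ∀ z, lab z = a → (Str B ω c z ↔ z = x1) := by
    intro z hz
    constructor
    · intro hs; exact Str_FX h1 hs (by rw [hz]; exact haB)
    · rintro rfl; exact TrackAux.FX_Str h1
  have s2 : ∀ z, plab z = a → (Str B ω c z ↔ z = x2) := by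
    intro z hz
    constructor
    · intro hs; exact Str_BX h2 hs (by rw [hz]; exact haB)
    · rintro rfl; exact TrackAux.BX_Str h2
  rw [s1 z1 ((hl z1).2 (Or.inl rfl)), s1 z4 ((hl z4).2 (Or.inr rfl)),
    s2 z2 ((hp z2).2 (Or.inl rfl)), s2 z3 ((hp z3).2 (Or.inr rfl))]
  have t1 : a = lab x1 ↔ (x1 = z1 ∨ x1 = z4) := by rw [← hl x1]; exact eq_comm
  have t2 : a = plab x2 ↔ (x2 = z2 ∨ x2 = z3) := by rw [← hp x2]; exact eq_comm
  rw [t1, t2]
  have u1 : (z1 = x1 ↔ z4 = x1) ↔ ¬ (x1 = z1 ∨ x1 = z4) := by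
    constructor
    · rintro h (h' | h')
      · exact n1 ((h.1 h'.symm).trans h').symm
      · exact n1 ((h.2 h'.symm).trans h')
    · intro h
      constructor
      · intro h'; exact absurd (Or.inl h'.symm) h
      · intro h'; exact absurd (Or.inr h'.symm) h
  have u2 : (z2 = x2 ↔ z3 = x2) ↔ ¬ (x2 = z2 ∨ x2 = z3) := by
    constructor
    · rintro h (h' | h')
      · exact n2 ((h.1 h'.symm).trans h').symm
      · exact n2 ((h.2 h'.symm).trans h')
    · intro h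
      constructor
      · intro h'; exact absurd (Or.inl h'.symm) h
      · intro h'; exact absurd (Or.inr h'.symm) h
  rw [u1, u2]
  exact not_iff_not

lemma str_not_R (hc : lab c ∈ B) (hR : ∀ z, R z → lab z ∉ B ∧ plab z ∉ B) {z : ℤ × ℤ}
    (hz : Str B ω c z) : ¬ R z := by
  intro h
  rcases str_lab_plab hc hz with h3 | h3
  · exact (hR z h).1 h3
  · exact (hR z h).2 h3

lemma ev_Z (hc : lab c ∈ B) (h1 : FX B ω c x1) (h2 : BX B ω c x2) (hR : Clo B x1 x2 R)
    {a : ℤ × ℤ} (ha : (a.1 + a.2) % 2 = 1) : Ev (fun z => Str B ω c z ∨ R z) a := by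
  rw [ev_or (fun z _ hz => str_not_R hc hR.out hz)]
  by_cases haB : a ∈ B
  · have k1 : Ev (Str B ω c) a := ev_str_in ha haB
    have k2 : Ev R a := by
      rw [hR.par a ha]
      obtain ⟨-, -, l1, -⟩ := h1
      obtain ⟨-, -, l2, -⟩ := h2
      constructor
      · rintro rfl; exact absurd haB l1
      · rintro rfl; exact absurd haB l2
    exact ⟨fun _ => k2, fun _ => k1⟩
  · rw [ev_str_out h1 h2 ha haB, hR.par a ha]

end FColAux

open FColAux

theorem exists_TCR (hc : lab c ∈ B) (h1 : FX B ω c x1) (h2 : BX B ω c x2) (hR : Clo B x1 x2 R) :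
    ∃ S, TCR B ω c R S := by
  have hfin : ∀ p : ℤ × ℤ, {k : ℕ | (fun z => Str B ω c z ∨ R z) (p.1 + k, p.2 + k)}.Finite := by
    intro p
    refine ((fin_str h1 p).union (hR.fin p)).subset ?_
    intro k hk
    exact hk
  obtain ⟨S, hS⟩ := exists_Col (fun z => Str B ω c z ∨ R z) hfin (fun e he => ev_Z hc h1 h2 hR he)
  have hZ : ∀ z, Str B ω c z → (fun z => Str B ω c z ∨ R z) z := fun z hz => Or.inl hz
  have key := TrackAux.Col_str hS hZ
  have fin : ∀ S' : ℤ × ℤ → Bool, Col (fun z => Str B ω c z ∨ R z) S' →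
      (∀ z, Str B ω c z → S' (dbl (vx z)) = true) → TCR B ω c R S' := by
    intro S' hS' hv
    refine ⟨fun z hz => ⟨hv z hz, ?_⟩, fun z hz => ?_, fun z hz hz' => ?_⟩
    · have h3 := (hS' z).1 (Or.inl hz)
      rw [hv z hz] at h3
      cases hf : S' (fce z) with
      | true => exact absurd hf.symm h3
      | false => rfl
    · exact (hS' z).1 (Or.inr hz)
    · by_contra h'
      rcases (hS' z).2 h' with h3 | h3
      · exact hz h3
      · exact hz' h3
  cases hc' : S (dbl (vx c)) with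
  | true =>
    exact ⟨S, fin S hS (fun z hz => by rw [key z hz, hc'])⟩
  | false =>
    refine ⟨fun p => ! S p, fin _ ?_ (fun z hz => ?_)⟩
    · intro z
      rw [hS z]
      simp only
      cases S (dbl (vx z)) <;> cases S (fce z) <;> simp
    · rw [key z hz, hc']
      rfl

lemma TCR.fresh (h : TCR B ω c R S) {u v : ℤ × ℤ} (huv : IsUnit4 (v - u))
    (hn : ∀ z, Tch (u + v) z → ¬ Str B ω c z ∧ ¬ R z) : S (dbl u) = S (dbl v) := by
  obtain ⟨f, g, z1, z2, z3, z4, q⟩ := TrackAux.quad_of_uv huv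
  obtain ⟨n1, m1⟩ := hn z1 (Or.inl q.l1)
  obtain ⟨n3, m3⟩ := hn z3 (Or.inr q.p3)
  have a1 := h.col z1 n1 m1
  have a3 := h.col z3 n3 m3
  rw [q.v1, q.f1] at a1
  rw [q.v3, q.f3] at a3
  rw [a1, a3]

lemma TCR.freshd (h : TCR B ω c R S) {f g : ℤ × ℤ} (hfg : IsUnit4 (g - f))
    (hn : ∀ z, Tch (f + g - (1, 1)) z → ¬ Str B ω c z ∧ ¬ R z) : S (fp f) = S (fp g) := by
  obtain ⟨u, v, z1, z2, z3, z4, q⟩ := TrackAux.quad_of_fg hfg
  obtain ⟨n1, m1⟩ := hn z1 (Or.inl q.l1)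
  obtain ⟨n2, m2⟩ := hn z2 (Or.inr q.p2)
  have a1 := h.col z1 n1 m1
  have a2 := h.col z2 n2 m2
  rw [q.v1, q.f1] at a1
  rw [q.v2, q.f2] at a2
  rw [← a1, ← a2]

lemma no_touch (hR : ∀ z, R z → lab z ∉ B ∧ plab z ∉ B) {a : ℤ × ℤ} (haB : a ∈ B)
    (hU : a ∉ UU B ω c) : ∀ z, Tch a z → ¬ Str B ω c z ∧ ¬ R z := by
  intro z hz
  refine ⟨fun hs => hU (StrandAux.mem_UU.2 ⟨haB, z, hs, hz⟩), fun hr => ?_⟩
  rcases hz with h3 | h3
  · exact (hR z hr).1 (by rw [h3]; exact haB)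
  · exact (hR z hr).2 (by rw [h3]; exact haB)

lemma no_touch_out (h1 : FX B ω c x1) (h2 : BX B ω c x2) {a : ℤ × ℤ} (ha : a ∉ B)
    (ha1 : a ≠ lab x1) (ha2 : a ≠ plab x2) : ∀ z, Tch a z → ¬ Str B ω c z := by
  intro z hz hs
  rcases hz with h3 | h3
  · have := Str_FX h1 hs (by rw [h3]; exact ha)
    exact ha1 (by rw [← this, h3])
  · have := Str_BX h2 hs (by rw [h3]; exact ha)
    exact ha2 (by rw [← this, h3])

lemma Str_not_R (hc : lab c ∈ B) (hR : ∀ z, R z → lab z ∉ B ∧ plab z ∉ B) {z : ℤ × ℤ}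
    (hz : Str B ω c z) : ¬ R z := str_not_R hc hR hz

namespace FColAux

lemma not_R_of (hR : ∀ z, R z → lab z ∉ B ∧ plab z ∉ B) {a z : ℤ × ℤ} (ha : a ∈ B)
    (hz : lab z = a ∨ plab z = a) : ¬ R z := by
  intro hr
  rcases hz with h3 | h3
  · exact (hR z hr).1 (by rw [h3]; exact ha)
  · exact (hR z hr).2 (by rw [h3]; exact ha)

end FColAux

lemma TCR.open_eq (h : TCR B ω c R S) (hR : ∀ z, R z → lab z ∉ B ∧ plab z ∉ B) {u v : ℤ × ℤ}
    (huv : IsUnit4 (v - u)) (hB : u + v ∈ B) (ho : u + v ∈ ω) : S (dbl u) = S (dbl v) := by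
  obtain ⟨f, g, z1, z2, z3, z4, q⟩ := TrackAux.quad_of_uv huv
  have h3 := q.open_iff (c := c) hB ho
  by_cases hs : Str B ω c z1
  · have a1 := (h.str z1 hs).1
    have a3 := (h.str z3 (h3.1.2 hs)).1
    rw [q.v1] at a1
    rw [q.v3] at a3
    rw [a1, a3]
  · have a1 := h.col z1 hs (not_R_of hR hB (Or.inl q.l1))
    have a3 := h.col z3 (fun h' => hs (h3.1.1 h')) (not_R_of hR hB (Or.inr q.p3))
    rw [q.v1, q.f1] at a1
    rw [q.v3, q.f3] at a3
    rw [a1, a3]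

lemma TCR.closed_eq (h : TCR B ω c R S) (hR : ∀ z, R z → lab z ∉ B ∧ plab z ∉ B) {f g : ℤ × ℤ}
    (hfg : IsUnit4 (g - f)) (hB : f + g - (1, 1) ∈ B) (ho : f + g - (1, 1) ∉ ω) :
    S (fp f) = S (fp g) := by
  obtain ⟨u, v, z1, z2, z3, z4, q⟩ := TrackAux.quad_of_fg hfg
  have h3 := q.closed_iff (c := c) hB ho
  by_cases hs : Str B ω c z1
  · have a1 := (h.str z1 hs).2
    have a2 := (h.str z2 (h3.1.2 hs)).2
    rw [q.f1] at a1
    rw [q.f2] at a2
    rw [a1, a2]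
  · have a1 := h.col z1 hs (not_R_of hR hB (Or.inl q.l1))
    have a2 := h.col z2 (fun h' => hs (h3.1.1 h')) (not_R_of hR hB (Or.inr q.p2))
    rw [q.v1, q.f1] at a1
    rw [q.v2, q.f2] at a2
    rw [← a1, ← a2]

lemma TCR.hit (h : TCR B ω c R S) (hR : ∀ z, R z → lab z ∉ B ∧ plab z ∉ B) {u v : ℤ × ℤ}
    (huv : IsUnit4 (v - u)) (hU : u + v ∈ UU B ω c) (hS : S (dbl u) = true) :
    ∃ z, Str B ω c z ∧ vx z = u := by
  obtain ⟨f, g, z1, z2, z3, z4, q⟩ := TrackAux.quad_of_uv huv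
  rw [q.mem_UU] at hU
  obtain ⟨hB, hU⟩ := hU
  by_contra hno
  have n1 : ¬ Str B ω c z1 := fun hs => hno ⟨z1, hs, q.v1⟩
  have n2 : ¬ Str B ω c z2 := fun hs => hno ⟨z2, hs, q.v2⟩
  by_cases ho : u + v ∈ ω
  · have h3 := q.open_iff (c := c) hB ho
    rcases hU with hU | hU | hU | hU
    · exact n1 hU
    · exact n2 hU
    · exact n1 (h3.1.1 hU)
    · exact n2 (h3.2.2 hU)
  · have h3 := q.closed_iff (c := c) hB ho
    have s3 : Str B ω c z3 := by
      rcases hU with hU | hU | hU | hU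
      · exact absurd hU n1
      · exact absurd hU n2
      · exact hU
      · exact h3.2.2 hU
    have a1 := h.col z1 n1 (not_R_of hR hB (Or.inl q.l1))
    rw [q.v1, q.f1, hS] at a1
    have a3 := (h.str _ s3).2
    rw [q.f3, ← a1] at a3
    exact absurd a3 (by simp)

lemma TCR.hitd (h : TCR B ω c R S) (hR : ∀ z, R z → lab z ∉ B ∧ plab z ∉ B) {f g : ℤ × ℤ}
    (hfg : IsUnit4 (g - f)) (hU : f + g - (1, 1) ∈ UU B ω c) (hS : S (fp f) = false) :
    ∃ z, Str B ω c z ∧ fi z = f := by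
  obtain ⟨u, v, z1, z2, z3, z4, q⟩ := TrackAux.quad_of_fg hfg
  rw [q.mem_UU] at hU
  obtain ⟨hB, hU⟩ := hU
  by_contra hno
  have hfi : ∀ z, fce z = fp f → fi z = f := by
    intro z hz
    unfold fce fp at hz
    simp only [Prod.mk.injEq] at hz
    unfold fi
    refine Prod.ext ?_ ?_ <;> simp only <;> omega
  have n1 : ¬ Str B ω c z1 := fun hs => hno ⟨z1, hs, hfi _ q.f1⟩
  have n3 : ¬ Str B ω c z3 := fun hs => hno ⟨z3, hs, hfi _ q.f3⟩
  by_cases ho : f + g - (1, 1) ∈ ω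
  · have h3 := q.open_iff (c := c) hB ho
    have s2 : Str B ω c z2 := by
      rcases hU with hU | hU | hU | hU
      · exact absurd hU n1
      · exact hU
      · exact absurd hU n3
      · exact h3.2.2 hU
    have a1 := h.col z1 n1 (not_R_of hR hB (Or.inl q.l1))
    rw [q.v1, q.f1, hS] at a1
    have a2 := (h.str _ s2).1
    rw [q.v2, a1] at a2
    exact absurd a2 (by simp)
  · have h3 := q.closed_iff (c := c) hB ho
    rcases hU with hU | hU | hU | hU
    · exact n1 hU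
    · exact n1 (h3.1.1 hU)
    · exact n3 hU
    · exact n3 (h3.2.2 hU)

/-- explored open edges have `S = true` at both ends, explored closed edges have `S = false` at both
faces -/
lemma TCR.expl_open (h : TCR B ω c R S) (hR : ∀ z, R z → lab z ∉ B ∧ plab z ∉ B) {u v : ℤ × ℤ}
    (huv : IsUnit4 (v - u)) (hU : u + v ∈ UU B ω c) (ho : u + v ∈ ω) :
    S (dbl u) = true ∧ S (dbl v) = true := by
  have hB : u + v ∈ B := (StrandAux.mem_UU.1 hU).1
  have heq := h.open_eq hR huv hB ho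
  obtain ⟨f, g, z1, z2, z3, z4, q⟩ := TrackAux.quad_of_uv huv
  rw [q.mem_UU] at hU
  have hu : S (dbl u) = true ∨ S (dbl v) = true := by
    rcases hU.2 with h3 | h3 | h3 | h3
    · left; have := (h.str _ h3).1; rwa [q.v1] at this
    · left; have := (h.str _ h3).1; rwa [q.v2] at this
    · right; have := (h.str _ h3).1; rwa [q.v3] at this
    · right; have := (h.str _ h3).1; rwa [q.v4] at this
  rw [heq] at hu ⊢
  simpa using hu

lemma TCR.expl_closed (h : TCR B ω c R S) (hR : ∀ z, R z → lab z ∉ B ∧ plab z ∉ B) {f g : ℤ × ℤ}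
    (hfg : IsUnit4 (g - f)) (hU : f + g - (1, 1) ∈ UU B ω c) (ho : f + g - (1, 1) ∉ ω) :
    S (fp f) = false ∧ S (fp g) = false := by
  have hB : f + g - (1, 1) ∈ B := (StrandAux.mem_UU.1 hU).1
  have heq := h.closed_eq hR hfg hB ho
  obtain ⟨u, v, z1, z2, z3, z4, q⟩ := TrackAux.quad_of_fg hfg
  rw [q.mem_UU] at hU
  have hu : S (fp f) = false ∨ S (fp g) = false := by
    rcases hU.2 with h3 | h3 | h3 | h3
    · left; have := (h.str _ h3).2; rwa [q.f1] at this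
    · right; have := (h.str _ h3).2; rwa [q.f2] at this
    · left; have := (h.str _ h3).2; rwa [q.f3] at this
    · right; have := (h.str _ h3).2; rwa [q.f4] at this
  rw [heq] at hu ⊢
  simpa using hu

end

end Pool.Agent.H75.Four
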