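import Mathlib
import Pool.Agent.H75.Four.Defs
import Pool.Agent.H75.Four.FCol
import Pool.Agent.H75.TwoArm.Track

set_option autoImplicit false
open Finset

/-! FA5 (helper42): positions of the exits, closings by rays and by a column, colours outside. -/

namespace Pool.Agent.H75.Four

open Pool.Agent.H75.Perc
open Pool.Agent.H75.TwoArm

namespace FRayAux

/-- a property of the points with even coordinate sum in a rectangle, invariant under the diagonal
moves, is constant -/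
lemma rect_const {T : ℤ → ℤ → Prop} {A A' lo hi : ℤ} (hA : A < A') (hl : lo < hi)
    (h1 : ∀ x y : ℤ, (x + y) % 2 = 0 → A ≤ x → x + 1 ≤ A' → lo ≤ y → y + 1 ≤ hi →
      (T x y ↔ T (x + 1) (y + 1)))
    (h2 : ∀ x y : ℤ, (x + y) % 2 = 0 → A ≤ x → x + 1 ≤ A' → lo + 1 ≤ y → y ≤ hi →
      (T x y ↔ T (x + 1) (y - 1)))
    {x y x' y' : ℤ} (he : (x + y) % 2 = 0) (he' : (x' + y') % 2 = 0) (hx : A ≤ x) (hx2 : x ≤ A')
    (hy : lo ≤ y) (hy2 : y ≤ hi) (hx' : A ≤ x') (hx2' : x' ≤ A') (hy' : lo ≤ y') (hy2' : y' ≤ hi) :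
    T x y ↔ T x' y' := by
  have V : ∀ x y : ℤ, (x + y) % 2 = 0 → A ≤ x → x ≤ A' → lo ≤ y → y + 2 ≤ hi →
      (T x y ↔ T x (y + 2)) := by
    intro x y hxy hx hx2 hy hy2
    by_cases hc : x + 1 ≤ A'
    · have g1 := h1 x y hxy hx hc hy (by omega)
      have g2 := h2 x (y + 2) (by omega) hx hc (by omega) hy2
      have e : y + 2 - 1 = y + 1 := by ring
      rw [e] at g2
      exact g1.trans g2.symm
    · have g1 := h1 (x - 1) (y + 1) (by omega) (by omega) (by omega) (by omega) (by omega)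
      have g2 := h2 (x - 1) (y + 1) (by omega) (by omega) (by omega) (by omega) (by omega)
      have e1 : x - 1 + 1 = x := by ring
      have e2 : y + 1 + 1 = y + 2 := by ring
      have e3 : y + 1 - 1 = y := by ring
      rw [e1, e2] at g1
      rw [e1, e3] at g2
      exact g2.symm.trans g1
  have Vn : ∀ n : ℕ, ∀ x y : ℤ, (x + y) % 2 = 0 → A ≤ x → x ≤ A' → lo ≤ y → y + 2 * n ≤ hi →
      (T x y ↔ T x (y + 2 * n)) := by
    intro n
    induction n with
    | zero => intro x y _ _ _ _ _; simp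
    | succ n ih =>
      intro x y hxy hx hx2 hy hy2
      push_cast at hy2
      have e : y + 2 * ((n + 1 : ℕ) : ℤ) = y + 2 * n + 2 := by push_cast; ring
      rw [ih x y hxy hx hx2 hy (by omega), e]
      exact V x (y + 2 * n) (by omega) hx hx2 (by omega) (by omega)
  have C : ∀ x y y' : ℤ, (x + y) % 2 = 0 → (x + y') % 2 = 0 → A ≤ x → x ≤ A' → lo ≤ y → y ≤ hi →
      lo ≤ y' → y' ≤ hi → (T x y ↔ T x y') := by
    intro x y y' h h' hx hx2 hy hy2 hy' hy2'
    rcases le_total y y' with hyy | hyy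
    · have e : y' = y + 2 * (((y' - y) / 2).toNat : ℤ) := by omega
      rw [e]
      exact Vn _ x y h hx hx2 hy (by omega)
    · have e : y = y' + 2 * (((y - y') / 2).toNat : ℤ) := by omega
      rw [e]
      exact (Vn _ x y' h' hx hx2 hy' (by omega)).symm
  have D : ∀ n : ℕ, ∀ x y y' : ℤ, (x + y) % 2 = 0 → (x + n + y') % 2 = 0 → A ≤ x → x + n ≤ A' →
      lo ≤ y → y ≤ hi → lo ≤ y' → y' ≤ hi → (T x y ↔ T (x + n) y') := by
    intro n
    induction n with
    | zero =>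
      intro x y y' h h' hx hx2 hy hy2 hy' hy2'
      have e : x + ((0 : ℕ) : ℤ) = x := by simp
      rw [e] at h' hx2 ⊢
      exact C x y y' h h' hx hx2 hy hy2 hy' hy2'
    | succ n ih =>
      intro x y y' h h' hx hx2 hy hy2 hy' hy2'
      have e : x + ((n + 1 : ℕ) : ℤ) = x + 1 + n := by push_cast; ring
      rw [e] at h' hx2 ⊢
      by_cases hc : y + 1 ≤ hi
      · rw [h1 x y h hx (by omega) hy hc]
        exact ih (x + 1) (y + 1) y' (by omega) h' (by omega) hx2 (by omega) hc hy' hy2'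
      · rw [h2 x y h hx (by omega) (by omega) hy2]
        exact ih (x + 1) (y - 1) y' (by omega) h' (by omega) hx2 (by omega) (by omega) hy' hy2'
  rcases le_total x x' with hxx | hxx
  · have e : x' = x + ((x' - x).toNat : ℤ) := by omega
    rw [e]
    exact D _ x y y' he (by omega) hx (by omega) hy hy2 hy' hy2'
  · have e : x = x' + ((x - x').toNat : ℤ) := by omega
    rw [e]
    exact (D _ x' y' y he' (by omega) hx' (by omega) hy' hy2' hy hy2).symm

lemma lab_fst (z : ℤ × ℤ) : z.1 - 1 ≤ (lab z).1 ∧ (lab z).1 ≤ z.1 ∧ z.2 - 1 ≤ (lab z).2 ∧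
    (lab z).2 ≤ z.2 ∧ ((lab z).1 + (lab z).2) % 2 = 1 := by
  unfold lab
  split_ifs <;> simp only <;> omega

lemma plab_fst (z : ℤ × ℤ) : z.1 - 1 ≤ (plab z).1 ∧ (plab z).1 ≤ z.1 ∧ z.2 - 1 ≤ (plab z).2 ∧
    (plab z).2 ≤ z.2 ∧ ((plab z).1 + (plab z).2) % 2 = 1 := by
  unfold plab
  split_ifs <;> simp only <;> omega

variable {B ω : Finset (ℤ × ℤ)} {c x : ℤ × ℤ} {R : ℤ × ℤ → Prop} {S : ℤ × ℤ → Bool}

lemma FX_in (hc : lab c ∈ B) (h : FX B ω c x) : plab x ∈ B ∧ lab x ∉ B := by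
  obtain ⟨j, h1, h2, h3⟩ := h
  refine ⟨?_, h2⟩
  rcases j with _ | j
  · exact absurd (by rw [← h1]; exact hc) h2
  · rw [← h1, Function.iterate_succ_apply', plab_nx]
    exact h3 j (by omega)

lemma BX_in (hc : lab c ∈ B) (h : BX B ω c x) : lab x ∈ B ∧ plab x ∉ B := by
  obtain ⟨j, h1, h2, h3⟩ := h
  refine ⟨?_, h2⟩
  rcases j with _ | j
  · rw [← h1]; exact hc
  · rw [← h1, Function.iterate_succ_apply', lab_pv]
    exact h3 j (by omega)

lemma TCR_Col (h : TCR B ω c R S) :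
    Col (fun z => Str B ω c z ∨ R z) S := by
  intro z
  constructor
  · rintro (hz | hz)
    · have h1 := h.str z hz
      rw [h1.1, h1.2]
      simp
    · exact h.ray z hz
  · intro hz
    by_contra hn
    push Not at hn
    exact hz (h.col z hn.1 hn.2)

end FRayAux

open FRayAux

section ray

variable {r : ℤ} {ω : Finset (ℤ × ℤ)} {c x x1 x2 e : ℤ × ℤ} {S : ℤ × ℤ → Bool}

lemma FX_pos (hr : 1 ≤ r) (hc : lab c ∈ BB r) (h : FX (BB r) ω c x) :
    ∃ b : ℤ, -(2 * r) + 1 ≤ b ∧ b ≤ 2 * r ∧ b % 2 = 0 ∧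
      (x = (2 * r + 1, b) ∨ x = (1 - b, 2 * r + 1) ∨ x = (-(2 * r), 1 - b) ∨ x = (b, -(2 * r))) := by
  obtain ⟨h1, h2⟩ := FX_in hc h
  obtain ⟨a, b⟩ := x
  unfold TwoArm.BB at h1 h2
  rw [mem_Bx] at h1 h2
  unfold lab at h2
  unfold plab at h1
  simp only at h1 h2
  simp only [Prod.mk.injEq]
  split_ifs at h1 h2 with p1 p2 p2
  · exact ⟨a, by omega, by omega, by omega, by omega⟩
  · exact ⟨b, by omega, by omega, by omega, by omega⟩
  · exact ⟨1 - b, by omega, by omega, by omega, by omega⟩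
  · exact ⟨1 - a, by omega, by omega, by omega, by omega⟩

lemma BX_pos (hr : 1 ≤ r) (hc : lab c ∈ BB r) (h : BX (BB r) ω c x) :
    ∃ b : ℤ, -(2 * r) + 1 ≤ b ∧ b ≤ 2 * r ∧ b % 2 = 1 ∧
      (x = (2 * r + 1, b) ∨ x = (1 - b, 2 * r + 1) ∨ x = (-(2 * r), 1 - b) ∨ x = (b, -(2 * r))) := by
  obtain ⟨h2, h1⟩ := BX_in hc h
  obtain ⟨a, b⟩ := x
  unfold TwoArm.BB at h1 h2
  rw [mem_Bx] at h1 h2
  unfold lab at h2
  unfold plab at h1
  simp only at h1 h2
  simp only [Prod.mk.injEq]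
  split_ifs at h1 h2 with p1 p2 p2
  · exact ⟨1 - b, by omega, by omega, by omega, by omega⟩
  · exact ⟨a, by omega, by omega, by omega, by omega⟩
  · exact ⟨1 - a, by omega, by omega, by omega, by omega⟩
  · exact ⟨b, by omega, by omega, by omega, by omega⟩

namespace FRayAux

lemma lab_e (a b : ℤ) : (b % 2 = 0 → a % 2 = 1 → lab (a, b) = (a, b)) ∧
    (b % 2 = 1 → a % 2 = 1 → plab (a, b) = (a, b - 1)) := by
  unfold lab plab
  simp only
  constructor
  · intro h1 h2; rw [if_pos h1, if_neg (by omega)]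
  · intro h1 h2; rw [if_neg (by omega), if_neg (by omega)]

/-- the labels at the two exits, in terms of the position -/
lemma lab_F (hc : lab c ∈ TwoArm.BB r) (h : FX (TwoArm.BB r) ω c x) : ∀ a : ℤ × ℤ,
    a = lab x ↔ ((x.1 = 2 * r + 1 ∧ a = (x.1, x.2)) ∨ (x.2 = 2 * r + 1 ∧ a = (x.1 - 1, x.2)) ∨
      (x.1 = -(2 * r) ∧ a = (x.1 - 1, x.2 - 1)) ∨ (x.2 = -(2 * r) ∧ a = (x.1, x.2 - 1))) := by
  intro a
  obtain ⟨h1, h2⟩ := FX_in hc h
  obtain ⟨x1, x2⟩ := x
  obtain ⟨a1, a2⟩ := a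
  unfold TwoArm.BB at h1 h2
  rw [mem_Bx] at h1 h2
  unfold lab at h2 ⊢
  unfold plab at h1
  simp only at h1 h2 ⊢
  split_ifs at h1 h2 ⊢ <;> simp only [Prod.mk.injEq] <;> omega

lemma plab_B (hc : lab c ∈ TwoArm.BB r) (h : BX (TwoArm.BB r) ω c x) : ∀ a : ℤ × ℤ,
    a = plab x ↔ ((x.1 = 2 * r + 1 ∧ a = (x.1, x.2 - 1)) ∨ (x.2 = 2 * r + 1 ∧ a = (x.1, x.2)) ∨
      (x.1 = -(2 * r) ∧ a = (x.1 - 1, x.2)) ∨ (x.2 = -(2 * r) ∧ a = (x.1 - 1, x.2 - 1))) := by
  intro a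
  obtain ⟨h2, h1⟩ := BX_in hc h
  obtain ⟨x1, x2⟩ := x
  obtain ⟨a1, a2⟩ := a
  unfold TwoArm.BB at h1 h2
  rw [mem_Bx] at h1 h2
  unfold lab at h2
  unfold plab at h1 ⊢
  simp only at h1 h2 ⊢
  split_ifs at h1 h2 ⊢ <;> simp only [Prod.mk.injEq] <;> omega

lemma ray_E {b : ℤ} (hr : 1 ≤ r) (h1 : -(2 * r) + 1 ≤ b) (h2 : b ≤ 2 * r) (z : ℤ × ℤ) :
    ray r (2 * r + 1, b) z ↔ z.2 = b ∧ 2 * r + 2 ≤ z.1 := by
  unfold ray; simp only [true_and]; constructor <;> intro h <;> omega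

lemma ray_N {b : ℤ} (hr : 1 ≤ r) (h1 : -(2 * r) + 1 ≤ b) (h2 : b ≤ 2 * r) (z : ℤ × ℤ) :
    ray r (1 - b, 2 * r + 1) z ↔ z.1 = 1 - b ∧ 2 * r + 2 ≤ z.2 := by
  unfold ray; simp only [true_and]; constructor <;> intro h <;> omega

lemma ray_W {b : ℤ} (hr : 1 ≤ r) (h1 : -(2 * r) + 1 ≤ b) (h2 : b ≤ 2 * r) (z : ℤ × ℤ) :
    ray r (-(2 * r), 1 - b) z ↔ z.2 = 1 - b ∧ z.1 ≤ -(2 * r) - 1 := by
  unfold ray; simp only [true_and]; constructor <;> intro h <;> omega

lemma ray_S {b : ℤ} (hr : 1 ≤ r) (h1 : -(2 * r) + 1 ≤ b) (h2 : b ≤ 2 * r) (z : ℤ × ℤ) :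
    ray r (b, -(2 * r)) z ↔ z.1 = b ∧ z.2 ≤ -(2 * r) - 1 := by
  unfold ray; simp only [true_and]; constructor <;> intro h <;> omega

/-- parity of the vertical / horizontal half lines; `P`, `Q`: the two rows, `U`, `V` the two
columns -/
lemma tt1 {P Q U V : Prop} (h1 : ¬ (P ∧ Q)) (h2 : V → U) :
    ((P ∧ V ↔ Q ∧ U) ↔ (P ∧ U ↔ Q ∧ V)) ↔ ¬ ((U ∧ ¬ V) ∧ (P ∨ Q)) := by
  by_cases p : P <;> by_cases q : Q <;> by_cases u : U <;> by_cases v : V <;>
    simp only [p, q, u, v, not_true, not_false_iff, and_true, true_and, and_false, false_and,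
      false_imp_iff, true_imp_iff, iff_true, true_iff, iff_false, false_iff, or_false, or_true] at h1 h2 ⊢

lemma tt2 {P Q U V : Prop} (h1 : ¬ (P ∧ Q)) (h2 : U → V) :
    ((P ∧ V ↔ Q ∧ U) ↔ (P ∧ U ↔ Q ∧ V)) ↔ ¬ ((V ∧ ¬ U) ∧ (P ∨ Q)) := by
  by_cases p : P <;> by_cases q : Q <;> by_cases u : U <;> by_cases v : V <;>
    simp only [p, q, u, v, not_true, not_false_iff, and_true, true_and, and_false, false_and,
      false_imp_iff, true_imp_iff, iff_true, true_iff, iff_false, false_iff, or_false, or_true] at h1 h2 ⊢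

lemma ev_hor {X : ℤ × ℤ → Prop} {b A : ℤ} (hX : ∀ z, X z ↔ z.2 = b ∧ A ≤ z.1) {a : ℤ × ℤ} :
    Ev X a ↔ ¬ (a.1 = A - 1 ∧ (a.2 = b ∨ a.2 = b - 1)) := by
  obtain ⟨p, q⟩ := a
  unfold Ev
  simp only [hX]
  rw [tt1 (by omega) (by omega)]
  constructor <;> intro h <;> omega

lemma ev_hor' {X : ℤ × ℤ → Prop} {b A : ℤ} (hX : ∀ z, X z ↔ z.2 = b ∧ z.1 ≤ A) {a : ℤ × ℤ} :
    Ev X a ↔ ¬ (a.1 = A ∧ (a.2 = b ∨ a.2 = b - 1)) := by
  obtain ⟨p, q⟩ := a
  unfold Ev
  simp only [hX]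
  rw [tt2 (by omega) (by omega)]
  constructor <;> intro h <;> omega

lemma ev_ver {X : ℤ × ℤ → Prop} {b A : ℤ} (hX : ∀ z, X z ↔ z.1 = b ∧ A ≤ z.2) {a : ℤ × ℤ} :
    Ev X a ↔ ¬ (a.2 = A - 1 ∧ (a.1 = b ∨ a.1 = b - 1)) := by
  obtain ⟨q, p⟩ := a
  unfold Ev
  simp only [hX]
  rw [iff_comm (a := q + 1 = b ∧ A ≤ p), tt1 (by omega) (by omega)]
  constructor <;> intro h <;> omega

lemma ev_ver' {X : ℤ × ℤ → Prop} {b A : ℤ} (hX : ∀ z, X z ↔ z.1 = b ∧ z.2 ≤ A) {a : ℤ × ℤ} :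
    Ev X a ↔ ¬ (a.2 = A ∧ (a.1 = b ∨ a.1 = b - 1)) := by
  obtain ⟨q, p⟩ := a
  unfold Ev
  simp only [hX]
  rw [iff_comm (a := q + 1 = b ∧ p ≤ A), tt2 (by omega) (by omega)]
  constructor <;> intro h <;> omega

lemma ev_ray_F (hr : 1 ≤ r) (hc : lab c ∈ TwoArm.BB r) (h : FX (TwoArm.BB r) ω c x) {a : ℤ × ℤ}
    (ha : (a.1 + a.2) % 2 = 1) : Ev (ray r x) a ↔ ¬ (a = lab x) := by
  rw [lab_F hc h]
  obtain ⟨b, g1, g2, g3, rfl | rfl | rfl | rfl⟩ := FX_pos hr hc h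
  · rw [ev_hor (ray_E hr g1 g2), not_iff_not]
    obtain ⟨p, q⟩ := a
    simp only [Prod.mk.injEq, true_and] at ha ⊢
    clear h hc
    constructor <;> intro h3 <;> omega
  · rw [ev_ver (ray_N hr g1 g2), not_iff_not]
    obtain ⟨p, q⟩ := a
    simp only [Prod.mk.injEq, true_and] at ha ⊢
    clear h hc
    constructor <;> intro h3 <;> omega
  · rw [ev_hor' (ray_W hr g1 g2), not_iff_not]
    obtain ⟨p, q⟩ := a
    simp only [Prod.mk.injEq, true_and] at ha ⊢
    clear h hc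
    constructor <;> intro h3 <;> omega
  · rw [ev_ver' (ray_S hr g1 g2), not_iff_not]
    obtain ⟨p, q⟩ := a
    simp only [Prod.mk.injEq, true_and] at ha ⊢
    clear h hc
    constructor <;> intro h3 <;> omega

lemma ev_ray_B (hr : 1 ≤ r) (hc : lab c ∈ TwoArm.BB r) (h : BX (TwoArm.BB r) ω c x) {a : ℤ × ℤ}
    (ha : (a.1 + a.2) % 2 = 1) : Ev (ray r x) a ↔ ¬ (a = plab x) := by
  rw [plab_B hc h]
  obtain ⟨b, g1, g2, g3, rfl | rfl | rfl | rfl⟩ := BX_pos hr hc h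
  · rw [ev_hor (ray_E hr g1 g2), not_iff_not]
    obtain ⟨p, q⟩ := a
    simp only [Prod.mk.injEq, true_and] at ha ⊢
    clear h hc
    constructor <;> intro h3 <;> omega
  · rw [ev_ver (ray_N hr g1 g2), not_iff_not]
    obtain ⟨p, q⟩ := a
    simp only [Prod.mk.injEq, true_and] at ha ⊢
    clear h hc
    constructor <;> intro h3 <;> omega
  · rw [ev_hor' (ray_W hr g1 g2), not_iff_not]
    obtain ⟨p, q⟩ := a
    simp only [Prod.mk.injEq, true_and] at ha ⊢
    clear h hc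
    constructor <;> intro h3 <;> omega
  · rw [ev_ver' (ray_S hr g1 g2), not_iff_not]
    obtain ⟨p, q⟩ := a
    simp only [Prod.mk.injEq, true_and] at ha ⊢
    clear h hc
    constructor <;> intro h3 <;> omega

end FRayAux

theorem clo_rays (hr : 1 ≤ r) (hc : lab c ∈ BB r) (h1 : FX (BB r) ω c x1) (h2 : BX (BB r) ω c x2)
    (hne : lab x1 ≠ plab x2) : Clo (BB r) x1 x2 (rays r x1 x2) := by
  have _ := hne
  obtain ⟨b1, g1, g2, g3, g4⟩ := FX_pos hr hc h1
  obtain ⟨b2, k1, k2, k3, k4⟩ := BX_pos hr hc h2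
  refine ⟨?_, ?_, ?_⟩
  · intro z hz
    have a1 := lab_fst z
    have a2 := plab_fst z
    unfold TwoArm.BB
    rw [mem_Bx, mem_Bx]
    unfold rays ray at hz
    omega
  · intro a ha
    have e1 := ev_ray_F hr hc h1 ha
    have e2 := ev_ray_B hr hc h2 ha
    have e3 : Ev (rays r x1 x2) a ↔ (Ev (ray r x1) a ↔ Ev (ray r x2) a) := by
      refine FColAux.ev_or ?_
      rintro z - hz hz2
      clear e1 e2 h1 h2 hc hne
      rcases g4 with rfl | rfl | rfl | rfl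
      · rw [ray_E hr g1 g2] at hz
        rcases k4 with rfl | rfl | rfl | rfl
        · rw [ray_E hr k1 k2] at hz2; omega
        · rw [ray_N hr k1 k2] at hz2; omega
        · rw [ray_W hr k1 k2] at hz2; omega
        · rw [ray_S hr k1 k2] at hz2; omega
      · rw [ray_N hr g1 g2] at hz
        rcases k4 with rfl | rfl | rfl | rfl
        · rw [ray_E hr k1 k2] at hz2; omega
        · rw [ray_N hr k1 k2] at hz2; omega
        · rw [ray_W hr k1 k2] at hz2; omega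
        · rw [ray_S hr k1 k2] at hz2; omega
      · rw [ray_W hr g1 g2] at hz
        rcases k4 with rfl | rfl | rfl | rfl
        · rw [ray_E hr k1 k2] at hz2; omega
        · rw [ray_N hr k1 k2] at hz2; omega
        · rw [ray_W hr k1 k2] at hz2; omega
        · rw [ray_S hr k1 k2] at hz2; omega
      · rw [ray_S hr g1 g2] at hz
        rcases k4 with rfl | rfl | rfl | rfl
        · rw [ray_E hr k1 k2] at hz2; omega
        · rw [ray_N hr k1 k2] at hz2; omega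
        · rw [ray_W hr k1 k2] at hz2; omega
        · rw [ray_S hr k1 k2] at hz2; omega
    rw [e3, e1, e2]
    exact not_iff_not
  · intro p
    have hf : ∀ u v : ℤ, {k : ℕ | p.1 + k = u ∨ p.2 + k = v}.Finite := by
      intro u v
      refine ((Set.finite_le_nat (u - p.1).toNat).union (Set.finite_le_nat (v - p.2).toNat)).subset ?_
      intro k hk
      simp only [Set.mem_ofPred_eq, Set.mem_union] at hk ⊢
      omega
    refine ((hf x1.1 x1.2).union (hf x2.1 x2.2)).subset ?_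
    intro k hk
    simp only [Set.mem_ofPred_eq, Set.mem_union] at hk ⊢
    unfold rays ray at hk
    simp only at hk
    clear hf g4 k4
    rcases hk with (hk | hk | hk | hk) | (hk | hk | hk | hk)
    · left; right; exact hk.2.1
    · left; left; exact hk.2.1
    · left; right; exact hk.2.1
    · left; left; exact hk.2.1
    · right; right; exact hk.2.1
    · right; left; exact hk.2.1
    · right; right; exact hk.2.1
    · right; left; exact hk.2.1

namespace FRayAux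

/-- constancy of the colours in a window outside `B` -/
lemma loc_aux {B : Finset (ℤ × ℤ)} {R : ℤ × ℤ → Prop} {X Xm b lo hi : ℤ} (hc : lab c ∈ B)
    (h : TCR B ω c R S) (hX : X + 2 ≤ Xm) (hlo' : lo < b) (hhi' : b ≤ hi)
    (hB : ∀ a : ℤ × ℤ, X + 1 ≤ a.1 → a.1 ≤ Xm → lo ≤ a.2 → a.2 ≤ hi → a ∉ B)
    (hRw : ∀ z : ℤ × ℤ, X + 2 ≤ z.1 → z.1 ≤ Xm → lo + 1 ≤ z.2 → z.2 ≤ hi → (R z ↔ z.2 = b))
    (w : Bool) {x y x' y' : ℤ} (he : (x + y) % 2 = 0) (he' : (x' + y') % 2 = 0)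
    (hx : X + 1 ≤ x) (hx2 : x ≤ Xm) (hy : lo ≤ y) (hy2 : y ≤ hi) (hx' : X + 1 ≤ x')
    (hx2' : x' ≤ Xm) (hy' : lo ≤ y') (hy2' : y' ≤ hi) :
    (S (x, y) = w ↔ b ≤ y) ↔ (S (x', y') = w ↔ b ≤ y') := by
  have hcol := TCR_Col h
  have hZ : ∀ z : ℤ × ℤ, X + 2 ≤ z.1 → z.1 ≤ Xm → lo + 1 ≤ z.2 → z.2 ≤ hi →
      ((Str B ω c z ∨ R z) ↔ z.2 = b) := by
    intro z z1 z2 z3 z4
    have hs : ¬ Str B ω c z := by
      intro hs
      have a1 := lab_fst z
      have a2 := plab_fst z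
      rcases FColAux.str_lab_plab hc hs with h3 | h3
      · exact hB _ (by omega) (by omega) (by omega) (by omega) h3
      · exact hB _ (by omega) (by omega) (by omega) (by omega) h3
    rw [← hRw z z1 z2 z3 z4]
    constructor
    · rintro (h3 | h3)
      · exact absurd h3 hs
      · exact h3
    · exact Or.inr
  refine rect_const (T := fun x y => (S (x, y) = w ↔ b ≤ y)) (A := X + 1) (A' := Xm) (lo := lo)
    (hi := hi) (by omega) (by omega) ?_ ?_ he he' hx hx2 hy hy2 hx' hx2' hy' hy2'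
  · intro x y hxy h1 h2 h3 h4
    have d := ColorAux.diag1 hcol hxy
    have e := hZ (x + 1, y + 1) (by simp only; omega) h2 (by simp only; omega) h4
    simp only at d e ⊢
    rw [e] at d
    by_cases q : y + 1 = b
    · have d1 := d.1 q
      have q1 : ¬ b ≤ y := by omega
      have q2 : b ≤ y + 1 := by omega
      simp only [q1, q2, iff_false, iff_true]
      revert d1
      cases S (x, y) <;> cases S (x + 1, y + 1) <;> cases w <;> simp
    · have d1 : S (x, y) = S (x + 1, y + 1) := by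
        by_contra hn; exact q (d.2 hn)
      have q1 : b ≤ y ↔ b ≤ y + 1 := by constructor <;> intro h <;> omega
      rw [d1, q1]
  · intro x y hxy h1 h2 h3 h4
    have d := ColorAux.diag2 hcol hxy
    have e := hZ (x + 1, y) (by simp only; omega) h2 (by simp only; omega) h4
    simp only at d e ⊢
    rw [e] at d
    by_cases q : y = b
    · have d1 := d.1 q
      have q1 : ¬ b ≤ y - 1 := by omega
      have q2 : b ≤ y := by omega
      simp only [q1, q2, iff_false, iff_true]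
      revert d1
      cases S (x, y) <;> cases S (x + 1, y - 1) <;> cases w <;> simp
    · have d1 : S (x, y) = S (x + 1, y - 1) := by
        by_contra hn; exact q (d.2 hn)
      have q1 : b ≤ y ↔ b ≤ y - 1 := by constructor <;> intro h <;> omega
      rw [d1, q1]

end FRayAux

theorem S_locF {B : Finset (ℤ × ℤ)} {R : ℤ × ℤ → Prop} {X Xm b lo hi : ℤ} (hc : lab c ∈ B)
    (hb : b % 2 = 0)
    (h1 : FX B ω c (X + 1, b)) (h2 : BX B ω c x2) (h : TCR B ω c R S)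
    (hR : ∀ z, R z → lab z ∉ B ∧ plab z ∉ B) (hX : X + 2 ≤ Xm) (hlo' : lo < b) (hhi' : b ≤ hi)
    (hB : ∀ a : ℤ × ℤ, X + 1 ≤ a.1 → a.1 ≤ Xm → lo ≤ a.2 → a.2 ≤ hi → a ∉ B)
    (hRw : ∀ z : ℤ × ℤ, X + 2 ≤ z.1 → z.1 ≤ Xm → lo + 1 ≤ z.2 → z.2 ≤ hi → (R z ↔ z.2 = b))
    {p : ℤ × ℤ} (hp : (p.1 + p.2) % 2 = 0) (hp1 : X + 1 ≤ p.1) (hp1' : p.1 ≤ Xm)
    (hp2 : lo ≤ p.2) (hp3 : p.2 ≤ hi) : S p = true ↔ b ≤ p.2 := by
  have _ := h2
  have _ := hR
  have hs := h.str _ (TrackAux.FX_Str h1)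
  obtain ⟨p1, p2⟩ := p
  simp only at hp hp1 hp1' hp2 hp3 ⊢
  have key : ∀ x' y' : ℤ, (x' + y') % 2 = 0 → X + 1 ≤ x' → x' ≤ Xm → lo ≤ y' → y' ≤ hi →
      (S (x', y') = true ↔ b ≤ y') → (S (p1, p2) = true ↔ b ≤ p2) := by
    intro x' y' g1 g2 g3 g4 g5 g6
    exact (loc_aux hc h hX hlo' hhi' hB hRw true hp g1 hp1 hp1' hp2 hp3 g2 g3 g4 g5).2 g6
  unfold dbl vx fce at hs
  simp only at hs
  rcases Int.emod_two_eq_zero_or_one X with hX2 | hX2
  · have e1 : 2 * ((X + 1 + 1) / 2) - 1 = X + 1 := by omega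
    have e2 : 2 * ((b + 1) / 2) - 1 = b - 1 := by omega
    rw [e1, e2] at hs
    refine key (X + 1) (b - 1) (by omega) (by omega) (by omega) (by omega) (by omega) ?_
    rw [hs.2]
    constructor
    · intro h; simp at h
    · intro h; omega
  · have e1 : 2 * ((X + 1) / 2) = X + 1 := by omega
    have e2 : 2 * (b / 2) = b := by omega
    rw [e1, e2] at hs
    refine key (X + 1) b (by omega) (by omega) (by omega) (by omega) (by omega) ?_
    rw [hs.1]
    simp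

theorem S_locB {B : Finset (ℤ × ℤ)} {R : ℤ × ℤ → Prop} {X Xm b lo hi : ℤ} (hc : lab c ∈ B)
    (hb : b % 2 = 1)
    (h1 : FX B ω c x1) (h2 : BX B ω c (X + 1, b)) (h : TCR B ω c R S)
    (hR : ∀ z, R z → lab z ∉ B ∧ plab z ∉ B) (hX : X + 2 ≤ Xm) (hlo' : lo < b) (hhi' : b ≤ hi)
    (hB : ∀ a : ℤ × ℤ, X + 1 ≤ a.1 → a.1 ≤ Xm → lo ≤ a.2 → a.2 ≤ hi → a ∉ B)
    (hRw : ∀ z : ℤ × ℤ, X + 2 ≤ z.1 → z.1 ≤ Xm → lo + 1 ≤ z.2 → z.2 ≤ hi → (R z ↔ z.2 = b))
    {p : ℤ × ℤ} (hp : (p.1 + p.2) % 2 = 0) (hp1 : X + 1 ≤ p.1) (hp1' : p.1 ≤ Xm)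
    (hp2 : lo ≤ p.2) (hp3 : p.2 ≤ hi) : S p = true ↔ p.2 < b := by
  have _ := h1
  have _ := hR
  have hs := h.str _ (TrackAux.BX_Str h2)
  obtain ⟨p1, p2⟩ := p
  simp only at hp hp1 hp1' hp2 hp3 ⊢
  have fin : (S (p1, p2) = false ↔ b ≤ p2) → (S (p1, p2) = true ↔ p2 < b) := by
    intro h
    rw [← not_le, ← h]
    cases S (p1, p2) <;> simp
  apply fin
  have key : ∀ x' y' : ℤ, (x' + y') % 2 = 0 → X + 1 ≤ x' → x' ≤ Xm → lo ≤ y' → y' ≤ hi →
      (S (x', y') = false ↔ b ≤ y') → (S (p1, p2) = false ↔ b ≤ p2) := by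
    intro x' y' g1 g2 g3 g4 g5 g6
    exact (loc_aux hc h hX hlo' hhi' hB hRw false hp g1 hp1 hp1' hp2 hp3 g2 g3 g4 g5).2 g6
  unfold dbl vx fce at hs
  simp only at hs
  rcases Int.emod_two_eq_zero_or_one X with hX2 | hX2
  · have e1 : 2 * ((X + 1 + 1) / 2) - 1 = X + 1 := by omega
    have e2 : 2 * ((b + 1) / 2) - 1 = b := by omega
    rw [e1, e2] at hs
    refine key (X + 1) b (by omega) (by omega) (by omega) (by omega) (by omega) ?_
    rw [hs.2]
    simp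
  · have e1 : 2 * ((X + 1) / 2) = X + 1 := by omega
    have e2 : 2 * (b / 2) = b - 1 := by omega
    rw [e1, e2] at hs
    refine key (X + 1) (b - 1) (by omega) (by omega) (by omega) (by omega) (by omega) ?_
    rw [hs.1]
    constructor
    · intro h; simp at h
    · intro h; omega

theorem S_eastF {b lo hi : ℤ} (hr : 1 ≤ r) (hc : lab c ∈ BB r) (h1 : FX (BB r) ω c (2 * r + 1, b))
    (h2 : BX (BB r) ω c x2) (hne : lab (2 * r + 1, b) ≠ plab x2)
    (h : TCR (BB r) ω c (rays r (2 * r + 1, b) x2) S) (hlo : -(2 * r) ≤ lo) (hlo' : lo < b)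
    (hhi : hi ≤ 2 * r) (hhi' : b ≤ hi) (hx : ¬ (x2.1 = 2 * r + 1 ∧ lo + 1 ≤ x2.2 ∧ x2.2 ≤ hi))
    {p : ℤ × ℤ} (hp : (p.1 + p.2) % 2 = 0) (hp1 : 2 * r + 1 ≤ p.1) (hp2 : lo ≤ p.2)
    (hp3 : p.2 ≤ hi) : S p = true ↔ b ≤ p.2 := by
  have hb : b % 2 = 0 := by
    obtain ⟨b', g1, g2, g3, g4⟩ := FX_pos hr hc h1
    simp only [Prod.mk.injEq, true_and] at g4
    clear h1 h2 h hx
    omega
  refine S_locF (X := 2 * r) (Xm := p.1 + 1) (lo := lo) (hi := hi) hc hb h1 h2 h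
    (clo_rays hr hc h1 h2 hne).out (by omega) hlo' hhi' ?_ ?_ hp hp1 (by omega) hp2 hp3
  · intro a a1 a2 a3 a4 haB
    unfold TwoArm.BB at haB
    rw [mem_Bx] at haB
    omega
  · intro z z1 z2 z3 z4
    unfold rays
    rw [ray_E hr (by omega) (by omega)]
    unfold ray
    clear h1 h2 h
    constructor
    · rintro (h3 | h3)
      · exact h3.1
      · omega
    · intro h3
      exact Or.inl ⟨h3, z1⟩

theorem S_eastB {b lo hi : ℤ} (hr : 1 ≤ r) (hc : lab c ∈ BB r) (h1 : FX (BB r) ω c x1)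
    (h2 : BX (BB r) ω c (2 * r + 1, b)) (hne : lab x1 ≠ plab (2 * r + 1, b))
    (h : TCR (BB r) ω c (rays r x1 (2 * r + 1, b)) S) (hlo : -(2 * r) ≤ lo) (hlo' : lo < b)
    (hhi : hi ≤ 2 * r) (hhi' : b ≤ hi) (hx : ¬ (x1.1 = 2 * r + 1 ∧ lo + 1 ≤ x1.2 ∧ x1.2 ≤ hi))
    {p : ℤ × ℤ} (hp : (p.1 + p.2) % 2 = 0) (hp1 : 2 * r + 1 ≤ p.1) (hp2 : lo ≤ p.2)
    (hp3 : p.2 ≤ hi) : S p = true ↔ p.2 < b := by
  have hb : b % 2 = 1 := by
    obtain ⟨b', g1, g2, g3, g4⟩ := BX_pos hr hc h2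
    simp only [Prod.mk.injEq, true_and] at g4
    clear h1 h2 h hx
    omega
  refine S_locB (X := 2 * r) (Xm := p.1 + 1) (lo := lo) (hi := hi) hc hb h1 h2 h
    (clo_rays hr hc h1 h2 hne).out (by omega) hlo' hhi' ?_ ?_ hp hp1 (by omega) hp2 hp3
  · intro a a1 a2 a3 a4 haB
    unfold TwoArm.BB at haB
    rw [mem_Bx] at haB
    omega
  · intro z z1 z2 z3 z4
    unfold rays
    rw [ray_E hr (by omega) (by omega)]
    unfold ray
    clear h1 h2 h
    constructor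
    · rintro (h3 | h3)
      · omega
      · exact h3.1
    · intro h3
      exact Or.inr ⟨h3, z1⟩

namespace FRayAux

lemma tt3 {P Q U V : Prop} (h1 : ¬ (P ∧ Q)) :
    ((P ∧ U ↔ Q ∧ V) ↔ (Q ∧ U ↔ P ∧ V)) ↔ ¬ ((P ∨ Q) ∧ ¬ (U ↔ V)) := by
  by_cases p : P <;> by_cases q : Q <;> by_cases u : U <;> by_cases v : V <;>
    simp only [p, q, u, v, not_true, not_false_iff, and_true, true_and, and_false, false_and,
      false_imp_iff, true_imp_iff, iff_true, true_iff, iff_false, false_iff, or_false, or_true] at h1 ⊢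

/-- parity of a column segment -/
lemma ev_seg {X : ℤ × ℤ → Prop} {A m M : ℤ} (hm : m ≤ M + 1)
    (hX : ∀ z, X z ↔ z.1 = A ∧ (m ≤ z.2 ∧ z.2 ≤ M)) {a : ℤ × ℤ} :
    Ev X a ↔ ¬ ((a.1 = A ∨ a.1 + 1 = A) ∧ ¬ (a.2 = m - 1 ↔ a.2 = M)) := by
  obtain ⟨p, q⟩ := a
  unfold Ev
  simp only [hX]
  rw [tt3 (by omega)]
  have : (m ≤ q ∧ q ≤ M ↔ m ≤ q + 1 ∧ q + 1 ≤ M) ↔ (q = m - 1 ↔ q = M) := by
    constructor
    · intro h; constructor <;> intro h' <;> omega
    · intro h; constructor <;> intro h' <;> omega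
  rw [this]

lemma Str_bd (hc : lab c ∈ TwoArm.BB r) {z : ℤ × ℤ} (hz : Str (TwoArm.BB r) ω c z) :
    (-(2 * r) ≤ z.1 ∧ z.1 ≤ 2 * r + 1) ∧ (-(2 * r) ≤ z.2 ∧ z.2 ≤ 2 * r + 1) := by
  have a1 := lab_fst z
  have a2 := plab_fst z
  rcases FColAux.str_lab_plab hc hz with h3 | h3
  · unfold TwoArm.BB at h3; rw [mem_Bx] at h3; omega
  · unfold TwoArm.BB at h3; rw [mem_Bx] at h3; omega

/-- far away the colour is that of the point `(2r+2, y)` below the column -/
lemma far_aux {R : ℤ × ℤ → Prop} {m M : ℤ} (hr : 1 ≤ r) (hc : lab c ∈ TwoArm.BB r)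
    (hm : -(2 * r) ≤ m) (hM : M ≤ 2 * r + 1)
    (hR : ∀ z, R z ↔ z.1 = 2 * r + 2 ∧ (m ≤ z.2 ∧ z.2 ≤ M)) (h : TCR (TwoArm.BB r) ω c R S)
    {y : ℤ} (hy : y % 2 = 0) {p : ℤ × ℤ} (hp : (p.1 + p.2) % 2 = 0)
    (hf : 2 * r + 4 ≤ |p.1| ∨ 2 * r + 4 ≤ |p.2|) : S p = S (2 * r + 2, y) := by
  have hcol := TCR_Col h
  have hbd : ∀ z, (Str (TwoArm.BB r) ω c z ∨ R z) → |z.1| ≤ 2 * r + 2 ∧ |z.2| ≤ 2 * r + 2 := by
    intro z hz
    rw [abs_le, abs_le]
    rcases hz with hz | hz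
    · have := Str_bd hc hz
      omega
    · rw [hR] at hz
      omega
  rw [Col_far hcol hbd (q := (2 * r + 4, y)) hp (by simp only; omega) (by
      rcases hf with hf | hf
      · left; omega
      · right; omega) (by left; simp only; rw [abs_of_nonneg (by omega)]; omega)]
  refine ColorAux.half_const (S := S) (a := 2 * r + 2) ?_ ?_ (by omega) (by omega) (by omega)
    (by omega)
  · intro x y hxy hx
    by_contra hne
    rcases (ColorAux.diag1 hcol hxy).2 hne with h3 | h3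
    · have := Str_bd hc h3
      simp only at this; omega
    · rw [hR] at h3
      simp only at h3; omega
  · intro x y hxy hx
    by_contra hne
    rcases (ColorAux.diag2 hcol hxy).2 hne with h3 | h3
    · have := Str_bd hc h3
      simp only at this; omega
    · rw [hR] at h3
      simp only at h3; omega

end FRayAux

theorem clo_arcFB {b1 b2 : ℤ} (hr : 1 ≤ r) (hc : lab c ∈ BB r)
    (h1 : FX (BB r) ω c (2 * r + 1, b1)) (h2 : BX (BB r) ω c (2 * r + 1, b2)) (hb : b1 < b2) :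
    Clo (BB r) (2 * r + 1, b1) (2 * r + 1, b2) (arcR r b1 b2) ∧
    ∀ S, TCR (BB r) ω c (arcR r b1 b2) S → ∀ p : ℤ × ℤ, (p.1 + p.2) % 2 = 0 →
      (2 * r + 4 ≤ |p.1| ∨ 2 * r + 4 ≤ |p.2|) → S p = false := by
  obtain ⟨q1, q2, q3⟩ : -(2 * r) + 1 ≤ b1 ∧ b1 ≤ 2 * r ∧ b1 % 2 = 0 := by
    obtain ⟨b', g1, g2, g3, g4⟩ := FX_pos hr hc h1
    simp only [Prod.mk.injEq, true_and] at g4
    clear h1 h2
    omega
  obtain ⟨q4, q5, q6⟩ : -(2 * r) + 1 ≤ b2 ∧ b2 ≤ 2 * r ∧ b2 % 2 = 1 := by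
    obtain ⟨b', g1, g2, g3, g4⟩ := BX_pos hr hc h2
    simp only [Prod.mk.injEq, true_and] at g4
    clear h1 h2
    omega
  have hR : ∀ z, arcR r b1 b2 z ↔ z.1 = 2 * r + 2 ∧ (b1 + 1 ≤ z.2 ∧ z.2 ≤ b2 - 1) :=
    fun z => Iff.rfl
  have e1 := (lab_e (2 * r + 1) b1).1 q3 (by omega)
  have e2 := (lab_e (2 * r + 1) b2).2 q6 (by omega)
  refine ⟨⟨?_, ?_, ?_⟩, ?_⟩
  · intro z hz
    rw [hR] at hz
    have a1 := lab_fst z
    have a2 := plab_fst z
    unfold TwoArm.BB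
    rw [mem_Bx, mem_Bx]
    omega
  · intro a ha
    rw [ev_seg (by omega) hR, e1, e2]
    obtain ⟨u, v⟩ := a
    simp only [Prod.mk.injEq] at ha ⊢
    clear h1 h2 hR e1 e2
    by_cases c1 : v = b1
    · by_cases c2 : v = b2 - 1
      · constructor
        · intro _
          constructor <;> intro h' <;> omega
        · rintro - ⟨-, h4⟩
          apply h4
          constructor <;> intro h' <;> omega
      · constructor
        · intro h3
          have : ¬ (u = 2 * r + 2 ∨ u + 1 = 2 * r + 2) := by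
            intro h4
            apply h3
            refine ⟨h4, ?_⟩
            intro h5
            have := h5.1 (by omega)
            omega
          constructor <;> intro h' <;> omega
        · rintro h3 ⟨h4, h5⟩
          have := h3.1 ⟨by omega, c1⟩
          omega
    · by_cases c2 : v = b2 - 1
      · constructor
        · intro h3
          have : ¬ (u = 2 * r + 2 ∨ u + 1 = 2 * r + 2) := by
            intro h4
            apply h3
            refine ⟨h4, ?_⟩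
            intro h5
            have := h5.2 (by omega)
            omega
          constructor <;> intro h' <;> omega
        · rintro h3 ⟨h4, h5⟩
          have := h3.2 ⟨by omega, c2⟩
          omega
      · constructor
        · intro _
          constructor <;> intro h' <;> omega
        · rintro - ⟨-, h4⟩
          apply h4
          constructor <;> intro h' <;> omega
  · intro p
    refine (Set.finite_le_nat (2 * r + 2 - p.1).toNat).subset ?_
    intro k hk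
    simp only [Set.mem_ofPred_eq] at hk ⊢
    rw [hR] at hk
    simp only at hk
    omega
  · intro S h p hp hf
    have hcol := TCR_Col h
    rw [far_aux hr hc (by omega) (by omega) hR h (y := b1 - 2) (by omega) hp hf]
    have s1 := (h.str _ (TrackAux.FX_Str h1)).2
    unfold fce at s1
    simp only at s1
    have f1 : 2 * ((2 * r + 1 + 1) / 2) - 1 = 2 * r + 1 := by omega
    have f2 : 2 * ((b1 + 1) / 2) - 1 = b1 - 1 := by omega
    rw [f1, f2] at s1
    have d := ColorAux.diag2 hcol (x := 2 * r + 1) (y := b1 - 1) (by omega)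
    have f3 : 2 * r + 1 + 1 = 2 * r + 2 := by ring
    have f4 : b1 - 1 - 1 = b1 - 2 := by ring
    rw [f3, f4, s1] at d
    by_contra hne
    rcases d.2 (fun h' => hne h'.symm) with h3 | h3
    · have := Str_bd hc h3
      simp only at this; omega
    · rw [hR] at h3
      simp only at h3; omega

theorem clo_arcBF {b1 b2 : ℤ} (hr : 1 ≤ r) (hc : lab c ∈ BB r)
    (h1 : BX (BB r) ω c (2 * r + 1, b1)) (h2 : FX (BB r) ω c (2 * r + 1, b2)) (hb : b1 < b2) :
    Clo (BB r) (2 * r + 1, b2) (2 * r + 1, b1) (fun z => z.1 = 2 * r + 2 ∧ b1 ≤ z.2 ∧ z.2 ≤ b2) ∧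
    ∀ S, TCR (BB r) ω c (fun z => z.1 = 2 * r + 2 ∧ b1 ≤ z.2 ∧ z.2 ≤ b2) S →
      ∀ p : ℤ × ℤ, (p.1 + p.2) % 2 = 0 →
      (2 * r + 4 ≤ |p.1| ∨ 2 * r + 4 ≤ |p.2|) → S p = true := by
  obtain ⟨q1, q2, q3⟩ : -(2 * r) + 1 ≤ b1 ∧ b1 ≤ 2 * r ∧ b1 % 2 = 1 := by
    obtain ⟨b', g1, g2, g3, g4⟩ := BX_pos hr hc h1
    simp only [Prod.mk.injEq, true_and] at g4
    clear h1 h2
    omega
  obtain ⟨q4, q5, q6⟩ : -(2 * r) + 1 ≤ b2 ∧ b2 ≤ 2 * r ∧ b2 % 2 = 0 := by
    obtain ⟨b', g1, g2, g3, g4⟩ := FX_pos hr hc h2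
    simp only [Prod.mk.injEq, true_and] at g4
    clear h1 h2
    omega
  obtain ⟨R, hRd⟩ : ∃ R : ℤ × ℤ → Prop, R = fun z => z.1 = 2 * r + 2 ∧ b1 ≤ z.2 ∧ z.2 ≤ b2 :=
    ⟨_, rfl⟩
  rw [← hRd]
  have hR : ∀ z, R z ↔ z.1 = 2 * r + 2 ∧ (b1 ≤ z.2 ∧ z.2 ≤ b2) := by
    intro z; rw [hRd]
  clear hRd
  have e1 := (lab_e (2 * r + 1) b2).1 q6 (by omega)
  have e2 := (lab_e (2 * r + 1) b1).2 q3 (by omega)
  refine ⟨⟨?_, ?_, ?_⟩, ?_⟩
  · intro z hz
    rw [hR] at hz
    have a1 := lab_fst z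
    have a2 := plab_fst z
    unfold TwoArm.BB
    rw [mem_Bx, mem_Bx]
    omega
  · intro a ha
    rw [ev_seg (by omega) hR, e1, e2]
    obtain ⟨u, v⟩ := a
    simp only [Prod.mk.injEq] at ha ⊢
    clear h1 h2 hR e1 e2
    by_cases c1 : v = b2
    · constructor
      · intro h3
        have : ¬ (u = 2 * r + 2 ∨ u + 1 = 2 * r + 2) := by
          intro h4
          apply h3
          refine ⟨h4, ?_⟩
          intro h5
          have := h5.2 (by omega)
          omega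
        constructor <;> intro h' <;> omega
      · rintro h3 ⟨h4, h5⟩
        have := h3.1 ⟨by omega, c1⟩
        omega
    · by_cases c2 : v = b1 - 1
      · constructor
        · intro h3
          have : ¬ (u = 2 * r + 2 ∨ u + 1 = 2 * r + 2) := by
            intro h4
            apply h3
            refine ⟨h4, ?_⟩
            intro h5
            have := h5.1 (by omega)
            omega
          constructor <;> intro h' <;> omega
        · rintro h3 ⟨h4, h5⟩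
          have := h3.2 ⟨by omega, c2⟩
          omega
      · constructor
        · intro _
          constructor <;> intro h' <;> omega
        · rintro - ⟨-, h4⟩
          apply h4
          constructor <;> intro h' <;> omega
  · intro p
    refine (Set.finite_le_nat (2 * r + 2 - p.1).toNat).subset ?_
    intro k hk
    simp only [Set.mem_ofPred_eq] at hk ⊢
    rw [hR] at hk
    simp only at hk
    omega
  · intro S h p hp hf
    have hcol := TCR_Col h
    rw [far_aux hr hc (by omega) (by omega) hR h (y := b1 - 1) (by omega) hp hf]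
    have s1 := (h.str _ (TrackAux.BX_Str h1)).1
    unfold dbl vx at s1
    simp only at s1
    have f1 : 2 * ((2 * r + 1) / 2) = 2 * r := by omega
    have f2 : 2 * (b1 / 2) = b1 - 1 := by omega
    rw [f1, f2] at s1
    have g1 : S (2 * r, b1 - 1) = S (2 * r + 1, b1 - 1 - 1) := by
      by_contra hne
      rcases (ColorAux.diag2 hcol (x := 2 * r) (y := b1 - 1) (by omega)).2 hne with h3 | h3
      · have h4 := Str_FX h2 h3 (by
          rw [(lab_e (2 * r + 1) (b1 - 1)).1 (by omega) (by omega)]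
          unfold TwoArm.BB
          rw [mem_Bx]
          simp only
          omega)
        simp only [Prod.mk.injEq] at h4
        omega
      · rw [hR] at h3
        simp only at h3; omega
    have g2 : S (2 * r + 1, b1 - 1 - 1) = S (2 * r + 1 + 1, b1 - 1 - 1 + 1) := by
      by_contra hne
      rcases (ColorAux.diag1 hcol (x := 2 * r + 1) (y := b1 - 1 - 1) (by omega)).2 hne with h3 | h3
      · have := Str_bd hc h3
        simp only at this; omega
      · rw [hR] at h3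
        simp only at h3; omega
    have f3 : 2 * r + 1 + 1 = 2 * r + 2 := by ring
    have f4 : b1 - 1 - 1 + 1 = b1 - 1 := by ring
    rw [f3, f4] at g2
    rw [← g2, ← g1, s1]

end ray

end Pool.Agent.H75.Four
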