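import Mathlib
import Pool.Agent.H75.Four.FCol
import Pool.Agent.H75.Four.FOther
import Pool.Agent.H75.TwoArm.Exit
import Pool.Agent.H75.Four.FRay

set_option autoImplicit false
open Finset

/-! FA7 (helper37): arms and strands. -/

namespace Pool.Agent.H75.Four

open Pool.Agent.H75.Perc
open Pool.Agent.H75.TwoArm


namespace ArmAux

variable {B ω : Finset (ℤ × ℤ)} {c x x1 x2 e : ℤ × ℤ} {r : ℤ}

lemma Leave_mono {B B' ω : Finset (ℤ × ℤ)} {c : ℤ × ℤ} (h : B ⊆ B') (hL : Leave B' ω c) :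
    Leave B ω c := by
  obtain ⟨j, hj⟩ := hL
  exact ⟨j, fun h1 => hj (h h1)⟩

lemma Str_mono {B B' ω : Finset (ℤ × ℤ)} {c z : ℤ × ℤ} (h : B ⊆ B') (hz : Str B ω c z) :
    Str B' ω c z := by
  rcases hz with ⟨j, h1, h2⟩ | ⟨j, h1, h2⟩
  · exact Or.inl ⟨j, h1, fun i hi => h (h2 i hi)⟩
  · exact Or.inr ⟨j, h1, fun i hi => h (h2 i hi)⟩

/-- some closing exists -/
lemma exists_clo (hr : 1 ≤ r) (hc : lab c ∈ BB r) (h1 : FX (BB r) ω c x1)
    (h2 : BX (BB r) ω c x2) : ∃ R, Clo (BB r) x1 x2 R := by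
  by_cases hne : lab x1 = plab x2
  · refine ⟨fun _ => False, ⟨fun z hz => hz.elim, fun a _ => ?_, fun p => ?_⟩⟩
    · unfold Ev
      rw [hne]
      simp
    · simp
  · exact ⟨_, clo_rays hr hc h1 h2 hne⟩

/-- the exit vertex of a strand is on the boundary of the box -/
lemma exit_vx (hr : 1 ≤ r) (hp : plab x ∈ BB r) (hl : lab x ∉ BB r) :
    |(vx x).1| = r ∨ |(vx x).2| = r := by
  unfold TwoArm.BB at hp hl
  rw [mem_Bx] at hp hl
  have key : (x.1 / 2 = r ∨ x.1 / 2 = -r) ∨ (x.2 / 2 = r ∨ x.2 / 2 = -r) := by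
    rcases ExitAux.vals x with h | h | h | h <;> omega
  unfold vx
  simp only
  rcases key with (h | h) | (h | h)
  · left; rw [h]; exact abs_of_nonneg (by omega)
  · left; rw [h, abs_neg]; exact abs_of_nonneg (by omega)
  · right; rw [h]; exact abs_of_nonneg (by omega)
  · right; rw [h, abs_neg]; exact abs_of_nonneg (by omega)

lemma exit_fi (hp : plab x ∈ BB r) (hl : lab x ∉ BB r) :
    (fi x).1 = r + 1 ∨ (fi x).1 = -r ∨ (fi x).2 = r + 1 ∨ (fi x).2 = -r := by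
  unfold TwoArm.BB at hp hl
  rw [mem_Bx] at hp hl
  unfold fi
  simp only
  rcases ExitAux.vals x with h | h | h | h <;> omega

lemma last_exit {r : ℤ} {ω : Finset (ℤ × ℤ)} {p q : ℤ × ℤ} (h : Co ω p q)
    (hp : |p.1| ≤ r ∧ |p.2| ≤ r) :
    ∃ u : ℤ × ℤ, |u.1| ≤ r ∧ |u.2| ≤ r ∧ Co (ω \ BB r) u q := by
  induction h with
  | refl => exact ⟨p, hp.1, hp.2, Co.refl _ _⟩
  | @tail b c hab hbc ih =>
    obtain ⟨u, hu1, hu2, hu3⟩ := ih
    by_cases hc : |c.1| ≤ r ∧ |c.2| ≤ r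
    · exact ⟨c, hc.1, hc.2, Co.refl _ _⟩
    · refine ⟨u, hu1, hu2, Relation.ReflTransGen.tail hu3 ⟨hbc.1, ?_⟩⟩
      rw [mem_sdiff]
      refine ⟨hbc.2, fun h1 => hc ?_⟩
      have h2 := mem_Bx.1 h1
      have h3 := unit_cases hbc.1
      simp only [Prod.fst_add, Prod.snd_add] at h2
      rw [abs_le, abs_le]
      omega

end ArmAux

open ArmAux

section

variable {B ω : Finset (ℤ × ℤ)} {c x x1 x2 e : ℤ × ℤ} {r : ℤ}

lemma A4_mono {B B' : Finset (ℤ × ℤ)} (h : B ⊆ B') (hA : A4 B' e ω) : A4 B e ω :=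
  ⟨Leave_mono h hA.1, Leave_mono h hA.2.1, fun h1 => hA.2.2 (Str_mono h h1)⟩

namespace ArmAux

/-- open arm from a strand which leaves -/
lemma arm_of_leave {ω0 : Finset (ℤ × ℤ)} (hr : 1 ≤ r) (hc : lab c ∈ BB r) (h : Leave (BB r) ω0 c) :
    ∃ p : ℤ × ℤ, (|p.1| = r ∨ |p.2| = r) ∧ Co (ω0 ∩ BB r) (vx c) p := by
  obtain ⟨x, hx⟩ := ExitAux.exists_FX h
  obtain ⟨h3, h4⟩ := ExitAux.FX_plab hx hc
  exact ⟨vx x, exit_vx hr h3 h4, (Str_co (ExitAux.FX_str hx)).1.mono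
    (inter_subset_inter_left (ExitAux.UU_sub _ _ _))⟩

lemma darm_of_leave {ω0 : Finset (ℤ × ℤ)} (hc : lab c ∈ BB r) (h : Leave (BB r) ω0 c) :
    ∃ f : ℤ × ℤ, (f.1 = r + 1 ∨ f.1 = -r ∨ f.2 = r + 1 ∨ f.2 = -r) ∧
      Co (du (BB r) ω0) (fi c) f := by
  obtain ⟨x, hx⟩ := ExitAux.exists_FX h
  obtain ⟨h3, h4⟩ := ExitAux.FX_plab hx hc
  exact ⟨fi x, exit_fi h3 h4, (Str_co (ExitAux.FX_str hx)).2.mono
    (ExitAux.du_mono (ExitAux.UU_sub _ _ _) _)⟩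

lemma erase_inter' : (ω ∩ B).erase e = ω.erase e ∩ B := by
  ext a
  simp only [mem_erase, mem_inter]
  tauto

open TwoArm.ColorAux TwoArm.TrackAux

/-- a loop which does not leave the box separates its inside from the boundary -/
lemma leave_of_arms {ω0 : Finset (ℤ × ℤ)} {e u v f g z1 z2 z3 z4 p q : ℤ × ℤ}
    (Q : Quad e u v f g z1 z2 z3 z4) (heω : e ∉ ω0) (hp : |p.1| = r ∨ |p.2| = r)
    (hup : Co (ω0 ∩ BB r) u p) (hq : |q.1| = r ∨ |q.2| = r) (hvq : Co (ω0 ∩ BB r) v q)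
    (hn : ¬ Co (ω0 ∩ BB r) u v) : Leave (BB r) ω0 z1 := by
  by_contra hcon
  have hin : ∀ j : ℕ, lab ((nx ω0)^[j] z1) ∈ BB r := by
    intro j
    by_contra hj
    exact hcon ⟨j, hj⟩
  obtain ⟨L, hL⟩ := ExitAux.exists_period ω0 z1
  obtain ⟨Z, hZdef⟩ : ∃ Z : ℤ × ℤ → Prop, ∀ z, Z z ↔ ∃ j : ℕ, (nx ω0)^[j] z1 = z :=
    ⟨_, fun z => Iff.rfl⟩
  have hZ : ∀ z, Z z ↔ Z (nx ω0 z) := by
    intro z
    rw [hZdef, hZdef]
    constructor
    · rintro ⟨j, rfl⟩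
      exact ⟨j + 1, by rw [Function.iterate_succ_apply']⟩
    · rintro ⟨j, hj⟩
      have h1 : (nx ω0)^[j + L] z1 = nx ω0 z := by rw [hL.add, hj]
      have hpos := hL.pos
      have e1 : j + L = (j + L - 1) + 1 := by omega
      rw [e1, Function.iterate_succ_apply'] at h1
      exact ⟨j + L - 1, nx_injective ω0 h1⟩
  have hlab : ∀ z, Z z → lab z ∈ BB r ∧ plab z ∈ BB r := by
    intro z hz
    have h1 : Z (pv ω0 z) := by rw [hZ, nx_pv]; exact hz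
    obtain ⟨j, rfl⟩ := (hZdef z).1 hz
    obtain ⟨j', hj'⟩ := (hZdef _).1 h1
    refine ⟨hin j, ?_⟩
    rw [← lab_pv ω0, ← hj']
    exact hin j'
  have hZbox : ∀ z, Z z → |z.1| ≤ 2 * r ∧ |z.2| ≤ 2 * r := by
    intro z hz
    obtain ⟨h1, h2⟩ := hlab z hz
    unfold TwoArm.BB at h1 h2
    rw [mem_Bx] at h1 h2
    rw [abs_le, abs_le]
    rcases ExitAux.vals z with h | h | h | h <;> omega
  obtain ⟨S, hS⟩ := exists_Col Z (by
      intro p
      refine Set.Finite.subset (Set.finite_Iic (2 * r - p.1).toNat) ?_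
      intro k hk
      have h1 := (hZbox _ hk).1
      simp only at h1
      have h2 := le_abs_self (p.1 + (k : ℤ))
      rw [Set.mem_Iic]
      omega)
    (even_of_pairs hZ)
  have hco : ∀ {a b : ℤ × ℤ}, Co (ω0 ∩ BB r) a b → S (dbl a) = S (dbl b) := by
    intro a b hab
    induction hab with
    | refl => rfl
    | tail _ hbc ih =>
      exact ih.trans (col_open hS hZ ⟨hbc.1, (mem_inter.1 hbc.2).1⟩)
  -- the boundary has the far colour
  have hbd : ∀ p : ℤ × ℤ, (|p.1| = r ∨ |p.2| = r) → ∃ p' : ℤ × ℤ,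
      (2 * r + 2 ≤ |(dbl p').1| ∨ 2 * r + 2 ≤ |(dbl p').2|) ∧ S (dbl p) = S (dbl p') := by
    intro p hp
    obtain ⟨p', hp1, hp2, hp3⟩ : ∃ p' : ℤ × ℤ, IsUnit4 (p' - p) ∧ p + p' ∉ BB r ∧
        (2 * r + 2 ≤ |(dbl p').1| ∨ 2 * r + 2 ≤ |(dbl p').2|) := by
      unfold TwoArm.BB
      simp only [mem_Bx]
      rcases hp with hp | hp
      · rcases abs_cases p.1 with ⟨h1, h2⟩ | ⟨h1, h2⟩
        · refine ⟨(p.1 + 1, p.2), ?_, ?_, Or.inl ?_⟩
          · simp [IsUnit4, Prod.ext_iff]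
          · simp only [Prod.fst_add, Prod.snd_add]; omega
          · unfold dbl; simp only; rw [le_abs]; left; omega
        · refine ⟨(p.1 - 1, p.2), ?_, ?_, Or.inl ?_⟩
          · simp [IsUnit4, Prod.ext_iff]
          · simp only [Prod.fst_add, Prod.snd_add]; omega
          · unfold dbl; simp only; rw [le_abs]; right; omega
      · rcases abs_cases p.2 with ⟨h1, h2⟩ | ⟨h1, h2⟩
        · refine ⟨(p.1, p.2 + 1), ?_, ?_, Or.inr ?_⟩
          · simp [IsUnit4, Prod.ext_iff]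
          · simp only [Prod.fst_add, Prod.snd_add]; omega
          · unfold dbl; simp only; rw [le_abs]; left; omega
        · refine ⟨(p.1, p.2 - 1), ?_, ?_, Or.inr ?_⟩
          · simp [IsUnit4, Prod.ext_iff]
          · simp only [Prod.fst_add, Prod.snd_add]; omega
          · unfold dbl; simp only; rw [le_abs]; right; omega
    refine ⟨p', hp3, ?_⟩
    obtain ⟨f', g', w1, w2, w3, w4, Q'⟩ := quad_of_uv hp1
    have n1 : ¬ Z w1 := fun h => hp2 (by rw [← Q'.l1]; exact (hlab _ h).1)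
    have n3 : ¬ Z w3 := fun h => hp2 (by rw [← Q'.p3]; exact (hlab _ h).2)
    have a1 := Col_eq hS n1
    have a3 := Col_eq hS n3
    rw [Q'.v1, Q'.f1] at a1
    rw [Q'.v3, Q'.f3] at a3
    rw [a1, a3]
  have huv : S (dbl u) = S (dbl v) := by
    obtain ⟨p', hp1, hp2⟩ := hbd p hp
    obtain ⟨q', hq1, hq2⟩ := hbd q hq
    rw [hco hup, hco hvq, hp2, hq2]
    exact Col_far hS hZbox (by unfold dbl; simp only; omega) (by unfold dbl; simp only; omega)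
      hp1 hq1
  have Z1 : Z z1 := (hZdef z1).2 ⟨0, rfl⟩
  have Z2 : Z z2 := by
    have h1 := (hZ z1).1 Z1
    rwa [Q.n1, if_neg heω] at h1
  have Z4 : Z z4 := by
    rw [hS, Q.v4, Q.f4, ← huv]
    have h1 := (hS z2).1 Z2
    rwa [Q.v2, Q.f2] at h1
  obtain ⟨j, hj⟩ := (hZdef z4).1 Z4
  have hs : Str (BB r) ω0 z1 z4 := Or.inl ⟨j, hj, fun i _ => hin i⟩
  apply hn
  have h1 := (Str_co hs).1
  rw [Q.v1, Q.v4] at h1
  exact h1.mono (inter_subset_inter_left (ExitAux.UU_sub _ _ _))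

lemma quad_zu (he : (e.1 + e.2) % 2 = 1) :
    ∃ f g z2 z3, Quad e (eu e) (ev e) f g (zu e) z2 z3 (zv e) := by
  obtain ⟨a, b⟩ := e
  simp only at he
  rcases Int.even_or_odd' a with ⟨x, rfl | rfl⟩
  · obtain ⟨y, rfl⟩ : ∃ y, b = 2 * y + 1 := ⟨(b - 1) / 2, by omega⟩
    have h := quad_v x y
    have e1 : eu (2 * x, 2 * y + 1) = (x, y) := by
      unfold eu; refine Prod.ext ?_ ?_ <;> simp only <;> omega
    have e2 : ev (2 * x, 2 * y + 1) = (x, y + 1) := by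
      unfold ev; refine Prod.ext ?_ ?_ <;> simp only <;> omega
    have e3 : zu (2 * x, 2 * y + 1) = (2 * x + 1, 2 * y + 1) := by
      unfold zu; simp
    have e4 : zv (2 * x, 2 * y + 1) = (2 * x, 2 * y + 2) := by
      unfold zv; simp; ring
    rw [e1, e2, e3, e4]
    exact ⟨_, _, _, _, h⟩
  · obtain ⟨y, rfl⟩ : ∃ y, b = 2 * y := ⟨b / 2, by omega⟩
    have h := quad_h x y
    have h0 : (2 * x + 1) % 2 ≠ 0 := by omega
    have e1 : eu (2 * x + 1, 2 * y) = (x, y) := by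
      unfold eu; refine Prod.ext ?_ ?_ <;> simp only <;> omega
    have e2 : ev (2 * x + 1, 2 * y) = (x + 1, y) := by
      unfold ev; refine Prod.ext ?_ ?_ <;> simp only <;> omega
    have e3 : zu (2 * x + 1, 2 * y) = (2 * x + 1, 2 * y) := by
      unfold zu; rw [if_neg h0]
    have e4 : zv (2 * x + 1, 2 * y) = (2 * x + 2, 2 * y + 1) := by
      unfold zv; rw [if_neg h0]; refine Prod.ext ?_ ?_ <;> simp only; ring
    rw [e1, e2, e3, e4]
    exact ⟨_, _, _, _, h⟩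

end ArmAux

theorem A4_iff_F4 (hr : 1 ≤ r) (he : (e.1 + e.2) % 2 = 1) (heB : e ∈ BB r) :
    A4 (BB r) e ω ↔ F4 r e ω := by
  obtain ⟨o1, o2, o3, o4, o5, o6⟩ := opc_zu he
  have heω : e ∉ ω.erase e := notMem_erase e ω
  unfold A4 F4
  rw [erase_inter']
  constructor
  · rintro ⟨h1, h2, h3⟩
    have a1 := arm_of_leave hr (by rw [o3]; exact heB) h1
    have a2 := arm_of_leave hr (by rw [o4]; exact heB) h2
    rw [o5] at a1
    rw [o6] at a2
    refine ⟨a1, a2, fun hco => ?_⟩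
    obtain ⟨⟨x1, hx1⟩, ⟨x2, hx2⟩⟩ := leave_exits h1
    have hc : lab (zu e) ∈ BB r := by rw [o3]; exact heB
    obtain ⟨R, hR⟩ := exists_clo hr hc hx1 hx2
    obtain ⟨S, hS⟩ := exists_TCR hc hx1 hx2 hR
    have s1 := (hS.str _ (StrandAux.Str_self _ _ _)).1
    have s2 := (other_false hc (by rw [o3]; exact heω) hS hR.out (by rw [o1]; exact h3)
      (StrandAux.Str_self _ _ _)).1
    rw [o1, o6] at s2
    rw [o5] at s1
    have key : ∀ {a b : ℤ × ℤ}, Co (ω.erase e ∩ BB r) a b → S (dbl a) = S (dbl b) := by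
      intro a b hab
      induction hab with
      | refl => rfl
      | tail _ hbc ih =>
        exact ih.trans (hS.open_eq hR.out hbc.1 (mem_inter.1 hbc.2).2 (mem_inter.1 hbc.2).1)
    rw [key hco, s2] at s1
    exact absurd s1 (by simp)
  · rintro ⟨⟨p, hp, hup⟩, ⟨q, hq, hvq⟩, hn⟩
    obtain ⟨f, g, z2, z3, Q⟩ := quad_zu he
    refine ⟨leave_of_arms Q heω hp hup hq hvq hn,
      leave_of_arms Q.symm heω hq hvq hp hup (fun h => hn h.symm), fun hs => hn ?_⟩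
    have h1 := (Str_co hs).1
    rw [o5, o6] at h1
    exact h1.mono (inter_subset_inter_left (ExitAux.UU_sub _ _ _))

/-- dual arms of the four-arm event -/
theorem F4_dual (hr : 1 ≤ r) (he : (e.1 + e.2) % 2 = 1) (heB : e ∈ BB r) (h : A4 (BB r) e ω) :
    (∃ f : ℤ × ℤ, (f.1 = r + 1 ∨ f.1 = -r ∨ f.2 = r + 1 ∨ f.2 = -r) ∧
      Co (du (BB r) (insert e ω)) (fi (zu e)) f) ∧
    (∃ f : ℤ × ℤ, (f.1 = r + 1 ∨ f.1 = -r ∨ f.2 = r + 1 ∨ f.2 = -r) ∧
      Co (du (BB r) (insert e ω)) (fi (zv e)) f) ∧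
    ¬ Co (du (BB r) (insert e ω)) (fi (zu e)) (fi (zv e)) := by
  obtain ⟨o1, o2, o3, o4, o5, o6⟩ := opc_zu he
  obtain ⟨h1, h2, h3⟩ := (A4_insert he heB).1 h
  have heω : e ∈ insert e ω := mem_insert_self e ω
  have hc : lab (zu e) ∈ BB r := by rw [o3]; exact heB
  refine ⟨darm_of_leave hc h1, darm_of_leave (by rw [o4]; exact heB) h2, fun hco => ?_⟩
  obtain ⟨⟨x1, hx1⟩, ⟨x2, hx2⟩⟩ := leave_exits h1
  obtain ⟨R, hR⟩ := exists_clo hr hc hx1 hx2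
  obtain ⟨S, hS⟩ := exists_TCR hc hx1 hx2 hR
  have s1 := (hS.str _ (StrandAux.Str_self _ _ _)).2
  have s2 := (other_true hc (by rw [o3]; exact heω) hS hR.out (by rw [o1]; exact h3)
    (StrandAux.Str_self _ _ _)).2
  rw [o1] at s2
  have key : ∀ {a b : ℤ × ℤ}, Co (du (BB r) (insert e ω)) a b → S (fp a) = S (fp b) := by
    intro a b hab
    induction hab with
    | refl => rfl
    | tail _ hbc ih =>
      have h4 := ColorAux.mem_du.1 hbc.2
      exact ih.trans (hS.closed_eq hR.out hbc.1 h4.1 h4.2)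
  have e1 : fce (zu e) = fp (fi (zu e)) := rfl
  have e2 : fce (zv e) = fp (fi (zv e)) := rfl
  rw [e1, key hco] at s1
  rw [e2] at s2
  rw [s1] at s2
  exact absurd s2 (by simp)

/-- an arm outside a smaller box -/
theorem arm_outer {m : ℤ} (hm : m ≤ r) (hm0 : 1 ≤ m) (he : (e.1 + e.2) % 2 = 1) (heB : e ∈ BB m)
    (h : A4 (BB r) e ω) (hx : Ex4 r e ω x) :
    ∃ q : ℤ × ℤ, |q.1| ≤ m ∧ |q.2| ≤ m ∧ Co ((ω ∩ BB r) \ BB m) (vx x) q := by
  obtain ⟨o1, o2, o3, o4, o5, o6⟩ := opc_zu he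
  have hb : (|(eu e).1| ≤ m ∧ |(eu e).2| ≤ m) ∧ (|(ev e).1| ≤ m ∧ |(ev e).2| ≤ m) := by
    unfold TwoArm.BB at heB
    rw [mem_Bx] at heB
    unfold eu ev
    simp only [abs_le]
    omega
  obtain ⟨c, hc, hs⟩ : ∃ c, (|(vx c).1| ≤ m ∧ |(vx c).2| ≤ m) ∧ Str (BB r) (ω.erase e) c x := by
    rcases hx with hx | hx | hx | hx
    · exact ⟨zu e, by rw [o5]; exact hb.1, ExitAux.FX_str hx⟩
    · obtain ⟨j, hj, -, hB⟩ := hx
      exact ⟨zu e, by rw [o5]; exact hb.1, Or.inr ⟨j, hj, hB⟩⟩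
    · exact ⟨zv e, by rw [o6]; exact hb.2, ExitAux.FX_str hx⟩
    · obtain ⟨j, hj, -, hB⟩ := hx
      exact ⟨zv e, by rw [o6]; exact hb.2, Or.inr ⟨j, hj, hB⟩⟩
  obtain ⟨q, hq1, hq2, hq3⟩ := last_exit (Str_co hs).1 hc
  refine ⟨q, hq1, hq2, (hq3.mono ?_).symm⟩
  intro a ha
  rw [mem_sdiff, mem_inter] at ha ⊢
  exact ⟨⟨mem_of_mem_erase ha.1.1, ExitAux.UU_sub _ _ _ ha.1.2⟩, ha.2⟩

end

end Pool.Agent.H75.Four
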