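import Mathlib
import Pool.Agent.H75.Four.FCol
import Pool.Agent.H75.Four.FOther
import Pool.Agent.H75.Four.FRay

set_option autoImplicit false
open Finset

/-! FA6 (helper77): the cyclic order of the four exits. -/

namespace Pool.Agent.H75.Four

open Pool.Agent.H75.Perc hiding BB BE
open Pool.Agent.H75.TwoArm

namespace OrderAux

/-- the corner at the position `m`, `0 ≤ m < 16 r`, of the ring around the box `[-r,r]²` -/
def ps (r m : ℤ) : ℤ × ℤ :=
  if m < 4 * r then (2 * r + 1, m - 2 * r + 1) else if m < 8 * r then (6 * r - m, 2 * r + 1)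
  else if m < 12 * r then (-(2 * r), 10 * r - m) else (m - 14 * r + 1, -(2 * r))

/-- `b` is the coordinate along the side -/
def IsPos (r b : ℤ) (x : ℤ × ℤ) : Prop :=
  x = (2 * r + 1, b) ∨ x = (1 - b, 2 * r + 1) ∨ x = (-(2 * r), 1 - b) ∨ x = (b, -(2 * r))

lemma clk_ps {r b : ℤ} {x : ℤ × ℤ} (hr : 1 ≤ r) (h1 : -(2 * r) + 1 ≤ b) (h2 : b ≤ 2 * r)
    (hx : IsPos r b x) : 0 ≤ clk r x ∧ clk r x < 16 * r ∧ (clk r x - b) % 2 = 1 ∧
      ps r (clk r x) = x := by
  rcases hx with rfl | rfl | rfl | rfl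
  · have e : clk r (2 * r + 1, b) = b + 2 * r - 1 := by unfold clk; simp
    rw [e]
    refine ⟨by omega, by omega, by omega, ?_⟩
    unfold ps
    rw [if_pos (by omega)]
    refine Prod.ext ?_ ?_ <;> simp only <;> omega
  · have e : clk r (1 - b, 2 * r + 1) = b + 6 * r - 1 := by
      unfold clk; simp only; split_ifs <;> omega
    rw [e]
    refine ⟨by omega, by omega, by omega, ?_⟩
    unfold ps
    rw [if_neg (by omega), if_pos (by omega)]
    refine Prod.ext ?_ ?_ <;> simp only <;> omega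
  · have e : clk r (-(2 * r), 1 - b) = b + 10 * r - 1 := by
      unfold clk; simp only; split_ifs <;> omega
    rw [e]
    refine ⟨by omega, by omega, by omega, ?_⟩
    unfold ps
    rw [if_neg (by omega), if_neg (by omega), if_pos (by omega)]
    refine Prod.ext ?_ ?_ <;> simp only <;> omega
  · have e : clk r (b, -(2 * r)) = b + 14 * r - 1 := by
      unfold clk; simp only; split_ifs <;> omega
    rw [e]
    refine ⟨by omega, by omega, by omega, ?_⟩
    unfold ps
    rw [if_neg (by omega), if_neg (by omega), if_neg (by omega)]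
    refine Prod.ext ?_ ?_ <;> simp only <;> omega

lemma ps_cases {r m : ℤ} (h0 : 0 ≤ m) (h1 : m < 16 * r) :
    ∃ b, -(2 * r) + 1 ≤ b ∧ b ≤ 2 * r ∧ (m - b) % 2 = 1 ∧ IsPos r b (ps r m) := by
  unfold ps
  split_ifs with a1 a2 a3
  · exact ⟨m - 2 * r + 1, by omega, by omega, by omega, Or.inl rfl⟩
  · refine ⟨m - 6 * r + 1, by omega, by omega, by omega, Or.inr (Or.inl ?_)⟩
    refine Prod.ext ?_ ?_ <;> simp only <;> omega
  · refine ⟨m - 10 * r + 1, by omega, by omega, by omega, Or.inr (Or.inr (Or.inl ?_))⟩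
    refine Prod.ext ?_ ?_ <;> simp only <;> omega
  · refine ⟨m - 14 * r + 1, by omega, by omega, by omega, Or.inr (Or.inr (Or.inr ?_))⟩
    rfl

lemma ps_inj {r m m' : ℤ} (hr : 1 ≤ r) (h1 : m < 16 * r)
    (h1' : m' < 16 * r) (h : ps r m = ps r m') : m = m' := by
  unfold ps at h
  split_ifs at h <;> simp only [Prod.mk.injEq] at h <;> omega

/-- the labels behind the positions are outside the box -/
lemma pos_out {r b : ℤ} {x : ℤ × ℤ} (h1 : -(2 * r) + 1 ≤ b) (h2 : b ≤ 2 * r)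
    (hx : IsPos r b x) : (b % 2 = 0 → lab x ∉ BB r) ∧ (b % 2 = 1 → plab x ∉ BB r) := by
  rw [BB]
  constructor
  · intro hb
    have hl : lab x = (2 * r + 1, b) ∨ lab x = (- b, 2 * r + 1) ∨ lab x = (-(2 * r) - 1, - b) ∨
        lab x = (b, -(2 * r) - 1) := by
      rcases hx with rfl | rfl | rfl | rfl <;> unfold lab <;> simp only <;> split_ifs <;>
      simp only [Prod.mk.injEq, true_and, and_true, true_or, or_true] <;> omega
    rcases hl with h | h | h | h <;> rw [h, mem_Bx] <;> simp only <;> omega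
  · intro hb
    have hl : plab x = (2 * r + 1, b - 1) ∨ plab x = (1 - b, 2 * r + 1) ∨
        plab x = (-(2 * r) - 1, 1 - b) ∨ plab x = (b - 1, -(2 * r) - 1) := by
      rcases hx with rfl | rfl | rfl | rfl <;> unfold plab <;> simp only <;> split_ifs <;>
      simp only [Prod.mk.injEq, true_and, and_true, true_or, or_true] <;> omega
    rcases hl with h | h | h | h <;> rw [h, mem_Bx] <;> simp only <;> omega

lemma pos_ray {r b : ℤ} {x z : ℤ × ℤ} (h1 : -(2 * r) + 1 ≤ b) (h2 : b ≤ 2 * r)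
    (hz : IsPos r b z) : ¬ ray r x z := by
  intro h
  unfold ray at h
  rcases hz with rfl | rfl | rfl | rfl <;> simp only at h <;> omega

/-- the element of the ring between the positions `m` and `m+1` -/
def el (r m : ℤ) : ℤ × ℤ := if m % 2 = 0 then fce (ps r m) else dbl (vx (ps r m))

/-- consecutive positions share a vertex or a face -/
lemma el_step {r m : ℤ} (h0 : 1 ≤ m) (h1 : m < 16 * r) :
    el r (m - 1) = if m % 2 = 0 then dbl (vx (ps r m)) else fce (ps r m) := by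
  unfold el ps dbl vx fce
  split_ifs <;> simp only [Prod.mk.injEq, true_and, and_true] <;> omega

lemma el_step0 {r : ℤ} (hr : 1 ≤ r) : el r (16 * r - 1) = dbl (vx (ps r 0)) := by
  unfold el ps dbl vx fce
  split_ifs <;> simp only [Prod.mk.injEq, true_and, and_true] <;> omega

lemma el_eq {S : ℤ × ℤ → Bool} {r m : ℤ} (h : S (dbl (vx (ps r m))) = S (fce (ps r m))) :
    S (el r m) = S (fce (ps r m)) ∧ (1 ≤ m → m < 16 * r → S (el r (m - 1)) = S (fce (ps r m))) := by
  constructor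
  · unfold el
    split_ifs
    · rfl
    · exact h
  · intro h0 h1
    rw [el_step h0 h1]
    split_ifs
    · exact h
    · rfl

/-- the elements of the ring on the arc from the position `k1` to the position `k2` -/
lemma walk {S : ℤ × ℤ → Bool} {r k1 k2 : ℤ} (hr : 1 ≤ r) (k0 : 0 ≤ k1) (o1 : k1 % 2 = 1)
    (hS : ∀ m, 0 ≤ m → m < 16 * r → m ≠ k1 → m ≠ k2 →
      S (dbl (vx (ps r m))) = S (fce (ps r m)))
    (h1 : S (dbl (vx (ps r k1))) = true) (i : ℕ) :
    ∀ m, 0 ≤ m → m < 16 * r → ((k1 + i = m ∧ (k2 ≤ k1 ∨ m < k2)) ∨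
      (k1 + i = m + 16 * r ∧ k2 < k1 ∧ m < k2)) → k1 < 16 * r → S (el r m) = true := by
  induction i with
  | zero =>
    intro m m0 m1 h hk
    have e : m = k1 := by
      rcases h with h | h
      · have := h.1; push_cast at this; omega
      · have := h.1; push_cast at this; omega
    rw [e]
    unfold el
    rw [if_neg (by omega)]
    exact h1
  | succ i ih =>
    intro m m0 m1 h hk
    push_cast at h
    have hm := hS m m0 m1 (by omega) (by omega)
    obtain ⟨e1, e2⟩ := el_eq (r := r) hm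
    rw [e1]
    rcases lt_or_ge m 1 with h0 | h0
    · have e : m = 0 := by omega
      subst e
      have := ih (16 * r - 1) (by omega) (by omega) (by omega) hk
      rw [el_step0 hr, hm] at this
      exact this
    · rw [← e2 h0 m1]
      exact ih (m - 1) (by omega) (by omega) (by omega) hk

lemma md {r a b : ℤ} (ha : 0 ≤ a) (ha' : a < 16 * r) (hb : 0 ≤ b) (hb' : b < 16 * r) :
    (a - b) % (16 * r) = if b ≤ a then a - b else a - b + 16 * r := by
  split_ifs with h
  · exact Int.emod_eq_of_lt (by omega) (by omega)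
  · rw [← Int.add_emod_right, Int.emod_eq_of_lt (by omega) (by omega)]

/-- one pair of exits and the colour of the exits of the other pair -/
lemma pair_lemma {r : ℤ} {ω : Finset (ℤ × ℤ)} {c x1 x2 x3 x4 : ℤ × ℤ} (hr : 1 ≤ r)
    (hc : lab c ∈ BB r) (hcl : lab c ∉ ω) (hn : ¬ Str (BB r) ω c (opc c))
    (h1 : FX (BB r) ω c x1) (h2 : BX (BB r) ω c x2) (h3 : FX (BB r) ω (opc c) x3)
    (h4 : BX (BB r) ω (opc c) x4) (hc' : lab (opc c) ∈ BB r) :
    ∀ x, x = x3 ∨ x = x4 →
      ¬ ((clk r x1 ≤ clk r x ∧ (clk r x2 ≤ clk r x1 ∨ clk r x < clk r x2)) ∨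
        (clk r x2 < clk r x1 ∧ clk r x < clk r x2)) := by
  obtain ⟨b1, b11, b12, b13, b14⟩ := FX_pos hr hc h1
  obtain ⟨b2, b21, b22, b23, b24⟩ := BX_pos hr hc h2
  obtain ⟨c11, c12, c13, c14⟩ := clk_ps hr b11 b12 b14
  obtain ⟨c21, c22, c23, c24⟩ := clk_ps hr b21 b22 b24
  obtain ⟨R, hR, hRp⟩ : ∃ R, Clo (BB r) x1 x2 R ∧ ∀ b z, -(2 * r) + 1 ≤ b → b ≤ 2 * r →
      IsPos r b z → ¬ R z := by
    by_cases hne : lab x1 = plab x2
    · refine ⟨fun _ => False, ⟨fun z h => h.elim, fun a _ => ?_, fun p => ?_⟩,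
        fun b z _ _ _ h => h⟩
      · unfold Ev
        rw [hne]
        simp
      · simp
    · refine ⟨rays r x1 x2, clo_rays hr hc h1 h2 hne, fun b z hb1 hb2 hz h => ?_⟩
      rcases h with h | h
      · exact pos_ray hb1 hb2 hz h
      · exact pos_ray hb1 hb2 hz h
  obtain ⟨S, hS⟩ := exists_TCR hc h1 h2 hR
  have key : ∀ m, 0 ≤ m → m < 16 * r → m ≠ clk r x1 → m ≠ clk r x2 →
      S (dbl (vx (ps r m))) = S (fce (ps r m)) := by
    intro m m0 m1 n1 n2
    obtain ⟨b, hb1, hb2, hb3, hb4⟩ := ps_cases m0 m1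
    obtain ⟨d1, d2, d3, d4⟩ := clk_ps hr hb1 hb2 hb4
    obtain ⟨o1, o2⟩ := pos_out hb1 hb2 hb4
    have e : clk r (ps r m) = m := by
      exact ps_inj hr d2 m1 d4
    refine hS.col _ (fun hs => ?_) (hRp b _ hb1 hb2 hb4)
    rcases Int.emod_two_eq_zero_or_one b with h0 | h0
    · have := Str_FX h1 hs (o1 h0)
      rw [this] at e
      exact n1 e.symm
    · have := Str_BX h2 hs (o2 h0)
      rw [this] at e
      exact n2 e.symm
  have hx1 := (hS.str x1 (TrackAux.FX_Str h1)).1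
  rw [← c14] at hx1
  have W := walk hr c11 (by omega) key hx1
  intro x hx hcon
  have hof : S (dbl (vx x)) = false ∧ S (fce x) = false := by
    have hs : Str (BB r) ω (opc c) x := by
      rcases hx with rfl | rfl
      · exact TrackAux.FX_Str h3
      · exact TrackAux.BX_Str h4
    exact other_false hc hcl hS hR.out hn hs
  have hxp : 0 ≤ clk r x ∧ clk r x < 16 * r ∧ ps r (clk r x) = x := by
    rcases hx with rfl | rfl
    · obtain ⟨b, b1, b2, b3, b4⟩ := FX_pos hr hc' h3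
      obtain ⟨d1, d2, d3, d4⟩ := clk_ps hr b1 b2 b4
      exact ⟨d1, d2, d4⟩
    · obtain ⟨b, b1, b2, b3, b4⟩ := BX_pos hr hc' h4
      obtain ⟨d1, d2, d3, d4⟩ := clk_ps hr b1 b2 b4
      exact ⟨d1, d2, d4⟩
  obtain ⟨d1, d2, d4⟩ := hxp
  have hfal : S (el r (clk r x)) = false := by
    unfold el
    rw [d4]
    split_ifs
    · exact hof.2
    · exact hof.1
  have htru : S (el r (clk r x)) = true := by
    rcases hcon with h | h
    · refine W (clk r x - clk r x1).toNat _ d1 d2 (Or.inl ⟨?_, h.2⟩) c12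
      rw [Int.toNat_of_nonneg (by omega)]; ring
    · refine W (clk r x + 16 * r - clk r x1).toNat _ d1 d2 (Or.inr ⟨?_, h.1, h.2⟩) c12
      rw [Int.toNat_of_nonneg (by omega)]; ring
  rw [hfal] at htru
  exact Bool.false_ne_true htru

end OrderAux

open OrderAux

variable {r : ℤ} {ω : Finset (ℤ × ℤ)} {x1 x2 e : ℤ × ℤ}

/-- The four exits are in the counterclockwise order `Fu, Bu, Fv, Bv`. -/
theorem cyc {x3 x4 : ℤ × ℤ} (hr : 1 ≤ r) (he : (e.1 + e.2) % 2 = 1) (heB : e ∈ BB r)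
    (hA : A4 (BB r) e ω) (h1 : FX (BB r) (ω.erase e) (zu e) x1)
    (h2 : BX (BB r) (ω.erase e) (zu e) x2) (h3 : FX (BB r) (ω.erase e) (zv e) x3)
    (h4 : BX (BB r) (ω.erase e) (zv e) x4) :
    0 < (clk r x2 - clk r x1) % (16 * r) ∧
    (clk r x2 - clk r x1) % (16 * r) < (clk r x3 - clk r x1) % (16 * r) ∧
    (clk r x3 - clk r x1) % (16 * r) < (clk r x4 - clk r x1) % (16 * r) := by
  obtain ⟨ou, ov, lu, lv, -, -⟩ := opc_zu he
  have hne : e ∉ ω.erase e := notMem_erase e ω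
  have hn1 : ¬ Str (BB r) (ω.erase e) (zu e) (opc (zu e)) := by rw [ou]; exact hA.2.2
  have hn2 : ¬ Str (BB r) (ω.erase e) (zv e) (opc (zv e)) := by
    rw [ov]; exact fun h => hA.2.2 (Str_symm h)
  have hcu : lab (zu e) ∈ BB r := by rw [lu]; exact heB
  have hcv : lab (zv e) ∈ BB r := by rw [lv]; exact heB
  have P1 := pair_lemma (x3 := x3) (x4 := x4) hr hcu (by rw [lu]; exact hne) hn1 h1 h2
    (by rw [ou]; exact h3) (by rw [ou]; exact h4) (by rw [ou]; exact hcv)
  have P2 := pair_lemma (x3 := x1) (x4 := x2) hr hcv (by rw [lv]; exact hne) hn2 h3 h4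
    (by rw [ov]; exact h1) (by rw [ov]; exact h2) (by rw [ov]; exact hcu)
  obtain ⟨b1, b11, b12, b13, b14⟩ := FX_pos hr hcu h1
  obtain ⟨b2, b21, b22, b23, b24⟩ := BX_pos hr hcu h2
  obtain ⟨b3, b31, b32, b33, b34⟩ := FX_pos hr hcv h3
  obtain ⟨b4, b41, b42, b43, b44⟩ := BX_pos hr hcv h4
  obtain ⟨c11, c12, c13, -⟩ := clk_ps hr b11 b12 b14
  obtain ⟨c21, c22, c23, -⟩ := clk_ps hr b21 b22 b24
  obtain ⟨c31, c32, c33, -⟩ := clk_ps hr b31 b32 b34
  obtain ⟨c41, c42, c43, -⟩ := clk_ps hr b41 b42 b44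
  have Q1 := P1 x3 (Or.inl rfl)
  have Q2 := P1 x4 (Or.inr rfl)
  have Q3 := P2 x1 (Or.inl rfl)
  have Q4 := P2 x2 (Or.inr rfl)
  rw [md c21 c22 c11 c12, md c31 c32 c11 c12, md c41 c42 c11 c12]
  generalize clk r x1 = k1 at *
  generalize clk r x2 = k2 at *
  generalize clk r x3 = k3 at *
  generalize clk r x4 = k4 at *
  clear P1 P2
  split_ifs <;> omega

end Pool.Agent.H75.Four
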