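import Mathlib
import Pool.Agent.H75.Four.FCol
import Pool.Agent.H75.Four.FOther
import Pool.Agent.H75.TwoArm.Track
import Pool.Agent.H75.TwoArm.HookCore
import Pool.Agent.H75.TwoArm.BadCore

set_option autoImplicit false
open Finset

/-! Hooking and survival for four strands. -/

namespace Pool.Agent.H75.Four

open Pool.Agent.H75.Perc
open Pool.Agent.H75.TwoArm

namespace PathAux

lemma UU_sub (B ω : Finset (ℤ × ℤ)) (c : ℤ × ℤ) : TwoArm.UU B ω c ⊆ B := by
  classical
  unfold TwoArm.UU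
  exact filter_subset _ _

lemma odd_of_unit {u v : ℤ × ℤ} (h : IsUnit4 (v - u)) : ((u + v).1 + (u + v).2) % 2 = 1 := by
  have := unit_cases h
  simp only [Prod.fst_add, Prod.snd_add]
  omega

lemma odd_of_unitd {f g : ℤ × ℤ} (h : IsUnit4 (g - f)) :
    ((f + g - (1, 1)).1 + (f + g - (1, 1)).2) % 2 = 1 := by
  have := unit_cases h
  simp only [Prod.fst_add, Prod.snd_add, Prod.fst_sub, Prod.snd_sub]
  omega

lemma Tch_iff {a z : ℤ × ℤ} (ha : (a.1 + a.2) % 2 = 1) : Tch a z ↔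
    (z = a ∨ z = (a.1 + 1, a.2) ∨ z = (a.1, a.2 + 1) ∨ z = (a.1 + 1, a.2 + 1)) := corners_iff ha

/-- a label with odd parity is touched -/
lemma exists_R {R : ℤ × ℤ → Prop} {a : ℤ × ℤ} (ha : (a.1 + a.2) % 2 = 1) (h : ¬ Ev R a) :
    ∃ z, R z ∧ Tch a z := by
  by_contra hcon
  have hn : ∀ z, Tch a z → ¬ R z := fun z hz hR => hcon ⟨z, hR, hz⟩
  apply h
  have h1 := hn a ((Tch_iff ha).2 (Or.inl rfl))
  have h2 := hn (a.1 + 1, a.2) ((Tch_iff ha).2 (Or.inr (Or.inl rfl)))
  have h3 := hn (a.1, a.2 + 1) ((Tch_iff ha).2 (Or.inr (Or.inr (Or.inl rfl))))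
  have h4 := hn (a.1 + 1, a.2 + 1) ((Tch_iff ha).2 (Or.inr (Or.inr (Or.inr rfl))))
  unfold Ev
  tauto

section

variable {B ω : Finset (ℤ × ℤ)} {c x1 x2 : ℤ × ℤ} {R : ℤ × ℤ → Prop}

/-- no strand corner touches a label outside `B` which is not touched by `R` (exits at different
labels) -/
lemma no_touch_F (h1 : FX B ω c x1) (h2 : BX B ω c x2) (hR : Clo B x1 x2 R)
    (hne : lab x1 ≠ plab x2) {a : ℤ × ℤ} (ha : (a.1 + a.2) % 2 = 1) (haB : a ∉ B)
    (hF : ∀ z, Tch a z → ¬ R z) : ∀ z, Tch a z → ¬ Str B ω c z ∧ ¬ R z := by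
  have hE : Ev R a := by
    by_contra hE
    obtain ⟨z, hz, hz'⟩ := exists_R ha hE
    exact hF z hz' hz
  have hxor := (hR.par a ha).1 hE
  have ha1 : a ≠ lab x1 := by
    rintro rfl
    exact hne (hxor.1 rfl)
  have ha2 : a ≠ plab x2 := by
    rintro rfl
    exact hne (hxor.2 rfl).symm
  intro z hz
  exact ⟨no_touch_out h1 h2 haB ha1 ha2 z hz, hF z hz⟩

end

lemma mem_U4 {B ω : Finset (ℤ × ℤ)} {e a : ℤ × ℤ} :
    a ∈ U4 B e ω ↔ a ∈ UU B (ω.erase e) (zu e) ∨ a ∈ UU B (ω.erase e) (zv e) := by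
  unfold U4; rw [mem_union]

lemma mem_U4_c {B ω : Finset (ℤ × ℤ)} {e a c : ℤ × ℤ} (he : (e.1 + e.2) % 2 = 1)
    (hc : c = zu e ∨ c = zv e) :
    a ∈ U4 B e ω ↔ a ∈ UU B (ω.erase e) c ∨ a ∈ UU B (ω.erase e) (opc c) := by
  rw [mem_U4]
  obtain ⟨h1, h2, -⟩ := opc_zu he
  rcases hc with rfl | rfl
  · rw [h1]
  · rw [h2]; exact or_comm

lemma lab_c {e c : ℤ × ℤ} (he : (e.1 + e.2) % 2 = 1) (hc : c = zu e ∨ c = zv e) : lab c = e := by
  obtain ⟨-, -, h3, h4, -⟩ := opc_zu he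
  rcases hc with rfl | rfl
  · exact h3
  · exact h4

lemma not_Str {B ω : Finset (ℤ × ℤ)} {e c : ℤ × ℤ} (he : (e.1 + e.2) % 2 = 1)
    (hA : A4 B e ω) (hc : c = zu e ∨ c = zv e) : ¬ Str B (ω.erase e) c (opc c) := by
  obtain ⟨h1, h2, -⟩ := opc_zu he
  rcases hc with rfl | rfl
  · rw [h1]; exact hA.2.2
  · rw [h2]; exact fun h => hA.2.2 (Str_symm h)

lemma not_Str' {B ω : Finset (ℤ × ℤ)} {e c : ℤ × ℤ} (he : (e.1 + e.2) % 2 = 1) (heB : e ∈ B)
    (hA : A4 B e ω) (hc : c = zu e ∨ c = zv e) : ¬ Str B (insert e ω) c (opc c) := by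
  obtain ⟨h1, h2, -⟩ := opc_zu he
  have h3 := ((A4_insert he heB).1 hA).2.2
  rcases hc with rfl | rfl
  · rw [h1]; exact h3
  · rw [h2]; exact fun h => h3 (Str_symm h)

lemma e_mem_U4 {B ω : Finset (ℤ × ℤ)} {e : ℤ × ℤ} (he : (e.1 + e.2) % 2 = 1) (heB : e ∈ B) :
    e ∈ U4 B e ω := by
  rw [mem_U4]
  left
  have h : lab (zu e) = e := (opc_zu he).2.2.1
  have := (Str_nx (B := B) (ω := ω.erase e) (c := zu e) (z := zu e)
    (Or.inl ⟨0, rfl, fun i hi => absurd hi (Nat.not_lt_zero i)⟩) (by rw [h]; exact heB)).2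
  rwa [h] at this

lemma U4_sub (B ω : Finset (ℤ × ℤ)) (e : ℤ × ℤ) : U4 B e ω ⊆ B := by
  unfold U4
  exact union_subset (UU_sub _ _ _) (UU_sub _ _ _)

lemma mem_du' {E ω : Finset (ℤ × ℤ)} {f g : ℤ × ℤ} :
    f + g ∈ du E ω ↔ f + g - (1, 1) ∈ E ∧ f + g - (1, 1) ∉ ω := BadAux.mem_du

lemma sh1_apply (b : ℤ × ℤ) : sh1 b = (b.1 + 1, b.2 + 1) := rfl

lemma mem_map_sh1 {F : Finset (ℤ × ℤ)} {a : ℤ × ℤ} : a ∈ F.map sh1 ↔ a - (1, 1) ∈ F := by
  rw [mem_map]
  constructor
  · rintro ⟨b, hb, h⟩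
    have h1 : a - (1, 1) = b := by
      rw [← h, sh1_apply]
      ext <;> simp only [Prod.fst_sub, Prod.snd_sub] <;> ring
    rw [h1]
    exact hb
  · intro h
    refine ⟨a - (1, 1), h, ?_⟩
    rw [sh1_apply]
    ext <;> simp only [Prod.fst_sub, Prod.snd_sub] <;> ring

end PathAux

open PathAux

variable {B ω : Finset (ℤ × ℤ)} {c x1 x2 : ℤ × ℤ} {R : ℤ × ℤ → Prop} {S : ℤ × ℤ → Bool}
variable {e : ℤ × ℤ}
variable {ω'' U F D E : Finset (ℤ × ℤ)} {p q : ℤ × ℤ}

theorem first_hit (h : TCR B ω c R S) (h1 : FX B ω c x1) (h2 : BX B ω c x2) (hR : Clo B x1 x2 R)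
    (hne : lab x1 ≠ plab x2) (hF : ∀ a ∈ F, ∀ z, Tch a z → ¬ R z) (hU : UU B ω c ⊆ U)
    (hUF : ∀ a ∈ U, a ∈ F → a ∈ UU B ω c ∨
      ∀ u v : ℤ × ℤ, u + v = a → IsUnit4 (v - u) → S (dbl u) = false)
    (hpq : Co (ω'' ∩ F) p q) (hp : S (dbl p) = true) (hq : S (dbl q) = false) :
    ∃ z, Str B ω c z ∧ Co ((ω'' ∩ F) \ U) p (vx z) := by
  have key : ∀ v, Co (ω'' ∩ F) p v → (∃ z, Str B ω c z ∧ Co ((ω'' ∩ F) \ U) p (vx z)) ∨
      (S (dbl v) = true ∧ Co ((ω'' ∩ F) \ U) p v) := by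
    intro v hv
    induction hv with
    | refl => exact Or.inr ⟨hp, Co.refl _ _⟩
    | @tail u v _ hstep ih =>
      rcases ih with ih | ⟨hSu, hCu⟩
      · exact Or.inl ih
      · obtain ⟨hun, hmem⟩ := hstep
        have haF : u + v ∈ F := (mem_inter.1 hmem).2
        by_cases hau : u + v ∈ U
        · left
          rcases hUF _ hau haF with h3 | h3
          · obtain ⟨z, hz, hzu⟩ := h.hit hR.out hun h3 hSu
            exact ⟨z, hz, by rw [hzu]; exact hCu⟩
          · exact absurd (h3 u v rfl hun) (by rw [hSu]; decide)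
        · right
          have hnt : ∀ z, Tch (u + v) z → ¬ Str B ω c z ∧ ¬ R z := by
            by_cases haB : u + v ∈ B
            · exact no_touch hR.out haB fun h' => hau (hU h')
            · exact no_touch_F h1 h2 hR hne (odd_of_unit hun) haB (hF _ haF)
          refine ⟨?_, hCu.tail ⟨hun, mem_sdiff.2 ⟨hmem, hau⟩⟩⟩
          rw [← h.fresh hun hnt]
          exact hSu
  rcases key q hpq with h3 | ⟨h3, -⟩
  · exact h3
  · rw [hq] at h3; exact absurd h3 (by decide)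

theorem first_hitd (h : TCR B ω c R S) (h1 : FX B ω c x1) (h2 : BX B ω c x2) (hR : Clo B x1 x2 R)
    (hne : lab x1 ≠ plab x2) (hF : ∀ a ∈ F, ∀ z, Tch a z → ¬ R z) (hU : UU B ω c ⊆ U)
    (hUF : ∀ a ∈ U, a ∈ F → a ∈ UU B ω c ∨
      ∀ f g : ℤ × ℤ, f + g - (1, 1) = a → IsUnit4 (g - f) → S (fp f) = true)
    (hpq : Co (du E ω'' ∩ F.map sh1) p q) (hp : S (fp p) = false) (hq : S (fp q) = true) :
    ∃ z, Str B ω c z ∧ Co ((du E ω'' ∩ F.map sh1) \ U.map sh1) p (fi z) := by
  have key : ∀ v, Co (du E ω'' ∩ F.map sh1) p v →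
      (∃ z, Str B ω c z ∧ Co ((du E ω'' ∩ F.map sh1) \ U.map sh1) p (fi z)) ∨
      (S (fp v) = false ∧ Co ((du E ω'' ∩ F.map sh1) \ U.map sh1) p v) := by
    intro v hv
    induction hv with
    | refl => exact Or.inr ⟨hp, Co.refl _ _⟩
    | @tail u v _ hstep ih =>
      rcases ih with ih | ⟨hSu, hCu⟩
      · exact Or.inl ih
      · obtain ⟨hun, hmem⟩ := hstep
        have haF : u + v - (1, 1) ∈ F := mem_map_sh1.1 (mem_inter.1 hmem).2
        by_cases hau : u + v - (1, 1) ∈ U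
        · left
          rcases hUF _ hau haF with h3 | h3
          · obtain ⟨z, hz, hzu⟩ := h.hitd hR.out hun h3 hSu
            exact ⟨z, hz, by rw [hzu]; exact hCu⟩
          · exact absurd (h3 u v rfl hun) (by rw [hSu]; decide)
        · right
          have hnt : ∀ z, Tch (u + v - (1, 1)) z → ¬ Str B ω c z ∧ ¬ R z := by
            by_cases haB : u + v - (1, 1) ∈ B
            · exact no_touch hR.out haB fun h' => hau (hU h')
            · exact no_touch_F h1 h2 hR hne (odd_of_unitd hun) haB (hF _ haF)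
          refine ⟨?_, hCu.tail ⟨hun, mem_sdiff.2 ⟨hmem, fun h' => hau (mem_map_sh1.1 h')⟩⟩⟩
          rw [← h.freshd hun hnt]
          exact hSu
  rcases key q hpq with h3 | ⟨h3, -⟩
  · exact h3
  · rw [hq] at h3; exact absurd h3 (by decide)

/-- hooking an open arm: `c = zu e` or `zv e`, an `ω''`-open path in `F` from `S = true` to
`S = false` -/
theorem hook4 (he : (e.1 + e.2) % 2 = 1) (heB : e ∈ B) (hA : A4 B e ω) (hc : c = zu e ∨ c = zv e)
    (h1 : FX B (ω.erase e) c x1) (h2 : BX B (ω.erase e) c x2) (hR : Clo B x1 x2 R)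
    (hne : lab x1 ≠ plab x2) (h : TCR B (ω.erase e) c R S)
    (hF : ∀ a ∈ F, ∀ z, Tch a z → ¬ R z) (hU : U4 B e ω ⊆ U)
    (hUF : ∀ a ∈ U, a ∈ F → a ∈ U4 B e ω)
    (hpq : Co (ω'' ∩ F) p q) (hp : S (dbl p) = true) (hq : S (dbl q) = false) :
    (∃ z, Str B (ω.erase e) c z ∧ Co ((ω'' ∩ F) \ U) p (vx z) ∧
      Co ((ω.erase e) ∩ U4 B e ω) (vx c) (vx z)) ∧
    Co ((mix U ω ω'').erase e) (vx c) p := by
  have hlab := lab_c he hc
  obtain ⟨z, hz, hz'⟩ := first_hit (U := U) h h1 h2 hR hne hF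
    (fun a ha => hU ((mem_U4_c he hc).2 (Or.inl ha))) (by
      intro a haU haF
      by_cases ha : a ∈ UU B (ω.erase e) c
      · exact Or.inl ha
      · right
        intro u v huv hun
        have ha2 := ((mem_U4_c he hc).1 (hUF a haU haF)).resolve_left ha
        exact (other_edge_false (by rw [hlab]; exact heB) (by rw [hlab]; exact notMem_erase _ _) h
          hR.out (not_Str he hA hc) hun (by rw [huv]; exact ha2) (by rw [huv]; exact ha)).1)
    hpq hp hq
  have hco : Co ((ω.erase e) ∩ U4 B e ω) (vx c) (vx z) := by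
    refine (Str_co hz).1.mono (inter_subset_inter_left ?_)
    intro a ha
    exact (mem_U4_c he hc).2 (Or.inl ha)
  refine ⟨⟨z, hz, hz', hco⟩, (hco.mono ?_).trans (hz'.mono ?_).symm⟩
  · intro a ha
    rw [mem_inter, mem_erase] at ha
    rw [mem_erase, mem_mix]
    exact ⟨ha.1.1, Or.inl ⟨ha.1.2, hU ha.2⟩⟩
  · intro a ha
    rw [mem_sdiff, mem_inter] at ha
    rw [mem_erase, mem_mix]
    refine ⟨fun h' => ha.2 (hU ?_), Or.inr ⟨ha.1.1, ha.2⟩⟩
    rw [h']; exact e_mem_U4 he heB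

/-- hooking a dual arm -/
theorem hookd4 (he : (e.1 + e.2) % 2 = 1) (heB : e ∈ B) (hA : A4 B e ω) (hc : c = zu e ∨ c = zv e)
    (h1 : FX B (insert e ω) c x1) (h2 : BX B (insert e ω) c x2) (hR : Clo B x1 x2 R)
    (hne : lab x1 ≠ plab x2) (h : TCR B (insert e ω) c R S)
    (hF : ∀ a ∈ F, ∀ z, Tch a z → ¬ R z) (hU : U4 B e ω ⊆ U)
    (hUF : ∀ a ∈ U, a ∈ F → a ∈ U4 B e ω) (hBE : B ⊆ E)
    (hpq : Co (du E ω'' ∩ F.map sh1) p q) (hp : S (fp p) = false) (hq : S (fp q) = true) :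
    (∃ z, Str B (insert e ω) c z ∧ Co ((du E ω'' ∩ F.map sh1) \ U.map sh1) p (fi z) ∧
      Co (du (U4 B e ω) (insert e ω)) (fi c) (fi z)) ∧
    Co (du E (insert e (mix U ω ω''))) (fi c) p := by
  have hlab := lab_c he hc
  have hUi : ∀ a, a ∈ U4 B e ω ↔ a ∈ UU B (insert e ω) c ∨ a ∈ UU B (insert e ω) (opc c) := by
    intro a
    rw [U4_insert he heB hA, mem_union]
    obtain ⟨o1, o2, -⟩ := opc_zu he
    rcases hc with rfl | rfl
    · rw [o1]
    · rw [o2]; exact or_comm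
  obtain ⟨z, hz, hz'⟩ := first_hitd (U := U) (E := E) h h1 h2 hR hne hF
    (fun a ha => hU ((hUi a).2 (Or.inl ha))) (by
      intro a haU haF
      by_cases ha : a ∈ UU B (insert e ω) c
      · exact Or.inl ha
      · right
        intro f g hfg hun
        have ha2 := ((hUi a).1 (hUF a haU haF)).resolve_left ha
        exact (other_edge_true (by rw [hlab]; exact heB) (by rw [hlab]; exact mem_insert_self _ _) h
          hR.out (not_Str' he heB hA hc) hun (by rw [hfg]; exact ha2) (by rw [hfg]; exact ha)).1)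
    hpq hp hq
  have hco : Co (du (U4 B e ω) (insert e ω)) (fi c) (fi z) := by
    refine (Str_co hz).2.mono ?_
    unfold du
    refine map_subset_map.2 (sdiff_subset_sdiff ?_ (Subset.refl _))
    intro a ha
    exact (hUi a).2 (Or.inl ha)
  refine ⟨⟨z, hz, hz', hco⟩, (hco.mono ?_).trans (hz'.mono ?_).symm⟩
  · unfold du
    refine map_subset_map.2 ?_
    intro a ha
    rw [mem_sdiff, mem_insert] at ha
    rw [mem_sdiff, mem_insert, mem_mix]
    refine ⟨hBE (U4_sub _ _ _ ha.1), ?_⟩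
    rintro (h' | ⟨h', -⟩ | ⟨-, h'⟩)
    · exact ha.2 (Or.inl h')
    · exact ha.2 (Or.inr h')
    · exact h' (hU ha.1)
  · intro a ha
    rw [mem_sdiff, mem_inter, mem_map_sh1, mem_map_sh1] at ha
    obtain ⟨⟨ha1, ha2⟩, ha3⟩ := ha
    unfold du at ha1 ⊢
    rw [mem_map_sh1, mem_sdiff] at ha1 ⊢
    refine ⟨ha1.1, ?_⟩
    rw [mem_insert, mem_mix]
    rintro (h' | ⟨-, h'⟩ | ⟨h', -⟩)
    · refine ha3 (hU ?_)
      rw [h']; exact e_mem_U4 he heB
    · exact ha3 h'
    · exact ha1.2 h'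

/-- survival of an open arm: its last crossing of the closing -/
theorem survive4 (he : (e.1 + e.2) % 2 = 1) (heB : e ∈ B) (hA : A4 B e ω)
    (hc : c = zu e ∨ c = zv e)
    (h1 : FX B (ω.erase e) c x1) (h2 : BX B (ω.erase e) c x2) (hR : Clo B x1 x2 R)
    (h : TCR B (ω.erase e) c R S) (hD : U4 B e ω ⊆ D)
    (hpq : Co ((mix (U4 B e ω) ω ω'' ∩ D).erase e) (vx c) q) (hq : S (dbl q) = false)
    (hn : ¬ Co ((mix (U4 B e ω) ω ω'' ∩ D).erase e) (vx c) (vx (opc c))) :
    ∃ p p' : ℤ × ℤ, IsUnit4 (p' - p) ∧ ((∃ z, R z ∧ Tch (p + p') z) ∨ p + p' = lab x1) ∧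
      Co ((ω'' ∩ D) \ U4 B e ω) p q := by
  have hlab := lab_c he hc
  set W := (mix (U4 B e ω) ω ω'' ∩ D).erase e with hW
  have hcS : S (dbl (vx c)) = true := (h.str c (Or.inl ⟨0, rfl, fun i hi => absurd hi (by omega)⟩)).1
  -- an open explored edge of the path belongs to the own pair
  have hWU : ∀ a, a ∈ W → a ∈ U4 B e ω → a ∈ ω.erase e := by
    intro a ha hau
    rw [hW, mem_erase, mem_inter, mem_mix] at ha
    obtain ⟨h3, h4 | h4, -⟩ := ha
    · exact mem_erase.2 ⟨h3, h4.1⟩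
    · exact absurd hau h4.2
  have hsub : ω.erase e ∩ TwoArm.UU B (ω.erase e) (opc c) ⊆ W := by
    intro a ha
    rw [mem_inter, mem_erase] at ha
    have hau : a ∈ U4 B e ω := (mem_U4_c he hc).2 (Or.inr ha.2)
    rw [hW, mem_erase, mem_inter, mem_mix]
    exact ⟨ha.1.1, Or.inl ⟨ha.1.2, hau⟩, hD hau⟩
  have hother : ∀ v v', IsUnit4 (v' - v) → v + v' ∈ W → Co W (vx c) v' →
      v + v' ∉ TwoArm.UU B (ω.erase e) (opc c) := by
    intro v v' hun ha hco hau
    have h4 : v + v' ∈ U4 B e ω := (mem_U4_c he hc).2 (Or.inr hau)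
    obtain ⟨z, hz, hzv⟩ := BadAux.open_ends hun hau (hWU _ ha h4)
    have h5 := (Str_co hz).1.mono hsub
    rw [hzv] at h5
    exact hn (hco.trans h5.symm)
  have hstep : ∀ v v', IsUnit4 (v' - v) → v + v' ∈ W → S (dbl v) = true → S (dbl v') = false →
      (∃ z, R z ∧ Tch (v' + v) z) ∨ v' + v = lab x1 := by
    intro v v' hun ha hS hS'
    by_cases haB : v + v' ∈ B
    · exfalso
      by_cases hau : v + v' ∈ TwoArm.UU B (ω.erase e) c
      · have h3 := h.expl_open hR.out hun hau (hWU _ ha ((mem_U4_c he hc).2 (Or.inl hau)))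
        rw [hS'] at h3
        exact absurd h3.2 (by decide)
      · have h3 := h.fresh hun (no_touch hR.out haB hau)
        rw [hS, hS'] at h3
        exact absurd h3 (by decide)
    · rw [add_comm v' v]
      by_cases hz : ∃ z, R z ∧ Tch (v + v') z
      · exact Or.inl hz
      · right
        have hF : ∀ z, Tch (v + v') z → ¬ R z := fun z hz1 hz2 => hz ⟨z, hz2, hz1⟩
        have hodd := odd_of_unit hun
        have hE : Ev R (v + v') := by
          by_contra hE
          obtain ⟨z, hz1, hz2⟩ := exists_R hodd hE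
          exact hF z hz2 hz1
        by_contra hne
        have hxor := (hR.par _ hodd).1 hE
        have ha2 : v + v' ≠ plab x2 := fun h3 => hne (hxor.2 h3)
        have h3 := h.fresh hun (fun z hz => ⟨no_touch_out h1 h2 haB hne ha2 z hz, hF z hz⟩)
        rw [hS, hS'] at h3
        exact absurd h3 (by decide)
  have key : ∀ v, Co W v q → Co W (vx c) v →
      (S (dbl v) = true → ∃ p p' : ℤ × ℤ, IsUnit4 (p' - p) ∧
        ((∃ z, R z ∧ Tch (p + p') z) ∨ p + p' = lab x1) ∧ Co ((ω'' ∩ D) \ U4 B e ω) p q) ∧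
      (S (dbl v) = false → (∃ p p' : ℤ × ℤ, IsUnit4 (p' - p) ∧
        ((∃ z, R z ∧ Tch (p + p') z) ∨ p + p' = lab x1) ∧ Co ((ω'' ∩ D) \ U4 B e ω) p q) ∨
        Co ((ω'' ∩ D) \ U4 B e ω) v q) := by
    intro v hv
    induction hv using Relation.ReflTransGen.head_induction_on with
    | refl =>
      intro _
      refine ⟨fun h3 => ?_, fun _ => Or.inr (Co.refl _ _)⟩
      rw [hq] at h3
      exact absurd h3 (by decide)
    | @head v v' hvv' hv'q ih =>
      intro hco
      have hco' : Co W (vx c) v' := Relation.ReflTransGen.tail hco hvv'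
      obtain ⟨ih1, ih2⟩ := ih hco'
      obtain ⟨hun, ha⟩ := hvv'
      refine ⟨fun hS => ?_, fun hS => ?_⟩
      · cases hS' : S (dbl v') with
        | true => exact ih1 hS'
        | false =>
          rcases ih2 hS' with h3 | h3
          · exact h3
          · refine ⟨v', v, ?_, hstep v v' hun ha hS hS', h3⟩
            have := isUnit4_neg hun
            rwa [neg_sub] at this
      · cases hS' : S (dbl v') with
        | true => exact Or.inl (ih1 hS')
        | false =>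
          rcases ih2 hS' with h3 | h3
          · exact Or.inl h3
          · right
            refine Relation.ReflTransGen.head ⟨hun, ?_⟩ h3
            have hnU : v + v' ∉ U4 B e ω := by
              intro h4
              rcases (mem_U4_c he hc).1 h4 with h5 | h5
              · have h6 := h.expl_open hR.out hun h5 (hWU _ ha h4)
                rw [hS] at h6
                exact absurd h6.1 (by decide)
              · exact hother v v' hun ha hco' h5
            rw [mem_sdiff, mem_inter]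
            rw [hW, mem_erase, mem_inter, mem_mix] at ha
            obtain ⟨-, h4 | h4, h5⟩ := ha
            · exact absurd h4.2 hnU
            · exact ⟨⟨h4.1, h5⟩, hnU⟩
  exact (key (vx c) hpq (Co.refl _ _)).1 hcS

/-- survival of a dual arm -/
theorem survived4 (he : (e.1 + e.2) % 2 = 1) (heB : e ∈ B) (hA : A4 B e ω)
    (hc : c = zu e ∨ c = zv e)
    (h1 : FX B (insert e ω) c x1) (h2 : BX B (insert e ω) c x2) (hR : Clo B x1 x2 R)
    (h : TCR B (insert e ω) c R S) (hD : U4 B e ω ⊆ D)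
    (hpq : Co (du D (insert e (mix (U4 B e ω) ω ω''))) (fi c) q) (hq : S (fp q) = true)
    (hn : ¬ Co (du D (insert e (mix (U4 B e ω) ω ω''))) (fi c) (fi (opc c))) :
    ∃ p p' : ℤ × ℤ, IsUnit4 (p' - p) ∧ ((∃ z, R z ∧ Tch (p + p' - (1, 1)) z) ∨
      p + p' - (1, 1) = plab x2) ∧ Co (du D ω'' \ (U4 B e ω).map sh1) p q := by
  have hlab := lab_c he hc
  have hUi : ∀ a, a ∈ U4 B e ω ↔ a ∈ TwoArm.UU B (insert e ω) c ∨
      a ∈ TwoArm.UU B (insert e ω) (opc c) := by
    intro a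
    rw [U4_insert he heB hA, mem_union]
    obtain ⟨o1, o2, -⟩ := opc_zu he
    rcases hc with rfl | rfl
    · rw [o1]
    · rw [o2]; exact or_comm
  set W := du D (insert e (mix (U4 B e ω) ω ω'')) with hW
  have hmW : ∀ f g : ℤ × ℤ, f + g ∈ W ↔ f + g - (1, 1) ∈ D ∧
      f + g - (1, 1) ∉ insert e (mix (U4 B e ω) ω ω'') := fun f g => mem_du'
  have hcS : S (fce c) = false := (h.str c (Or.inl ⟨0, rfl, fun i hi => absurd hi (by omega)⟩)).2
  have hWU : ∀ f g : ℤ × ℤ, f + g ∈ W → f + g - (1, 1) ∈ U4 B e ω →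
      f + g - (1, 1) ∉ insert e ω := by
    intro f g ha hau
    rw [hmW, mem_insert, mem_mix] at ha
    rw [mem_insert]
    rintro (h3 | h3)
    · exact ha.2 (Or.inl h3)
    · exact ha.2 (Or.inr (Or.inl ⟨h3, hau⟩))
  have hsub : du (TwoArm.UU B (insert e ω) (opc c)) (insert e ω) ⊆ W := by
    intro a ha
    rw [hW]
    unfold du at ha ⊢
    rw [mem_map_sh1, mem_sdiff, mem_insert] at ha ⊢
    have hau : a - (1, 1) ∈ U4 B e ω := (hUi _).2 (Or.inr ha.1)
    refine ⟨hD hau, ?_⟩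
    rw [mem_mix]
    rintro (h3 | ⟨h3, -⟩ | ⟨-, h3⟩)
    · exact ha.2 (Or.inl h3)
    · exact ha.2 (Or.inr h3)
    · exact h3 hau
  have hother : ∀ v v', IsUnit4 (v' - v) → v + v' ∈ W → Co W (fi c) v' →
      v + v' - (1, 1) ∉ TwoArm.UU B (insert e ω) (opc c) := by
    intro v v' hun ha hco hau
    have h4 : v + v' - (1, 1) ∈ U4 B e ω := (hUi _).2 (Or.inr hau)
    obtain ⟨z, hz, hzv⟩ := BadAux.closed_ends hun hau (hWU _ _ ha h4)
    have h5 := (Str_co hz).2.mono hsub
    rw [hzv] at h5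
    exact hn (hco.trans h5.symm)
  have hstep : ∀ v v', IsUnit4 (v' - v) → v + v' ∈ W → S (fp v) = false → S (fp v') = true →
      (∃ z, R z ∧ Tch (v' + v - (1, 1)) z) ∨ v' + v - (1, 1) = plab x2 := by
    intro v v' hun ha hS hS'
    by_cases haB : v + v' - (1, 1) ∈ B
    · exfalso
      by_cases hau : v + v' - (1, 1) ∈ TwoArm.UU B (insert e ω) c
      · have h3 := h.expl_closed hR.out hun hau (hWU _ _ ha ((hUi _).2 (Or.inl hau)))
        rw [hS'] at h3
        exact absurd h3.2 (by decide)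
      · have h3 := h.freshd hun (no_touch hR.out haB hau)
        rw [hS, hS'] at h3
        exact absurd h3 (by decide)
    · rw [add_comm v' v]
      by_cases hz : ∃ z, R z ∧ Tch (v + v' - (1, 1)) z
      · exact Or.inl hz
      · right
        have hF : ∀ z, Tch (v + v' - (1, 1)) z → ¬ R z := fun z hz1 hz2 => hz ⟨z, hz2, hz1⟩
        have hodd := odd_of_unitd hun
        have hE : Ev R (v + v' - (1, 1)) := by
          by_contra hE
          obtain ⟨z, hz1, hz2⟩ := exists_R hodd hE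
          exact hF z hz2 hz1
        by_contra hne
        have hxor := (hR.par _ hodd).1 hE
        have ha1 : v + v' - (1, 1) ≠ lab x1 := fun h3 => hne (hxor.1 h3)
        have h3 := h.freshd hun (fun z hz => ⟨no_touch_out h1 h2 haB ha1 hne z hz, hF z hz⟩)
        rw [hS, hS'] at h3
        exact absurd h3 (by decide)
  have key : ∀ v, Co W v q → Co W (fi c) v →
      (S (fp v) = false → ∃ p p' : ℤ × ℤ, IsUnit4 (p' - p) ∧
        ((∃ z, R z ∧ Tch (p + p' - (1, 1)) z) ∨ p + p' - (1, 1) = plab x2) ∧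
        Co (du D ω'' \ (U4 B e ω).map sh1) p q) ∧
      (S (fp v) = true → (∃ p p' : ℤ × ℤ, IsUnit4 (p' - p) ∧
        ((∃ z, R z ∧ Tch (p + p' - (1, 1)) z) ∨ p + p' - (1, 1) = plab x2) ∧
        Co (du D ω'' \ (U4 B e ω).map sh1) p q) ∨
        Co (du D ω'' \ (U4 B e ω).map sh1) v q) := by
    intro v hv
    induction hv using Relation.ReflTransGen.head_induction_on with
    | refl =>
      intro _
      refine ⟨fun h3 => ?_, fun _ => Or.inr (Co.refl _ _)⟩
      rw [hq] at h3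
      exact absurd h3 (by decide)
    | @head v v' hvv' hv'q ih =>
      intro hco
      have hco' : Co W (fi c) v' := Relation.ReflTransGen.tail hco hvv'
      obtain ⟨ih1, ih2⟩ := ih hco'
      obtain ⟨hun, ha⟩ := hvv'
      refine ⟨fun hS => ?_, fun hS => ?_⟩
      · cases hS' : S (fp v') with
        | false => exact ih1 hS'
        | true =>
          rcases ih2 hS' with h3 | h3
          · exact h3
          · refine ⟨v', v, ?_, hstep v v' hun ha hS hS', h3⟩
            have := isUnit4_neg hun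
            rwa [neg_sub] at this
      · cases hS' : S (fp v') with
        | false => exact Or.inl (ih1 hS')
        | true =>
          rcases ih2 hS' with h3 | h3
          · exact Or.inl h3
          · right
            refine Relation.ReflTransGen.head ⟨hun, ?_⟩ h3
            have hnU : v + v' - (1, 1) ∉ U4 B e ω := by
              intro h4
              rcases (hUi _).1 h4 with h5 | h5
              · have h6 := h.expl_closed hR.out hun h5 (hWU _ _ ha h4)
                rw [hS] at h6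
                exact absurd h6.1 (by decide)
              · exact hother v v' hun ha hco' h5
            rw [mem_sdiff, mem_map_sh1, mem_du']
            rw [hmW, mem_insert, mem_mix] at ha
            exact ⟨⟨ha.1, fun h4 => ha.2 (Or.inr (Or.inr ⟨h4, hnU⟩))⟩, hnU⟩
  exact (key (fi c) hpq (Co.refl _ _)).1 hcS

end Pool.Agent.H75.Four
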