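import Mathlib
import Pool.Agent.H75.Four.FCol
import Pool.Agent.H75.Four.FOther
import Pool.Agent.H75.Four.FPath
import Pool.Agent.H75.Four.FRot
import Pool.Agent.H75.Four.FRay
import Pool.Agent.H75.Four.FOrder
import Pool.Agent.H75.Four.FArm

set_option autoImplicit false
open Finset

/-! FA8 (helper55): box forms of the hook lemmas and survival of an arm. -/

namespace Pool.Agent.H75.Four

open Pool.Agent.H75.Perc
open Pool.Agent.H75.TwoArm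

section ray

variable {r : ℤ} {ω : Finset (ℤ × ℤ)} {c x x1 x2 e : ℤ × ℤ} {S : ℤ × ℤ → Bool}
variable {U F E ω'' : Finset (ℤ × ℤ)} {p q : ℤ × ℤ} {b lo hi R' : ℤ}

namespace FBoxAux

lemma lab_of_zz (he : (e.1 + e.2) % 2 = 1) (hc : c = zu e ∨ c = zv e) : lab c = e := by
  obtain ⟨-, -, h1, h2, -, -⟩ := opc_zu he
  rcases hc with rfl | rfl
  · exact h1
  · exact h2

lemma Tch_bd {a z : ℤ × ℤ} (h : Tch a z) : (a.1 + a.2) % 2 = 1 ∧ a.1 ≤ z.1 ∧ z.1 ≤ a.1 + 1 ∧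
    a.2 ≤ z.2 ∧ z.2 ≤ a.2 + 1 := by
  obtain ⟨z1, z2⟩ := z
  obtain ⟨a1, a2⟩ := a
  rcases h with h | h
  · unfold lab at h
    simp only at h ⊢
    split_ifs at h <;> simp only [Prod.mk.injEq] at h <;> omega
  · unfold plab at h
    simp only at h ⊢
    split_ifs at h <;> simp only [Prod.mk.injEq] at h <;> omega

end FBoxAux

open FBoxAux

/-- local hook lemma, general `B`: open arm, hooked above a forward exit at the corner `(X+1,b)` -/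
theorem hook_loc_F {B : Finset (ℤ × ℤ)} {R : ℤ × ℤ → Prop} {X Xm : ℤ}
    (he : (e.1 + e.2) % 2 = 1) (heB : e ∈ B)
    (hA : A4 B e ω) (hc : c = zu e ∨ c = zv e) (hb : b % 2 = 0)
    (h1 : FX B (ω.erase e) c (X + 1, b)) (h2 : BX B (ω.erase e) c x2)
    (hne : lab (X + 1, b) ≠ plab x2) (hR : Clo B (X + 1, b) x2 R)
    (hX : X + 2 ≤ Xm) (hlo' : lo < b) (hhi' : b ≤ hi)
    (hB : ∀ a : ℤ × ℤ, X + 1 ≤ a.1 → a.1 ≤ Xm → lo ≤ a.2 → a.2 ≤ hi → a ∉ B)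
    (hRw : ∀ z : ℤ × ℤ, X + 2 ≤ z.1 → z.1 ≤ Xm → lo + 1 ≤ z.2 → z.2 ≤ hi → (R z ↔ z.2 = b))
    (hF : ∀ a ∈ F, ∀ z, Tch a z → ¬ R z)
    (hU : U4 B e ω ⊆ U) (hUF : ∀ a ∈ U, a ∈ F → a ∈ U4 B e ω)
    (hpq : Co (ω'' ∩ F) p q) (hp1 : X + 1 ≤ 2 * p.1) (hp1' : 2 * p.1 ≤ Xm) (hp2 : b ≤ 2 * p.2)
    (hp3 : 2 * p.2 ≤ hi) (hq1 : X + 1 ≤ 2 * q.1) (hq1' : 2 * q.1 ≤ Xm) (hq2 : 2 * q.2 < b)
    (hq3 : lo ≤ 2 * q.2) :
    (∃ z, Str B (ω.erase e) c z ∧ Co ((ω'' ∩ F) \ U) p (vx z) ∧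
      Co ((ω.erase e) ∩ U4 B e ω) (vx c) (vx z)) ∧
    Co ((mix U ω ω'').erase e) (vx c) p := by
  have hcB : lab c ∈ B := by rw [lab_of_zz he hc]; exact heB
  obtain ⟨S, hS⟩ := exists_TCR hcB h1 h2 hR
  have hp : S (dbl p) = true := by
    refine (S_locF hcB hb h1 h2 hS hR.out hX hlo' hhi' hB hRw (p := dbl p) ?_ ?_ ?_ ?_ ?_).2 ?_
    all_goals (unfold dbl; dsimp only)
    all_goals omega
  have hq : S (dbl q) = false := by
    rw [← Bool.not_eq_true]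
    intro h
    have := (S_locF hcB hb h1 h2 hS hR.out hX hlo' hhi' hB hRw (p := dbl q)
      (by unfold dbl; dsimp only; omega) (by unfold dbl; dsimp only; omega)
      (by unfold dbl; dsimp only; omega) (by unfold dbl; dsimp only; omega)
      (by unfold dbl; dsimp only; omega)).1 h
    unfold dbl at this
    dsimp only at this
    omega
  exact hook4 he heB hA hc h1 h2 hR hne hS hF hU hUF hpq hp hq

/-- dual arm, hooked above a backward exit at the corner `(X+1,b)` -/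
theorem hook_loc_B {B : Finset (ℤ × ℤ)} {R : ℤ × ℤ → Prop} {X Xm : ℤ}
    (he : (e.1 + e.2) % 2 = 1) (heB : e ∈ B)
    (hA : A4 B e ω) (hc : c = zu e ∨ c = zv e) (hb : b % 2 = 1)
    (h1 : FX B (insert e ω) c x1) (h2 : BX B (insert e ω) c (X + 1, b))
    (hne : lab x1 ≠ plab (X + 1, b)) (hR : Clo B x1 (X + 1, b) R)
    (hX : X + 2 ≤ Xm) (hlo' : lo < b) (hhi' : b ≤ hi)
    (hB : ∀ a : ℤ × ℤ, X + 1 ≤ a.1 → a.1 ≤ Xm → lo ≤ a.2 → a.2 ≤ hi → a ∉ B)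
    (hRw : ∀ z : ℤ × ℤ, X + 2 ≤ z.1 → z.1 ≤ Xm → lo + 1 ≤ z.2 → z.2 ≤ hi → (R z ↔ z.2 = b))
    (hF : ∀ a ∈ F, ∀ z, Tch a z → ¬ R z)
    (hU : U4 B e ω ⊆ U) (hUF : ∀ a ∈ U, a ∈ F → a ∈ U4 B e ω) (hE : B ⊆ E)
    (hpq : Co (du E ω'' ∩ F.map sh1) p q) (hp1 : X + 1 ≤ 2 * p.1 - 1) (hp1' : 2 * p.1 - 1 ≤ Xm)
    (hp2 : b ≤ 2 * p.2 - 1) (hp3 : 2 * p.2 - 1 ≤ hi) (hq1 : X + 1 ≤ 2 * q.1 - 1)
    (hq1' : 2 * q.1 - 1 ≤ Xm) (hq2 : 2 * q.2 - 1 < b) (hq3 : lo ≤ 2 * q.2 - 1) :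
    (∃ z, Str B (insert e ω) c z ∧ Co ((du E ω'' ∩ F.map sh1) \ U.map sh1) p (fi z) ∧
      Co (du (U4 B e ω) (insert e ω)) (fi c) (fi z)) ∧
    Co (du E (insert e (mix U ω ω''))) (fi c) p := by
  have hcB : lab c ∈ B := by rw [lab_of_zz he hc]; exact heB
  obtain ⟨S, hS⟩ := exists_TCR hcB h1 h2 hR
  have hq : S (fp q) = true := by
    refine (S_locB hcB hb h1 h2 hS hR.out hX hlo' hhi' hB hRw (p := fp q) ?_ ?_ ?_ ?_ ?_).2 ?_
    all_goals (unfold fp; dsimp only)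
    all_goals omega
  have hp : S (fp p) = false := by
    rw [← Bool.not_eq_true]
    intro h
    have := (S_locB hcB hb h1 h2 hS hR.out hX hlo' hhi' hB hRw (p := fp p)
      (by unfold fp; dsimp only; omega) (by unfold fp; dsimp only; omega)
      (by unfold fp; dsimp only; omega) (by unfold fp; dsimp only; omega)
      (by unfold fp; dsimp only; omega)).1 h
    unfold fp at this
    dsimp only at this
    omega
  exact hookd4 he heB hA hc h1 h2 hR hne hS hF hU hUF hE hpq hp hq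

/-- box form: open arm, hooked above a forward exit through the right side of `[-r,r]²` -/
theorem hook_east_F (hr : 1 ≤ r) (he : (e.1 + e.2) % 2 = 1) (heB : e ∈ BB r)
    (hA : A4 (BB r) e ω) (hc : c = zu e ∨ c = zv e)
    (h1 : FX (BB r) (ω.erase e) c (2 * r + 1, b)) (h2 : BX (BB r) (ω.erase e) c x2)
    (hlo : -(2 * r) ≤ lo) (hlo' : lo < b)
    (hhi : hi ≤ 2 * r) (hhi' : b < hi) (hx : ¬ (x2.1 = 2 * r + 1 ∧ lo + 1 ≤ x2.2 ∧ x2.2 ≤ hi))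
    (hF : ∀ a ∈ F, lo + 1 ≤ a.2 ∧ a.2 + 1 ≤ hi ∧ -(2 * r) ≤ a.1 ∧
      ¬ (2 * r + 1 ≤ a.1 ∧ (a.2 = b ∨ a.2 = b - 1)))
    (hU : U4 (BB r) e ω ⊆ U) (hUF : ∀ a ∈ U, a ∈ F → a ∈ U4 (BB r) e ω)
    (hpq : Co (ω'' ∩ F) p q) (hp1 : r + 1 ≤ p.1) (hp2 : b ≤ 2 * p.2) (hp3 : 2 * p.2 ≤ hi)
    (hq1 : r + 1 ≤ q.1) (hq2 : 2 * q.2 < b) (hq3 : lo ≤ 2 * q.2) :
    Co ((mix U ω ω'').erase e) (vx c) p := by
  have hcB : lab c ∈ BB r := by rw [lab_of_zz he hc]; exact heB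
  obtain ⟨b', hb1, hb2, hb3, hb4⟩ := FX_pos hr hcB h1
  have hbe : b % 2 = 0 := by
    simp only [Prod.mk.injEq] at hb4
    omega
  obtain ⟨b2, hc1, hc2, hc3, hc4⟩ := BX_pos hr hcB h2
  have hne : lab (2 * r + 1, b) ≠ plab x2 := by
    intro h
    obtain ⟨x2a, x2b⟩ := x2
    unfold lab plab at h
    simp only [Prod.mk.injEq] at h hx hc4
    split_ifs at h <;> simp only [Prod.mk.injEq] at h <;> omega
  have hR := clo_rays hr hcB h1 h2 hne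
  obtain ⟨S, hS⟩ := exists_TCR hcB h1 h2 hR
  have hp : S (dbl p) = true := by
    refine (S_eastF hr hcB h1 h2 hne hS hlo hlo' hhi hhi'.le hx (p := dbl p) ?_ ?_ ?_ ?_).2 ?_
    all_goals (unfold dbl; dsimp only)
    all_goals omega
  have hq : S (dbl q) = false := by
    rw [← Bool.not_eq_true]
    intro h
    have := (S_eastF hr hcB h1 h2 hne hS hlo hlo' hhi hhi'.le hx (p := dbl q)
      (by unfold dbl; dsimp only; omega) (by unfold dbl; dsimp only; omega)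
      (by unfold dbl; dsimp only; omega) (by unfold dbl; dsimp only; omega)).1 h
    unfold dbl at this
    dsimp only at this
    omega
  have hF' : ∀ a ∈ F, ∀ z, Tch a z → ¬ rays r (2 * r + 1, b) x2 z := by
    intro a ha z hz hr'
    obtain ⟨g1, g2, g3, g4⟩ := hF a ha
    obtain ⟨t0, t1, t2, t3, t4⟩ := Tch_bd hz
    unfold rays ray at hr'
    simp only at hr'
    omega
  exact (hook4 he heB hA hc h1 h2 hR hne hS hF' hU hUF hpq hp hq).2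

/-- box form: dual arm, hooked above a backward exit -/
theorem hook_east_B (hr : 1 ≤ r) (he : (e.1 + e.2) % 2 = 1) (heB : e ∈ BB r)
    (hA : A4 (BB r) e ω) (hc : c = zu e ∨ c = zv e)
    (h1 : FX (BB r) (insert e ω) c x1) (h2 : BX (BB r) (insert e ω) c (2 * r + 1, b))
    (hlo : -(2 * r) ≤ lo) (hlo' : lo + 1 < b)
    (hhi : hi ≤ 2 * r) (hhi' : b ≤ hi) (hx : ¬ (x1.1 = 2 * r + 1 ∧ lo + 1 ≤ x1.2 ∧ x1.2 ≤ hi))
    (hF : ∀ a ∈ F, lo + 1 ≤ a.2 ∧ a.2 + 1 ≤ hi ∧ -(2 * r) ≤ a.1 ∧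
      ¬ (2 * r + 1 ≤ a.1 ∧ (a.2 = b ∨ a.2 = b - 1)))
    (hU : U4 (BB r) e ω ⊆ U) (hUF : ∀ a ∈ U, a ∈ F → a ∈ U4 (BB r) e ω) (hE : BB r ⊆ E)
    (hpq : Co (du E ω'' ∩ F.map sh1) p q) (hp1 : r + 1 ≤ p.1) (hp2 : b ≤ 2 * p.2 - 1)
    (hp3 : 2 * p.2 - 1 ≤ hi) (hq1 : r + 1 ≤ q.1) (hq2 : 2 * q.2 - 1 < b)
    (hq3 : lo ≤ 2 * q.2 - 1) :
    Co (du E (insert e (mix U ω ω''))) (fi c) p := by
  have hcB : lab c ∈ BB r := by rw [lab_of_zz he hc]; exact heB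
  obtain ⟨b', hb1, hb2, hb3, hb4⟩ := BX_pos hr hcB h2
  have hbe : b % 2 = 1 := by
    simp only [Prod.mk.injEq] at hb4
    omega
  obtain ⟨b2, hc1, hc2, hc3, hc4⟩ := FX_pos hr hcB h1
  have hne : lab x1 ≠ plab (2 * r + 1, b) := by
    intro h
    obtain ⟨x1a, x1b⟩ := x1
    unfold lab plab at h
    simp only [Prod.mk.injEq] at h hx hc4
    split_ifs at h <;> simp only [Prod.mk.injEq] at h <;> omega
  have hR := clo_rays hr hcB h1 h2 hne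
  obtain ⟨S, hS⟩ := exists_TCR hcB h1 h2 hR
  have hq : S (fp q) = true := by
    refine (S_eastB hr hcB h1 h2 hne hS hlo (by omega) hhi hhi' hx (p := fp q) ?_ ?_ ?_ ?_).2 ?_
    all_goals (unfold fp; dsimp only)
    all_goals omega
  have hp : S (fp p) = false := by
    rw [← Bool.not_eq_true]
    intro h
    have := (S_eastB hr hcB h1 h2 hne hS hlo (by omega) hhi hhi' hx (p := fp p)
      (by unfold fp; dsimp only; omega) (by unfold fp; dsimp only; omega)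
      (by unfold fp; dsimp only; omega) (by unfold fp; dsimp only; omega)).1 h
    unfold fp at this
    dsimp only at this
    omega
  have hF' : ∀ a ∈ F, ∀ z, Tch a z → ¬ rays r x1 (2 * r + 1, b) z := by
    intro a ha z hz hr'
    obtain ⟨g1, g2, g3, g4⟩ := hF a ha
    obtain ⟨t0, t1, t2, t3, t4⟩ := Tch_bd hz
    unfold rays ray at hr'
    simp only at hr'
    omega
  exact (hookd4 he heB hA hc h1 h2 hR hne hS hF' hU hUF hE hpq hp hq).2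

namespace FBoxAux

/-- the conclusion of the survival lemma in a form which is invariant under rotation -/
def Sv (R' M : ℤ) (ω'' : Finset (ℤ × ℤ)) (x : ℤ × ℤ) : Prop :=
  (∃ p q : ℤ × ℤ, |4 * p.1 - 2 * x.1 + 1| ≤ M ∧ |4 * p.2 - 2 * x.2 + 1| ≤ M ∧
    (|q.1| = R' ∨ |q.2| = R') ∧ Co (ω'' ∩ BB R') p q) ∨
  (∃ f g : ℤ × ℤ, |4 * f.1 - 2 * x.1 - 1| ≤ M ∧ |4 * f.2 - 2 * x.2 - 1| ≤ M ∧
    (g.1 = R' + 1 ∨ g.1 = -R' ∨ g.2 = R' + 1 ∨ g.2 = -R') ∧ Co (du (BB R') ω'') f g)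

lemma Sv_rot {R' M : ℤ} {ω'' : Finset (ℤ × ℤ)} {x : ℤ × ℤ}
    (h : Sv R' M (ω''.map rotL) (rotc x)) : Sv R' M ω'' x := by
  rcases h with ⟨p, q, h1, h2, h3, h4⟩ | ⟨p, q, h1, h2, h3, h4⟩
  · left
    refine ⟨(p.2, -p.1), (q.2, -q.1), ?_, ?_, ?_, ?_⟩
    · unfold rotc at h1 h2
      simp only at h1 h2 ⊢
      exact h2
    · unfold rotc at h1 h2
      simp only at h1 h2 ⊢
      rw [abs_le] at h1 ⊢
      omega
    · simp only [abs_neg]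
      tauto
    · have e1 : ω''.map rotL ∩ BB R' = (ω'' ∩ BB R').map rotL := by
        rw [Finset.map_inter, SymmAux.map_rotL_BB]
      rw [e1] at h4
      rw [← Co_rot]
      unfold rv
      simpa using h4
  · right
    refine ⟨(p.2, 1 - p.1), (q.2, 1 - q.1), ?_, ?_, ?_, ?_⟩
    · unfold rotc at h1 h2
      simp only at h1 h2 ⊢
      exact h2
    · unfold rotc at h1 h2
      simp only at h1 h2 ⊢
      rw [abs_le] at h1 ⊢
      omega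
    · simp only
      omega
    · have e1 : du (BB R') (ω''.map rotL) = (du (BB R') ω'').map rotD := by
        rw [← du_rot, SymmAux.map_rotL_BB]
      rw [e1] at h4
      rw [← Co_rotD]
      unfold rf
      simpa using h4

lemma Ex4_rot (he : (e.1 + e.2) % 2 = 1) (hx : Ex4 r e ω x) :
    Ex4 r (rotL e) (ω.map rotL) (rotc x) := by
  unfold Ex4 at hx ⊢
  have hB : (BB r).map rotL = BB r := SymmAux.map_rotL_BB r
  rw [← erase_rot, ← hB]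
  rcases Int.emod_two_eq_zero_or_one e.1 with h | h
  · obtain ⟨g1, g2⟩ := rotc_zu_v h (by omega)
    rw [← g1, ← g2]
    simp only [FX_rot', BX_rot']
    tauto
  · obtain ⟨g1, g2⟩ := rotc_zu_h h (by omega)
    rw [← g1, ← g2]
    simp only [FX_rot', BX_rot']
    tauto

lemma FX_uniq {B : Finset (ℤ × ℤ)} {x x' : ℤ × ℤ} (h : FX B ω c x) (h' : FX B ω c x') : x = x' := by
  refine (Str_FX h (TrackAux.FX_Str h') ?_).symm
  obtain ⟨j, -, h2, -⟩ := h'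
  exact h2

lemma BX_uniq {B : Finset (ℤ × ℤ)} {x x' : ℤ × ℤ} (h : BX B ω c x) (h' : BX B ω c x') : x = x' := by
  refine (Str_BX h (TrackAux.BX_Str h') ?_).symm
  obtain ⟨j, -, h2, -⟩ := h'
  exact h2

lemma U4_sub (B : Finset (ℤ × ℤ)) (e : ℤ × ℤ) (ω : Finset (ℤ × ℤ)) : U4 B e ω ⊆ B := by
  classical
  unfold U4 TwoArm.UU
  intro a ha
  rw [mem_union, mem_filter, mem_filter] at ha
  tauto

lemma BB_mem_of_le {a b : ℤ} (h : a ≤ b) : BB a ⊆ BB b :=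
  Bx_sub (by omega) h (by omega) h

/-- consecutive exits `F`, `B` through the right side, from below -/
lemma surv_FB {b1 b2 : ℤ} (hr : 1 ≤ r) (he : (e.1 + e.2) % 2 = 1)
    (heB : e ∈ BB r) (hA : A4 (BB r) e ω) (hc : c = zu e ∨ c = zv e)
    (h1 : FX (BB r) (ω.erase e) c (2 * r + 1, b1)) (h2 : BX (BB r) (ω.erase e) c (2 * r + 1, b2))
    (hb : b1 < b2) (hR : r + 3 ≤ R') (hA' : A4 (BB R') e (mix (U4 (BB r) e ω) ω ω'')) :
    ∃ p q : ℤ × ℤ, (2 * r - 1 ≤ 2 * p.1 ∧ 2 * p.1 ≤ 2 * r + 3 ∧ b1 - 2 ≤ 2 * p.2 ∧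
      2 * p.2 ≤ b2 + 1) ∧ (|q.1| = R' ∨ |q.2| = R') ∧ Co (ω'' ∩ BB R') p q := by
  have hcB : lab c ∈ BB r := by rw [lab_of_zz he hc]; exact heB
  obtain ⟨hR1, hfar⟩ := clo_arcFB hr hcB h1 h2 hb
  obtain ⟨S, hS⟩ := exists_TCR hcB h1 h2 hR1
  have hsub : BB r ⊆ BB R' := BB_mem_of_le (by omega)
  have hF4 := (A4_iff_F4 (by omega) he (hsub heB)).1 hA'
  obtain ⟨⟨pu, hpu, hcu⟩, ⟨pv', hpv, hcv⟩, hnc⟩ := hF4
  obtain ⟨o1, o2, -, -, o3, o4⟩ := opc_zu he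
  have key : ∃ q : ℤ × ℤ, (|q.1| = R' ∨ |q.2| = R') ∧
      Co ((mix (U4 (BB r) e ω) ω ω'' ∩ BB R').erase e) (vx c) q ∧
      ¬ Co ((mix (U4 (BB r) e ω) ω ω'' ∩ BB R').erase e) (vx c) (vx (opc c)) := by
    rcases hc with rfl | rfl
    · refine ⟨pu, hpu, ?_, ?_⟩
      · rw [o3]; exact hcu
      · rw [o1, o3, o4]; exact hnc
    · refine ⟨pv', hpv, ?_, ?_⟩
      · rw [o4]; exact hcv
      · rw [o2, o3, o4]; exact fun h => hnc h.symm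
  obtain ⟨q, hq1, hq2, hq3⟩ := key
  have hSq : S (dbl q) = false := by
    refine hfar S hS (dbl q) ?_ ?_
    · unfold dbl; dsimp only; omega
    · unfold dbl; dsimp only
      rw [abs_mul, abs_mul]
      have : |(2 : ℤ)| = 2 := rfl
      rw [this]
      omega
  obtain ⟨p, p', hu, hp, hpq⟩ := survive4 he heB hA hc h1 h2 hR1 hS ((U4_sub _ _ _).trans hsub)
    hq2 hSq hq3
  refine ⟨p, q, ?_, hq1, hpq.mono sdiff_subset⟩
  have hu' := unit_cases hu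
  rcases hp with ⟨z, hz, ht⟩ | hl
  · obtain ⟨t0, t1, t2, t3, t4⟩ := Tch_bd ht
    unfold arcR at hz
    simp only [Prod.fst_add, Prod.snd_add] at t0 t1 t2 t3 t4
    omega
  · obtain ⟨t0, t1, t2, t3, t4⟩ := Tch_bd (a := p + p') (z := (2 * r + 1, b1)) (Or.inl hl.symm)
    simp only [Prod.fst_add, Prod.snd_add] at t0 t1 t2 t3 t4
    omega

/-- consecutive exits `B`, `F` through the right side, from below -/
lemma surv_BF {b1 b2 : ℤ} (hr : 1 ≤ r) (he : (e.1 + e.2) % 2 = 1)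
    (heB : e ∈ BB r) (hA : A4 (BB r) e ω) (hc : c = zu e ∨ c = zv e)
    (h1 : BX (BB r) (insert e ω) c (2 * r + 1, b1)) (h2 : FX (BB r) (insert e ω) c (2 * r + 1, b2))
    (hb : b1 < b2) (hR : r + 3 ≤ R') (hA' : A4 (BB R') e (mix (U4 (BB r) e ω) ω ω'')) :
    ∃ p q : ℤ × ℤ, (2 * r ≤ 2 * p.1 ∧ 2 * p.1 ≤ 2 * r + 4 ∧ b1 - 1 ≤ 2 * p.2 ∧
      2 * p.2 ≤ b2 + 2) ∧ (q.1 = R' + 1 ∨ q.1 = -R' ∨ q.2 = R' + 1 ∨ q.2 = -R') ∧
      Co (du (BB R') ω'') p q := by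
  have hcB : lab c ∈ BB r := by rw [lab_of_zz he hc]; exact heB
  obtain ⟨hR1, hfar⟩ := clo_arcBF hr hcB h1 h2 hb
  obtain ⟨S, hS⟩ := exists_TCR hcB h2 h1 hR1
  have hsub : BB r ⊆ BB R' := BB_mem_of_le (by omega)
  obtain ⟨⟨pu, hpu, hcu⟩, ⟨pv', hpv, hcv⟩, hnc⟩ := F4_dual (by omega) he (hsub heB) hA'
  obtain ⟨o1, o2, -, -, -, -⟩ := opc_zu he
  have key : ∃ q : ℤ × ℤ, (q.1 = R' + 1 ∨ q.1 = -R' ∨ q.2 = R' + 1 ∨ q.2 = -R') ∧
      Co (du (BB R') (insert e (mix (U4 (BB r) e ω) ω ω''))) (fi c) q ∧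
      ¬ Co (du (BB R') (insert e (mix (U4 (BB r) e ω) ω ω''))) (fi c) (fi (opc c)) := by
    rcases hc with rfl | rfl
    · refine ⟨pu, hpu, hcu, ?_⟩
      rw [o1]; exact hnc
    · refine ⟨pv', hpv, hcv, ?_⟩
      rw [o2]; exact fun h => hnc h.symm
  obtain ⟨q, hq1, hq2, hq3⟩ := key
  have hSq : S (fp q) = true := by
    refine hfar S hS (fp q) ?_ ?_
    · unfold fp; dsimp only; omega
    · unfold fp; dsimp only
      rw [le_abs', le_abs']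
      omega
  obtain ⟨p, p', hu, hp, hpq⟩ := survived4 he heB hA hc h2 h1 hR1 hS ((U4_sub _ _ _).trans hsub)
    hq2 hSq hq3
  refine ⟨p, q, ?_, hq1, hpq.mono sdiff_subset⟩
  have hu' := unit_cases hu
  rcases hp with ⟨z, hz, ht⟩ | hl
  · obtain ⟨t0, t1, t2, t3, t4⟩ := Tch_bd ht
    simp only [Prod.fst_add, Prod.snd_add, Prod.fst_sub, Prod.snd_sub] at t0 t1 t2 t3 t4 hz
    omega
  · obtain ⟨t0, t1, t2, t3, t4⟩ := Tch_bd (a := p + p' - (1, 1)) (z := (2 * r + 1, b1))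
      (Or.inr hl.symm)
    simp only [Prod.fst_add, Prod.snd_add, Prod.fst_sub, Prod.snd_sub] at t0 t1 t2 t3 t4
    omega

lemma clk_spec (hr : 1 ≤ r) {x : ℤ × ℤ}
    (h : ∃ b : ℤ, -(2 * r) + 1 ≤ b ∧ b ≤ 2 * r ∧
      (x = (2 * r + 1, b) ∨ x = (1 - b, 2 * r + 1) ∨ x = (-(2 * r), 1 - b) ∨ x = (b, -(2 * r)))) :
    0 ≤ clk r x ∧ clk r x < 16 * r ∧ (clk r x < 4 * r → x = (2 * r + 1, clk r x - 2 * r + 1)) ∧
    (x.1 = 2 * r + 1 → clk r x = x.2 + 2 * r - 1 ∧ clk r x < 4 * r) := by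
  obtain ⟨b, h1, h2, h3⟩ := h
  rcases h3 with rfl | rfl | rfl | rfl
  · have e : clk r (2 * r + 1, b) = b + 2 * r - 1 := by unfold clk; rw [if_pos rfl]
    rw [e]
    simp only [Prod.mk.injEq, true_and]
    omega
  · have e : clk r (1 - b, 2 * r + 1) = 6 * r - (1 - b) := by
      unfold clk; dsimp only; rw [if_neg (by omega), if_pos rfl]
    rw [e]
    simp only [Prod.mk.injEq]
    omega
  · have e : clk r (-(2 * r), 1 - b) = 10 * r - (1 - b) := by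
      unfold clk; dsimp only; rw [if_neg (by omega), if_neg (by omega), if_pos rfl]
    rw [e]
    simp only [Prod.mk.injEq]
    omega
  · have e : clk r (b, -(2 * r)) = b + 14 * r - 1 := by
      unfold clk; dsimp only; rw [if_neg (by omega), if_neg (by omega), if_neg (by omega)]
    rw [e]
    simp only [Prod.mk.injEq]
    omega

lemma lin_order {N k1 k2 k3 k4 M2 M3 M4 k : ℤ} (a1 : 0 ≤ k1) (a2 : k1 < N) (b1 : 0 ≤ k2)
    (b2 : k2 < N) (c1 : 0 ≤ k3) (c2 : k3 < N) (d1 : 0 ≤ k4) (d2 : k4 < N)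
    (e2 : k2 = k1 + M2 ∨ k2 = k1 + M2 - N) (e3 : k3 = k1 + M3 ∨ k3 = k1 + M3 - N)
    (e4 : k4 = k1 + M4 ∨ k4 = k1 + M4 - N) (m1 : 0 < M2) (m2 : M2 < M3) (m3 : M3 < M4)
    (m4 : M4 < N) (hk : k = k1 ∨ k = k2 ∨ k = k3 ∨ k = k4) :
    (k1 < k → k1 < k2 ∧ k2 ≤ k) ∧ (k2 < k → k2 < k3 ∧ k3 ≤ k) ∧ (k3 < k → k3 < k4 ∧ k4 ≤ k) ∧
    (k4 < k → k4 < k1 ∧ k1 ≤ k) := by
  rcases hk with rfl | rfl | rfl | rfl <;> rcases e2 with h2 | h2 <;> rcases e3 with h3 | h3 <;>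
    rcases e4 with h4 | h4 <;> refine ⟨fun h => ?_, fun h => ?_, fun h => ?_, fun h => ?_⟩ <;> omega

lemma emod_sub {N a b : ℤ} (ha : 0 ≤ a) (ha' : a < N) (hb : 0 ≤ b) (hb' : b < N) :
    b = a + (b - a) % N ∨ b = a + (b - a) % N - N := by
  rcases le_or_gt a b with h | h
  · left
    rw [Int.emod_eq_of_lt (by omega) (by omega)]; ring
  · right
    have : (b - a) % N = b - a + N := by
      rw [← Int.add_emod_right, Int.emod_eq_of_lt (by omega) (by omega)]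
    rw [this]; ring

lemma pair_east (hr : 1 ≤ r) (he : (e.1 + e.2) % 2 = 1) (heB : e ∈ BB r)
    (hA : A4 (BB r) e ω) {x x' : ℤ × ℤ} (hx : Ex4 r e ω x) (hx' : Ex4 r e ω x')
    (hs : x.1 = 2 * r + 1) (hs' : x'.1 = 2 * r + 1) (hlt : x.2 < x'.2) :
    ∃ b1 b2, x.2 ≤ b1 ∧ b1 < b2 ∧ b2 ≤ x'.2 ∧ ∃ c, (c = zu e ∨ c = zv e) ∧
      ((FX (BB r) (ω.erase e) c (2 * r + 1, b1) ∧ BX (BB r) (ω.erase e) c (2 * r + 1, b2)) ∨
       (BX (BB r) (insert e ω) c (2 * r + 1, b1) ∧ FX (BB r) (insert e ω) c (2 * r + 1, b2))) := by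
  obtain ⟨⟨x1, h1⟩, ⟨x2, h2⟩⟩ := leave_exits hA.1
  obtain ⟨⟨x3, h3⟩, ⟨x4, h4⟩⟩ := leave_exits hA.2.1
  obtain ⟨m1, m2, m3⟩ := cyc hr he heB hA h1 h2 h3 h4
  have hcu : lab (zu e) ∈ BB r := by rw [lab_of_zz he (Or.inl rfl)]; exact heB
  have hcv : lab (zv e) ∈ BB r := by rw [lab_of_zz he (Or.inr rfl)]; exact heB
  obtain ⟨a1, a2, a3, a4⟩ := clk_spec hr (x := x1) (by
    obtain ⟨b, q1, q2, -, q3⟩ := FX_pos hr hcu h1; exact ⟨b, q1, q2, q3⟩)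
  obtain ⟨b1, b2, b3, b4⟩ := clk_spec hr (x := x2) (by
    obtain ⟨b, q1, q2, -, q3⟩ := BX_pos hr hcu h2; exact ⟨b, q1, q2, q3⟩)
  obtain ⟨c1, c2, c3, c4⟩ := clk_spec hr (x := x3) (by
    obtain ⟨b, q1, q2, -, q3⟩ := FX_pos hr hcv h3; exact ⟨b, q1, q2, q3⟩)
  obtain ⟨d1, d2, d3, d4⟩ := clk_spec hr (x := x4) (by
    obtain ⟨b, q1, q2, -, q3⟩ := BX_pos hr hcv h4; exact ⟨b, q1, q2, q3⟩)
  -- the position of `x'`
  have hx'k : x'.2 = clk r x' - 2 * r + 1 ∧ clk r x' < 4 * r ∧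
      (x' = x1 ∨ x' = x2 ∨ x' = x3 ∨ x' = x4) := by
    rcases hx' with h | h | h | h
    · obtain rfl := FX_uniq h h1
      have := a4 hs'
      exact ⟨by omega, this.2, Or.inl rfl⟩
    · obtain rfl := BX_uniq h h2
      have := b4 hs'
      exact ⟨by omega, this.2, Or.inr (Or.inl rfl)⟩
    · obtain rfl := FX_uniq h h3
      have := c4 hs'
      exact ⟨by omega, this.2, Or.inr (Or.inr (Or.inl rfl))⟩
    · obtain rfl := BX_uniq h h4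
      have := d4 hs'
      exact ⟨by omega, this.2, Or.inr (Or.inr (Or.inr rfl))⟩
  obtain ⟨k1, k2, k3⟩ := hx'k
  have hkk : clk r x' = clk r x1 ∨ clk r x' = clk r x2 ∨ clk r x' = clk r x3 ∨
      clk r x' = clk r x4 := by
    rcases k3 with h | h | h | h
    · exact Or.inl (congrArg _ h)
    · exact Or.inr (Or.inl (congrArg _ h))
    · exact Or.inr (Or.inr (Or.inl (congrArg _ h)))
    · exact Or.inr (Or.inr (Or.inr (congrArg _ h)))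
  obtain ⟨L1, L2, L3, L4⟩ := lin_order a1 a2 b1 b2 c1 c2 d1 d2 (emod_sub a1 a2 b1 b2)
    (emod_sub a1 a2 c1 c2) (emod_sub a1 a2 d1 d2) m1 m2 m3 (Int.emod_lt_of_pos _ (by omega)) hkk
  clear m1 m2 m3 hkk k3
  have fin : ∀ {k k' : ℤ}, k = x.2 + 2 * r - 1 → (k < clk r x' → k < k' ∧ k' ≤ clk r x') →
      k' < 4 * r ∧ x.2 < k' - 2 * r + 1 ∧ k' - 2 * r + 1 ≤ x'.2 := by
    intro k k' g1 g2
    have := g2 (by omega)
    omega
  rcases hx with h | h | h | h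
  · obtain rfl := FX_uniq h h1
    have hlt2 := fin (a4 hs).1 L1
    refine ⟨x.2, clk r x2 - 2 * r + 1, le_refl _, hlt2.2.1, hlt2.2.2, zu e, Or.inl rfl,
      Or.inl ⟨?_, ?_⟩⟩
    · rw [← hs]; exact h
    · rw [← b3 hlt2.1]; exact h2
  · obtain rfl := BX_uniq h h2
    have hlt2 := fin (b4 hs).1 L2
    refine ⟨x.2, clk r x3 - 2 * r + 1, le_refl _, hlt2.2.1, hlt2.2.2, zu e, Or.inl rfl,
      Or.inr ⟨?_, ?_⟩⟩
    · rw [← hs]; exact (exits_insert he heB hA x).2.2.1.2 h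
    · rw [← c3 hlt2.1]; exact (exits_insert he heB hA x3).1.2 h3
  · obtain rfl := FX_uniq h h3
    have hlt2 := fin (c4 hs).1 L3
    refine ⟨x.2, clk r x4 - 2 * r + 1, le_refl _, hlt2.2.1, hlt2.2.2, zv e, Or.inr rfl,
      Or.inl ⟨?_, ?_⟩⟩
    · rw [← hs]; exact h
    · rw [← d3 hlt2.1]; exact h4
  · obtain rfl := BX_uniq h h4
    have hlt2 := fin (d4 hs).1 L4
    refine ⟨x.2, clk r x1 - 2 * r + 1, le_refl _, hlt2.2.1, hlt2.2.2, zv e, Or.inr rfl,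
      Or.inr ⟨?_, ?_⟩⟩
    · rw [← hs]; exact (exits_insert he heB hA x).2.2.2.2 h
    · rw [← a3 hlt2.1]; exact (exits_insert he heB hA x1).2.1.2 h1

lemma surv_east {x x' : ℤ × ℤ} {W : ℤ} (hr : 1 ≤ r) (he : (e.1 + e.2) % 2 = 1)
    (heB : e ∈ BB r) (hA : A4 (BB r) e ω) (hx : Ex4 r e ω x) (hx' : Ex4 r e ω x') (hxx : x ≠ x')
    (hs : x.1 = 2 * r + 1) (hs' : x'.1 = 2 * r + 1)
    (hW : |x.2 - x'.2| ≤ W) (hR : r + 3 ≤ R')
    (hA' : A4 (BB R') e (mix (U4 (BB r) e ω) ω ω'')) : Sv R' (2 * W + 5) ω'' x := by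
  have hne : x.2 ≠ x'.2 := by
    intro h
    exact hxx (Prod.ext (by rw [hs, hs']) h)
  rw [abs_le] at hW
  have key : ∃ b1 b2, x.2 - W ≤ b1 ∧ b1 < b2 ∧ b2 ≤ x.2 + W ∧ ∃ c, (c = zu e ∨ c = zv e) ∧
      ((FX (BB r) (ω.erase e) c (2 * r + 1, b1) ∧ BX (BB r) (ω.erase e) c (2 * r + 1, b2)) ∨
       (BX (BB r) (insert e ω) c (2 * r + 1, b1) ∧
        FX (BB r) (insert e ω) c (2 * r + 1, b2))) := by
    rcases lt_or_gt_of_ne hne with h | h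
    · obtain ⟨b1, b2, g1, g2, g3, g4⟩ := pair_east hr he heB hA hx hx' hs hs' h
      exact ⟨b1, b2, by omega, g2, by omega, g4⟩
    · obtain ⟨b1, b2, g1, g2, g3, g4⟩ := pair_east hr he heB hA hx' hx hs' hs h
      exact ⟨b1, b2, by omega, g2, by omega, g4⟩
  obtain ⟨b1, b2, g1, g2, g3, c, hc, ⟨f1, f2⟩ | ⟨f1, f2⟩⟩ := key
  · left
    obtain ⟨p, q, ⟨p1, p2, p3, p4⟩, hq, hpq⟩ := surv_FB hr he heB hA hc f1 f2 g2 hR hA'
    refine ⟨p, q, ?_, ?_, hq, hpq⟩ <;> rw [abs_le] <;> omega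
  · right
    obtain ⟨p, q, ⟨p1, p2, p3, p4⟩, hq, hpq⟩ := surv_BF hr he heB hA hc f1 f2 g2 hR hA'
    refine ⟨p, q, ?_, ?_, hq, hpq⟩ <;> rw [abs_le] <;> omega

/-- data of the survival lemma for the side `s` -/
def SvSide (s : ℤ → ℤ × ℤ → Prop) : Prop :=
  ∀ (r R' W : ℤ) (ω ω'' : Finset (ℤ × ℤ)) (e x x' : ℤ × ℤ), 1 ≤ r → (e.1 + e.2) % 2 = 1 →
    e ∈ BB r → A4 (BB r) e ω → Ex4 r e ω x → Ex4 r e ω x' → x ≠ x' → s r x → s r x' →
    |x.1 - x'.1| ≤ W → |x.2 - x'.2| ≤ W → r + 3 ≤ R' →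
    A4 (BB R') e (mix (U4 (BB r) e ω) ω ω'') → Sv R' (2 * W + 5) ω'' x

lemma SvSide_rot {s t : ℤ → ℤ × ℤ → Prop} (hst : ∀ r x, s r x → t r (rotc x)) (h : SvSide t) :
    SvSide s := by
  intro r R' W ω ω'' e x x' hr he heB hA hx hx' hxx hs hs' hW1 hW2 hR hA'
  apply Sv_rot
  have hB := SymmAux.map_rotL_BB r
  have hB' := SymmAux.map_rotL_BB R'
  refine h r R' W (ω.map rotL) (ω''.map rotL) (rotL e) (rotc x) (rotc x') hr ?_ ?_ ?_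
    (Ex4_rot he hx) (Ex4_rot he hx') (fun h => hxx (SymmAux.rotc_inj.1 h)) (hst _ _ hs)
    (hst _ _ hs') ?_ ?_ hR ?_
  · show (-e.2 + e.1) % 2 = 1
    omega
  · exact SymmAux.rotL_mem_BB.2 heB
  · rw [← hB]; exact (A4_rot he).2 hA
  · unfold rotc; dsimp only
    rw [abs_le] at hW2 ⊢; omega
  · unfold rotc; dsimp only
    exact hW1
  · have := (A4_rot (B := BB R') he).2 hA'
    rw [mix_rot, hB', ← U4_rot he, hB] at this
    exact this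

end FBoxAux

/-- Survival: two of the four strands leave the box `[-r,r]²` through the same side at distance at most
`W`, and there are four arms up to the box `[-R',R']²` after resampling: the fresh configuration has an
open or a dual path from the window to the boundary of the larger box. -/
theorem survive_any {x x' : ℤ × ℤ} {W : ℤ} (hr : 1 ≤ r) (he : (e.1 + e.2) % 2 = 1)
    (heB : e ∈ BB r) (hA : A4 (BB r) e ω) (hx : Ex4 r e ω x) (hx' : Ex4 r e ω x') (hxx : x ≠ x')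
    (hs : (x.1 = 2 * r + 1 ∧ x'.1 = 2 * r + 1) ∨ (x.2 = 2 * r + 1 ∧ x'.2 = 2 * r + 1) ∨
      (x.1 = -(2 * r) ∧ x'.1 = -(2 * r)) ∨ (x.2 = -(2 * r) ∧ x'.2 = -(2 * r)))
    (hW : |x.1 - x'.1| ≤ W ∧ |x.2 - x'.2| ≤ W) (hR : r + 3 ≤ R')
    (hA' : A4 (BB R') e (mix (U4 (BB r) e ω) ω ω'')) :
    (∃ p q : ℤ × ℤ, |2 * p.1 - x.1| ≤ W + 6 ∧ |2 * p.2 - x.2| ≤ W + 6 ∧
      (|q.1| = R' ∨ |q.2| = R') ∧ Co (ω'' ∩ BB R') p q) ∨
    (∃ f g : ℤ × ℤ, |2 * f.1 - x.1| ≤ W + 6 ∧ |2 * f.2 - x.2| ≤ W + 6 ∧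
      (g.1 = R' + 1 ∨ g.1 = -R' ∨ g.2 = R' + 1 ∨ g.2 = -R') ∧ Co (du (BB R') ω'') f g) := by
  have E0 : SvSide (fun r x => x.1 = 2 * r + 1) := by
    intro r R' W ω ω'' e x x' hr he heB hA hx hx' hxx hs hs' _ hW2 hR hA'
    exact surv_east hr he heB hA hx hx' hxx hs hs' hW2 hR hA'
  have S0 : SvSide (fun r x => x.2 = -(2 * r)) :=
    SvSide_rot (fun r x h => by unfold rotc; dsimp only at h ⊢; omega) E0
  have W0 : SvSide (fun r x => x.1 = -(2 * r)) :=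
    SvSide_rot (fun r x h => by unfold rotc; dsimp only at h ⊢; omega) S0
  have N0 : SvSide (fun r x => x.2 = 2 * r + 1) :=
    SvSide_rot (fun r x h => by unfold rotc; dsimp only at h ⊢; omega) W0
  have key : Sv R' (2 * W + 5) ω'' x := by
    rcases hs with ⟨g1, g2⟩ | ⟨g1, g2⟩ | ⟨g1, g2⟩ | ⟨g1, g2⟩
    · exact E0 r R' W ω ω'' e x x' hr he heB hA hx hx' hxx g1 g2 hW.1 hW.2 hR hA'
    · exact N0 r R' W ω ω'' e x x' hr he heB hA hx hx' hxx g1 g2 hW.1 hW.2 hR hA'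
    · exact W0 r R' W ω ω'' e x x' hr he heB hA hx hx' hxx g1 g2 hW.1 hW.2 hR hA'
    · exact S0 r R' W ω ω'' e x x' hr he heB hA hx hx' hxx g1 g2 hW.1 hW.2 hR hA'
  rcases key with ⟨p, q, h1, h2, h3, h4⟩ | ⟨p, q, h1, h2, h3, h4⟩
  · left
    refine ⟨p, q, ?_, ?_, h3, h4⟩
    · rw [abs_le] at h1 ⊢; omega
    · rw [abs_le] at h2 ⊢; omega
  · right
    refine ⟨p, q, ?_, ?_, h3, h4⟩
    · rw [abs_le] at h1 ⊢; omega
    · rw [abs_le] at h2 ⊢; omega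

end ray

end Pool.Agent.H75.Four
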