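import Mathlib
import Pool.Agent.H75.Four.DefsB

set_option autoImplicit false
open Finset

/-! FB1: positions of the hits of the hole. -/

namespace Pool.Agent.H75.Four

open Pool.Agent.H75.Perc
open Pool.Agent.H75.TwoArm

section

variable {B ω ω'' U F D E : Finset (ℤ × ℤ)} {c x x1 x2 x3 x4 z e e' p q : ℤ × ℤ}
  {R : ℤ × ℤ → Prop} {S : ℤ × ℤ → Bool} {k M : ℤ}

lemma Hole.erase (h : Hole k M e ω) : Hole k M e (ω.erase e) :=
  ⟨h.hk, h.he, h.hE, h.hB, (erase_subset _ _).trans h.hw⟩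

lemma Hole.insert (h : Hole k M e ω) : Hole k M e (insert e ω) := by
  refine ⟨h.hk, h.he, h.hE, h.hB, ?_⟩
  intro a ha
  rcases mem_insert.1 ha with rfl | ha
  · exact h.hE
  · exact h.hw ha

namespace HPosAux

lemma mem_BB {r : ℤ} {l : ℤ × ℤ} : l ∈ BB r ↔
    (-(2 * r) ≤ l.1 ∧ l.1 ≤ 2 * r) ∧ (-(2 * r) ≤ l.2 ∧ l.2 ≤ 2 * r) ∧ (l.1 + l.2) % 2 = 1 := by
  unfold TwoArm.BB
  rw [mem_Bx]
  constructor
  · rintro ⟨⟨h1, h2⟩, ⟨h3, h4⟩, h5⟩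
    exact ⟨⟨by omega, h2⟩, ⟨by omega, h4⟩, h5⟩
  · rintro ⟨⟨h1, h2⟩, ⟨h3, h4⟩, h5⟩
    exact ⟨⟨by omega, h2⟩, ⟨by omega, h4⟩, h5⟩

/-- four types of corners with both labels -/
lemma ty4 (z : ℤ × ℤ) :
    (z.1 % 2 = 0 ∧ z.2 % 2 = 0 ∧ lab z = (z.1, z.2 - 1) ∧ plab z = (z.1 - 1, z.2)) ∨
    (z.1 % 2 = 1 ∧ z.2 % 2 = 0 ∧ lab z = (z.1, z.2) ∧ plab z = (z.1 - 1, z.2 - 1)) ∨
    (z.1 % 2 = 1 ∧ z.2 % 2 = 1 ∧ lab z = (z.1 - 1, z.2) ∧ plab z = (z.1, z.2 - 1)) ∨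
    (z.1 % 2 = 0 ∧ z.2 % 2 = 1 ∧ lab z = (z.1 - 1, z.2 - 1) ∧ plab z = (z.1, z.2)) := by
  unfold lab plab
  have h1 : z.1 % 2 = 0 ∨ z.1 % 2 = 1 := by omega
  have h2 : z.2 % 2 = 0 ∨ z.2 % 2 = 1 := by omega
  rcases h1 with h1 | h1 <;> rcases h2 with h2 | h2 <;> simp [h1, h2]

def Q (r : ℤ) (v : ℤ × ℤ) : Prop := |v.1| ≤ r ∧ |v.2| ≤ r

lemma Q_of_lab {r : ℤ} (h : lab z ∈ BB r) : Q r (vx z) := by
  rw [mem_BB] at h
  unfold Q vx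
  rw [abs_le, abs_le]
  rcases ty4 z with ⟨h1, h2, h3, h4⟩ | ⟨h1, h2, h3, h4⟩ | ⟨h1, h2, h3, h4⟩ | ⟨h1, h2, h3, h4⟩ <;>
    rw [h3] at h <;> simp only at h ⊢ <;> omega

lemma Q_of_plab {r : ℤ} (h : plab z ∈ BB r) : Q r (vx z) := by
  rw [mem_BB] at h
  unfold Q vx
  rw [abs_le, abs_le]
  rcases ty4 z with ⟨h1, h2, h3, h4⟩ | ⟨h1, h2, h3, h4⟩ | ⟨h1, h2, h3, h4⟩ | ⟨h1, h2, h3, h4⟩ <;>
    rw [h4] at h <;> simp only at h ⊢ <;> omega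

lemma labs_of_Q {r : ℤ} (h : Q (r - 1) (vx z)) : lab z ∈ BB r ∧ plab z ∈ BB r := by
  rw [mem_BB, mem_BB]
  unfold Q vx at h
  rw [abs_le, abs_le] at h
  simp only at h
  rcases ty4 z with ⟨h1, h2, h3, h4⟩ | ⟨h1, h2, h3, h4⟩ | ⟨h1, h2, h3, h4⟩ | ⟨h1, h2, h3, h4⟩ <;>
    rw [h3, h4] <;> simp only <;> omega

lemma Q_nx {r : ℤ} (hω : ω ⊆ BB r) (h : Q r (vx z)) : Q r (vx (nx ω z)) := by
  unfold nx
  split_ifs with hl
  · have h1 := (vx_nxO z).2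
    have h2 := (vx_nxO z).1
    have h3 := mem_BB.1 (hω hl)
    rw [← h1] at h3
    rcases unit_cases h2 with h4 | h4 | h4 | h4 <;> unfold Q at h ⊢ <;>
      rw [abs_le, abs_le] at h ⊢ <;> simp only [Prod.fst_add, Prod.snd_add] at h3 <;> omega
  · rw [StrandAux.vx_nxC]
    exact h

lemma Q_pv {r : ℤ} (hω : ω ⊆ BB r) (h : Q r (vx z)) : Q r (vx (pv ω z)) := by
  by_cases hl : plab z ∈ ω
  · apply Q_of_lab
    rw [lab_pv]
    exact hω hl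
  · have h1 : nx ω (pv ω z) = nxC (pv ω z) := by
      unfold nx
      rw [if_neg]
      rw [lab_pv]
      exact hl
    rw [nx_pv] at h1
    have h2 := StrandAux.vx_nxC (pv ω z)
    rw [← h1] at h2
    rw [← h2]
    exact h

lemma Q_it {r : ℤ} (hω : ω ⊆ BB r) (h : Q r (vx c)) (j : ℕ) :
    Q r (vx ((nx ω)^[j] c)) ∧ Q r (vx ((pv ω)^[j] c)) := by
  induction j with
  | zero => exact ⟨h, h⟩
  | succ j ih =>
    rw [Function.iterate_succ_apply', Function.iterate_succ_apply']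
    exact ⟨Q_nx hω ih.1, Q_pv hω ih.2⟩

lemma Q_str (hω : ω ⊆ BB (M - 1)) (hc : lab c ∈ BB (M - 1)) (hz : Str B ω c z) :
    Q (M - 1) (vx z) := by
  rcases hz with ⟨j, h1, -⟩ | ⟨j, h1, -⟩
  · rw [← h1]; exact (Q_it hω (Q_of_lab hc) j).1
  · rw [← h1]; exact (Q_it hω (Q_of_lab hc) j).2

end HPosAux

open HPosAux

/-- the strands stay inside the big box -/
theorem str_in (hω : ω ⊆ BB (M - 1)) (hc : lab c ∈ BB (M - 1))
    (hz : Str (BB M \ BB k) ω c z) : |(vx z).1| ≤ M - 1 ∧ |(vx z).2| ≤ M - 1 ∧ lab z ∈ BB M ∧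
      plab z ∈ BB M := by
  have h1 := Q_str hω hc hz
  exact ⟨h1.1, h1.2, labs_of_Q h1⟩

theorem FX_hole (hk : 1 ≤ k) (hω : ω ⊆ BB (M - 1)) (hc : lab c ∈ BB (M - 1)) (hc' : lab c ∉ BB k)
    (h : FX (BB M \ BB k) ω c x) :
    lab x ∈ BB k ∧ plab x ∉ BB k ∧ ∃ b : ℤ, b % 2 = 0 ∧ Hpos k b x := by
  obtain ⟨j, h1, h2, h3⟩ := h
  have hQ : Q (M - 1) (vx x) := by
    rw [← h1]; exact (Q_it hω (Q_of_lab hc) j).1
  have hl : lab x ∈ BB k := by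
    by_contra hn
    exact h2 (mem_sdiff.2 ⟨(labs_of_Q hQ).1, hn⟩)
  have hp : plab x ∉ BB k := by
    rcases j with _ | j
    · exact absurd (by rw [← h1] at hl; exact hl) hc'
    · have h4 := h3 j (by omega)
      rw [← h1, Function.iterate_succ_apply', plab_nx]
      exact (mem_sdiff.1 h4).2
  refine ⟨hl, hp, ?_⟩
  rw [mem_BB] at hl hp
  obtain ⟨a, b⟩ := x
  rcases ty4 (a, b) with ⟨g1, g2, g3, g4⟩ | ⟨g1, g2, g3, g4⟩ | ⟨g1, g2, g3, g4⟩ |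
    ⟨g1, g2, g3, g4⟩ <;> rw [g3] at hl <;> rw [g4] at hp <;> simp only at hl hp g1 g2
  · refine ⟨b, g2, by omega, by omega, Or.inr (Or.inr (Or.inl (Prod.ext ?_ ?_)))⟩ <;>
      simp only <;> omega
  · refine ⟨1 - a, by omega, by omega, by omega, Or.inr (Or.inr (Or.inr (Prod.ext ?_ ?_)))⟩ <;>
      simp only <;> omega
  · refine ⟨1 - b, by omega, by omega, by omega, Or.inl (Prod.ext ?_ ?_)⟩ <;>
      simp only <;> omega
  · refine ⟨a, g1, by omega, by omega, Or.inr (Or.inl (Prod.ext ?_ ?_))⟩ <;>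
      simp only <;> omega

theorem BX_hole (hk : 1 ≤ k) (hω : ω ⊆ BB (M - 1)) (hc : lab c ∈ BB (M - 1)) (hc' : lab c ∉ BB k)
    (h : BX (BB M \ BB k) ω c x) :
    plab x ∈ BB k ∧ lab x ∉ BB k ∧ ∃ b : ℤ, b % 2 = 1 ∧ Hpos k b x := by
  obtain ⟨j, h1, h2, h3⟩ := h
  have hQ : Q (M - 1) (vx x) := by
    rw [← h1]; exact (Q_it hω (Q_of_lab hc) j).2
  have hp : plab x ∈ BB k := by
    by_contra hn
    exact h2 (mem_sdiff.2 ⟨(labs_of_Q hQ).2, hn⟩)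
  have hl : lab x ∉ BB k := by
    rcases j with _ | j
    · rw [← h1]
      exact hc'
    · have h4 := h3 j (by omega)
      rw [← h1, Function.iterate_succ_apply', lab_pv]
      exact (mem_sdiff.1 h4).2
  refine ⟨hp, hl, ?_⟩
  rw [mem_BB] at hl hp
  obtain ⟨a, b⟩ := x
  rcases ty4 (a, b) with ⟨g1, g2, g3, g4⟩ | ⟨g1, g2, g3, g4⟩ | ⟨g1, g2, g3, g4⟩ |
    ⟨g1, g2, g3, g4⟩ <;> rw [g3] at hl <;> rw [g4] at hp <;> simp only at hl hp g1 g2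
  · refine ⟨1 - a, by omega, by omega, by omega, Or.inr (Or.inr (Or.inr (Prod.ext ?_ ?_)))⟩ <;>
      simp only <;> omega
  · refine ⟨1 - b, by omega, by omega, by omega, Or.inl (Prod.ext ?_ ?_)⟩ <;>
      simp only <;> omega
  · refine ⟨a, by omega, by omega, by omega, Or.inr (Or.inl (Prod.ext ?_ ?_))⟩ <;>
      simp only <;> omega
  · refine ⟨b, by omega, by omega, by omega, Or.inr (Or.inr (Or.inl (Prod.ext ?_ ?_)))⟩ <;>
      simp only <;> omega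

namespace HPosAux

lemma lab_zz {e : ℤ × ℤ} (he : (e.1 + e.2) % 2 = 1) : lab (zu e) = e ∧ lab (zv e) = e := by
  obtain ⟨a, b⟩ := e
  simp only at he
  unfold zu zv lab
  simp only
  constructor
  · split_ifs <;> first
      | (exfalso; omega)
      | (refine Prod.ext ?_ ?_ <;> simp only <;> omega)
  · split_ifs <;> first
      | (exfalso; omega)
      | (refine Prod.ext ?_ ?_ <;> simp only <;> omega)

end HPosAux

/-- the four hits of an edge exist, are at these positions and are pairwise different -/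
theorem ExB_pos (h : Hole k M e ω) (hx : ExB (BB M \ BB k) e ω x) : ∃ b : ℤ, Hpos k b x := by
  obtain ⟨h1, h2⟩ := lab_zz h.he
  have hu : lab (zu e) ∈ BB (M - 1) := by rw [h1]; exact h.hE
  have hu' : lab (zu e) ∉ BB k := by rw [h1]; exact h.hB
  have hv : lab (zv e) ∈ BB (M - 1) := by rw [h2]; exact h.hE
  have hv' : lab (zv e) ∉ BB k := by rw [h2]; exact h.hB
  rcases hx with hx | hx | hx | hx
  · obtain ⟨b, -, hb⟩ := (FX_hole h.hk h.erase.hw hu hu' hx).2.2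
    exact ⟨b, hb⟩
  · obtain ⟨b, -, hb⟩ := (BX_hole h.hk h.erase.hw hu hu' hx).2.2
    exact ⟨b, hb⟩
  · obtain ⟨b, -, hb⟩ := (FX_hole h.hk h.erase.hw hv hv' hx).2.2
    exact ⟨b, hb⟩
  · obtain ⟨b, -, hb⟩ := (BX_hole h.hk h.erase.hw hv hv' hx).2.2
    exact ⟨b, hb⟩

/-- normal form of the labels of a hit in its frame -/
lemma lab_hit (hk : 1 ≤ k) {b : ℤ} (hb : b % 2 = 0) :
    lab (-(2 * k), b) = (-(2 * k), b - 1) ∧ plab (-(2 * k), b) = (-(2 * k) - 1, b) := by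
  rcases ty4 (-(2 * k), b) with ⟨g1, g2, g3, g4⟩ | ⟨g1, g2, g3, g4⟩ | ⟨g1, g2, g3, g4⟩ |
    ⟨g1, g2, g3, g4⟩ <;> simp only at g1 g2 g3 g4
  · exact ⟨g3, g4⟩
  all_goals (exfalso; omega)

lemma plab_hit (hk : 1 ≤ k) {b : ℤ} (hb : b % 2 = 1) :
    plab (-(2 * k), b) = (-(2 * k), b) ∧ lab (-(2 * k), b) = (-(2 * k) - 1, b - 1) := by
  rcases ty4 (-(2 * k), b) with ⟨g1, g2, g3, g4⟩ | ⟨g1, g2, g3, g4⟩ | ⟨g1, g2, g3, g4⟩ |
    ⟨g1, g2, g3, g4⟩ <;> simp only at g1 g2 g3 g4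
  · exfalso; omega
  · exfalso; omega
  · exfalso; omega
  · exact ⟨g4, g3⟩

end

end Pool.Agent.H75.Four
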