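import Mathlib
import Pool.Agent.H75.Four.DefsB
import Pool.Agent.H75.TwoArm.Track
import Pool.Agent.H75.TwoArm.HookCore
import Pool.Agent.H75.TwoArm.BadCore
import Pool.Agent.H75.Four.HPos

set_option autoImplicit false
set_option linter.unusedSimpArgs false
set_option linter.unusedVariables false
open Finset

/-! FB2: the closing of two hits inside the hole (part 1: `Ph_par`, `Ph_in`, `clo_hole`). -/

namespace Pool.Agent.H75.Four

open Pool.Agent.H75.Perc
open Pool.Agent.H75.TwoArm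

namespace HHookAux

lemma Ev_xor {X Y : ℤ × ℤ → Prop} {a : ℤ × ℤ} :
    Ev (fun z => ¬ (X z ↔ Y z)) a ↔ (Ev X a ↔ Ev Y a) := by
  unfold Ev
  by_cases h1 : X a <;> by_cases h2 : X (a.1 + 1, a.2 + 1) <;> by_cases h3 : X (a.1 + 1, a.2) <;>
    by_cases h4 : X (a.1, a.2 + 1) <;> by_cases g1 : Y a <;>
    by_cases g2 : Y (a.1 + 1, a.2 + 1) <;> by_cases g3 : Y (a.1 + 1, a.2) <;>
    by_cases g4 : Y (a.1, a.2 + 1) <;> simp only [h1, h2, h3, h4, g1, g2, g3, g4, iff_true,
      iff_false, not_true, not_false_eq_true, iff_self]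

lemma seg_aux {α β x : ℤ} (h : α ≤ β) :
    ((α + 1 ≤ x ∧ x ≤ β) ↔ (α + 1 ≤ x + 1 ∧ x + 1 ≤ β)) ↔ (x = α ↔ x = β) := by
  constructor
  · intro h1
    constructor
    · intro h2
      by_contra h3
      have := h1.2 ⟨by omega, by omega⟩
      omega
    · intro h2
      by_contra h3
      have := h1.1 ⟨by omega, by omega⟩
      omega
  · intro h1
    constructor
    · intro h2
      refine ⟨by omega, ?_⟩
      by_contra h3
      have := h1.2 (by omega)
      omega
    · intro h2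
      refine ⟨?_, by omega⟩
      by_contra h3
      have := h1.1 (by omega)
      omega

lemma Ev_row {b α β : ℤ} (h : α ≤ β) {a : ℤ × ℤ} :
    Ev (fun z => z.2 = b ∧ α + 1 ≤ z.1 ∧ z.1 ≤ β) a ↔
      ((a.2 = b ∨ a.2 = b - 1) → (a.1 = α ↔ a.1 = β)) := by
  unfold Ev
  obtain ⟨x, y⟩ := a
  simp only
  rw [← seg_aux (x := x) h]
  by_cases h1 : y = b
  · have e1 : ¬ (y + 1 = b) := by omega
    simp only [h1, true_and, true_or, forall_const]
    have e2 : ¬ (b + 1 = b) := by omega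
    simp only [e2, false_and, iff_false]
    exact not_iff_not
  · by_cases h2 : y + 1 = b
    · have e2 : y = b - 1 := by omega
      simp only [e2, or_true, forall_const]
      have e3 : ¬ (b - 1 = b) := by omega
      have e4 : b - 1 + 1 = b := by omega
      simp only [e3, e4, true_and, false_and, false_iff]
      rw [not_iff_not]
      exact Iff.comm
    · have e2 : ¬ y = b - 1 := by omega
      simp only [h1, h2, e2, false_and, or_self, false_imp_iff]

lemma Ev_col {b α β : ℤ} (h : α ≤ β) {a : ℤ × ℤ} :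
    Ev (fun z => z.1 = b ∧ α + 1 ≤ z.2 ∧ z.2 ≤ β) a ↔
      ((a.1 = b ∨ a.1 = b - 1) → (a.2 = α ↔ a.2 = β)) := by
  rw [← Ev_row (b := b) h (a := (a.2, a.1))]
  exact iff_congr Iff.rfl Iff.comm

lemma Pw_par {k b : ℤ} (hk : 1 ≤ k) {a : ℤ × ℤ} (ha : (a.1 + a.2) % 2 = 1) :
    Ev (Pw k b) a ↔ (a = (-(2 * k), 2 * ((b - 1) / 2) + 1) ↔ a = (0, 1)) := by
  obtain ⟨c, hc⟩ : ∃ c, c = 2 * ((b - 1) / 2) + 1 := ⟨_, rfl⟩
  have hcb : b = c ∨ b = c + 1 := by omega
  have hc2 : c % 2 = 1 := by omega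
  obtain ⟨m, M, hm⟩ : ∃ m M : ℤ, (m = 1 ∧ M = c ∧ 1 ≤ c) ∨ (m = c ∧ M = 1 ∧ c ≤ 1) := by
    rcases le_total 1 c with h | h
    · exact ⟨1, c, Or.inl ⟨rfl, rfl, h⟩⟩
    · exact ⟨c, 1, Or.inr ⟨rfl, rfl, h⟩⟩
  have hP : Pw k b = fun z => ¬ ((z.2 = b ∧ -(2 * k) + 1 ≤ z.1 ∧ z.1 ≤ 0) ↔
      (z.1 = 1 ∧ m + 1 ≤ z.2 ∧ z.2 ≤ M)) := by
    funext z
    unfold Pw
    rw [← hc]
    apply propext
    constructor
    · rintro (⟨h1, h2, h3⟩ | ⟨h1, h2⟩)
      · intro h4
        have := (h4.1 ⟨h1, h2, h3⟩).1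
        omega
      · intro h4
        have := (h4.2 ⟨h1, by omega, by omega⟩).2
        omega
    · intro h4
      by_cases h5 : z.2 = b ∧ -(2 * k) + 1 ≤ z.1 ∧ z.1 ≤ 0
      · exact Or.inl h5
      · by_cases h6 : z.1 = 1 ∧ m + 1 ≤ z.2 ∧ z.2 ≤ M
        · right
          refine ⟨h6.1, ?_⟩
          omega
        · exact absurd (iff_of_false h5 h6) h4
  rw [hP, Ev_xor, Ev_row (by omega), Ev_col (by omega), ← hc]
  obtain ⟨x, y⟩ := a
  simp only at ha ⊢
  rw [Prod.ext_iff, Prod.ext_iff]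
  simp only
  have hmM : ∀ y : ℤ, y % 2 = 1 → ((y = m ↔ y = M) ↔ (y = c ↔ y = 1)) := by
    intro y _
    rcases hm with ⟨h1, h2, -⟩ | ⟨h1, h2, -⟩
    · rw [h1, h2]; exact Iff.comm
    · rw [h1, h2]
  have hmM' : ∀ y : ℤ, y % 2 = 0 → (y = m ↔ y = M) := by
    intro y hy
    constructor <;> intro h <;> omega
  by_cases g1 : x = 0
  · subst g1
    have e1 : ¬ ((0 : ℤ) = -(2 * k)) := by omega
    have e2 : ((0 : ℤ) = 1 ∨ (0 : ℤ) = 1 - 1) := by omega
    have e3 : (y = b ∨ y = b - 1) ↔ y = c := by omega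
    simp only [e1, e2, e3, false_iff, not_true, imp_false, false_and, true_and, forall_const]
    rw [hmM y (by omega)]
    generalize (y = c) = P
    generalize (y = 1) = Q
    by_cases h1 : P <;> by_cases h2 : Q <;> simp only [h1, h2, iff_true, iff_false,
      not_true, not_false_eq_true, iff_self]
  · by_cases g2 : x = 1
    · subst g2
      have e1 : ¬ ((1 : ℤ) = -(2 * k)) := by omega
      simp only [e1, g1, iff_self, implies_true, true_or, forall_const, false_and, true_iff]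
      exact iff_true_intro (hmM' y (by omega))
    · have e2 : ¬ (x = 1 ∨ x = 1 - 1) := by omega
      have e3 : x = -(2 * k) → ((y = b ∨ y = b - 1) ↔ y = c) := by intro h; omega
      simp only [e2, g1, false_imp_iff, iff_true, false_and, iff_false]
      by_cases h1 : x = -(2 * k)
      · simp only [h1, true_and, not_true, imp_false]
        rw [e3 h1]
      · simp only [h1, false_and, not_false_eq_true, imp_true_iff]

end HHookAux

namespace HHookAux

lemma Ev_congr {X Y : ℤ × ℤ → Prop} (h : ∀ z, X z ↔ Y z) (a : ℤ × ℤ) : Ev X a ↔ Ev Y a := by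
  unfold Ev
  rw [h, h, h, h]

/-- parity under the three rotations -/
lemma Ev_S {X : ℤ × ℤ → Prop} (a : ℤ × ℤ) :
    Ev (fun z => X (z.2, 1 - z.1)) a ↔ Ev X (a.2, -a.1) := by
  obtain ⟨x, y⟩ := a
  unfold Ev
  simp only
  have e1 : 1 - (x + 1) = -x := by ring
  have e2 : 1 - x = -x + 1 := by ring
  rw [e1, e2]
  generalize X (y, -x + 1) = P1
  generalize X (y + 1, -x) = P2
  generalize X (y, -x) = P3
  generalize X (y + 1, -x + 1) = P4
  by_cases h1 : P1 <;> by_cases h2 : P2 <;> by_cases h3 : P3 <;> by_cases h4 : P4 <;>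
    simp only [h1, h2, h3, h4, iff_true, iff_false, not_true, not_false_eq_true, iff_self]

lemma Ev_E {X : ℤ × ℤ → Prop} (a : ℤ × ℤ) :
    Ev (fun z => X (1 - z.1, 1 - z.2)) a ↔ Ev X (-a.1, -a.2) := by
  obtain ⟨x, y⟩ := a
  unfold Ev
  simp only
  have e1 : ∀ x : ℤ, 1 - (x + 1) = -x := fun x => by ring
  have e2 : ∀ x : ℤ, 1 - x = -x + 1 := fun x => by ring
  rw [e1, e1, e2, e2]
  generalize X (-x + 1, -y + 1) = P1
  generalize X (-x, -y) = P2
  generalize X (-x, -y + 1) = P3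
  generalize X (-x + 1, -y) = P4
  by_cases h1 : P1 <;> by_cases h2 : P2 <;> by_cases h3 : P3 <;> by_cases h4 : P4 <;>
    simp only [h1, h2, h3, h4, iff_true, iff_false, not_true, not_false_eq_true, iff_self]

lemma Ev_N {X : ℤ × ℤ → Prop} (a : ℤ × ℤ) :
    Ev (fun z => X (1 - z.2, z.1)) a ↔ Ev X (-a.2, a.1) := by
  obtain ⟨x, y⟩ := a
  unfold Ev
  simp only
  have e1 : ∀ x : ℤ, 1 - (x + 1) = -x := fun x => by ring
  have e2 : ∀ x : ℤ, 1 - x = -x + 1 := fun x => by ring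
  rw [e1, e2]
  generalize X (-y + 1, x) = P1
  generalize X (-y, x + 1) = P2
  generalize X (-y + 1, x + 1) = P3
  generalize X (-y, x) = P4
  by_cases h1 : P1 <;> by_cases h2 : P2 <;> by_cases h3 : P3 <;> by_cases h4 : P4 <;>
    simp only [h1, h2, h3, h4, iff_true, iff_false, not_true, not_false_eq_true, iff_self]

/-- parity of a single square -/
lemma Ev_one (w a : ℤ × ℤ) : Ev (fun z => z = w) a ↔
    ¬ (a = w ∨ a = (w.1 - 1, w.2 - 1) ∨ a = (w.1 - 1, w.2) ∨ a = (w.1, w.2 - 1)) := by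
  obtain ⟨x, y⟩ := a
  obtain ⟨u, v⟩ := w
  unfold Ev
  simp only [Prod.mk.injEq]
  have e1 : x = u - 1 ↔ x + 1 = u := by omega
  have e2 : y = v - 1 ↔ y + 1 = v := by omega
  rw [e1, e2]
  have n1 : ¬ (x = u ∧ x + 1 = u) := by omega
  have n2 : ¬ (y = v ∧ y + 1 = v) := by omega
  generalize (x = u) = P at n1 ⊢
  generalize (x + 1 = u) = P' at n1 ⊢
  generalize (y = v) = Q' at n2 ⊢
  generalize (y + 1 = v) = Q'' at n2 ⊢
  by_cases h1 : P <;> by_cases h2 : P' <;> by_cases h3 : Q' <;> by_cases h4 : Q'' <;>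
    simp [h1, h2, h3, h4] at n1 n2 ⊢

end HHookAux

open HHookAux

section

variable {B ω ω'' U F D E : Finset (ℤ × ℤ)} {c x x1 x2 x3 x4 z e e' p q : ℤ × ℤ}
  {R : ℤ × ℤ → Prop} {S : ℤ × ℤ → Bool} {k M : ℤ}

/-- parity of one inward path -/
theorem Ph_par {b : ℤ} (hk : 1 ≤ k) (hx : Hpos k b x) {l : ℤ × ℤ}
    (hl : (b % 2 = 0 ∧ l = lab x) ∨ (b % 2 = 1 ∧ l = plab x)) {a : ℤ × ℤ} (ha : (a.1 + a.2) % 2 = 1) :
    Ev (Ph k x) a ↔ (a = l ↔ a = (0, 1)) := by
  obtain ⟨hb1, hb2, hx⟩ := hx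
  obtain ⟨c, hc⟩ : ∃ c, c = 2 * ((b - 1) / 2) + 1 := ⟨_, rfl⟩
  have hcb : (b % 2 = 0 ∧ b = c + 1) ∨ (b % 2 = 1 ∧ b = c) := by omega
  rcases hx with rfl | rfl | rfl | rfl
  · -- East
    have hX : Ph k (2 * k + 1, 1 - b) = fun z =>
        ¬ (Pw k b (1 - z.1, 1 - z.2) ↔ ¬ ((z = (0, 0)) ↔ (z = (0, 1)))) := by
      funext z
      unfold Ph
      rw [if_neg (by simp only; omega), if_neg (by simp only; omega), if_pos rfl]
      have e1 : 1 - (1 - b) = b := by ring
      have e2 : (z = (0, 0) ∨ z = (0, 1)) ↔ ¬ ((z = (0, 0)) ↔ (z = (0, 1))) := by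
        constructor
        · rintro (h | h)
          · intro h2
            rw [h] at h2
            have := h2.1 rfl
            simp at this
          · intro h2
            rw [h] at h2
            have := h2.2 rfl
            simp at this
        · intro h
          by_cases h3 : z = (0, 0)
          · exact Or.inl h3
          · by_cases h4 : z = (0, 1)
            · exact Or.inr h4
            · exact absurd (iff_of_false h3 h4) h
      simp only
      rw [e1, e2]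
    have hl' : l = (2 * k, -c) := by
      rcases hl with ⟨h1, rfl⟩ | ⟨h1, rfl⟩
      · unfold lab; simp only
        rw [if_neg (by omega), if_neg (by omega)]
        refine Prod.ext ?_ ?_ <;> simp only <;> omega
      · unfold plab; simp only
        rw [if_pos (by omega), if_neg (by omega)]
        refine Prod.ext ?_ ?_ <;> simp only <;> omega
    rw [hX, Ev_xor, Ev_E (X := Pw k b), Pw_par hk (by simp only; omega), Ev_xor, Ev_one, Ev_one,
      ← hc, hl']
    obtain ⟨x, y⟩ := a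
    simp only [Prod.mk.injEq] at ha ⊢
    have e1 : (-x = -(2 * k) ∧ -y = c) ↔ (x = 2 * k ∧ y = -c) := by omega
    have e2 : (-x = 0 ∧ -y = 1) ↔ (x = 0 ∧ y = -1) := by omega
    rw [e1, e2]
    have e3 : (x = 0 ∧ y = 0 ∨ x = 0 - 1 ∧ y = 0 - 1 ∨ x = 0 - 1 ∧ y = 0 ∨ x = 0 ∧ y = 0 - 1) ↔
        (x = -1 ∧ y = 0 ∨ x = 0 ∧ y = -1) := by omega
    have e4 : (x = 0 ∧ y = 1 ∨ x = 0 - 1 ∧ y = 1 - 1 ∨ x = 0 - 1 ∧ y = 1 ∨ x = 0 ∧ y = 1 - 1) ↔
        (x = 0 ∧ y = 1 ∨ x = -1 ∧ y = 0) := by omega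
    rw [e3, e4]
    generalize (x = 2 * k ∧ y = -c) = P
    by_cases g1 : x = 0
    · by_cases g2 : y = 1
      · have g3 : ¬ y = -1 := by omega
        have g4 : ¬ x = -1 := by omega
        simp only [g1, g2, g3, g4]
        by_cases hP : P <;> simp [hP]
      · by_cases g3 : y = -1
        · have g4 : ¬ x = -1 := by omega
          simp only [g1, g2, g3, g4]
          by_cases hP : P <;> simp [hP]
        · have g4 : ¬ x = -1 := by omega
          simp only [g1, g2, g3, g4]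
          by_cases hP : P <;> simp [hP]
    · by_cases g2 : x = -1 ∧ y = 0
      · simp only [g1, g2]
        by_cases hP : P <;> simp [hP]
      · simp only [g1, g2]
        by_cases hP : P <;> simp [hP]
  · -- North
    have hX : Ph k (b, 2 * k + 1) = fun z =>
        ¬ (Pw k b (1 - z.2, z.1) ↔ z = (1, 1)) := by
      funext z
      unfold Ph
      rw [if_neg (by simp only; omega), if_neg (by simp only; omega), if_neg (by simp only; omega)]
    have hl' : l = (c, 2 * k) := by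
      rcases hl with ⟨h1, rfl⟩ | ⟨h1, rfl⟩
      · unfold lab; simp only
        rw [if_neg (by omega), if_pos (by omega)]
        refine Prod.ext ?_ ?_ <;> simp only <;> omega
      · unfold plab; simp only
        rw [if_neg (by omega), if_neg (by omega)]
        refine Prod.ext ?_ ?_ <;> simp only <;> omega
    rw [hX, Ev_xor, Ev_N (X := Pw k b), Pw_par hk (by simp only; omega), Ev_one, ← hc, hl']
    obtain ⟨x, y⟩ := a
    simp only [Prod.mk.injEq] at ha ⊢
    have e1 : (-y = -(2 * k) ∧ x = c) ↔ (x = c ∧ y = 2 * k) := by omega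
    have e2 : (-y = 0 ∧ x = 1) ↔ (x = 1 ∧ y = 0) := by omega
    rw [e1, e2]
    have e3 : (x = 1 ∧ y = 1 ∨ x = 1 - 1 ∧ y = 1 - 1 ∨ x = 1 - 1 ∧ y = 1 ∨ x = 1 ∧ y = 1 - 1) ↔
        (x = 0 ∧ y = 1 ∨ x = 1 ∧ y = 0) := by omega
    rw [e3]
    generalize (x = c ∧ y = 2 * k) = P
    by_cases g1 : x = 0
    · have g2 : ¬ x = 1 := by omega
      by_cases g3 : y = 1
      · simp only [g1, g3]
        by_cases hP : P <;> simp [hP]
      · simp only [g1, g3]
        by_cases hP : P <;> simp [hP]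
    · by_cases g2 : x = 1 ∧ y = 0
      · simp only [g1, g2]
        by_cases hP : P <;> simp [hP]
      · simp only [g1, g2]
        by_cases hP : P <;> simp [hP]
  · -- West
    have hX : Ph k (-(2 * k), b) = Pw k b := by
      funext z
      unfold Ph
      rw [if_pos rfl]
    have hl' : l = (-(2 * k), c) := by
      rcases hl with ⟨h1, rfl⟩ | ⟨h1, rfl⟩
      · unfold lab; simp only
        rw [if_pos (by omega), if_pos (by omega)]
        refine Prod.ext ?_ ?_ <;> simp only <;> omega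
      · unfold plab; simp only
        rw [if_neg (by omega), if_pos (by omega)]
        refine Prod.ext ?_ ?_ <;> simp only <;> omega
    rw [hX, Pw_par hk ha, ← hc, hl']
  · -- South
    have hX : Ph k (1 - b, -(2 * k)) = fun z =>
        ¬ (Pw k b (z.2, 1 - z.1) ↔ z = (0, 1)) := by
      funext z
      unfold Ph
      rw [if_neg (by simp only; omega), if_pos rfl]
      have e1 : 1 - (1 - b) = b := by ring
      simp only
      rw [e1]
    have hl' : l = (-c, -(2 * k)) := by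
      rcases hl with ⟨h1, rfl⟩ | ⟨h1, rfl⟩
      · unfold lab; simp only
        rw [if_pos (by omega), if_neg (by omega)]
        refine Prod.ext ?_ ?_ <;> simp only <;> omega
      · unfold plab; simp only
        rw [if_pos (by omega), if_pos (by omega)]
        refine Prod.ext ?_ ?_ <;> simp only <;> omega
    rw [hX, Ev_xor, Ev_S (X := Pw k b), Pw_par hk (by simp only; omega), Ev_one, ← hc, hl']
    obtain ⟨x, y⟩ := a
    simp only [Prod.mk.injEq] at ha ⊢
    have e1 : (y = -(2 * k) ∧ -x = c) ↔ (x = -c ∧ y = -(2 * k)) := by omega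
    have e2 : (y = 0 ∧ -x = 1) ↔ (x = -1 ∧ y = 0) := by omega
    rw [e1, e2]
    have e3 : (x = 0 ∧ y = 1 ∨ x = 0 - 1 ∧ y = 1 - 1 ∨ x = 0 - 1 ∧ y = 1 ∨ x = 0 ∧ y = 1 - 1) ↔
        (x = 0 ∧ y = 1 ∨ x = -1 ∧ y = 0) := by omega
    rw [e3]
    generalize (x = -c ∧ y = -(2 * k)) = P
    by_cases g1 : x = 0
    · have g2 : ¬ x = -1 := by omega
      by_cases g3 : y = 1
      · simp only [g1, g3]
        by_cases hP : P <;> simp [hP]
      · simp only [g1, g3]
        by_cases hP : P <;> simp [hP]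
    · by_cases g2 : x = -1 ∧ y = 0
      · simp only [g1, g2]
        by_cases hP : P <;> simp [hP]
      · simp only [g1, g2]
        by_cases hP : P <;> simp [hP]

theorem Ph_in {b : ℤ} (hk : 1 ≤ k) (hx : Hpos k b x) (hz : Ph k x z) :
    -(2 * k) + 1 ≤ z.1 ∧ z.1 ≤ 2 * k ∧ -(2 * k) + 1 ≤ z.2 ∧ z.2 ≤ 2 * k := by
  obtain ⟨hb1, hb2, hx⟩ := hx
  obtain ⟨u, v⟩ := z
  unfold Ph at hz
  rcases hx with rfl | rfl | rfl | rfl
  · rw [if_neg (by simp only; omega), if_neg (by simp only; omega), if_pos rfl] at hz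
    by_cases h1 : Pw k (1 - (1 - b)) (1 - u, 1 - v)
    · unfold Pw at h1
      simp only at h1 ⊢
      omega
    · by_cases h2 : ((u, v) = ((0 : ℤ), (0 : ℤ)) ∨ (u, v) = (0, 1))
      · simp only [Prod.mk.injEq] at h2
        simp only
        omega
      · exact absurd (iff_of_false h1 h2) hz
  · rw [if_neg (by simp only; omega), if_neg (by simp only; omega),
      if_neg (by simp only; omega)] at hz
    by_cases h1 : Pw k b (1 - v, u)
    · unfold Pw at h1
      simp only at h1 ⊢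
      omega
    · by_cases h2 : (u, v) = ((1 : ℤ), (1 : ℤ))
      · simp only [Prod.mk.injEq] at h2
        simp only
        omega
      · exact absurd (iff_of_false h1 h2) hz
  · rw [if_pos rfl] at hz
    unfold Pw at hz
    simp only at hz ⊢
    omega
  · rw [if_neg (by simp only; omega), if_pos rfl] at hz
    by_cases h1 : Pw k (1 - (1 - b)) (v, 1 - u)
    · unfold Pw at h1
      simp only at h1 ⊢
      omega
    · by_cases h2 : (u, v) = ((0 : ℤ), (1 : ℤ))
      · simp only [Prod.mk.injEq] at h2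
        simp only
        omega
      · exact absurd (iff_of_false h1 h2) hz

end

open HHookAux HPosAux

section

variable {B ω ω'' U F D E : Finset (ℤ × ℤ)} {c x x1 x2 x3 x4 z e e' p q : ℤ × ℤ}
  {R : ℤ × ℤ → Prop} {S : ℤ × ℤ → Bool} {k M : ℤ}

/-- the closing of two hits (no condition `lab x1 ≠ plab x2`) -/
theorem clo_hole (hk : 1 ≤ k) (hω : ω ⊆ BB (M - 1)) (hc : lab c ∈ BB (M - 1)) (hc' : lab c ∉ BB k)
    (h1 : FX (BB M \ BB k) ω c x1) (h2 : BX (BB M \ BB k) ω c x2) :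
    Clo (BB M \ BB k) x1 x2 (Rh k x1 x2) ∧
    ∀ z, Rh k x1 x2 z → -(2 * k) + 1 ≤ z.1 ∧ z.1 ≤ 2 * k ∧ -(2 * k) + 1 ≤ z.2 ∧ z.2 ≤ 2 * k := by
  obtain ⟨-, -, b1, hb1, hp1⟩ := FX_hole hk hω hc hc' h1
  obtain ⟨-, -, b2, hb2, hp2⟩ := BX_hole hk hω hc hc' h2
  have hin : ∀ z, Rh k x1 x2 z →
      -(2 * k) + 1 ≤ z.1 ∧ z.1 ≤ 2 * k ∧ -(2 * k) + 1 ≤ z.2 ∧ z.2 ≤ 2 * k := by
    intro z hz
    unfold Rh at hz
    by_cases g1 : Ph k x1 z
    · exact Ph_in hk hp1 g1
    · by_cases g2 : Ph k x2 z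
      · exact Ph_in hk hp2 g2
      · exact absurd (iff_of_false g1 g2) hz
  refine ⟨⟨?_, ?_, ?_⟩, hin⟩
  · intro z hz
    have h := hin z hz
    have h3 : lab z ∈ BB k ∧ plab z ∈ BB k := by
      obtain ⟨a, b⟩ := z
      rw [mem_BB, mem_BB]
      simp only at h
      rcases ty4 (a, b) with ⟨g1, g2, g3, g4⟩ | ⟨g1, g2, g3, g4⟩ | ⟨g1, g2, g3, g4⟩ |
        ⟨g1, g2, g3, g4⟩ <;> simp only at g1 g2 <;> rw [g3, g4] <;> simp only <;> omega
    exact ⟨fun h4 => (mem_sdiff.1 h4).2 h3.1, fun h4 => (mem_sdiff.1 h4).2 h3.2⟩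
  · intro a ha
    have e1 : Ev (Rh k x1 x2) a ↔ (Ev (Ph k x1) a ↔ Ev (Ph k x2) a) := Ev_xor
    rw [e1, Ph_par hk hp1 (Or.inl ⟨hb1, rfl⟩) ha, Ph_par hk hp2 (Or.inr ⟨hb2, rfl⟩) ha]
    generalize (a = lab x1) = P1
    generalize (a = plab x2) = P2
    generalize (a = (0, 1)) = P3
    by_cases g1 : P1 <;> by_cases g2 : P2 <;> by_cases g3 : P3 <;>
      simp only [g1, g2, g3, iff_true, iff_false, not_true, not_false_eq_true, iff_self]
  · intro p
    refine (Set.finite_le_nat (2 * k - p.1).toNat).subset ?_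
    intro j hj
    have h := (hin _ hj).2.1
    simp only at h
    simp only [Set.mem_setOf_eq]
    omega

end

end Pool.Agent.H75.Four
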