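import Mathlib
import Pool.Agent.H75.Four.HClo
import Pool.Agent.H75.Four.FBox
import Pool.Agent.H75.TwoArm.HookCore

set_option autoImplicit false
open Finset

/-! FB2: closings in the hole (`HClo`) and hooks at the hole. -/

namespace Pool.Agent.H75.Four

open Pool.Agent.H75.Perc
open Pool.Agent.H75.TwoArm

open HHookAux HPosAux

section

variable {B ω ω'' U F D E : Finset (ℤ × ℤ)} {c x x1 x2 x3 x4 z e e' p q : ℤ × ℤ}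
  {R : ℤ × ℤ → Prop} {S : ℤ × ℤ → Bool} {k M : ℤ}

/-- the closing is exactly the row `b` in a window at the hit `(-2k, b)`; `x'` is the other hit -/
theorem Rh_west {b b' lo hi Xm : ℤ} {x' : ℤ × ℤ} (hk : 1 ≤ k) (hb : Hpos k b (-(2 * k), b))
    (hx : Hpos k b' x') (hXm : Xm ≤ -1) (hx1 : ¬ (x'.1 = -(2 * k) ∧ lo + 1 ≤ x'.2 ∧ x'.2 ≤ hi))
    (hx2 : x'.1 ≠ -(2 * k) → Xm < x'.1) (hz1 : -(2 * k) + 1 ≤ z.1) (hz2 : z.1 ≤ Xm)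
    (hz3 : lo + 1 ≤ z.2) (hz4 : z.2 ≤ hi) :
    (Rh k (-(2 * k), b) x' z ↔ z.2 = b) ∧ (Rh k x' (-(2 * k), b) z ↔ z.2 = b) := by
  obtain ⟨u, v⟩ := z
  simp only at hz1 hz2 hz3 hz4
  have g1 : Ph k (-(2 * k), b) (u, v) ↔ v = b := by
    unfold Ph
    rw [if_pos rfl]
    unfold Pw
    simp only
    omega
  have g2 : ¬ Ph k x' (u, v) := by
    obtain ⟨hb1, hb2, hx⟩ := hx
    unfold Ph
    rcases hx with rfl | rfl | rfl | rfl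
    · rw [if_neg (by simp only; omega), if_neg (by simp only; omega), if_pos rfl]
      rw [not_not]
      refine iff_of_false ?_ ?_
      · unfold Pw; simp only; omega
      · rw [Prod.mk.injEq, Prod.mk.injEq]; omega
    · have h5 := hx2 (by simp only; omega)
      simp only at h5
      rw [if_neg (by simp only; omega), if_neg (by simp only; omega), if_neg (by simp only; omega)]
      rw [not_not]
      refine iff_of_false ?_ ?_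
      · unfold Pw; simp only; omega
      · rw [Prod.mk.injEq]; omega
    · simp only [true_and] at hx1
      rw [if_pos rfl]
      unfold Pw
      simp only
      omega
    · have h5 := hx2 (by simp only; omega)
      simp only at h5
      rw [if_neg (by simp only; omega), if_pos rfl]
      rw [not_not]
      refine iff_of_false ?_ ?_
      · unfold Pw; simp only; omega
      · rw [Prod.mk.injEq]; omega
  unfold Rh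
  have g3 : (Ph k x' (u, v)) ↔ False := iff_of_false g2 id
  rw [g1, g3]
  simp only
  constructor
  · rw [iff_false, not_not]
  · rw [false_iff, not_not]

namespace HHookAux

lemma Hpos_west {b b0 : ℤ} (hk : 1 ≤ k) (h : Hpos k b (-(2 * k), b0)) : b = b0 := by
  obtain ⟨h1, h2, h3⟩ := h
  rw [Prod.mk.injEq, Prod.mk.injEq, Prod.mk.injEq, Prod.mk.injEq] at h3
  omega

/-- nothing of `BB M \ BB k` in the window -/
lemma win_out {lo hi Xm : ℤ} (hk : 1 ≤ k) (hlo : -(2 * k) ≤ lo) (hhi : hi ≤ 2 * k)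
    (hXm : Xm ≤ -1) (a : ℤ × ℤ) (h1 : -(2 * k) ≤ a.1) (h2 : a.1 ≤ Xm) (h3 : lo ≤ a.2)
    (h4 : a.2 ≤ hi) : a ∉ BB M \ BB k := by
  intro h
  rw [mem_sdiff, mem_BB, mem_BB] at h
  omega

lemma touch_box {a : ℤ × ℤ} (ht : Tch a z) (hz : -(2 * k) + 1 ≤ z.1 ∧ z.1 ≤ 2 * k ∧
    -(2 * k) + 1 ≤ z.2 ∧ z.2 ≤ 2 * k) : a ∈ BB k ∧ (z.1 = a.1 ∨ z.1 = a.1 + 1) ∧
    (z.2 = a.2 ∨ z.2 = a.2 + 1) := by
  rcases ht with rfl | rfl
  · rw [mem_BB]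
    rcases ty4 z with ⟨g1, g2, g3, g4⟩ | ⟨g1, g2, g3, g4⟩ | ⟨g1, g2, g3, g4⟩ |
        ⟨g1, g2, g3, g4⟩ <;> rw [g3] <;> dsimp only <;> omega
  · rw [mem_BB]
    rcases ty4 z with ⟨g1, g2, g3, g4⟩ | ⟨g1, g2, g3, g4⟩ | ⟨g1, g2, g3, g4⟩ |
        ⟨g1, g2, g3, g4⟩ <;> rw [g4] <;> dsimp only <;> omega

lemma lab_c (h : Hole k M e ω) (hc : c = zu e ∨ c = zv e) :
    lab c ∈ BB (M - 1) ∧ lab c ∉ BB k := by
  obtain ⟨h1, h2⟩ := lab_zz h.he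
  rcases hc with rfl | rfl
  · rw [h1]; exact ⟨h.hE, h.hB⟩
  · rw [h2]; exact ⟨h.hE, h.hB⟩

lemma e_mem (h : Hole k M e ω) : e ∈ BB M \ BB k := by
  have h1 := h.hE
  have h2 := h.hB
  rw [mem_sdiff]
  refine ⟨?_, h2⟩
  rw [mem_BB] at h1 ⊢
  omega

end HHookAux

/-- open arm, hooked above a forward hit on the left side of the hole -/
theorem hook_hole_F {b lo hi Xm : ℤ} (h : Hole k M e ω)
    (hA : A4 (BB M \ BB k) e ω) (hc : c = zu e ∨ c = zv e)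
    (h1 : FX (BB M \ BB k) (ω.erase e) c (-(2 * k), b)) (h2 : BX (BB M \ BB k) (ω.erase e) c x2)
    (hlo : -(2 * k) ≤ lo) (hlo' : lo + 1 < b) (hhi : hi ≤ 2 * k) (hhi' : b ≤ hi)
    (hXm : -(2 * k) + 1 ≤ Xm) (hXm' : Xm ≤ -1)
    (hx1 : ¬ (x2.1 = -(2 * k) ∧ lo + 1 ≤ x2.2 ∧ x2.2 ≤ hi)) (hx2 : x2.1 ≠ -(2 * k) → Xm < x2.1)
    (hF : ∀ a ∈ F, a ∈ BB k → a.1 + 1 ≤ Xm ∧ lo + 1 ≤ a.2 ∧ a.2 + 1 ≤ hi ∧ a.2 ≠ b ∧ a.2 ≠ b - 1)
    (hU : U4 (BB M \ BB k) e ω ⊆ U) (hUF : ∀ a ∈ U, a ∈ F → a ∈ U4 (BB M \ BB k) e ω)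
    (hpq : Co (ω'' ∩ F) p q) (hp1 : -k ≤ p.1) (hp1' : 2 * p.1 ≤ Xm) (hp2 : b ≤ 2 * p.2)
    (hp3 : 2 * p.2 ≤ hi) (hq1 : -k ≤ q.1) (hq1' : 2 * q.1 ≤ Xm) (hq2 : 2 * q.2 < b)
    (hq3 : lo ≤ 2 * q.2) :
    (∃ z, Str (BB M \ BB k) (ω.erase e) c z ∧ Co ((ω'' ∩ F) \ U) p (vx z) ∧
      Co ((ω.erase e) ∩ U4 (BB M \ BB k) e ω) (vx c) (vx z)) ∧
    Co ((mix U ω ω'').erase e) (vx c) p := by
  have hk := h.hk
  obtain ⟨hc1, hc2⟩ := lab_c h hc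
  obtain ⟨-, -, b0, hb0, hpb0⟩ := FX_hole hk h.erase.hw hc1 hc2 h1
  obtain rfl := Hpos_west hk hpb0
  obtain ⟨-, -, b2, hb2, hpb2⟩ := BX_hole hk h.erase.hw hc1 hc2 h2
  obtain ⟨hR, hin⟩ := clo_hole hk h.erase.hw hc1 hc2 h1 h2
  have hw : ∀ z : ℤ × ℤ, -(2 * k) + 1 ≤ z.1 → z.1 ≤ Xm → lo + 1 ≤ z.2 → z.2 ≤ hi →
      (Rh k (-(2 * k), b0) x2 z ↔ z.2 = b0) := fun z g1 g2 g3 g4 =>
    (Rh_west hk hpb0 hpb2 hXm' hx1 hx2 g1 g2 g3 g4).1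
  have eX : (-(2 * k), b0) = (-(2 * k) - 1 + 1, b0) := Prod.ext (by simp only; ring) rfl
  have hne : lab (-(2 * k), b0) ≠ plab x2 := by
    rw [(lab_hit hk hb0).1]
    intro h5
    obtain ⟨u, v⟩ := x2
    rcases ty4 (u, v) with ⟨g1, g2, g3, g4⟩ | ⟨g1, g2, g3, g4⟩ | ⟨g1, g2, g3, g4⟩ |
        ⟨g1, g2, g3, g4⟩ <;> rw [g4, Prod.mk.injEq] at h5 <;> simp only at h5 g1 g2 hx1 hx2 <;> omega
  refine hook_loc_F (X := -(2 * k) - 1) (Xm := Xm) (R := Rh k (-(2 * k), b0) x2) (x2 := x2)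
    (b := b0) (lo := lo) (hi := hi) (F := F) (q := q) h.he (e_mem h) hA hc hb0 (by rw [← eX]; exact h1) h2
    (by rw [← eX]; exact hne) (by rw [← eX]; exact hR) (by omega) (by omega) hhi' ?_ ?_ ?_ hU hUF
    hpq (by omega) hp1' hp2 hp3 (by omega) hq1' hq2 hq3
  · intro a g1 g2 g3 g4
    exact win_out hk hlo hhi hXm' a (by omega) g2 g3 g4
  · intro z g1 g2 g3 g4
    exact hw z (by omega) g2 g3 g4
  · intro a ha z hz hRz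
    obtain ⟨g1, g2, g3⟩ := touch_box hz (hin z hRz)
    obtain ⟨g4, g5, g6, g7, g8⟩ := hF a ha g1
    have g9 := (hw z (hin z hRz).1 (by omega) (by omega) (by omega)).1 hRz
    omega

/-- dual arm, hooked above a backward hit on the left side of the hole -/
theorem hook_hole_B {b lo hi Xm : ℤ} (h : Hole k M e ω)
    (hA : A4 (BB M \ BB k) e ω) (hc : c = zu e ∨ c = zv e)
    (h1 : FX (BB M \ BB k) (insert e ω) c x1) (h2 : BX (BB M \ BB k) (insert e ω) c (-(2 * k), b))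
    (hlo : -(2 * k) ≤ lo) (hlo' : lo < b) (hhi : hi ≤ 2 * k) (hhi' : b < hi)
    (hXm : -(2 * k) + 1 ≤ Xm) (hXm' : Xm ≤ -1)
    (hx1 : ¬ (x1.1 = -(2 * k) ∧ lo + 1 ≤ x1.2 ∧ x1.2 ≤ hi)) (hx2 : x1.1 ≠ -(2 * k) → Xm < x1.1)
    (hF : ∀ a ∈ F, a ∈ BB k → a.1 + 1 ≤ Xm ∧ lo + 1 ≤ a.2 ∧ a.2 + 1 ≤ hi ∧ a.2 ≠ b ∧ a.2 ≠ b - 1)
    (hU : U4 (BB M \ BB k) e ω ⊆ U) (hUF : ∀ a ∈ U, a ∈ F → a ∈ U4 (BB M \ BB k) e ω)
    (hE : BB M \ BB k ⊆ E)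
    (hpq : Co (du E ω'' ∩ F.map sh1) p q) (hp1 : -(2 * k) ≤ 2 * p.1 - 1) (hp1' : 2 * p.1 - 1 ≤ Xm)
    (hp2 : b ≤ 2 * p.2 - 1) (hp3 : 2 * p.2 - 1 ≤ hi) (hq1 : -(2 * k) ≤ 2 * q.1 - 1)
    (hq1' : 2 * q.1 - 1 ≤ Xm) (hq2 : 2 * q.2 - 1 < b) (hq3 : lo ≤ 2 * q.2 - 1) :
    (∃ z, Str (BB M \ BB k) (insert e ω) c z ∧ Co ((du E ω'' ∩ F.map sh1) \ U.map sh1) p (fi z) ∧
      Co (du (U4 (BB M \ BB k) e ω) (insert e ω)) (fi c) (fi z)) ∧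
    Co (du E (insert e (mix U ω ω''))) (fi c) p := by
  have hk := h.hk
  obtain ⟨hc1, hc2⟩ := lab_c h hc
  obtain ⟨-, -, b0, hb0, hpb0⟩ := BX_hole hk h.insert.hw hc1 hc2 h2
  obtain rfl := Hpos_west hk hpb0
  obtain ⟨-, -, b2, hb2, hpb2⟩ := FX_hole hk h.insert.hw hc1 hc2 h1
  obtain ⟨hR, hin⟩ := clo_hole hk h.insert.hw hc1 hc2 h1 h2
  have hw : ∀ z : ℤ × ℤ, -(2 * k) + 1 ≤ z.1 → z.1 ≤ Xm → lo + 1 ≤ z.2 → z.2 ≤ hi →
      (Rh k x1 (-(2 * k), b0) z ↔ z.2 = b0) := fun z g1 g2 g3 g4 =>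
    (Rh_west hk hpb0 hpb2 hXm' hx1 hx2 g1 g2 g3 g4).2
  have eX : (-(2 * k), b0) = (-(2 * k) - 1 + 1, b0) := Prod.ext (by simp only; ring) rfl
  have hne : lab x1 ≠ plab (-(2 * k), b0) := by
    rw [(plab_hit hk hb0).1]
    intro h5
    obtain ⟨u, v⟩ := x1
    rcases ty4 (u, v) with ⟨g1, g2, g3, g4⟩ | ⟨g1, g2, g3, g4⟩ | ⟨g1, g2, g3, g4⟩ |
        ⟨g1, g2, g3, g4⟩ <;> rw [g3, Prod.mk.injEq] at h5 <;> simp only at h5 g1 g2 hx1 hx2 <;> omega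
  refine hook_loc_B (X := -(2 * k) - 1) (Xm := Xm) (R := Rh k x1 (-(2 * k), b0)) (x1 := x1)
    (b := b0) (lo := lo) (hi := hi) (F := F) (q := q) h.he (e_mem h) hA hc hb0 h1 (by rw [← eX]; exact h2)
    (by rw [← eX]; exact hne) (by rw [← eX]; exact hR) (by omega) (by omega) (by omega) ?_ ?_ ?_ hU hUF
    hE hpq (by omega) hp1' hp2 hp3 (by omega) hq1' hq2 hq3
  · intro a g1 g2 g3 g4
    exact win_out hk hlo hhi hXm' a (by omega) g2 g3 g4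
  · intro z g1 g2 g3 g4
    exact hw z (by omega) g2 g3 g4
  · intro a ha z hz hRz
    obtain ⟨g1, g2, g3⟩ := touch_box hz (hin z hRz)
    obtain ⟨g4, g5, g6, g7, g8⟩ := hF a ha g1
    have g9 := (hw z (hin z hRz).1 (by omega) (by omega) (by omega)).1 hRz
    omega

end

end Pool.Agent.H75.Four
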