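import Mathlib
import Pool.Agent.H75.Four.DefsB
import Pool.Agent.H75.Four.FCol
import Pool.Agent.H75.Four.FOther
import Pool.Agent.H75.TwoArm.Exit
import Pool.Agent.H75.Four.HPos
import Pool.Agent.H75.Four.HHook

set_option autoImplicit false
open Finset

/-! FB6 (helper29): four arms of an edge outside a hole, as a pivotal event. -/

namespace Pool.Agent.H75.Four

open Pool.Agent.H75.Perc
open Pool.Agent.H75.TwoArm
open Pool.Agent.H75.TwoArm.StrandAux

namespace HArmAux

/-- the square with the edges of `BB k` is connected -/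
lemma box_co {k : ℤ} {p q : ℤ × ℤ} (hp1 : |p.1| ≤ k) (hp2 : |p.2| ≤ k) (hq1 : |q.1| ≤ k)
    (hq2 : |q.2| ≤ k) : Co (BB k) p q := by
  have hor : ∀ (n : ℕ) (a b : ℤ), -k ≤ a → a + n ≤ k → -k ≤ b → b ≤ k →
      Co (BB k) (a, b) (a + n, b) := by
    intro n
    induction n with
    | zero => intro a b _ _ _ _; simpa using Co.refl _ _
    | succ n ih =>
      intro a b h1 h2 h3 h4
      push_cast at h2 ⊢
      refine (ih a b h1 (by omega) h3 h4).trans (Relation.ReflTransGen.single ⟨?_, ?_⟩)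
      · left; refine Prod.ext ?_ ?_ <;> simp
      · unfold TwoArm.BB
        rw [mem_Bx]
        simp only [Prod.mk_add_mk]
        omega
  have ver : ∀ (n : ℕ) (a b : ℤ), -k ≤ a → a ≤ k → -k ≤ b → b + n ≤ k →
      Co (BB k) (a, b) (a, b + n) := by
    intro n
    induction n with
    | zero => intro a b _ _ _ _; simpa using Co.refl _ _
    | succ n ih =>
      intro a b h1 h2 h3 h4
      push_cast at h4 ⊢
      refine (ih a b h1 h2 h3 (by omega)).trans (Relation.ReflTransGen.single ⟨?_, ?_⟩)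
      · right; left; refine Prod.ext ?_ ?_ <;> simp
      · unfold TwoArm.BB
        rw [mem_Bx]
        simp only [Prod.mk_add_mk]
        omega
  have main : ∀ r : ℤ × ℤ, |r.1| ≤ k → |r.2| ≤ k → Co (BB k) (-k, -k) r := by
    rintro ⟨a, b⟩ h1 h2
    simp only at h1 h2
    rw [abs_le] at h1 h2
    have e1 : (-k : ℤ) + ((a + k).toNat : ℤ) = a := by rw [Int.toNat_of_nonneg (by omega)]; ring
    have e2 : (-k : ℤ) + ((b + k).toNat : ℤ) = b := by rw [Int.toNat_of_nonneg (by omega)]; ring
    have s1 := hor (a + k).toNat (-k) (-k) le_rfl (by omega) le_rfl (by omega)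
    have s2 := ver (b + k).toNat a (-k) (by omega) (by omega) le_rfl (by omega)
    rw [e1] at s1
    rw [e2] at s2
    exact s1.trans s2
  exact (main p hp1 hp2).symm.trans (main q hq1 hq2)

variable {ω : Finset (ℤ × ℤ)} {c x e : ℤ × ℤ} {k M : ℤ}

lemma mem_B (h : Hole k M e ω) : e ∈ BB M \ BB k := by
  refine mem_sdiff.2 ⟨?_, h.hB⟩
  have := h.hE
  unfold TwoArm.BB at this ⊢
  rw [mem_Bx] at this ⊢
  omega

lemma sub_B (h : Hole k M e ω) : ω \ BB k ⊆ BB M \ BB k := by
  intro a ha
  rw [mem_sdiff] at ha ⊢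
  refine ⟨?_, ha.2⟩
  have := h.hw ha.1
  unfold TwoArm.BB at this ⊢
  rw [mem_Bx] at this ⊢
  omega

lemma erase_sub (h : Hole k M e ω) : ω.erase e ⊆ BB (M - 1) := fun _ ha => h.hw (mem_of_mem_erase ha)

lemma insert_sub (h : Hole k M e ω) : insert e ω ⊆ BB (M - 1) := by
  intro a ha
  rcases mem_insert.1 ha with rfl | ha
  · exact h.hE
  · exact h.hw ha

/-- position of the vertex of a hit -/
lemma vx_hit {b : ℤ} (hk : 1 ≤ k) (h : Hpos k b x) : |(vx x).1| ≤ k ∧ |(vx x).2| ≤ k ∧
    (|(vx x).1| = k ∨ |(vx x).2| = k) := by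
  obtain ⟨h1, h2, h3⟩ := h
  unfold vx
  rcases h3 with rfl | rfl | rfl | rfl
  · have e1 : (2 * k + 1) / 2 = k := by omega
    have e2 : |k| = k := abs_of_nonneg (by omega)
    simp only [e1, e2]
    refine ⟨le_rfl, abs_le.2 ⟨by omega, by omega⟩, Or.inl trivial⟩
  · have e1 : (2 * k + 1) / 2 = k := by omega
    have e2 : |k| = k := abs_of_nonneg (by omega)
    simp only [e1, e2]
    refine ⟨abs_le.2 ⟨by omega, by omega⟩, le_rfl, Or.inr trivial⟩
  · have e1 : (-(2 * k)) / 2 = -k := by omega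
    have e2 : |-k| = k := by rw [abs_neg]; exact abs_of_nonneg (by omega)
    simp only [e1, e2]
    refine ⟨le_rfl, abs_le.2 ⟨by omega, by omega⟩, Or.inl trivial⟩
  · have e1 : (-(2 * k)) / 2 = -k := by omega
    have e2 : |-k| = k := by rw [abs_neg]; exact abs_of_nonneg (by omega)
    simp only [e1, e2]
    refine ⟨abs_le.2 ⟨by omega, by omega⟩, le_rfl, Or.inr trivial⟩

lemma FX_str {B w : Finset (ℤ × ℤ)} (h : FX B w c x) : Str B w c x := by
  obtain ⟨j, hj, _, hB⟩ := h
  exact Or.inl ⟨j, hj, hB⟩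

lemma BX_str {B w : Finset (ℤ × ℤ)} (h : BX B w c x) : Str B w c x := by
  obtain ⟨j, hj, _, hB⟩ := h
  exact Or.inr ⟨j, hj, hB⟩

lemma lab_c (h : Hole k M e ω) (hc : c = zu e ∨ c = zv e) : lab c = e := by
  obtain ⟨_, _, h3, h4, _, _⟩ := opc_zu h.he
  rcases hc with rfl | rfl
  · exact h3
  · exact h4

/-- hits exist and lie on the boundary of the hole -/
lemma hit_pos (h : Hole k M e ω) {w : Finset (ℤ × ℤ)} (hw : w ⊆ BB (M - 1))
    (hc : c = zu e ∨ c = zv e) (hx : FX (BB M \ BB k) w c x ∨ BX (BB M \ BB k) w c x) :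
    |(vx x).1| ≤ k ∧ |(vx x).2| ≤ k ∧ (|(vx x).1| = k ∨ |(vx x).2| = k) := by
  have hl := lab_c h hc
  rcases hx with hx | hx
  · obtain ⟨_, _, b, _, hb⟩ := FX_hole h.hk hw (by rw [hl]; exact h.hE) (by rw [hl]; exact h.hB) hx
    exact vx_hit h.hk hb
  · obtain ⟨_, _, b, _, hb⟩ := BX_hole h.hk hw (by rw [hl]; exact h.hE) (by rw [hl]; exact h.hB) hx
    exact vx_hit h.hk hb

lemma co_inter_erase {B : Finset (ℤ × ℤ)} (hB : B = BB M \ BB k) :
    ω.erase e ∩ UU B (ω.erase e) c ⊆ (ω \ BB k).erase e := by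
  intro a ha
  rw [mem_inter, mem_erase] at ha
  have h1 := (mem_UU.1 ha.2).1
  rw [hB, mem_sdiff] at h1
  exact mem_erase.2 ⟨ha.1.1, mem_sdiff.2 ⟨ha.1.2, h1.2⟩⟩

/-- a strand which does not leave is a closed loop around one end of the pivotal edge -/
lemma leave_of (h : Hole k M e ω) {d : ℤ × ℤ} (hl : lab c = e) (hd : d = opc c)
    (hco : Co ((ω ∪ BB k).erase e) (vx c) (vx d))
    (hn : ¬ Str (BB M \ BB k) (ω.erase e) c d) : Leave (BB M \ BB k) (ω.erase e) c := by
  classical
  by_contra hcon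
  set w := ω.erase e with hwd
  have hin : ∀ j : ℕ, lab ((nx w)^[j] c) ∈ BB M \ BB k := by
    intro j
    by_contra hj
    exact hcon ⟨j, hj⟩
  obtain ⟨L, hL⟩ := ExitAux.exists_period w c
  obtain ⟨Z, hZdef⟩ : ∃ Z : ℤ × ℤ → Prop, ∀ z, Z z ↔ ∃ j : ℕ, (nx w)^[j] c = z :=
    ⟨_, fun z => Iff.rfl⟩
  have hZ : ∀ z, Z z ↔ Z (nx w z) := by
    intro z
    rw [hZdef, hZdef]
    constructor
    · rintro ⟨j, rfl⟩
      exact ⟨j + 1, by rw [Function.iterate_succ_apply']⟩
    · rintro ⟨j, hj⟩
      have h1 : (nx w)^[j + L] c = nx w z := by rw [hL.add, hj]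
      have hpos := hL.pos
      have e1 : j + L = (j + L - 1) + 1 := by omega
      rw [e1, Function.iterate_succ_apply'] at h1
      exact ⟨j + L - 1, nx_injective w h1⟩
  have hZl : ∀ z, Z z → lab z ∈ BB M \ BB k := by
    intro z hz
    obtain ⟨j, rfl⟩ := (hZdef z).1 hz
    exact hin j
  have hZp : ∀ z, Z z → plab z ∈ BB M \ BB k := by
    intro z hz
    have h1 : Z (pv w z) := by rw [hZ, nx_pv]; exact hz
    have h2 := hZl _ h1
    rwa [lab_pv] at h2
  obtain ⟨S, hS⟩ := exists_Col Z (by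
      intro p
      refine Set.Finite.subset (Set.finite_Iic (2 * M + 1 - p.1).toNat) ?_
      intro j hj
      have h1 := hZl _ hj
      rw [mem_sdiff] at h1
      have h2 := h1.1
      unfold TwoArm.BB at h2
      rw [mem_Bx] at h2
      rw [Set.mem_Iic]
      rcases ExitAux.vals (p.1 + (j : ℤ), p.2 + (j : ℤ)) with h3 | h3 | h3 | h3 <;>
        simp only at h3 <;> omega)
    (ColorAux.even_of_pairs hZ)
  have hZc : Z c := (hZdef c).2 ⟨0, rfl⟩
  -- constant along the path
  have hpath : ∀ u v, Ad ((ω ∪ BB k).erase e) u v → S (dbl u) = S (dbl v) := by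
    intro u v huv
    by_cases hk : u + v ∈ BB k
    · obtain ⟨f, g, z1, z2, z3, z4, q⟩ := TrackAux.quad_of_uv huv.1
      have n1 : ¬ Z z1 := fun hz => by
        have := hZl _ hz
        rw [q.l1, mem_sdiff] at this
        exact this.2 hk
      have n3 : ¬ Z z3 := fun hz => by
        have := hZp _ hz
        rw [q.p3, mem_sdiff] at this
        exact this.2 hk
      have c1 := not_not.1 (mt (hS z1).2 n1)
      have c3 := not_not.1 (mt (hS z3).2 n3)
      rw [q.v1, q.f1] at c1
      rw [q.v3, q.f3] at c3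
      rw [c1, c3]
    · refine ColorAux.col_open hS hZ (ω := w) ⟨huv.1, ?_⟩
      have h1 := huv.2
      rw [mem_erase, mem_union] at h1
      exact mem_erase.2 ⟨h1.1, h1.2.resolve_right hk⟩
  have hconst : S (dbl (vx c)) = S (dbl (vx d)) := by
    clear hn
    revert hco
    generalize vx d = q
    intro hco
    induction hco with
    | refl => rfl
    | tail _ hbc ih => exact ih.trans (hpath _ _ hbc)
  -- the corner `nxC c`
  have hcl : lab c ∉ w := by rw [hl]; exact notMem_erase e ω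
  have h2 : Z (nxC c) := by
    have := (hZ c).1 hZc
    unfold nx at this
    rwa [if_neg hcl] at this
  have h3 := (hS _).1 h2
  have hfce : fce (nxC c) = fce (opc c) := by
    rw [FOtherAux.fce_fp, FOtherAux.fce_fp, (nxC_opc c).2]
  rw [(nxC_opc c).1, hfce, ← hd] at h3
  have hZd : ¬ Z d := by
    intro hz
    obtain ⟨j, hj⟩ := (hZdef d).1 hz
    exact hn (Or.inl ⟨j, hj, fun i _ => hin i⟩)
  have h4 := not_not.1 (mt (hS d).2 hZd)
  rw [← h4] at h3
  exact h3 hconst

end HArmAux

open HArmAux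

section

variable {ω : Finset (ℤ × ℤ)} {c e : ℤ × ℤ} {k M : ℤ}

theorem A4_hole_iff (h : Hole k M e ω) (hkM : k < M) : A4 (BB M \ BB k) e ω ↔
    Co ((ω ∪ BB k).erase e) (eu e) (ev e) ∧ ¬ Co ((ω \ BB k).erase e) (eu e) (ev e) := by
  obtain ⟨o1, o2, l1, l2, v1, v2⟩ := opc_zu h.he
  have heB := mem_B h
  constructor
  · rintro ⟨hu, hv, hn⟩
    obtain ⟨⟨x1, hx1⟩, ⟨x2, hx2⟩⟩ := leave_exits hu
    obtain ⟨⟨x3, hx3⟩, _⟩ := leave_exits hv
    constructor
    · have p1 := hit_pos h (erase_sub h) (Or.inl rfl) (Or.inl hx1)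
      have p3 := hit_pos h (erase_sub h) (Or.inr rfl) (Or.inl hx3)
      have c1 := (Str_co (FX_str hx1)).1
      have c3 := (Str_co (FX_str hx3)).1
      have sub : (ω \ BB k).erase e ⊆ (ω ∪ BB k).erase e := by
        intro a ha
        rw [mem_erase, mem_sdiff] at ha
        exact mem_erase.2 ⟨ha.1, mem_union_left _ ha.2.1⟩
      have sub2 : BB k ⊆ (ω ∪ BB k).erase e := by
        intro a ha
        refine mem_erase.2 ⟨?_, mem_union_right _ ha⟩
        rintro rfl
        exact h.hB ha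
      have d1 := (c1.mono (co_inter_erase rfl)).mono sub
      have d3 := (c3.mono (co_inter_erase rfl)).mono sub
      rw [v1] at d1
      rw [v2] at d3
      exact (d1.trans ((box_co p1.1 p1.2.1 p3.1 p3.2.1).mono sub2)).trans d3.symm
    · intro hco
      have hclo := (clo_hole h.hk (erase_sub h) (by rw [l1]; exact h.hE) (by rw [l1]; exact h.hB)
        hx1 hx2).1
      obtain ⟨S, hS⟩ := exists_TCR (by rw [l1]; exact heB) hx1 hx2 hclo
      have s1 := (hS.str _ (Str_self _ _ (zu e))).1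
      have s2 := (other_false (by rw [l1]; exact heB) (by rw [l1]; exact notMem_erase e ω) hS
        hclo.out (by rw [o1]; exact hn) (Str_self _ _ _)).1
      rw [o1, v2] at s2
      rw [v1] at s1
      have hconst : S (dbl (eu e)) = S (dbl (ev e)) := by
        clear s2
        revert hco
        generalize ev e = q
        intro hco
        induction hco with
        | refl => rfl
        | tail _ hbc ih =>
          refine ih.trans (hS.open_eq hclo.out hbc.1 ?_ ?_)
          · exact sub_B h (mem_of_mem_erase hbc.2)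
          · have := hbc.2
            rw [mem_erase, mem_sdiff] at this
            exact mem_erase.2 ⟨this.1, this.2.1⟩
      rw [s1, s2] at hconst
      exact absurd hconst (by decide)
  · rintro ⟨hco, hn⟩
    have hns : ¬ Str (BB M \ BB k) (ω.erase e) (zu e) (zv e) := by
      intro hs
      apply hn
      have := (Str_co hs).1.mono (co_inter_erase rfl)
      rwa [v1, v2] at this
    have hns' : ¬ Str (BB M \ BB k) (ω.erase e) (zv e) (zu e) := fun hs => hns (Str_symm hs)
    refine ⟨?_, ?_, hns⟩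
    · exact leave_of h l1 o1.symm (by rw [v1, v2]; exact hco) hns
    · exact leave_of h l2 o2.symm (by rw [v1, v2]; exact hco.symm) hns'

/-- the two dual arms are not connected -/
theorem A4_hole_dual (h : Hole k M e ω) (hkM : k < M) (hA : A4 (BB M \ BB k) e ω) :
    ¬ Co (du (BB M \ BB k) (insert e ω)) (fi (zu e)) (fi (zv e)) := by
  obtain ⟨o1, o2, l1, l2, v1, v2⟩ := opc_zu h.he
  have heB := mem_B h
  obtain ⟨hu, hv, hn⟩ := (A4_insert h.he heB).1 hA
  obtain ⟨⟨x1, hx1⟩, ⟨x2, hx2⟩⟩ := leave_exits hu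
  intro hco
  have hclo := (clo_hole h.hk (insert_sub h) (by rw [l1]; exact h.hE) (by rw [l1]; exact h.hB)
    hx1 hx2).1
  obtain ⟨S, hS⟩ := exists_TCR (by rw [l1]; exact heB) hx1 hx2 hclo
  have s1 := (hS.str _ (Str_self _ _ (zu e))).2
  have s2 := (other_true (by rw [l1]; exact heB) (by rw [l1]; exact mem_insert_self e ω) hS
    hclo.out (by rw [o1]; exact hn) (Str_self _ _ _)).2
  rw [o1, FOtherAux.fce_fp] at s2
  rw [FOtherAux.fce_fp] at s1
  have hconst : S (fp (fi (zu e))) = S (fp (fi (zv e))) := by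
    clear s2
    revert hco
    generalize fi (zv e) = q
    intro hco
    induction hco with
    | refl => rfl
    | tail _ hbc ih =>
      have := ColorAux.mem_du.1 hbc.2
      exact ih.trans (hS.closed_eq hclo.out hbc.1 this.1 this.2)
  rw [s1, s2] at hconst
  exact absurd hconst (by decide)

/-- the hits are connected to the ends and faces of `e` -/
theorem hit_co (h : Hole k M e ω) (hA : A4 (BB M \ BB k) e ω) (hc : c = zu e ∨ c = zv e) :
    (∀ x, FX (BB M \ BB k) (ω.erase e) c x ∨ BX (BB M \ BB k) (ω.erase e) c x →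
      Co (ω.erase e ∩ U4 (BB M \ BB k) e ω) (vx c) (vx x) ∧
      Co ((ω \ BB k).erase e) (vx c) (vx x) ∧ |(vx x).1| ≤ k ∧ |(vx x).2| ≤ k ∧
      (|(vx x).1| = k ∨ |(vx x).2| = k)) ∧
    (∀ x, FX (BB M \ BB k) (insert e ω) c x ∨ BX (BB M \ BB k) (insert e ω) c x →
      Co (du (U4 (BB M \ BB k) e ω) (insert e ω)) (fi c) (fi x) ∧
      Co (du (BB M \ BB k) (insert e ω)) (fi c) (fi x)) := by
  have heB := mem_B h
  constructor
  · intro x hx
    have hs : Str (BB M \ BB k) (ω.erase e) c x := hx.elim FX_str BX_str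
    have hco := (Str_co hs).1
    refine ⟨hco.mono ?_, hco.mono (co_inter_erase rfl), hit_pos h (erase_sub h) hc hx⟩
    apply inter_subset_inter (Subset.refl _)
    unfold U4
    rcases hc with rfl | rfl
    · exact subset_union_left
    · exact subset_union_right
  · intro x hx
    have hs : Str (BB M \ BB k) (insert e ω) c x := hx.elim FX_str BX_str
    have hco := (Str_co hs).2
    refine ⟨hco.mono (ExitAux.du_mono ?_ _), hco.mono (ExitAux.du_mono (ExitAux.UU_sub _ _ _) _)⟩
    rw [U4_insert h.he heB hA]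
    rcases hc with rfl | rfl
    · exact subset_union_left
    · exact subset_union_right

end

end Pool.Agent.H75.Four
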