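import Mathlib
import Pool.Agent.H75.Four.DefsB
import Pool.Agent.H75.Four.FOther
import Pool.Agent.H75.TwoArm.Exit
import Pool.Agent.H75.Four.HPos

set_option autoImplicit false
open Finset

/-! FB7 (helper37): the arm of a hit outside the hole, up to the boundary of a larger box. -/

namespace Pool.Agent.H75.Four

open Pool.Agent.H75.Perc
open Pool.Agent.H75.TwoArm


namespace InnerAux

/-- a connection from inside the box, stopped at the boundary of the box -/
lemma stop {m : ℤ} {w : Finset (ℤ × ℤ)} (hw : ∀ l ∈ w, (l.1 + l.2) % 2 = 1) {p q : ℤ × ℤ}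
    (h : Co w p q) (hp : |p.1| ≤ m ∧ |p.2| ≤ m) (hq : m ≤ |q.1| ∨ m ≤ |q.2|) :
    ∃ z : ℤ × ℤ, (|z.1| = m ∨ |z.2| = m) ∧ |z.1| ≤ m ∧ |z.2| ≤ m ∧ Co (w ∩ BB m) p z := by
  have key : ∀ v, Co w p v → (∃ z : ℤ × ℤ, (|z.1| = m ∨ |z.2| = m) ∧ |z.1| ≤ m ∧ |z.2| ≤ m ∧
      Co (w ∩ BB m) p z) ∨ (|v.1| ≤ m ∧ |v.2| ≤ m ∧ Co (w ∩ BB m) p v) := by
    intro v hv
    induction hv with
    | refl => exact Or.inr ⟨hp.1, hp.2, Co.refl _ _⟩
    | @tail a b hab hbc ih =>
      rcases ih with ih | ⟨h1, h2, h3⟩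
      · exact Or.inl ih
      · by_cases hb : |a.1| = m ∨ |a.2| = m
        · exact Or.inl ⟨a, hb, h1, h2, h3⟩
        · push Not at hb
          have h4 := unit_cases hbc.1
          have h5 : |b.1| ≤ m ∧ |b.2| ≤ m := by
            have a1 := abs_le.1 h1
            have a2 := abs_le.1 h2
            have a3 : a.1 ≠ m ∧ a.1 ≠ -m := by
              constructor
              · intro hh; apply hb.1; rw [hh]; exact abs_of_nonneg (by omega)
              · intro hh; apply hb.1; rw [hh, abs_neg]; exact abs_of_nonneg (by omega)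
            have a4 : a.2 ≠ m ∧ a.2 ≠ -m := by
              constructor
              · intro hh; apply hb.2; rw [hh]; exact abs_of_nonneg (by omega)
              · intro hh; apply hb.2; rw [hh, abs_neg]; exact abs_of_nonneg (by omega)
            rw [abs_le, abs_le]
            omega
          refine Or.inr ⟨h5.1, h5.2, Relation.ReflTransGen.tail h3 ⟨hbc.1, ?_⟩⟩
          rw [mem_inter]
          refine ⟨hbc.2, ?_⟩
          have h6 := hw _ hbc.2
          unfold TwoArm.BB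
          rw [mem_Bx]
          have a1 := abs_le.1 h1
          have a2 := abs_le.1 h2
          have a3 := abs_le.1 h5.1
          have a4 := abs_le.1 h5.2
          refine ⟨?_, ?_, h6⟩ <;> simp only [Prod.fst_add, Prod.snd_add] <;> omega
  rcases key q h with h1 | ⟨h1, h2, h3⟩
  · exact h1
  · exact ⟨q, by omega, h1, h2, h3⟩

end InnerAux

section

variable {ω : Finset (ℤ × ℤ)} {x e : ℤ × ℤ} {k M : ℤ}

/-- the arm of a hit outside the hole, up to the boundary of a larger box around the hole -/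
theorem arm_inner {m : ℤ} (h : Hole k M e ω) (hm : k < m) (hmM : m ≤ M - 1) (hem : e ∉ BB m)
    (hA : A4 (BB M \ BB k) e ω) (hx : ExB (BB M \ BB k) e ω x) :
    ∃ q : ℤ × ℤ, (|q.1| = m ∨ |q.2| = m) ∧ |q.1| ≤ m ∧ |q.2| ≤ m ∧
      Co ((ω ∩ BB m) \ BB k) (vx x) q := by
  obtain ⟨o1, o2, o3, o4, o5, o6⟩ := opc_zu h.he
  have hk := h.hk
  obtain ⟨b, hb1, hb2, hb3⟩ := ExB_pos h hx
  have hvx : |(vx x).1| ≤ m ∧ |(vx x).2| ≤ m := by
    unfold vx
    rw [abs_le, abs_le]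
    rcases hb3 with rfl | rfl | rfl | rfl <;> simp only <;> omega
  have hee : (m ≤ |(eu e).1| ∨ m ≤ |(eu e).2|) ∧ (m ≤ |(ev e).1| ∨ m ≤ |(ev e).2|) := by
    have h1 := hem
    have h2 := h.he
    unfold TwoArm.BB at h1
    rw [mem_Bx] at h1
    unfold eu ev
    simp only [le_abs]
    omega
  obtain ⟨c, hc, hs⟩ : ∃ c, (m ≤ |(vx c).1| ∨ m ≤ |(vx c).2|) ∧
      Str (BB M \ BB k) (ω.erase e) c x := by
    rcases hx with hx | hx | hx | hx
    · exact ⟨zu e, by rw [o5]; exact hee.1, ExitAux.FX_str hx⟩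
    · obtain ⟨j, hj, -, hB⟩ := hx
      exact ⟨zu e, by rw [o5]; exact hee.1, Or.inr ⟨j, hj, hB⟩⟩
    · exact ⟨zv e, by rw [o6]; exact hee.2, ExitAux.FX_str hx⟩
    · obtain ⟨j, hj, -, hB⟩ := hx
      exact ⟨zv e, by rw [o6]; exact hee.2, Or.inr ⟨j, hj, hB⟩⟩
  obtain ⟨q, hq1, hq2, hq3, hq4⟩ := InnerAux.stop (m := m) (fun l hl => by
    have h1 := h.hw (mem_of_mem_erase (mem_inter.1 hl).1)
    unfold TwoArm.BB at h1
    rw [mem_Bx] at h1
    exact h1.2.2) (Str_co hs).1.symm hvx hc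
  refine ⟨q, hq1, hq2, hq3, hq4.mono ?_⟩
  intro a ha
  rw [mem_inter, mem_inter] at ha
  rw [mem_sdiff, mem_inter]
  exact ⟨⟨mem_of_mem_erase ha.1.1, ha.2⟩, (mem_sdiff.1 (ExitAux.UU_sub _ _ _ ha.1.2)).2⟩

end

end Pool.Agent.H75.Four
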