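import Mathlib
import Pool.Agent.H75.Four.FCol
import Pool.Agent.H75.Four.HPos

set_option autoImplicit false
open Finset

/-! FB4, first part: column closings inside the hole, in the frame of the left side. -/

namespace Pool.Agent.H75.Four

open Pool.Agent.H75.Perc
open Pool.Agent.H75.TwoArm

namespace HColAux

open HPosAux

/-- the two even points of a corner -/
lemma diag {S : ℤ × ℤ → Bool} {z : ℤ × ℤ} (h : S (dbl (vx z)) = S (fce z)) :
    ((z.1 + z.2) % 2 = 0 → S (z.1, z.2) = S (z.1 - 1, z.2 - 1)) ∧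
    ((z.1 + z.2) % 2 = 1 → S (z.1 - 1, z.2) = S (z.1, z.2 - 1)) := by
  obtain ⟨a, b⟩ := z
  simp only
  have ha : a % 2 = 0 ∨ a % 2 = 1 := by omega
  have hb : b % 2 = 0 ∨ b % 2 = 1 := by omega
  rcases ha with ha | ha <;> rcases hb with hb | hb
  · have h1 : dbl (vx (a, b)) = (a, b) := by
      unfold dbl vx
      refine Prod.ext ?_ ?_ <;> simp <;> omega
    have h2 : fce (a, b) = (a - 1, b - 1) := by
      unfold fce
      refine Prod.ext ?_ ?_ <;> simp only <;> omega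
    rw [h1, h2] at h
    exact ⟨fun _ => h, fun h' => by omega⟩
  · have h1 : dbl (vx (a, b)) = (a, b - 1) := by
      unfold dbl vx
      refine Prod.ext ?_ ?_ <;> simp <;> omega
    have h2 : fce (a, b) = (a - 1, b) := by
      unfold fce
      refine Prod.ext ?_ ?_ <;> simp only <;> omega
    rw [h1, h2] at h
    exact ⟨fun h' => by omega, fun _ => h.symm⟩
  · have h1 : dbl (vx (a, b)) = (a - 1, b) := by
      unfold dbl vx
      refine Prod.ext ?_ ?_ <;> simp <;> omega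
    have h2 : fce (a, b) = (a, b - 1) := by
      unfold fce
      refine Prod.ext ?_ ?_ <;> simp only <;> omega
    rw [h1, h2] at h
    exact ⟨fun h' => by omega, fun _ => h⟩
  · have h1 : dbl (vx (a, b)) = (a - 1, b - 1) := by
      unfold dbl vx
      refine Prod.ext ?_ ?_ <;> simp <;> omega
    have h2 : fce (a, b) = (a, b) := by
      unfold fce
      refine Prod.ext ?_ ?_ <;> simp only <;> omega
    rw [h1, h2] at h
    exact ⟨fun _ => h.symm, fun h' => by omega⟩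

/-- a colouring without colour change at the corners of a rectangle is constant there -/
lemma rect_const {S : ℤ × ℤ → Bool} {a b c d : ℤ} (hab : a < b) (hcd : c < d)
    (h : ∀ z : ℤ × ℤ, a + 1 ≤ z.1 → z.1 ≤ b → c + 1 ≤ z.2 → z.2 ≤ d →
      S (dbl (vx z)) = S (fce z)) :
    ∀ p q : ℤ × ℤ, (p.1 + p.2) % 2 = 0 → (q.1 + q.2) % 2 = 0 → a ≤ p.1 → p.1 ≤ b → c ≤ p.2 →
      p.2 ≤ d → a ≤ q.1 → q.1 ≤ b → c ≤ q.2 → q.2 ≤ d → S p = S q := by
  -- one step to the left
  have s1 : ∀ x y : ℤ, (x + y) % 2 = 0 → a + 1 ≤ x → x ≤ b → c + 1 ≤ y → y ≤ d →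
      S (x, y) = S (x - 1, y - 1) := by
    intro x y h0 h1 h2 h3 h4
    exact (diag (h (x, y) h1 h2 h3 h4)).1 h0
  have s2 : ∀ x y : ℤ, (x + y) % 2 = 0 → a + 1 ≤ x → x ≤ b → c ≤ y → y + 1 ≤ d →
      S (x, y) = S (x - 1, y + 1) := by
    intro x y h0 h1 h2 h3 h4
    have h5 := (diag (h (x, y + 1) h1 h2 (by simp only; omega) h4)).2 (by simp only; omega)
    simp only [add_sub_cancel_right] at h5
    exact h5.symm
  -- reduce the first coordinate
  have t1 : ∀ (n : ℕ) (x y : ℤ), x - a ≤ n → (x + y) % 2 = 0 → a ≤ x → x ≤ b → c ≤ y → y ≤ d →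
      ∃ y', (a + y') % 2 = 0 ∧ c ≤ y' ∧ y' ≤ d ∧ S (x, y) = S (a, y') := by
    intro n
    induction n with
    | zero =>
      intro x y hn h0 h1 h2 h3 h4
      have : x = a := by omega
      subst this
      exact ⟨y, h0, h3, h4, rfl⟩
    | succ n ih =>
      intro x y hn h0 h1 h2 h3 h4
      by_cases hx : x = a
      · subst hx
        exact ⟨y, h0, h3, h4, rfl⟩
      · by_cases hy : c + 1 ≤ y
        · obtain ⟨y', g1, g2, g3, g4⟩ := ih (x - 1) (y - 1) (by push_cast at hn ⊢; omega)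
            (by omega) (by omega) (by omega) (by omega) (by omega)
          exact ⟨y', g1, g2, g3, (s1 x y h0 (by omega) h2 hy h4).trans g4⟩
        · obtain ⟨y', g1, g2, g3, g4⟩ := ih (x - 1) (y + 1) (by push_cast at hn ⊢; omega)
            (by omega) (by omega) (by omega) (by omega) (by omega)
          exact ⟨y', g1, g2, g3, (s2 x y h0 (by omega) h2 h3 (by omega)).trans g4⟩
  -- reduce the second coordinate
  have t2 : ∀ (n : ℕ) (y : ℤ), y - c ≤ n → (a + y) % 2 = 0 → c ≤ y → y ≤ d →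
      S (a, y) = S (a, c + (a + c) % 2) := by
    intro n
    induction n using Nat.strong_induction_on with
    | _ n ih =>
      intro y hn h0 h1 h2
      by_cases hy : y - 2 < c
      · have : y = c + (a + c) % 2 := by omega
        rw [← this]
      · have g1 := s2 (a + 1) (y - 1) (by omega) (by omega) (by omega) (by omega) (by omega)
        have g2 := s1 (a + 1) (y - 1) (by omega) (by omega) (by omega) (by omega) (by omega)
        have e1 : a + 1 - 1 = a := by ring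
        have e2 : y - 1 + 1 = y := by ring
        have e3 : y - 1 - 1 = y - 2 := by ring
        rw [e1, e2] at g1
        rw [e1, e3] at g2
        rw [← g1, g2]
        exact ih (n - 2) (by omega) (y - 2) (by omega) (by omega) (by omega) (by omega)
  intro p q hp hq p1 p2 p3 p4 q1 q2 q3 q4
  obtain ⟨y, g1, g2, g3, g4⟩ := t1 (p.1 - a).toNat p.1 p.2 (by omega) hp p1 p2 p3 p4
  obtain ⟨y', g1', g2', g3', g4'⟩ := t1 (q.1 - a).toNat q.1 q.2 (by omega) hq q1 q2 q3 q4
  have r1 := t2 (y - c).toNat y (by omega) g1 g2 g3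
  have r2 := t2 (y' - c).toNat y' (by omega) g1' g2' g3'
  calc S p = S (a, y) := g4
    _ = S (a, y') := by rw [r1, r2]
    _ = S q := g4'.symm

lemma col_fin (k : ℤ) {R : ℤ × ℤ → Prop} (hR : ∀ z, R z → z.1 = -(2 * k) + 1) (p : ℤ × ℤ) :
    {j : ℕ | R (p.1 + j, p.2 + j)}.Finite := by
  refine (Set.finite_le_nat ((-(2 * k) + 1 - p.1).toNat)).subset ?_
  intro j hj
  have h1 := hR _ hj
  simp only at h1
  simp only [Set.mem_ofPred_eq]
  omega

/-- both labels of a corner inside the hole -/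
lemma inner_lab {k : ℤ} {z : ℤ × ℤ} (h1 : -(2 * k) + 1 ≤ z.1) (h2 : z.1 ≤ 2 * k)
    (h3 : -(2 * k) + 1 ≤ z.2) (h4 : z.2 ≤ 2 * k) : lab z ∈ BB k ∧ plab z ∈ BB k := by
  rw [mem_BB, mem_BB]
  rcases ty4 z with ⟨g1, g2, g3, g4⟩ | ⟨g1, g2, g3, g4⟩ | ⟨g1, g2, g3, g4⟩ | ⟨g1, g2, g3, g4⟩ <;>
    rw [g3, g4] <;> simp only <;> omega

lemma out_of {k M : ℤ} {l : ℤ × ℤ} (h : l ∈ BB k) : l ∉ BB M \ BB k :=
  fun h' => (mem_sdiff.1 h').2 h

/-- a hit on the left side -/
lemma hit_west {k b' b : ℤ} (hk : 1 ≤ k) (h : Hpos k b' (-(2 * k), b)) :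
    b' = b ∧ -(2 * k) + 1 ≤ b ∧ b ≤ 2 * k := by
  obtain ⟨h1, h2, h3⟩ := h
  simp only [Prod.mk.injEq] at h3
  omega

end HColAux

open HColAux HPosAux

section

variable {B ω ω'' U F D E : Finset (ℤ × ℤ)} {c x x1 x2 x3 x4 z e e' p q : ℤ × ℤ}
  {R : ℤ × ℤ → Prop} {S : ℤ × ℤ → Bool} {k M : ℤ}

/-- column closings inside the hole, in the frame of the left side, and their colours deep inside -/
theorem clo_colFB {b1 b2 : ℤ} (hk : 1 ≤ k) (hkM : k < M) (hω : ω ⊆ BB (M - 1))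
    (hc : lab c ∈ BB (M - 1)) (hc' : lab c ∉ BB k)
    (h1 : FX (BB M \ BB k) ω c (-(2 * k), b1)) (h2 : BX (BB M \ BB k) ω c (-(2 * k), b2))
    (hb : b1 < b2) :
    Clo (BB M \ BB k) (-(2 * k), b1) (-(2 * k), b2)
      (fun z => z.1 = -(2 * k) + 1 ∧ b1 ≤ z.2 ∧ z.2 ≤ b2) ∧
    ∀ S, TCR (BB M \ BB k) ω c (fun z => z.1 = -(2 * k) + 1 ∧ b1 ≤ z.2 ∧ z.2 ≤ b2) S →
      ∀ p : ℤ × ℤ, (p.1 + p.2) % 2 = 0 → -(2 * k) + 1 ≤ p.1 → p.1 ≤ 2 * k → -(2 * k) ≤ p.2 →
      p.2 ≤ 2 * k → S p = false := by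
  obtain ⟨-, -, b, hbe, hpos⟩ := FX_hole hk hω hc hc' h1
  obtain ⟨-, -, b', hbo, hpos'⟩ := BX_hole hk hω hc hc' h2
  obtain ⟨rfl, p1, p2⟩ := hit_west hk hpos
  obtain ⟨rfl, p3, p4⟩ := hit_west hk hpos'
  have hl1 := (lab_hit hk hbe).1
  have hl2 := (plab_hit hk hbo).1
  refine ⟨⟨?_, ?_, ?_⟩, ?_⟩
  · rintro z ⟨z1, z2, z3⟩
    obtain ⟨i1, i2⟩ := inner_lab (k := k) (z := z) (by omega) (by omega) (by omega) (by omega)
    exact ⟨out_of i1, out_of i2⟩
  · rintro ⟨a1, a2⟩ ha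
    simp only at ha
    rw [hl1, hl2]
    unfold Ev
    simp only [Prod.mk.injEq]
    by_cases q1 : a1 = -(2 * k)
    · subst q1
      simp only [true_and]
      omega
    · by_cases q2 : a1 = -(2 * k) + 1
      · subst q2
        omega
      · omega
  · intro p
    exact col_fin k (R := fun z : ℤ × ℤ => z.1 = -(2 * k) + 1 ∧ b ≤ z.2 ∧ z.2 ≤ b')
      (fun z hz => hz.1) p
  · intro S hS
    have hx1 : Str (BB M \ BB k) ω c (-(2 * k), b) := by
      obtain ⟨j, j1, j2, j3⟩ := h1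
      exact Or.inl ⟨j, j1, j3⟩
    have t1 := (hS.str _ hx1).1
    have t2 := hS.ray (-(2 * k) + 1, b) ⟨rfl, le_rfl, hb.le⟩
    have e1 : dbl (vx (-(2 * k), b)) = (-(2 * k), b) := by
      unfold dbl vx
      refine Prod.ext ?_ ?_ <;> simp <;> omega
    have e2 : dbl (vx (-(2 * k) + 1, b)) = (-(2 * k), b) := by
      unfold dbl vx
      refine Prod.ext ?_ ?_ <;> simp <;> omega
    have e3 : fce (-(2 * k) + 1, b) = (-(2 * k) + 1, b - 1) := by
      unfold fce
      refine Prod.ext ?_ ?_ <;> simp only <;> omega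
    rw [e1] at t1
    rw [e2, e3, t1] at t2
    have t3 : S (-(2 * k) + 1, b - 1) = false := by
      cases h' : S (-(2 * k) + 1, b - 1) with
      | true => exact absurd h'.symm t2
      | false => rfl
    intro p hp0 hp1 hp2 hp3 hp4
    rw [← t3]
    refine rect_const (a := -(2 * k) + 1) (b := 2 * k) (c := -(2 * k)) (d := 2 * k) (by omega)
      (by omega) ?_ p _ hp0 (by simp only; omega) hp1 hp2 hp3 hp4 (by simp only; omega)
      (by simp only; omega) (by simp only; omega) (by simp only; omega)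
    intro z z1 z2 z3 z4
    obtain ⟨i1, i2⟩ := inner_lab (k := k) (z := z) (by omega) (by omega) (by omega) (by omega)
    refine hS.col z ?_ ?_
    · intro hz
      have := Str_FX h1 hz (out_of i1)
      rw [this] at z1
      simp only at z1
      omega
    · rintro ⟨z5, -⟩
      omega

theorem clo_colBF {b1 b2 : ℤ} (hk : 1 ≤ k) (hkM : k < M) (hω : ω ⊆ BB (M - 1))
    (hc : lab c ∈ BB (M - 1)) (hc' : lab c ∉ BB k)
    (h1 : BX (BB M \ BB k) ω c (-(2 * k), b1)) (h2 : FX (BB M \ BB k) ω c (-(2 * k), b2))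
    (hb : b1 < b2) :
    Clo (BB M \ BB k) (-(2 * k), b2) (-(2 * k), b1)
      (fun z => z.1 = -(2 * k) + 1 ∧ b1 + 1 ≤ z.2 ∧ z.2 ≤ b2 - 1) ∧
    ∀ S, TCR (BB M \ BB k) ω c (fun z => z.1 = -(2 * k) + 1 ∧ b1 + 1 ≤ z.2 ∧ z.2 ≤ b2 - 1) S →
      ∀ p : ℤ × ℤ, (p.1 + p.2) % 2 = 0 → -(2 * k) + 1 ≤ p.1 → p.1 ≤ 2 * k → -(2 * k) ≤ p.2 →
      p.2 ≤ 2 * k → S p = true := by
  obtain ⟨-, -, b, hbe, hpos⟩ := FX_hole hk hω hc hc' h2
  obtain ⟨-, -, b', hbo, hpos'⟩ := BX_hole hk hω hc hc' h1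
  obtain ⟨rfl, p1, p2⟩ := hit_west hk hpos
  obtain ⟨rfl, p3, p4⟩ := hit_west hk hpos'
  have hl1 := (lab_hit hk hbe).1
  have hl2 := (plab_hit hk hbo).1
  refine ⟨⟨?_, ?_, ?_⟩, ?_⟩
  · rintro z ⟨z1, z2, z3⟩
    obtain ⟨i1, i2⟩ := inner_lab (k := k) (z := z) (by omega) (by omega) (by omega) (by omega)
    exact ⟨out_of i1, out_of i2⟩
  · rintro ⟨a1, a2⟩ ha
    simp only at ha
    rw [hl1, hl2]
    unfold Ev
    simp only [Prod.mk.injEq]
    by_cases q1 : a1 = -(2 * k)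
    · subst q1
      simp only [true_and]
      omega
    · by_cases q2 : a1 = -(2 * k) + 1
      · subst q2
        omega
      · omega
  · intro p
    exact col_fin k (R := fun z : ℤ × ℤ => z.1 = -(2 * k) + 1 ∧ b' + 1 ≤ z.2 ∧ z.2 ≤ b - 1)
      (fun z hz => hz.1) p
  · intro S hS
    have hx1 : Str (BB M \ BB k) ω c (-(2 * k), b') := by
      obtain ⟨j, j1, j2, j3⟩ := h1
      exact Or.inr ⟨j, j1, j3⟩
    have hns : ∀ z : ℤ × ℤ, -(2 * k) + 1 ≤ z.1 → z.1 ≤ 2 * k → -(2 * k) + 1 ≤ z.2 → z.2 ≤ 2 * k →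
        ¬ Str (BB M \ BB k) ω c z := by
      intro z z1 z2 z3 z4 hz
      obtain ⟨i1, i2⟩ := inner_lab (k := k) (z := z) z1 z2 z3 z4
      have := Str_FX h2 hz (out_of i1)
      rw [this] at z1
      simp only at z1
      omega
    have t1 := (hS.str _ hx1).1
    have t2 := hS.col (-(2 * k) + 1, b') (hns _ (by simp only; omega) (by simp only; omega)
      (by simp only; omega) (by simp only; omega)) (fun h' => by
        have := h'.2.1
        simp only at this
        omega)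
    have e1 : dbl (vx (-(2 * k), b')) = (-(2 * k), b' - 1) := by
      unfold dbl vx
      refine Prod.ext ?_ ?_ <;> simp <;> omega
    have e2 : dbl (vx (-(2 * k) + 1, b')) = (-(2 * k), b' - 1) := by
      unfold dbl vx
      refine Prod.ext ?_ ?_ <;> simp <;> omega
    have e3 : fce (-(2 * k) + 1, b') = (-(2 * k) + 1, b') := by
      unfold fce
      refine Prod.ext ?_ ?_ <;> simp only <;> omega
    rw [e1] at t1
    rw [e2, e3, t1] at t2
    intro p hp0 hp1 hp2 hp3 hp4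
    rw [t2]
    refine rect_const (a := -(2 * k) + 1) (b := 2 * k) (c := -(2 * k)) (d := 2 * k) (by omega)
      (by omega) ?_ p _ hp0 (by simp only; omega) hp1 hp2 hp3 hp4 (by simp only; omega)
      (by simp only; omega) (by simp only; omega) (by simp only; omega)
    intro z z1 z2 z3 z4
    refine hS.col z (hns z (by omega) z2 z3 z4) ?_
    rintro ⟨z5, -⟩
    omega

end

end Pool.Agent.H75.Four
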