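import Mathlib
import Pool.Agent.H75.Four.FCol
import Pool.Agent.H75.Four.FOther
import Pool.Agent.H75.Four.HClo

set_option autoImplicit false
open Finset

/-! FB3 (helper9): the clockwise order of the four hits of the hole. -/

namespace Pool.Agent.H75.Four

open Pool.Agent.H75.Perc
open Pool.Agent.H75.TwoArm

section

variable {B ω : Finset (ℤ × ℤ)} {c x x1 x2 x3 x4 z e : ℤ × ℤ}
  {R : ℤ × ℤ → Prop} {S : ℤ × ℤ → Bool} {k M : ℤ}

namespace HOrderAux

lemma mem_BB' {r : ℤ} {a : ℤ × ℤ} : a ∈ BB r ↔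
    (-(2 * r) ≤ a.1 ∧ a.1 ≤ 2 * r) ∧ (-(2 * r) ≤ a.2 ∧ a.2 ≤ 2 * r) ∧ (a.1 + a.2) % 2 = 1 := by
  unfold TwoArm.BB
  rw [mem_Bx]
  constructor <;> intro h <;> omega

/-- two corners outside the hole at a label of the ring -/
lemma ring_corners (hk : 1 ≤ k) {j : ℤ} (hj : 0 ≤ j) (hj' : j + 2 ≤ 16 * k) (hj2 : j % 2 = 0) :
    rp k (j + 1) ∈ BB k ∧ ∃ z z' : ℤ × ℤ, Tch (rp k (j + 1)) z ∧ Tch (rp k (j + 1)) z' ∧
      dbl (vx z) = rp k j ∧ dbl (vx z') = rp k (j + 2) ∧ fce z = fce z' ∧
      ¬ (-(2 * k) + 1 ≤ z.1 ∧ z.1 ≤ 2 * k ∧ -(2 * k) + 1 ≤ z.2 ∧ z.2 ≤ 2 * k) ∧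
      ¬ (-(2 * k) + 1 ≤ z'.1 ∧ z'.1 ≤ 2 * k ∧ -(2 * k) + 1 ≤ z'.2 ∧ z'.2 ≤ 2 * k) := by
  have key : ∀ (a z z' : ℤ × ℤ), rp k (j + 1) = a → (a.1 + a.2) % 2 = 1 →
      (z = a ∨ z = (a.1 + 1, a.2) ∨ z = (a.1, a.2 + 1) ∨ z = (a.1 + 1, a.2 + 1)) →
      (z' = a ∨ z' = (a.1 + 1, a.2) ∨ z' = (a.1, a.2 + 1) ∨ z' = (a.1 + 1, a.2 + 1)) →
      Tch (rp k (j + 1)) z ∧ Tch (rp k (j + 1)) z' := by
    intro a z z' ha ho hz hz'
    rw [ha]
    exact ⟨(corners_iff ho).2 hz, (corners_iff ho).2 hz'⟩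
  by_cases h1 : j + 2 ≤ 4 * k
  · have e1 : rp k (j + 1) = (2 * k, j + 1 - 2 * k) := by unfold rp; rw [if_pos (by omega)]
    have e0 : rp k j = (2 * k, j - 2 * k) := by unfold rp; rw [if_pos (by omega)]
    have e2 : rp k (j + 2) = (2 * k, j + 2 - 2 * k) := by unfold rp; rw [if_pos (by omega)]
    obtain ⟨t1, t2⟩ := key (2 * k, j + 1 - 2 * k) (2 * k + 1, j + 1 - 2 * k)
      (2 * k + 1, j + 1 - 2 * k + 1) e1 (by simp only; omega) (by simp) (by simp)
    refine ⟨?_, _, _, t1, t2, ?_, ?_, ?_, ?_, ?_⟩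
    · rw [e1, mem_BB']; simp only; omega
    · rw [e0]; unfold dbl vx; refine Prod.ext ?_ ?_ <;> simp only <;> omega
    · rw [e2]; unfold dbl vx; refine Prod.ext ?_ ?_ <;> simp only <;> omega
    · unfold fce; refine Prod.ext ?_ ?_ <;> simp only <;> omega
    · simp only; omega
    · simp only; omega
  by_cases h2 : j + 2 ≤ 8 * k
  · have e1 : rp k (j + 1) = (6 * k - (j + 1), 2 * k) := by
      unfold rp; rw [if_neg (by omega), if_pos (by omega)]
    have e0 : rp k j = (6 * k - j, 2 * k) := by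
      unfold rp
      split_ifs
      · refine Prod.ext ?_ ?_ <;> simp only <;> omega
      · rfl
      · exfalso; omega
      · exfalso; omega
    have e2 : rp k (j + 2) = (6 * k - (j + 2), 2 * k) := by
      unfold rp; rw [if_neg (by omega), if_pos (by omega)]
    obtain ⟨t1, t2⟩ := key (6 * k - (j + 1), 2 * k) (6 * k - (j + 1) + 1, 2 * k + 1)
      (6 * k - (j + 1), 2 * k + 1) e1 (by simp only; omega) (by simp) (by simp)
    refine ⟨?_, _, _, t1, t2, ?_, ?_, ?_, ?_, ?_⟩
    · rw [e1, mem_BB']; simp only; omega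
    · rw [e0]; unfold dbl vx; refine Prod.ext ?_ ?_ <;> simp only <;> omega
    · rw [e2]; unfold dbl vx; refine Prod.ext ?_ ?_ <;> simp only <;> omega
    · unfold fce; refine Prod.ext ?_ ?_ <;> simp only <;> omega
    · simp only; omega
    · simp only; omega
  by_cases h3 : j + 2 ≤ 12 * k
  · have e1 : rp k (j + 1) = (-(2 * k), 10 * k - (j + 1)) := by
      unfold rp; rw [if_neg (by omega), if_neg (by omega), if_pos (by omega)]
    have e0 : rp k j = (-(2 * k), 10 * k - j) := by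
      unfold rp
      split_ifs
      · exfalso; omega
      · refine Prod.ext ?_ ?_ <;> simp only <;> omega
      · rfl
      · exfalso; omega
    have e2 : rp k (j + 2) = (-(2 * k), 10 * k - (j + 2)) := by
      unfold rp; rw [if_neg (by omega), if_neg (by omega), if_pos (by omega)]
    obtain ⟨t1, t2⟩ := key (-(2 * k), 10 * k - (j + 1)) (-(2 * k), 10 * k - (j + 1) + 1)
      (-(2 * k), 10 * k - (j + 1)) e1 (by simp only; omega) (by simp) (by simp)
    refine ⟨?_, _, _, t1, t2, ?_, ?_, ?_, ?_, ?_⟩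
    · rw [e1, mem_BB']; simp only; omega
    · rw [e0]; unfold dbl vx; refine Prod.ext ?_ ?_ <;> simp only <;> omega
    · rw [e2]; unfold dbl vx; refine Prod.ext ?_ ?_ <;> simp only <;> omega
    · unfold fce; refine Prod.ext ?_ ?_ <;> simp only <;> omega
    · simp only; omega
    · simp only; omega
  · have e1 : rp k (j + 1) = (j + 1 - 14 * k, -(2 * k)) := by
      unfold rp; rw [if_neg (by omega), if_neg (by omega), if_neg (by omega)]
    have e0 : rp k j = (j - 14 * k, -(2 * k)) := by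
      unfold rp
      split_ifs
      · exfalso; omega
      · exfalso; omega
      · refine Prod.ext ?_ ?_ <;> simp only <;> omega
      · rfl
    have e2 : rp k (j + 2) = (j + 2 - 14 * k, -(2 * k)) := by
      unfold rp; rw [if_neg (by omega), if_neg (by omega), if_neg (by omega)]
    obtain ⟨t1, t2⟩ := key (j + 1 - 14 * k, -(2 * k)) (j + 1 - 14 * k, -(2 * k))
      (j + 1 - 14 * k + 1, -(2 * k)) e1 (by simp only; omega) (by simp) (by simp)
    refine ⟨?_, _, _, t1, t2, ?_, ?_, ?_, ?_, ?_⟩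
    · rw [e1, mem_BB']; simp only; omega
    · rw [e0]; unfold dbl vx; refine Prod.ext ?_ ?_ <;> simp only <;> omega
    · rw [e2]; unfold dbl vx; refine Prod.ext ?_ ?_ <;> simp only <;> omega
    · unfold fce; refine Prod.ext ?_ ?_ <;> simp only <;> omega
    · simp only; omega
    · simp only; omega

end HOrderAux

open HOrderAux

/-- on the ring the colour changes only at the two labels of the hits -/
theorem ring_step (hk : 1 ≤ k) (hω : ω ⊆ BB (M - 1)) (hc : lab c ∈ BB (M - 1)) (hc' : lab c ∉ BB k)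
    (hkM : k < M) (h1 : FX (BB M \ BB k) ω c x1) (h2 : BX (BB M \ BB k) ω c x2)
    (hR : ∀ z, R z → -(2 * k) + 1 ≤ z.1 ∧ z.1 ≤ 2 * k ∧ -(2 * k) + 1 ≤ z.2 ∧ z.2 ≤ 2 * k)
    (h : TCR (BB M \ BB k) ω c R S) {j : ℤ} (hj : 0 ≤ j) (hj' : j + 2 ≤ 16 * k) (hj2 : j % 2 = 0)
    (hn1 : rp k (j + 1) ≠ lab x1) (hn2 : rp k (j + 1) ≠ plab x2) :
    S (rp k j) = S (rp k (j + 2)) := by
  obtain ⟨hB, z, z', t, t', v, v', hf, n, n'⟩ := ring_corners hk hj hj' hj2
  have hnB : rp k (j + 1) ∉ BB M \ BB k := fun hh => (mem_sdiff.1 hh).2 hB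
  have s := no_touch_out h1 h2 hnB hn1 hn2
  have a := h.col z (s z t) (fun hr => n (hR z hr))
  have a' := h.col z' (s z' t') (fun hr => n' (hR z' hr))
  rw [v] at a
  rw [v'] at a'
  rw [a, a', hf]

namespace HOrderAux

lemma rp_inj (hk : 1 ≤ k) {i j : ℤ} (hi : 0 ≤ i) (hi' : i < 16 * k) (hj : 0 ≤ j)
    (hj' : j < 16 * k) (h : rp k i = rp k j) : i = j := by
  unfold rp at h
  split_ifs at h <;> simp only [Prod.mk.injEq] at h <;> omega

lemma rp_end (hk : 1 ≤ k) : rp k (16 * k) = rp k 0 := by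
  unfold rp
  rw [if_neg (by omega), if_neg (by omega), if_neg (by omega), if_pos (by omega)]
  refine Prod.ext ?_ ?_ <;> simp only <;> omega

/-- position of a forward hit on the ring -/
lemma pos_F (hk : 1 ≤ k) {b : ℤ} (hb : b % 2 = 0) (h : Hpos k b x) :
    0 ≤ clk k x ∧ clk k x + 2 ≤ 16 * k ∧ clk k x % 2 = 0 ∧ lab x = rp k (clk k x + 1) ∧
    dbl (vx x) = rp k (clk k x) := by
  obtain ⟨h1, h2, rfl | rfl | rfl | rfl⟩ := h
  · have e : clk k (2 * k + 1, 1 - b) = 2 * k - b := by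
      unfold clk; simp only; rw [if_pos trivial]; omega
    rw [e]
    refine ⟨by omega, by omega, by omega, ?_, ?_⟩
    · unfold rp lab
      simp only
      split_ifs <;> first
        | (exfalso; omega)
        | (refine Prod.ext ?_ ?_ <;> simp only <;> omega)
    · unfold rp dbl vx
      simp only
      split_ifs <;> first
        | (exfalso; omega)
        | (refine Prod.ext ?_ ?_ <;> simp only <;> omega)
  · have e : clk k (b, 2 * k + 1) = 6 * k - b := by
      unfold clk; simp only; rw [if_neg (by omega), if_pos trivial]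
    rw [e]
    refine ⟨by omega, by omega, by omega, ?_, ?_⟩
    · unfold rp lab
      simp only
      split_ifs <;> first
        | (exfalso; omega)
        | (refine Prod.ext ?_ ?_ <;> simp only <;> omega)
    · unfold rp dbl vx
      simp only
      split_ifs <;> first
        | (exfalso; omega)
        | (refine Prod.ext ?_ ?_ <;> simp only <;> omega)
  · have e : clk k (-(2 * k), b) = 10 * k - b := by
      unfold clk; simp only; rw [if_neg (by omega), if_neg (by omega), if_pos trivial]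
    rw [e]
    refine ⟨by omega, by omega, by omega, ?_, ?_⟩
    · unfold rp lab
      simp only
      split_ifs <;> first
        | (exfalso; omega)
        | (refine Prod.ext ?_ ?_ <;> simp only <;> omega)
    · unfold rp dbl vx
      simp only
      split_ifs <;> first
        | (exfalso; omega)
        | (refine Prod.ext ?_ ?_ <;> simp only <;> omega)
  · have e : clk k (1 - b, -(2 * k)) = 14 * k - b := by
      unfold clk; simp only; rw [if_neg (by omega), if_neg (by omega), if_neg (by omega)]; omega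
    rw [e]
    refine ⟨by omega, by omega, by omega, ?_, ?_⟩
    · unfold rp lab
      simp only
      split_ifs <;> first
        | (exfalso; omega)
        | (refine Prod.ext ?_ ?_ <;> simp only <;> omega)
    · unfold rp dbl vx
      simp only
      split_ifs <;> first
        | (exfalso; omega)
        | (refine Prod.ext ?_ ?_ <;> simp only <;> omega)

/-- position of a backward hit on the ring -/
lemma pos_B (hk : 1 ≤ k) {b : ℤ} (hb : b % 2 = 1) (h : Hpos k b x) :
    0 ≤ clk k x ∧ clk k x + 1 ≤ 16 * k ∧ clk k x % 2 = 1 ∧ plab x = rp k (clk k x) := by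
  obtain ⟨h1, h2, rfl | rfl | rfl | rfl⟩ := h
  · have e : clk k (2 * k + 1, 1 - b) = 2 * k - b := by
      unfold clk; simp only; rw [if_pos trivial]; omega
    rw [e]
    refine ⟨by omega, by omega, by omega, ?_⟩
    unfold rp plab
    simp only
    split_ifs <;> first
      | (exfalso; omega)
      | (refine Prod.ext ?_ ?_ <;> simp only <;> omega)
  · have e : clk k (b, 2 * k + 1) = 6 * k - b := by
      unfold clk; simp only; rw [if_neg (by omega), if_pos trivial]
    rw [e]
    refine ⟨by omega, by omega, by omega, ?_⟩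
    unfold rp plab
    simp only
    split_ifs <;> first
      | (exfalso; omega)
      | (refine Prod.ext ?_ ?_ <;> simp only <;> omega)
  · have e : clk k (-(2 * k), b) = 10 * k - b := by
      unfold clk; simp only; rw [if_neg (by omega), if_neg (by omega), if_pos trivial]
    rw [e]
    refine ⟨by omega, by omega, by omega, ?_⟩
    unfold rp plab
    simp only
    split_ifs <;> first
      | (exfalso; omega)
      | (refine Prod.ext ?_ ?_ <;> simp only <;> omega)
  · by_cases h0 : 1 - b = -(2 * k)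
    · exfalso; omega
    have e : clk k (1 - b, -(2 * k)) = 14 * k - b := by
      unfold clk; simp only; rw [if_neg (by omega), if_neg (by omega), if_neg (by omega)]; omega
    rw [e]
    refine ⟨by omega, by omega, by omega, ?_⟩
    unfold rp plab
    simp only
    split_ifs <;> first
      | (exfalso; omega)
      | (refine Prod.ext ?_ ?_ <;> simp only <;> omega)

/-- remainder of a difference -/
lemma rem_sub {a b n : ℤ} (ha : 0 ≤ a) (ha' : a < n) (hb : 0 ≤ b) (hb' : b < n) :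
    (b ≤ a → (a - b) % n = a - b) ∧ (a < b → (a - b) % n = a - b + n) := by
  constructor
  · intro h
    exact Int.emod_eq_of_lt (by omega) (by omega)
  · intro h
    rw [← Int.add_emod_right (a - b) n]
    exact Int.emod_eq_of_lt (by omega) (by omega)

/-- the colour is `true` clockwise from the forward hit to the label of the backward hit -/
lemma arc_true (hk : 1 ≤ k) (hω : ω ⊆ BB (M - 1)) (hc : lab c ∈ BB (M - 1)) (hc' : lab c ∉ BB k)
    (hkM : k < M) (h1 : FX (BB M \ BB k) ω c x1) (h2 : BX (BB M \ BB k) ω c x2)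
    (hR : ∀ z, R z → -(2 * k) + 1 ≤ z.1 ∧ z.1 ≤ 2 * k ∧ -(2 * k) + 1 ≤ z.2 ∧ z.2 ≤ 2 * k)
    (h : TCR (BB M \ BB k) ω c R S) {f b d : ℤ}
    (hf : f = clk k x1) (hb : b = clk k x2) (hd : d = f - b ∨ d = f - b + 16 * k)
    (hd' : d < 16 * k) (i : ℕ) :
    ∀ g : ℤ, 2 * (i : ℤ) < d → (g = f - 2 * i ∨ g = f - 2 * i + 16 * k) → 0 ≤ g → g < 16 * k →
      S (rp k g) = true := by
  obtain ⟨-, -, b1, hb1, hp1⟩ := FX_hole hk hω hc hc' h1
  obtain ⟨-, -, b2, hb2, hp2⟩ := BX_hole hk hω hc hc' h2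
  obtain ⟨f1, f2, f3, f4, f5⟩ := pos_F hk hb1 hp1
  obtain ⟨g1, g2, g3, g4⟩ := pos_B hk hb2 hp2
  rw [← hf] at f1 f2 f3 f4 f5
  rw [← hb] at g1 g2 g3 g4
  induction i with
  | zero =>
    intro g _ hg hg1 hg2
    have : g = f := by
      simp only [Nat.cast_zero] at hg
      omega
    rw [this, ← f5]
    exact (h.str x1 (TrackAux.FX_Str h1)).1
  | succ i ih =>
    intro g hi hg hg1 hg2
    push_cast at hi hg
    have hstep : S (rp k g) = S (rp k (g + 2)) := by
      refine ring_step hk hω hc hc' hkM h1 h2 hR h hg1 (by omega) (by omega) ?_ ?_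
      · rw [f4]
        intro hh
        have := rp_inj hk (by omega) (by omega) (by omega) (by omega) hh
        omega
      · rw [g4]
        intro hh
        have := rp_inj hk (by omega) (by omega) (by omega) (by omega) hh
        omega
    rw [hstep]
    by_cases hg3 : g + 2 = 16 * k
    · rw [hg3, rp_end hk]
      exact ih 0 (by omega) (by omega) (by omega) (by omega)
    · exact ih (g + 2) (by omega) (by omega) (by omega) (by omega)

/-- a hit of the other strands is in the other arc -/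
lemma arc_lt (h : Hole k M e ω) (hA : A4 (BB M \ BB k) e ω) {d : ℤ × ℤ}
    (hcd : (c = zu e ∧ d = zv e) ∨ (c = zv e ∧ d = zu e))
    (h1 : FX (BB M \ BB k) (ω.erase e) c x1) (h2 : BX (BB M \ BB k) (ω.erase e) c x2)
    (h3 : FX (BB M \ BB k) (ω.erase e) d x3) :
    (clk k x1 - clk k x2) % (16 * k) < (clk k x1 - clk k x3) % (16 * k) := by
  obtain ⟨hL1, hL2, hn⟩ := hA
  obtain ⟨o1, o2, l1, l2, -, -⟩ := opc_zu h.he
  have hk := h.hk
  have hkM : k < M := by
    by_contra hh
    apply h.hB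
    have := mem_BB'.1 h.hE
    rw [mem_BB']
    omega
  have hω : ω.erase e ⊆ BB (M - 1) := (erase_subset _ _).trans h.hw
  have hlc : lab c = e := by rcases hcd with ⟨rfl, rfl⟩ | ⟨rfl, rfl⟩ <;> assumption
  have hld : lab d = e := by rcases hcd with ⟨rfl, rfl⟩ | ⟨rfl, rfl⟩ <;> assumption
  have hod : opc c = d := by rcases hcd with ⟨rfl, rfl⟩ | ⟨rfl, rfl⟩ <;> assumption
  have hns : ¬ Str (BB M \ BB k) (ω.erase e) c d := by
    rcases hcd with ⟨rfl, rfl⟩ | ⟨rfl, rfl⟩
    · exact hn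
    · exact fun hs => hn (Str_symm hs)
  have hcE : lab c ∈ BB (M - 1) := by rw [hlc]; exact h.hE
  have hcB : lab c ∉ BB k := by rw [hlc]; exact h.hB
  have hdE : lab d ∈ BB (M - 1) := by rw [hld]; exact h.hE
  have hdB : lab d ∉ BB k := by rw [hld]; exact h.hB
  have hcIn : lab c ∈ BB M \ BB k := by
    rw [mem_sdiff]
    refine ⟨?_, hcB⟩
    have := mem_BB'.1 hcE
    rw [mem_BB']
    omega
  obtain ⟨hclo, hin⟩ := clo_hole hk hω hcE hcB h1 h2
  obtain ⟨S, hS⟩ := exists_TCR hcIn h1 h2 hclo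
  have hfalse : S (dbl (vx x3)) = false := by
    refine (other_false hcIn ?_ hS hclo.out ?_ ?_).1
    · rw [hlc]; exact notMem_erase _ _
    · rw [hod]; exact hns
    · rw [hod]; exact TrackAux.FX_Str h3
  obtain ⟨-, -, b1, hb1, hp1⟩ := FX_hole hk hω hcE hcB h1
  obtain ⟨-, -, b2, hb2, hp2⟩ := BX_hole hk hω hcE hcB h2
  obtain ⟨-, -, b3, hb3, hp3⟩ := FX_hole hk hω hdE hdB h3
  obtain ⟨f1, f2, f3, f4, f5⟩ := pos_F hk hb1 hp1
  obtain ⟨g1, g2, g3, g4⟩ := pos_B hk hb2 hp2
  obtain ⟨e1, e2, e3, e4, e5⟩ := pos_F hk hb3 hp3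
  rw [e5] at hfalse
  have r2 := rem_sub (a := clk k x1) (b := clk k x2) (n := 16 * k) (by omega) (by omega)
    (by omega) (by omega)
  have r3 := rem_sub (a := clk k x1) (b := clk k x3) (n := 16 * k) (by omega) (by omega)
    (by omega) (by omega)
  generalize hf : clk k x1 = f at *
  generalize hb : clk k x2 = b at *
  generalize hg : clk k x3 = g at *
  generalize hd2 : (f - b) % (16 * k) = d2 at *
  generalize hd3 : (f - g) % (16 * k) = d3 at *
  by_contra hcon
  have hd3' : d3 = f - g ∨ d3 = f - g + 16 * k := by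
    rcases le_or_gt g f with hh | hh
    · exact Or.inl (r3.1 hh)
    · exact Or.inr (r3.2 hh)
  have hd2' : d2 = f - b ∨ d2 = f - b + 16 * k := by
    rcases le_or_gt b f with hh | hh
    · exact Or.inl (r2.1 hh)
    · exact Or.inr (r2.2 hh)
  have hd20 : 0 ≤ d2 := by
    rcases le_or_gt b f with hh | hh
    · rw [r2.1 hh]; omega
    · rw [r2.2 hh]; omega
  have hd30 : 0 ≤ d3 := by
    rcases le_or_gt g f with hh | hh
    · rw [r3.1 hh]; omega
    · rw [r3.2 hh]; omega
  have hd21 : d2 < 16 * k := by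
    rcases le_or_gt b f with hh | hh
    · rw [r2.1 hh]; omega
    · rw [r2.2 hh]; omega
  have hev : d3 % 2 = 0 := by omega
  obtain ⟨i, hi⟩ : ∃ i : ℕ, d3 = 2 * (i : ℤ) := ⟨(d3 / 2).toNat, by omega⟩
  have := arc_true hk hω hcE hcB hkM h1 h2 hin hS hf.symm hb.symm hd2' hd21 i g
    (by omega) (by omega) (by omega) (by omega)
  rw [this] at hfalse
  exact absurd hfalse (by simp)

end HOrderAux

/-- The four hits are in the clockwise order `Fu, Bu, Fv, Bv`. -/
theorem cyc_hole (h : Hole k M e ω) (hA : A4 (BB M \ BB k) e ω)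
    (h1 : FX (BB M \ BB k) (ω.erase e) (zu e) x1) (h2 : BX (BB M \ BB k) (ω.erase e) (zu e) x2)
    (h3 : FX (BB M \ BB k) (ω.erase e) (zv e) x3) (h4 : BX (BB M \ BB k) (ω.erase e) (zv e) x4) :
    0 < (clk k x1 - clk k x2) % (16 * k) ∧
    (clk k x1 - clk k x2) % (16 * k) < (clk k x1 - clk k x3) % (16 * k) ∧
    (clk k x1 - clk k x3) % (16 * k) < (clk k x1 - clk k x4) % (16 * k) := by
  have l1 := arc_lt h hA (Or.inl ⟨rfl, rfl⟩) h1 h2 h3
  have l2 := arc_lt h hA (Or.inr ⟨rfl, rfl⟩) h3 h4 h1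
  have hk := h.hk
  obtain ⟨-, -, m1, m2, -, -⟩ := opc_zu h.he
  have hω : ω.erase e ⊆ BB (M - 1) := (erase_subset _ _).trans h.hw
  have hu1 : lab (zu e) ∈ BB (M - 1) := by rw [m1]; exact h.hE
  have hu2 : lab (zu e) ∉ BB k := by rw [m1]; exact h.hB
  have hv1 : lab (zv e) ∈ BB (M - 1) := by rw [m2]; exact h.hE
  have hv2 : lab (zv e) ∉ BB k := by rw [m2]; exact h.hB
  obtain ⟨-, -, b1, hb1, hp1⟩ := FX_hole hk hω hu1 hu2 h1
  obtain ⟨-, -, b2, hb2, hp2⟩ := BX_hole hk hω hu1 hu2 h2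
  obtain ⟨-, -, b3, hb3, hp3⟩ := FX_hole hk hω hv1 hv2 h3
  obtain ⟨-, -, b4, hb4, hp4⟩ := BX_hole hk hω hv1 hv2 h4
  obtain ⟨f1, f2, f3, -, -⟩ := pos_F hk hb1 hp1
  obtain ⟨g1, g2, g3, -⟩ := pos_B hk hb2 hp2
  obtain ⟨p1, p2, p3, -, -⟩ := pos_F hk hb3 hp3
  obtain ⟨q1, q2, q3, -⟩ := pos_B hk hb4 hp4
  have r12 := rem_sub (a := clk k x1) (b := clk k x2) (n := 16 * k) (by omega) (by omega)
    (by omega) (by omega)
  have r13 := rem_sub (a := clk k x1) (b := clk k x3) (n := 16 * k) (by omega) (by omega)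
    (by omega) (by omega)
  have r14 := rem_sub (a := clk k x1) (b := clk k x4) (n := 16 * k) (by omega) (by omega)
    (by omega) (by omega)
  have r34 := rem_sub (a := clk k x3) (b := clk k x4) (n := 16 * k) (by omega) (by omega)
    (by omega) (by omega)
  have r31 := rem_sub (a := clk k x3) (b := clk k x1) (n := 16 * k) (by omega) (by omega)
    (by omega) (by omega)
  generalize clk k x1 = c1 at *
  generalize clk k x2 = c2 at *
  generalize clk k x3 = c3 at *
  generalize clk k x4 = c4 at *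
  generalize (c1 - c2) % (16 * k) = d12 at *
  generalize (c1 - c3) % (16 * k) = d13 at *
  generalize (c1 - c4) % (16 * k) = d14 at *
  generalize (c3 - c4) % (16 * k) = d34 at *
  generalize (c3 - c1) % (16 * k) = d31 at *
  refine ⟨?_, l1, ?_⟩ <;> omega

end

end Pool.Agent.H75.Four
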