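import Mathlib
import Pool.Agent.H75.Four.FCol
import Pool.Agent.H75.Four.FOther
import Pool.Agent.H75.Four.FPath
import Pool.Agent.H75.Four.FRot
import Pool.Agent.H75.Four.HPos
import Pool.Agent.H75.Four.HCol
import Pool.Agent.H75.Four.HOrder
import Pool.Agent.H75.Four.HArm

set_option autoImplicit false
open Finset

/-! FB4, second part: survival at the hole. -/

namespace Pool.Agent.H75.Four

open Pool.Agent.H75.Perc
open Pool.Agent.H75.TwoArm

namespace HSurvAux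

open HPosAux HColAux PathAux

variable {ω ω'' : Finset (ℤ × ℤ)} {c x x' x1 x2 x3 x4 y e : ℤ × ℤ} {k k' M W C : ℤ}

lemma BB_mono {r s : ℤ} (h : r ≤ s) : BB r ⊆ BB s := by
  intro a ha
  rw [mem_BB] at ha ⊢
  omega

/-- position and clock of a hit -/
lemma clk_pos {b : ℤ} (hk : 1 ≤ k) (h : Hpos k b y) :
    0 ≤ clk k y ∧ clk k y < 16 * k ∧
    (8 * k ≤ clk k y → clk k y ≤ 12 * k - 1 → y = (-(2 * k), b) ∧ clk k y = 10 * k - b) := by
  obtain ⟨h1, h2, h3⟩ := h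
  rcases h3 with rfl | rfl | rfl | rfl
  · have : clk k (2 * k + 1, 1 - b) = 2 * k - b := by
      unfold clk
      rw [if_pos rfl]
      simp only
      ring
    rw [this]
    refine ⟨by omega, by omega, fun h4 _ => by omega⟩
  · have : clk k (b, 2 * k + 1) = 6 * k - b := by
      unfold clk
      rw [if_neg (by simp only; omega), if_pos rfl]
    rw [this]
    refine ⟨by omega, by omega, fun h4 _ => by omega⟩
  · have : clk k (-(2 * k), b) = 10 * k - b := by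
      unfold clk
      rw [if_neg (by simp only; omega), if_neg (by simp only; omega), if_pos rfl]
    rw [this]
    exact ⟨by omega, by omega, fun _ _ => ⟨rfl, rfl⟩⟩
  · have : clk k (1 - b, -(2 * k)) = 14 * k - b := by
      unfold clk
      rw [if_neg (by simp only; omega), if_neg (by simp only; omega), if_neg (by simp only; omega)]
      simp only
      ring
    rw [this]
    refine ⟨by omega, by omega, fun _ h4 => by omega⟩

lemma clk_west {t : ℤ} (hk : 1 ≤ k) (ht : t ≤ 2 * k) : clk k (-(2 * k), t) = 10 * k - t := by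
  unfold clk
  rw [if_neg (by simp only; omega), if_neg (by simp only; omega), if_pos rfl]

/-- a hit just after a hit of the left side in the clockwise order -/
lemma succ_west {b t t' : ℤ} (hk : 1 ≤ k) (h : Hpos k b y) (ht1 : -(2 * k) + 1 ≤ t)
    (ht3 : t' ≤ 2 * k) (htt : t < t')
    (h0 : 0 < (clk k (-(2 * k), t) - clk k y) % (16 * k))
    (h1 : (clk k (-(2 * k), t) - clk k y) % (16 * k) ≤ t' - t) :
    y = (-(2 * k), b) ∧ t < b ∧ b ≤ t' := by
  obtain ⟨c1, c2, c3⟩ := clk_pos hk h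
  rw [clk_west hk (by omega)] at h0 h1
  by_cases hs : 0 ≤ 10 * k - t - clk k y
  · rw [Int.emod_eq_of_lt hs (by omega)] at h0 h1
    obtain ⟨c4, c5⟩ := c3 (by omega) (by omega)
    rw [c5] at h0 h1
    exact ⟨c4, by omega, by omega⟩
  · exfalso
    have h2 : (10 * k - t - clk k y) % (16 * k) = 10 * k - t - clk k y + 16 * k := by
      rw [← Int.add_emod_right]
      exact Int.emod_eq_of_lt (by omega) (by omega)
    rw [h2] at h0 h1
    omega

/-- modular arithmetic of differences -/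
lemma mod_sub {n a b c : ℤ} (_hn : 0 < n) :
    (b - c) % n = ((a - c) % n - (a - b) % n) % n := by
  have h : b - c = (a - c) - (a - b) := by ring
  rw [h, Int.sub_emod]

/-- the successor: four numbers in cyclic order -/
lemma succ_arith {n c1 c2 c3 c4 : ℤ} (hn : 0 < n) (h1 : 0 < (c1 - c2) % n)
    (h2 : (c1 - c2) % n < (c1 - c3) % n) (h3 : (c1 - c3) % n < (c1 - c4) % n) :
    (0 < (c1 - c2) % n ∧ 0 < (c2 - c3) % n ∧ 0 < (c3 - c4) % n ∧ 0 < (c4 - c1) % n) ∧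
    ((c1 - c2) % n ≤ (c1 - c3) % n ∧ (c1 - c2) % n ≤ (c1 - c4) % n) ∧
    ((c2 - c3) % n ≤ (c2 - c4) % n ∧ (c2 - c3) % n ≤ (c2 - c1) % n) ∧
    ((c3 - c4) % n ≤ (c3 - c1) % n ∧ (c3 - c4) % n ≤ (c3 - c2) % n) ∧
    ((c4 - c1) % n ≤ (c4 - c2) % n ∧ (c4 - c1) % n ≤ (c4 - c3) % n) := by
  have l4 : (c1 - c4) % n < n := Int.emod_lt_of_pos _ hn
  have key : ∀ x y : ℤ, (c1 - x) % n ≤ (c1 - y) % n →
      (x - y) % n = (c1 - y) % n - (c1 - x) % n := by
    intro x y hxy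
    rw [mod_sub (a := c1) hn]
    have g1 := Int.emod_nonneg (c1 - x) hn.ne'
    have g2 := Int.emod_lt_of_pos (c1 - y) hn
    exact Int.emod_eq_of_lt (by omega) (by omega)
  have key' : ∀ x y : ℤ, (c1 - y) % n < (c1 - x) % n →
      (x - y) % n = (c1 - y) % n - (c1 - x) % n + n := by
    intro x y hxy
    rw [mod_sub (a := c1) hn]
    have g1 := Int.emod_nonneg (c1 - y) hn.ne'
    have g2 := Int.emod_lt_of_pos (c1 - x) hn
    rw [← Int.add_emod_right]
    exact Int.emod_eq_of_lt (by omega) (by omega)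
  have z : (c1 - c1) % n = 0 := by rw [sub_self]; exact Int.zero_emod n
  have e23 := key c2 c3 h2.le
  have e24 := key c2 c4 (by omega)
  have e34 := key c3 c4 h3.le
  have e21 := key' c2 c1 (by omega)
  have e31 := key' c3 c1 (by omega)
  have e32 := key' c3 c2 (by omega)
  have e41 := key' c4 c1 (by omega)
  have e42 := key' c4 c2 (by omega)
  have e43 := key' c4 c3 (by omega)
  omega

/-- raw conclusion in the frame of the left side -/
def Raw (k k' M : ℤ) (t t' : ℤ) (ω'' : Finset (ℤ × ℤ)) : Prop :=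
  (∃ p q : ℤ × ℤ, -(2 * k) - 3 ≤ 2 * p.1 ∧ 2 * p.1 ≤ -(2 * k) + 3 ∧ t - 3 ≤ 2 * p.2 ∧
    2 * p.2 ≤ t' + 3 ∧ |q.1| ≤ k' ∧ |q.2| ≤ k' ∧ Co (ω'' ∩ (BB M \ BB k')) p q) ∨
  (∃ f g : ℤ × ℤ, -(2 * k) - 3 ≤ 2 * f.1 ∧ 2 * f.1 ≤ -(2 * k) + 3 ∧ t - 3 ≤ 2 * f.2 ∧
    2 * f.2 ≤ t' + 3 ∧ -k' ≤ g.1 ∧ g.1 ≤ k' + 1 ∧ -k' ≤ g.2 ∧ g.2 ≤ k' + 1 ∧
    Co (du (BB M \ BB k') ω'') f g)

lemma hole_mix {U : Finset (ℤ × ℤ)} (h : Hole k M e ω) (h'' : ω'' ⊆ BB (M - 1)) (hk' : 1 ≤ k')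
    (hkk : k' ≤ k) : Hole k' M e (mix U ω ω'') := by
  refine ⟨hk', h.he, h.hE, fun h' => h.hB (BB_mono hkk h'), ?_⟩
  intro a ha
  rw [mem_mix] at ha
  rcases ha with ha | ha
  · exact h.hw ha.1
  · exact h'' ha.1

lemma hole_lt (h : Hole k M e ω) : k < M := by
  have h1 := h.hE
  have h2 := h.hB
  by_contra hn
  exact h2 (BB_mono (by omega) h1)

/-- consecutive hits: forward below backward -/
lemma core_FB {t t' : ℤ} (h : Hole k M e ω) (h'' : ω'' ⊆ BB (M - 1)) (hk' : 1 ≤ k')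
    (hkk : k' + 3 ≤ k) (hA : A4 (BB M \ BB k) e ω)
    (hA' : A4 (BB M \ BB k') e (mix (U4 (BB M \ BB k) e ω) ω ω''))
    (hc : c = zu e ∨ c = zv e) (h1 : FX (BB M \ BB k) (ω.erase e) c (-(2 * k), t))
    (h2 : BX (BB M \ BB k) (ω.erase e) c (-(2 * k), t')) (htt : t < t') :
    Raw k k' M t t' ω'' := by
  set U := U4 (BB M \ BB k) e ω with hU
  set ωm := mix U ω ω'' with hωm
  have hkM := hole_lt h
  have hm : Hole k' M e ωm := hole_mix h h'' hk' (by omega)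
  have hlab : lab c = e := lab_c h.he hc
  have heB : e ∈ BB M \ BB k := mem_sdiff.2 ⟨BB_mono (by omega) h.hE, h.hB⟩
  obtain ⟨hclo, hcol⟩ := clo_colFB h.hk hkM h.erase.hw (by rw [hlab]; exact h.hE)
    (by rw [hlab]; exact h.hB) h1 h2 htt
  obtain ⟨S, hS⟩ := exists_TCR (by rw [hlab]; exact heB) h1 h2 hclo
  have hcolS := hcol S hS
  -- the hit of the smaller hole
  have hL : Leave (BB M \ BB k') (ωm.erase e) c := by
    rcases hc with rfl | rfl
    · exact hA'.1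
    · exact hA'.2.1
  obtain ⟨y, hy⟩ := (leave_exits hL).1
  obtain ⟨-, hco, hy1, hy2, -⟩ := (hit_co hm hA' hc).1 y (Or.inl hy)
  have hset : (ωm ∩ (BB M \ BB k')).erase e = (ωm \ BB k').erase e := by
    congr 1
    ext a
    rw [mem_inter, mem_sdiff, mem_sdiff]
    constructor
    · rintro ⟨a1, -, a3⟩; exact ⟨a1, a3⟩
    · rintro ⟨a1, a3⟩; exact ⟨a1, BB_mono (by omega) (hm.hw a1), a3⟩
  have hn : ¬ Co ((ωm ∩ (BB M \ BB k')).erase e) (vx c) (vx (opc c)) := by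
    rw [hset]
    have h3 := ((A4_hole_iff hm (by omega)).1 hA').2
    obtain ⟨o1, o2, -, -, o5, o6⟩ := opc_zu h.he
    rcases hc with rfl | rfl
    · rw [o1, o5, o6]; exact h3
    · rw [o2, o5, o6]; exact fun h4 => h3 h4.symm
  have hD : U ⊆ BB M \ BB k' := by
    intro a ha
    have h3 := mem_sdiff.1 (U4_sub _ _ _ ha)
    exact mem_sdiff.2 ⟨h3.1, fun h4 => h3.2 (BB_mono (by omega) h4)⟩
  rw [abs_le] at hy1 hy2
  obtain ⟨p, p', hpp, htch, hp⟩ := survive4 (ω'' := ω'') (q := vx y) h.he heB hA hc h1 h2 hclo hS hD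
    (by rw [hset]; exact hco) (hcolS _ (by unfold dbl; simp only; omega)
      (by unfold dbl; simp only; omega) (by unfold dbl; simp only; omega)
      (by unfold dbl; simp only; omega) (by unfold dbl; simp only; omega)) hn
  left
  have hodd := odd_of_unit hpp
  have hpos : -(2 * k) ≤ (p + p').1 ∧ (p + p').1 ≤ -(2 * k) + 1 ∧ t - 1 ≤ (p + p').2 ∧
      (p + p').2 ≤ t' := by
    rcases htch with ⟨z, ⟨z1, z2, z3⟩, hz⟩ | hz
    · rw [Tch_iff hodd] at hz
      rcases hz with rfl | rfl | rfl | rfl <;> (try simp only at z1 z2 z3) <;> omega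
    · obtain ⟨-, -, b, hbe, hb⟩ := FX_hole h.hk h.erase.hw (by rw [hlab]; exact h.hE)
        (by rw [hlab]; exact h.hB) h1
      obtain ⟨rfl, -, -⟩ := hit_west h.hk hb
      rw [hz, (lab_hit h.hk hbe).1]
      simp only
      omega
  refine ⟨p, vx y, ?_, ?_, ?_, ?_, abs_le.2 hy1, abs_le.2 hy2, hp.mono sdiff_subset⟩ <;>
    (have := unit_cases hpp; simp only [Prod.fst_add, Prod.snd_add] at hpos; omega)

/-- consecutive hits: backward below forward -/
lemma core_BF {t t' : ℤ} (h : Hole k M e ω) (h'' : ω'' ⊆ BB (M - 1)) (hk' : 1 ≤ k')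
    (hkk : k' + 3 ≤ k) (hA : A4 (BB M \ BB k) e ω)
    (hA' : A4 (BB M \ BB k') e (mix (U4 (BB M \ BB k) e ω) ω ω''))
    (hc : c = zu e ∨ c = zv e) (h1 : BX (BB M \ BB k) (insert e ω) c (-(2 * k), t))
    (h2 : FX (BB M \ BB k) (insert e ω) c (-(2 * k), t')) (htt : t < t') :
    Raw k k' M t t' ω'' := by
  set U := U4 (BB M \ BB k) e ω with hU
  set ωm := mix U ω ω'' with hωm
  have hkM := hole_lt h
  have hm : Hole k' M e ωm := hole_mix h h'' hk' (by omega)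
  have hlab : lab c = e := lab_c h.he hc
  have heB : e ∈ BB M \ BB k := mem_sdiff.2 ⟨BB_mono (by omega) h.hE, h.hB⟩
  have heB' : e ∈ BB M \ BB k' := mem_sdiff.2 ⟨BB_mono (by omega) h.hE, hm.hB⟩
  obtain ⟨hclo, hcol⟩ := clo_colBF h.hk hkM h.insert.hw (by rw [hlab]; exact h.hE)
    (by rw [hlab]; exact h.hB) h1 h2 htt
  obtain ⟨S, hS⟩ := exists_TCR (by rw [hlab]; exact heB) h2 h1 hclo
  have hcolS := hcol S hS
  -- the hit of the smaller hole
  have hL : Leave (BB M \ BB k') (insert e ωm) c := by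
    have hA2 := (A4_insert h.he heB').1 hA'
    rcases hc with rfl | rfl
    · exact hA2.1
    · exact hA2.2.1
  obtain ⟨y, hy⟩ := (leave_exits hL).1
  obtain ⟨-, hco⟩ := (hit_co hm hA' hc).2 y (Or.inl hy)
  obtain ⟨-, -, b', -, hb'⟩ := FX_hole hm.hk hm.insert.hw (by rw [hlab]; exact h.hE)
    (by rw [hlab]; exact hm.hB) hy
  have hn : ¬ Co (du (BB M \ BB k') (insert e ωm)) (fi c) (fi (opc c)) := by
    have h3 := A4_hole_dual hm (by omega) hA'
    obtain ⟨o1, o2, -⟩ := opc_zu h.he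
    rcases hc with rfl | rfl
    · rw [o1]; exact h3
    · rw [o2]; exact fun h4 => h3 h4.symm
  have hD : U ⊆ BB M \ BB k' := by
    intro a ha
    have h3 := mem_sdiff.1 (U4_sub _ _ _ ha)
    exact mem_sdiff.2 ⟨h3.1, fun h4 => h3.2 (BB_mono (by omega) h4)⟩
  have hy1 : -k' ≤ (fi y).1 ∧ (fi y).1 ≤ k' + 1 ∧ -k' ≤ (fi y).2 ∧ (fi y).2 ≤ k' + 1 := by
    obtain ⟨b1, b2, b3⟩ := hb'
    unfold fi
    rcases b3 with rfl | rfl | rfl | rfl <;> simp only <;> omega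
  obtain ⟨p, p', hpp, htch, hp⟩ := survived4 (ω'' := ω'') (q := fi y) h.he heB hA hc h2 h1 hclo hS
    hD hco (hcolS _ (by unfold fp; simp only; omega)
      (by unfold fp; simp only; omega) (by unfold fp; simp only; omega)
      (by unfold fp; simp only; omega) (by unfold fp; simp only; omega)) hn
  right
  have hodd := odd_of_unitd hpp
  have hpos : -(2 * k) ≤ (p + p' - (1, 1)).1 ∧ (p + p' - (1, 1)).1 ≤ -(2 * k) + 1 ∧
      t ≤ (p + p' - (1, 1)).2 ∧ (p + p' - (1, 1)).2 ≤ t' := by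
    rcases htch with ⟨z, ⟨z1, z2, z3⟩, hz⟩ | hz
    · rw [Tch_iff hodd] at hz
      rcases hz with rfl | rfl | rfl | rfl <;> (try simp only at z1 z2 z3) <;> omega
    · obtain ⟨-, -, b, hbo, hb⟩ := BX_hole h.hk h.insert.hw (by rw [hlab]; exact h.hE)
        (by rw [hlab]; exact h.hB) h1
      obtain ⟨rfl, -, -⟩ := hit_west h.hk hb
      rw [hz, (plab_hit h.hk hbo).1]
      simp only
      omega
  refine ⟨p, fi y, ?_, ?_, ?_, ?_, hy1.1, hy1.2.1, hy1.2.2.1, hy1.2.2.2,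
    hp.mono sdiff_subset⟩ <;>
    (have := unit_cases hpp
     simp only [Prod.fst_add, Prod.snd_add, Prod.fst_sub, Prod.snd_sub] at hpos; omega)


lemma Raw.mono {s s' t t' : ℤ} (h1 : t ≤ s) (h2 : s' ≤ t') (h : Raw k k' M s s' ω'') :
    Raw k k' M t t' ω'' := by
  rcases h with ⟨p, q, g1, g2, g3, g4, g5⟩ | ⟨f, g, g1, g2, g3, g4, g5⟩
  · exact Or.inl ⟨p, q, g1, g2, by omega, by omega, g5⟩
  · exact Or.inr ⟨f, g, g1, g2, by omega, by omega, g5⟩

lemma FX_uniq {B w : Finset (ℤ × ℤ)} (h : FX B w c x) (h' : FX B w c x') : x = x' := by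
  refine Str_FX h' (TrackAux.FX_Str h) ?_
  obtain ⟨j, -, h2, -⟩ := h
  exact h2

lemma BX_uniq {B w : Finset (ℤ × ℤ)} (h : BX B w c x) (h' : BX B w c x') : x = x' := by
  refine Str_BX h' (TrackAux.BX_Str h) ?_
  obtain ⟨j, -, h2, -⟩ := h
  exact h2

/-- the whole situation -/
structure Sit (k k' M : ℤ) (e : ℤ × ℤ) (ω ω'' : Finset (ℤ × ℤ)) (x x' : ℤ × ℤ) : Prop where
  h : Hole k M e ω
  h'' : ω'' ⊆ BB (M - 1)
  hk' : 1 ≤ k'
  hkk : k' + 3 ≤ k
  hA : A4 (BB M \ BB k) e ω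
  hx : ExB (BB M \ BB k) e ω x
  hx' : ExB (BB M \ BB k) e ω x'
  hA' : A4 (BB M \ BB k') e (mix (U4 (BB M \ BB k) e ω) ω ω'')

/-- survival in the frame of the left side -/
lemma surv_west (s : Sit k k' M e ω ω'' x x') (h1 : x.1 = -(2 * k)) (h2 : x'.1 = -(2 * k))
    (hxx : x.2 < x'.2) : Raw k k' M x.2 x'.2 ω'' := by
  obtain ⟨h, h'', hk', hkk, hA, hx, hx', hA'⟩ := s
  have heB : e ∈ BB M \ BB k := mem_sdiff.2 ⟨BB_mono (by omega) h.hE, h.hB⟩
  obtain ⟨⟨x1, f1⟩, ⟨x2, f2⟩⟩ := leave_exits hA.1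
  obtain ⟨⟨x3, f3⟩, ⟨x4, f4⟩⟩ := leave_exits hA.2.1
  obtain ⟨b1, p1⟩ := ExB_pos h (Or.inl f1)
  obtain ⟨b2, p2⟩ := ExB_pos h (Or.inr (Or.inl f2))
  obtain ⟨b3, p3⟩ := ExB_pos h (Or.inr (Or.inr (Or.inl f3)))
  obtain ⟨b4, p4⟩ := ExB_pos h (Or.inr (Or.inr (Or.inr f4)))
  obtain ⟨c1, c2, c3⟩ := cyc_hole h hA f1 f2 f3 f4
  have hn : 0 < 16 * k := by have := h.hk; omega
  obtain ⟨⟨n1, n2, n3, n4⟩, ⟨m1, m1'⟩, ⟨m2, m2'⟩, ⟨m3, m3'⟩, ⟨m4, m4'⟩⟩ := succ_arith hn c1 c2 c3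
  obtain ⟨b, pb⟩ := ExB_pos h hx
  obtain ⟨b', pb'⟩ := ExB_pos h hx'
  have ex : x = (-(2 * k), x.2) := Prod.ext h1 rfl
  have ex' : x' = (-(2 * k), x'.2) := Prod.ext h2 rfl
  rw [ex] at pb
  rw [ex'] at pb'
  obtain ⟨rfl, q1, q2⟩ := hit_west h.hk pb
  obtain ⟨rfl, q3, q4⟩ := hit_west h.hk pb'
  have hk := h.hk
  have hd : (clk k x - clk k x') % (16 * k) = x'.2 - x.2 := by
    have e1 : clk k x = 10 * k - x.2 := by rw [ex]; exact clk_west hk q2
    have e2 : clk k x' = 10 * k - x'.2 := by rw [ex']; exact clk_west hk q4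
    rw [e1, e2]
    have e3 : 10 * k - x.2 - (10 * k - x'.2) = x'.2 - x.2 := by ring
    rw [e3]
    exact Int.emod_eq_of_lt (by omega) (by omega)
  have key : ∀ {y : ℤ × ℤ} {b : ℤ}, Hpos k b y → 0 < (clk k x - clk k y) % (16 * k) →
      (clk k x - clk k y) % (16 * k) ≤ (clk k x - clk k x') % (16 * k) →
      y = (-(2 * k), b) ∧ x.2 < b ∧ b ≤ x'.2 := by
    intro y b hy hy0 hy1
    rw [hd] at hy1
    rw [ex] at hy0 hy1
    exact succ_west hk hy q1 q4 hxx hy0 hy1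
  have hne : x ≠ x' := fun h' => by rw [h'] at hxx; omega
  have u1 : ∀ {y : ℤ × ℤ}, FX (BB M \ BB k) (ω.erase e) (zu e) y → y = x1 := fun hy => FX_uniq hy f1
  have u2 : ∀ {y : ℤ × ℤ}, BX (BB M \ BB k) (ω.erase e) (zu e) y → y = x2 := fun hy => BX_uniq hy f2
  have u3 : ∀ {y : ℤ × ℤ}, FX (BB M \ BB k) (ω.erase e) (zv e) y → y = x3 := fun hy => FX_uniq hy f3
  have u4 : ∀ {y : ℤ × ℤ}, BX (BB M \ BB k) (ω.erase e) (zv e) y → y = x4 := fun hy => BX_uniq hy f4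
  have four : ∀ {y : ℤ × ℤ}, ExB (BB M \ BB k) e ω y → y = x1 ∨ y = x2 ∨ y = x3 ∨ y = x4 := by
    rintro y (hy | hy | hy | hy)
    · exact Or.inl (u1 hy)
    · exact Or.inr (Or.inl (u2 hy))
    · exact Or.inr (Or.inr (Or.inl (u3 hy)))
    · exact Or.inr (Or.inr (Or.inr (u4 hy)))
  have hf' := four hx'
  rcases four hx with g | g | g | g
  · -- forward of `u`, followed by backward of `u`
    have hle : (clk k x - clk k x2) % (16 * k) ≤ (clk k x - clk k x') % (16 * k) := by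
      rcases hf' with g' | g' | g' | g'
      · exact absurd (g.trans g'.symm) hne
      · rw [g, g']
      · rw [g, g']; exact m1
      · rw [g, g']; exact m1'
    obtain ⟨k1, k2, k3⟩ := key p2 (by rw [g]; exact n1) hle
    rw [k1] at f2
    rw [← g, ex] at f1
    exact (core_FB h h'' hk' hkk hA hA' (Or.inl rfl) f1 f2 k2).mono le_rfl k3
  · -- backward of `u`, followed by forward of `v`
    have hle : (clk k x - clk k x3) % (16 * k) ≤ (clk k x - clk k x') % (16 * k) := by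
      rcases hf' with g' | g' | g' | g'
      · rw [g, g']; exact m2'
      · exact absurd (g.trans g'.symm) hne
      · rw [g, g']
      · rw [g, g']; exact m2
    obtain ⟨k1, k2, k3⟩ := key p3 (by rw [g]; exact n2) hle
    rw [k1] at f3
    rw [← g, ex] at f2
    exact (core_BF h h'' hk' hkk hA hA' (Or.inl rfl)
      ((exits_insert h.he heB hA _).2.2.1.2 f2) ((exits_insert h.he heB hA _).1.2 f3) k2).mono
      le_rfl k3
  · -- forward of `v`, followed by backward of `v`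
    have hle : (clk k x - clk k x4) % (16 * k) ≤ (clk k x - clk k x') % (16 * k) := by
      rcases hf' with g' | g' | g' | g'
      · rw [g, g']; exact m3
      · rw [g, g']; exact m3'
      · exact absurd (g.trans g'.symm) hne
      · rw [g, g']
    obtain ⟨k1, k2, k3⟩ := key p4 (by rw [g]; exact n3) hle
    rw [k1] at f4
    rw [← g, ex] at f3
    exact (core_FB h h'' hk' hkk hA hA' (Or.inr rfl) f3 f4 k2).mono le_rfl k3
  · -- backward of `v`, followed by forward of `u`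
    have hle : (clk k x - clk k x1) % (16 * k) ≤ (clk k x - clk k x') % (16 * k) := by
      rcases hf' with g' | g' | g' | g'
      · rw [g, g']
      · rw [g, g']; exact m4
      · rw [g, g']; exact m4'
      · exact absurd (g.trans g'.symm) hne
    obtain ⟨k1, k2, k3⟩ := key p1 (by rw [g]; exact n4) hle
    rw [k1] at f1
    rw [← g, ex] at f4
    exact (core_BF h h'' hk' hkk hA hA' (Or.inr rfl)
      ((exits_insert h.he heB hA _).2.2.2.2 f4) ((exits_insert h.he heB hA _).2.1.2 f1) k2).mono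
      le_rfl k3

/-- the conclusion with constant `C` -/
def Concl (k' M C : ℤ) (x : ℤ × ℤ) (ω'' : Finset (ℤ × ℤ)) : Prop :=
  (∃ p q : ℤ × ℤ, |2 * p.1 - x.1| ≤ C ∧ |2 * p.2 - x.2| ≤ C ∧
    |q.1| ≤ k' ∧ |q.2| ≤ k' ∧ Co (ω'' ∩ (BB M \ BB k')) p q) ∨
  (∃ f g : ℤ × ℤ, |2 * f.1 - x.1| ≤ C ∧ |2 * f.2 - x.2| ≤ C ∧
    -k' ≤ g.1 ∧ g.1 ≤ k' + 1 ∧ -k' ≤ g.2 ∧ g.2 ≤ k' + 1 ∧
    Co (du (BB M \ BB k') ω'') f g)

lemma Concl.mono {C' : ℤ} (h : Concl k' M C x ω'') (hC : C ≤ C') : Concl k' M C' x ω'' := by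
  rcases h with ⟨p, q, g1, g2, g3⟩ | ⟨f, g, g1, g2, g3⟩
  · exact Or.inl ⟨p, q, g1.trans hC, g2.trans hC, g3⟩
  · exact Or.inr ⟨f, g, g1.trans hC, g2.trans hC, g3⟩

lemma concl_rot (h : Concl k' M C (rotc x) (ω''.map rotL)) : Concl k' M (C + 1) x ω'' := by
  have hB : BB M \ BB k' = (BB M \ BB k').map rotL := by
    rw [Finset.map_sdiff, SymmAux.map_rotL_BB, SymmAux.map_rotL_BB]
  rcases h with ⟨p, q, g1, g2, g3, g4, g5⟩ | ⟨f, g, g1, g2, g3, g4, g5, g6, g7⟩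
  · left
    refine ⟨(p.2, -p.1), (q.2, -q.1), ?_, ?_, g4, ?_, ?_⟩
    · unfold rotc at g2
      rw [abs_le] at g2 ⊢
      simp only at g2 ⊢
      omega
    · unfold rotc at g1
      rw [abs_le] at g1 ⊢
      simp only at g1 ⊢
      omega
    · simp only [abs_neg]; exact g3
    · rw [hB, ← map_inter] at g5
      have e1 : p = rv (p.2, -p.1) := by unfold rv; simp
      have e2 : q = rv (q.2, -q.1) := by unfold rv; simp
      rw [e1, e2] at g5
      exact Co_rot.1 g5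
  · right
    refine ⟨(f.2, 1 - f.1), (g.2, 1 - g.1), ?_, ?_, g5, g6, ?_, ?_, ?_⟩
    · unfold rotc at g2
      rw [abs_le] at g2 ⊢
      simp only at g2 ⊢
      omega
    · unfold rotc at g1
      rw [abs_le] at g1 ⊢
      simp only at g1 ⊢
      omega
    · simp only; omega
    · simp only; omega
    · rw [hB, du_rot] at g7
      have e1 : f = rf (f.2, 1 - f.1) := by unfold rf; simp
      have e2 : g = rf (g.2, 1 - g.1) := by unfold rf; simp
      rw [e1, e2] at g7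
      exact Co_rotD.1 g7

lemma BBk_rot (k M : ℤ) : (BB M \ BB k).map rotL = BB M \ BB k := by
  rw [Finset.map_sdiff, SymmAux.map_rotL_BB, SymmAux.map_rotL_BB]

lemma hole_rot (h : Hole k M e ω) : Hole k M (rotL e) (ω.map rotL) := by
  refine ⟨h.hk, ?_, SymmAux.rotL_mem_BB.2 h.hE, fun h' => h.hB (SymmAux.rotL_mem_BB.1 h'), ?_⟩
  · have := h.he
    unfold rotL
    simp only [Function.Embedding.coeFn_mk]
    omega
  · rw [← SymmAux.map_rotL_BB (M - 1)]
    exact map_subset_map.2 h.hw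

lemma ExB_rot (he : (e.1 + e.2) % 2 = 1) (h : ExB (BB M \ BB k) e ω x) :
    ExB (BB M \ BB k) (rotL e) (ω.map rotL) (rotc x) := by
  unfold ExB at h ⊢
  rw [← BBk_rot k M, ← erase_rot]
  rcases Int.emod_two_eq_zero_or_one e.1 with h1 | h1
  · obtain ⟨h3, h4⟩ := rotc_zu_v (e := e) h1 (by omega)
    rw [← h3, ← h4, FX_rot', BX_rot', FX_rot', BX_rot']
    tauto
  · obtain ⟨h3, h4⟩ := rotc_zu_h (e := e) h1 (by omega)
    rw [← h3, ← h4, FX_rot', BX_rot', FX_rot', BX_rot']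
    exact h

lemma Sit.rot (s : Sit k k' M e ω ω'' x x') :
    Sit k k' M (rotL e) (ω.map rotL) (ω''.map rotL) (rotc x) (rotc x') := by
  obtain ⟨h, h'', hk', hkk, hA, hx, hx', hA'⟩ := s
  refine ⟨hole_rot h, ?_, hk', hkk, ?_, ExB_rot h.he hx, ExB_rot h.he hx', ?_⟩
  · rw [← SymmAux.map_rotL_BB (M - 1)]
    exact map_subset_map.2 h''
  · rw [← BBk_rot k M, A4_rot h.he]; exact hA
  · rw [← BBk_rot k M, U4_rot h.he, ← mix_rot, ← BBk_rot k' M, A4_rot h.he]
    exact hA'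

lemma Sit.swap (s : Sit k k' M e ω ω'' x x') : Sit k k' M e ω ω'' x' x :=
  ⟨s.h, s.h'', s.hk', s.hkk, s.hA, s.hx', s.hx, s.hA'⟩

/-- the left side -/
lemma surv_left (s : Sit k k' M e ω ω'' x x') (h1 : x.1 = -(2 * k)) (h2 : x'.1 = -(2 * k))
    (hxx : x ≠ x') (hW : |x.2 - x'.2| ≤ W) : Concl k' M (W + 3) x ω'' := by
  have hne : x.2 ≠ x'.2 := fun h => hxx (Prod.ext (h1.trans h2.symm) h)
  rw [abs_le] at hW
  rcases lt_or_gt_of_ne hne with h | h
  · rcases surv_west s h1 h2 h with ⟨p, q, g1, g2, g3, g4, g5⟩ | ⟨f, g, g1, g2, g3, g4, g5⟩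
    · exact Or.inl ⟨p, q, by rw [abs_le]; omega, by rw [abs_le]; omega, g5⟩
    · exact Or.inr ⟨f, g, by rw [abs_le]; omega, by rw [abs_le]; omega, g5⟩
  · rcases surv_west s.swap h2 h1 h with ⟨p, q, g1, g2, g3, g4, g5⟩ | ⟨f, g, g1, g2, g3, g4, g5⟩
    · exact Or.inl ⟨p, q, by rw [abs_le]; omega, by rw [abs_le]; omega, g5⟩
    · exact Or.inr ⟨f, g, by rw [abs_le]; omega, by rw [abs_le]; omega, g5⟩

lemma rotc_ne (h : x ≠ x') : rotc x ≠ rotc x' := fun h' => h (SymmAux.rotc_inj.1 h')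

end HSurvAux

open HSurvAux

section

variable {B ω ω'' U F D E : Finset (ℤ × ℤ)} {c x x1 x2 x3 x4 z e e' p q : ℤ × ℤ}
  {R : ℤ × ℤ → Prop} {S : ℤ × ℤ → Bool} {k M : ℤ}

/-- Survival: two of the four strands hit the same side of the hole at distance at most `W`, and there
are four arms up to the smaller hole `BB k'` after resampling: the fresh configuration has an open or a
dual path from the window to the smaller hole. -/
theorem survive_hole {x x' : ℤ × ℤ} {W k' : ℤ} (h : Hole k M e ω) (h'' : ω'' ⊆ BB (M - 1))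
    (hk' : 1 ≤ k') (hkk : k' + 3 ≤ k) (hA : A4 (BB M \ BB k) e ω)
    (hx : ExB (BB M \ BB k) e ω x) (hx' : ExB (BB M \ BB k) e ω x') (hxx : x ≠ x')
    (hs : (x.1 = 2 * k + 1 ∧ x'.1 = 2 * k + 1) ∨ (x.2 = 2 * k + 1 ∧ x'.2 = 2 * k + 1) ∨
      (x.1 = -(2 * k) ∧ x'.1 = -(2 * k)) ∨ (x.2 = -(2 * k) ∧ x'.2 = -(2 * k)))
    (hW : |x.1 - x'.1| ≤ W ∧ |x.2 - x'.2| ≤ W)
    (hA' : A4 (BB M \ BB k') e (mix (U4 (BB M \ BB k) e ω) ω ω'')) :
    (∃ p q : ℤ × ℤ, |2 * p.1 - x.1| ≤ W + 6 ∧ |2 * p.2 - x.2| ≤ W + 6 ∧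
      |q.1| ≤ k' ∧ |q.2| ≤ k' ∧ Co (ω'' ∩ (BB M \ BB k')) p q) ∨
    (∃ f g : ℤ × ℤ, |2 * f.1 - x.1| ≤ W + 6 ∧ |2 * f.2 - x.2| ≤ W + 6 ∧
      -k' ≤ g.1 ∧ g.1 ≤ k' + 1 ∧ -k' ≤ g.2 ∧ g.2 ≤ k' + 1 ∧
      Co (du (BB M \ BB k') ω'') f g) := by
  show Concl k' M (W + 6) x ω''
  have s : Sit k k' M e ω ω'' x x' := ⟨h, h'', hk', hkk, hA, hx, hx', hA'⟩
  have hW' : |1 - x.2 - (1 - x'.2)| ≤ W := by
    have e1 : 1 - x.2 - (1 - x'.2) = -(x.2 - x'.2) := by ring
    rw [e1, abs_neg]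
    exact hW.2
  have hW'' : |1 - x.1 - (1 - x'.1)| ≤ W := by
    have e1 : 1 - x.1 - (1 - x'.1) = -(x.1 - x'.1) := by ring
    rw [e1, abs_neg]
    exact hW.1
  rcases hs with ⟨s1, s2⟩ | ⟨s1, s2⟩ | ⟨s1, s2⟩ | ⟨s1, s2⟩
  · -- the right side: two rotations
    have g := surv_left (W := W) s.rot.rot (by unfold rotc; simp only; omega)
      (by unfold rotc; simp only; omega) (rotc_ne (rotc_ne hxx)) (by unfold rotc; exact hW')
    exact (concl_rot (concl_rot g)).mono (by omega)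
  · -- the top side: one rotation
    have g := surv_left (W := W) s.rot (by unfold rotc; simp only; omega)
      (by unfold rotc; simp only; omega) (rotc_ne hxx) (by unfold rotc; exact hW.1)
    exact (concl_rot g).mono (by omega)
  · exact (surv_left s s1 s2 hxx hW.2).mono (by omega)
  · -- the bottom side: three rotations
    have g := surv_left (W := W) s.rot.rot.rot (by unfold rotc; simp only; omega)
      (by unfold rotc; simp only; omega) (rotc_ne (rotc_ne (rotc_ne hxx)))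
      (by unfold rotc; exact hW'')
    exact (concl_rot (concl_rot (concl_rot g))).mono (by omega)

end

end Pool.Agent.H75.Four
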