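import Mathlib
import Pool.Agent.H75.Four.FOther

set_option autoImplicit false
open Finset

/-! FA9: duality transport. -/

namespace Pool.Agent.H75.Four

open Pool.Agent.H75.Perc
open Pool.Agent.H75.TwoArm

section dual

variable {B E ω ω'' U : Finset (ℤ × ℤ)} {c x z e : ℤ × ℤ}

/-- shift of corners by `(1,1)` (vertices and faces are exchanged) -/
def shc (c : ℤ × ℤ) : ℤ × ℤ := (c.1 + 1, c.2 + 1)

lemma lab_shc (c : ℤ × ℤ) : lab (shc c) = sh1 (plab c) ∧ plab (shc c) = sh1 (lab c) ∧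
    vx (shc c) = fi c ∧ fi (shc c) = vx c + (1, 1) := by
  obtain ⟨a, b⟩ := c
  unfold lab plab shc sh1 vx fi
  simp only [Function.Embedding.coeFn_mk]
  refine ⟨?_, ?_, ?_, ?_⟩
  · split_ifs <;> first | (exfalso; omega) | (refine Prod.ext ?_ ?_ <;> simp only <;> omega)
  · split_ifs <;> first | (exfalso; omega) | (refine Prod.ext ?_ ?_ <;> simp only <;> omega)
  · trivial
  · refine Prod.ext ?_ ?_ <;> simp only [Prod.fst_add, Prod.snd_add] <;> omega

namespace DualAux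

lemma shc_inj {a b : ℤ × ℤ} : shc a = shc b ↔ a = b := by
  obtain ⟨a1, a2⟩ := a
  obtain ⟨b1, b2⟩ := b
  unfold shc
  simp only [Prod.mk.injEq]
  omega

lemma shc_surj (a : ℤ × ℤ) : ∃ b, shc b = a := by
  refine ⟨(a.1 - 1, a.2 - 1), ?_⟩
  unfold shc
  refine Prod.ext ?_ ?_ <;> simp only <;> omega

lemma sh1_mem {a : ℤ × ℤ} : sh1 a ∈ B.map sh1 ↔ a ∈ B := mem_map' sh1

lemma sh1_mem_du {a : ℤ × ℤ} : sh1 a ∈ du E ω ↔ a ∈ E ∧ a ∉ ω := by
  unfold du
  rw [mem_map', mem_sdiff]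

lemma stepC (c : ℤ × ℤ) : (plab c ∈ ω → shc (pv ω c) = nxC (shc c)) ∧
    (plab c ∉ ω → shc (pv ω c) = nxO (shc c)) := by
  obtain ⟨a, b⟩ := c
  constructor
  · intro h
    unfold plab at h
    unfold pv nxC shc
    simp only at h ⊢
    split_ifs at h ⊢ <;> first
      | contradiction
      | (exfalso; omega)
      | (refine Prod.ext ?_ ?_ <;> simp only <;> omega)
  · intro h
    unfold plab at h
    unfold pv nxO shc
    simp only at h ⊢
    split_ifs at h ⊢ <;> first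
      | contradiction
      | (exfalso; omega)
      | (refine Prod.ext ?_ ?_ <;> simp only <;> omega)

lemma nx_shc (h : plab c ∈ E) : nx (du E ω) (shc c) = shc (pv ω c) := by
  unfold nx
  by_cases hw : plab c ∈ ω
  · rw [if_neg, (stepC c).1 hw]
    rw [(lab_shc c).1, sh1_mem_du]
    exact fun h' => h'.2 hw
  · rw [if_pos, (stepC c).2 hw]
    rw [(lab_shc c).1, sh1_mem_du]
    exact ⟨h, hw⟩

lemma pv_shc (h : lab c ∈ E) : pv (du E ω) (shc c) = shc (nx ω c) := by
  have h1 : nx (du E ω) (shc (nx ω c)) = shc c := by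
    rw [nx_shc (by rw [plab_nx]; exact h), pv_nx]
  rw [← h1, pv_nx]

lemma it_b (hBE : B ⊆ E) : ∀ j : ℕ, (∀ i < j, plab ((pv ω)^[i] c) ∈ B) →
    (nx (du E ω))^[j] (shc c) = shc ((pv ω)^[j] c) := by
  intro j
  induction j with
  | zero => intro _; rfl
  | succ j ih =>
    intro hj
    rw [Function.iterate_succ_apply', Function.iterate_succ_apply',
      ih (fun i hi => hj i (by omega)), nx_shc (hBE (hj j (by omega)))]

lemma it_b_iff (hBE : B ⊆ E) (j : ℕ) :
    (∀ i < j, lab ((nx (du E ω))^[i] (shc c)) ∈ B.map sh1) ↔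
      (∀ i < j, plab ((pv ω)^[i] c) ∈ B) := by
  constructor
  · induction j with
    | zero => intro _ i hi; exact absurd hi (Nat.not_lt_zero i)
    | succ j ih =>
      intro hj i hi
      have h1 := ih (fun i hi => hj i (by omega))
      rcases Nat.lt_succ_iff_lt_or_eq.1 hi with h3 | h3
      · exact h1 i h3
      · have h4 := hj j (by omega)
        rw [it_b hBE j h1, (lab_shc _).1, sh1_mem] at h4
        rw [h3]; exact h4
  · intro hj i hi
    rw [it_b hBE i (fun i' hi' => hj i' (by omega)), (lab_shc _).1, sh1_mem]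
    exact hj i hi

lemma it_f (hBE : B ⊆ E) : ∀ j : ℕ, (∀ i < j, lab ((nx ω)^[i] c) ∈ B) →
    (pv (du E ω))^[j] (shc c) = shc ((nx ω)^[j] c) := by
  intro j
  induction j with
  | zero => intro _; rfl
  | succ j ih =>
    intro hj
    rw [Function.iterate_succ_apply', Function.iterate_succ_apply',
      ih (fun i hi => hj i (by omega)), pv_shc (hBE (hj j (by omega)))]

lemma it_f_iff (hBE : B ⊆ E) (j : ℕ) :
    (∀ i < j, plab ((pv (du E ω))^[i] (shc c)) ∈ B.map sh1) ↔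
      (∀ i < j, lab ((nx ω)^[i] c) ∈ B) := by
  constructor
  · induction j with
    | zero => intro _ i hi; exact absurd hi (Nat.not_lt_zero i)
    | succ j ih =>
      intro hj i hi
      have h1 := ih (fun i hi => hj i (by omega))
      rcases Nat.lt_succ_iff_lt_or_eq.1 hi with h3 | h3
      · exact h1 i h3
      · have h4 := hj j (by omega)
        rw [it_f hBE j h1, (lab_shc _).2.1, sh1_mem] at h4
        rw [h3]; exact h4
  · intro hj i hi
    rw [it_f hBE i (fun i' hi' => hj i' (by omega)), (lab_shc _).2.1, sh1_mem]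
    exact hj i hi

end DualAux

open DualAux

lemma Str_sh (hBE : B ⊆ E) :
    Str (B.map sh1) (du E ω) (shc c) (shc z) ↔ Str B ω c z := by
  unfold Str
  rw [or_comm]
  apply or_congr
  · apply exists_congr
    intro j
    rw [it_f_iff hBE j]
    constructor
    · rintro ⟨h1, h2⟩
      rw [it_f hBE j h2, shc_inj] at h1
      exact ⟨h1, h2⟩
    · rintro ⟨h1, h2⟩
      exact ⟨by rw [it_f hBE j h2, h1], h2⟩
  · apply exists_congr
    intro j
    rw [it_b_iff hBE j]
    constructor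
    · rintro ⟨h1, h2⟩
      rw [it_b hBE j h2, shc_inj] at h1
      exact ⟨h1, h2⟩
    · rintro ⟨h1, h2⟩
      exact ⟨by rw [it_b hBE j h2, h1], h2⟩

lemma FX_sh (hBE : B ⊆ E) : FX (B.map sh1) (du E ω) (shc c) (shc x) ↔ BX B ω c x := by
  unfold FX BX
  apply exists_congr
  intro j
  rw [it_b_iff hBE j, (lab_shc x).1, sh1_mem]
  constructor
  · rintro ⟨h1, h0, h2⟩
    rw [it_b hBE j h2, shc_inj] at h1
    exact ⟨h1, h0, h2⟩
  · rintro ⟨h1, h0, h2⟩
    exact ⟨by rw [it_b hBE j h2, h1], h0, h2⟩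

lemma BX_sh (hBE : B ⊆ E) : BX (B.map sh1) (du E ω) (shc c) (shc x) ↔ FX B ω c x := by
  unfold FX BX
  apply exists_congr
  intro j
  rw [it_f_iff hBE j, (lab_shc x).2.1, sh1_mem]
  constructor
  · rintro ⟨h1, h0, h2⟩
    rw [it_f hBE j h2, shc_inj] at h1
    exact ⟨h1, h0, h2⟩
  · rintro ⟨h1, h0, h2⟩
    exact ⟨by rw [it_f hBE j h2, h1], h0, h2⟩

lemma UU_sh (hBE : B ⊆ E) : UU (B.map sh1) (du E ω) (shc c) = (UU B ω c).map sh1 := by
  ext a
  rw [StrandAux.mem_UU, mem_map, mem_map]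
  constructor
  · rintro ⟨⟨a', ha', rfl⟩, z', hz', hz2⟩
    obtain ⟨z, rfl⟩ := shc_surj z'
    rw [Str_sh hBE] at hz'
    rw [(lab_shc z).1, (lab_shc z).2.1, sh1.injective.eq_iff, sh1.injective.eq_iff] at hz2
    exact ⟨a', StrandAux.mem_UU.2 ⟨ha', z, hz', hz2.symm⟩, rfl⟩
  · rintro ⟨a', ha', rfl⟩
    obtain ⟨h1, z, h2, h3⟩ := StrandAux.mem_UU.1 ha'
    refine ⟨⟨a', h1, rfl⟩, shc z, (Str_sh hBE).2 h2, ?_⟩
    rw [(lab_shc z).1, (lab_shc z).2.1, sh1.injective.eq_iff, sh1.injective.eq_iff]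
    exact h3.symm

lemma du_erase (he : e ∈ E) : (du E ω).erase (sh1 e) = du E (insert e ω) ∧
    insert (sh1 e) (du E ω) = du E (ω.erase e) := by
  constructor
  · ext a
    rw [mem_erase]
    unfold du
    simp only [mem_map, mem_sdiff, mem_insert]
    constructor
    · rintro ⟨h1, b, ⟨h2, h3⟩, rfl⟩
      refine ⟨b, ⟨h2, ?_⟩, rfl⟩
      rintro (h4 | h4)
      · exact h1 (by rw [h4])
      · exact h3 h4
    · rintro ⟨b, ⟨h2, h3⟩, rfl⟩
      push Not at h3
      exact ⟨fun h4 => h3.1 (sh1.injective h4), b, ⟨h2, h3.2⟩, rfl⟩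
  · ext a
    rw [mem_insert]
    unfold du
    simp only [mem_map, mem_sdiff, mem_erase]
    constructor
    · rintro (h1 | ⟨b, ⟨h2, h3⟩, rfl⟩)
      · exact ⟨e, ⟨he, fun h4 => h4.1 rfl⟩, h1.symm⟩
      · exact ⟨b, ⟨h2, fun h4 => h3 h4.2⟩, rfl⟩
    · rintro ⟨b, ⟨h2, h3⟩, rfl⟩
      by_cases hb : b = e
      · left; rw [hb]
      · exact Or.inr ⟨b, ⟨h2, fun h4 => h3 ⟨hb, h4⟩⟩, rfl⟩

namespace DualAux

lemma leave_nx (h : lab c ∈ B) : Leave B ω (nx ω c) ↔ Leave B ω c := by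
  constructor
  · rintro ⟨j, hj⟩
    exact ⟨j + 1, by rw [Function.iterate_succ_apply]; exact hj⟩
  · rintro ⟨j, hj⟩
    rcases j with _ | j
    · exact absurd h hj
    · exact ⟨j, by rw [Function.iterate_succ_apply] at hj; exact hj⟩

lemma Str_tr {a b d : ℤ × ℤ} (h1 : Str B ω a b) (h2 : Str B ω b d) : Str B ω a d := by
  by_contra hn
  exact Str_disj hn h1 (Str_symm h2)

lemma Str_nx_left (h : lab c ∈ B) : Str B ω (nx ω c) z ↔ Str B ω c z := by
  have h1 : Str B ω c (nx ω c) := by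
    refine Or.inl ⟨1, rfl, fun i hi => ?_⟩
    have : i = 0 := by omega
    subst this
    exact h
  exact ⟨fun h2 => Str_tr h1 h2, fun h2 => Str_tr (Str_symm h1) h2⟩

lemma Str_nx_right (h : lab z ∈ B) : Str B ω c (nx ω z) ↔ Str B ω c z := by
  constructor
  · intro h1
    exact Str_symm ((Str_nx_left h).1 (Str_symm h1))
  · intro h1
    exact Str_symm ((Str_nx_left h).2 (Str_symm h1))

lemma UU_nx (h : lab c ∈ B) : UU B ω (nx ω c) = UU B ω c := by
  ext a
  rw [StrandAux.mem_UU, StrandAux.mem_UU]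
  simp only [Str_nx_left h]

lemma leave_sh (hBE : B ⊆ E) : Leave (B.map sh1) (du E ω) (shc c) ↔ Leave B ω c := by
  constructor
  · intro h
    obtain ⟨-, x', hx'⟩ := leave_exits h
    obtain ⟨x, rfl⟩ := shc_surj x'
    rw [BX_sh hBE] at hx'
    exact (StrandAux.leave_iff B ω c).2 ⟨x, hx'⟩
  · intro h
    obtain ⟨-, x, hx⟩ := leave_exits h
    exact (StrandAux.leave_iff _ _ _).2 ⟨shc x, (FX_sh hBE).2 hx⟩

/-- the two corners at the dual edge -/
lemma z_cases (he : (e.1 + e.2) % 2 = 1) (ω : Finset (ℤ × ℤ)) :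
    (lab (zu e) = e ∧ lab (zv e) = e) ∧
    ((zu (sh1 e) = shc (nx (insert e ω) (zu e)) ∧ zv (sh1 e) = shc (nx (insert e ω) (zv e))) ∨
    (zu (sh1 e) = shc (nx (insert e ω) (zv e)) ∧ zv (sh1 e) = shc (nx (insert e ω) (zu e)))) := by
  obtain ⟨a, b⟩ := e
  simp only at he
  have hl : lab (zu (a, b)) = (a, b) ∧ lab (zv (a, b)) = (a, b) := by
    unfold zu zv lab
    simp only
    constructor
    · split_ifs <;> first
        | (exfalso; omega)
        | (refine Prod.ext ?_ ?_ <;> simp only <;> omega)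
    · split_ifs <;> first
        | (exfalso; omega)
        | (refine Prod.ext ?_ ?_ <;> simp only <;> omega)
  refine ⟨hl, ?_⟩
  have h1 : nx (insert (a, b) ω) (zu (a, b)) = nxO (zu (a, b)) := by
    unfold nx
    rw [hl.1, if_pos (mem_insert_self _ _)]
  have h2 : nx (insert (a, b) ω) (zv (a, b)) = nxO (zv (a, b)) := by
    unfold nx
    rw [hl.2, if_pos (mem_insert_self _ _)]
  rw [h1, h2]
  by_cases ha : a % 2 = 0
  · right
    unfold zu zv shc nxO sh1
    simp only [Function.Embedding.coeFn_mk]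
    constructor
    · split_ifs <;> first
        | (exfalso; omega)
        | (refine Prod.ext ?_ ?_ <;> simp only <;> omega)
        | (refine Prod.ext ?_ ?_ <;> simp only)
    · split_ifs <;> first
        | (exfalso; omega)
        | (refine Prod.ext ?_ ?_ <;> simp only <;> omega)
        | (refine Prod.ext ?_ ?_ <;> simp only)
  · left
    unfold zu zv shc nxO sh1
    simp only [Function.Embedding.coeFn_mk]
    constructor
    · split_ifs <;> first
        | (exfalso; omega)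
        | (refine Prod.ext ?_ ?_ <;> simp only <;> omega)
    · split_ifs <;> first
        | (exfalso; omega)
        | (refine Prod.ext ?_ ?_ <;> simp only <;> omega)

end DualAux

theorem A4_sh (he : (e.1 + e.2) % 2 = 1) (heB : e ∈ B) (hBE : B ⊆ E) :
    A4 (B.map sh1) (sh1 e) (du E ω) ↔ A4 B e ω := by
  rw [A4_insert he heB]
  unfold A4
  rw [(du_erase (hBE heB)).1]
  obtain ⟨⟨hu, hv⟩, hz⟩ := z_cases he ω
  have huB : lab (zu e) ∈ B := by rw [hu]; exact heB
  have hvB : lab (zv e) ∈ B := by rw [hv]; exact heB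
  rcases hz with ⟨h1, h2⟩ | ⟨h1, h2⟩
  · rw [h1, h2, leave_sh hBE, leave_sh hBE, Str_sh hBE, leave_nx huB, leave_nx hvB,
      Str_nx_left huB, Str_nx_right hvB]
  · rw [h1, h2, leave_sh hBE, leave_sh hBE, Str_sh hBE, leave_nx huB, leave_nx hvB,
      Str_nx_left hvB, Str_nx_right huB]
    constructor
    · rintro ⟨h3, h4, h5⟩
      exact ⟨h4, h3, fun h6 => h5 (Str_symm h6)⟩
    · rintro ⟨h3, h4, h5⟩
      exact ⟨h4, h3, fun h6 => h5 (Str_symm h6)⟩

theorem U4_sh (he : (e.1 + e.2) % 2 = 1) (heB : e ∈ B) (hBE : B ⊆ E) (hA : A4 B e ω) :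
    U4 (B.map sh1) (sh1 e) (du E ω) = (U4 B e ω).map sh1 := by
  rw [U4_insert he heB hA]
  unfold U4
  rw [(du_erase (hBE heB)).1, map_union]
  obtain ⟨⟨hu, hv⟩, hz⟩ := z_cases he ω
  have huB : lab (zu e) ∈ B := by rw [hu]; exact heB
  have hvB : lab (zv e) ∈ B := by rw [hv]; exact heB
  rcases hz with ⟨h1, h2⟩ | ⟨h1, h2⟩
  · rw [h1, h2, UU_sh hBE, UU_sh hBE, UU_nx huB, UU_nx hvB]
  · rw [h1, h2, UU_sh hBE, UU_sh hBE, UU_nx huB, UU_nx hvB, union_comm]

lemma du_mix (_hU : U ⊆ E) : du E (mix U ω ω'') = mix (U.map sh1) (du E ω) (du E ω'') := by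
  ext a
  rw [mem_mix]
  by_cases ha : ∃ b, sh1 b = a
  · obtain ⟨b, rfl⟩ := ha
    rw [sh1_mem_du, sh1_mem_du, sh1_mem_du, sh1_mem, mem_mix]
    tauto
  · have h1 : ∀ X : Finset (ℤ × ℤ), a ∉ X.map sh1 := by
      intro X hX
      obtain ⟨b, -, hb⟩ := mem_map.1 hX
      exact ha ⟨b, hb⟩
    unfold du
    constructor
    · intro h; exact absurd h (h1 _)
    · rintro (⟨h, -⟩ | ⟨h, -⟩)
      · exact absurd h (h1 _)
      · exact absurd h (h1 _)

end dual

end Pool.Agent.H75.Four
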